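import Pool.Agent.HG13.Rep

set_option linter.all false

namespace Pool.Agent.LJ

open Pool.Agent.HG13

/-- The planar relations: those of `Rels` without the loops, and three more (`LB1`, the star
relation, `T s s = 1`). -/
structure PR {g n : ℕ} {G : Type*} [Group G] (S : Tw g n G) : Prop where
  TT : ∀ s t s' t', s < t → t ≤ 2 * g + n → s' < t' → t' ≤ 2 * g + n →
    (t ≤ s' ∨ (s ≤ s' ∧ t' ≤ t)) → Commute (S.T s t) (S.T s' t')
  TB : ∀ s t i, s < t → t ≤ 2 * g + n → i < g →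
    (2 * i + 2 ≤ s ∨ t ≤ 2 * i ∨ (s ≤ 2 * i ∧ 2 * i + 2 ≤ t)) → Commute (S.T s t) (S.B i)
  BB : ∀ i j, i < g → j < g → Commute (S.B i) (S.B j)
  TBs : ∀ i t, i < g → 2 * i + 1 < t → t ≤ 2 * g + n → Brd (S.T (2 * i + 1) t) (S.B i)
  TBe : ∀ i s, i < g → s < 2 * i + 1 → Brd (S.T s (2 * i + 1)) (S.B i)
  aa : ∀ i, i < g → S.T (2 * i) (2 * i + 1) = S.T (2 * i + 1) (2 * i + 2)
  LB : ∀ s t u i, s < t → t < u → u < 2 * i + 1 → i < g → Brd (S.L s t u (2 * i + 1)) (S.B i)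
  LB1 : ∀ s i u w, s < 2 * i + 1 → 2 * i + 1 < u → u < w → w ≤ 2 * g + n → i < g →
    Brd (S.L s (2 * i + 1) u w) (S.B i)
  LB2 : ∀ s t i w, s < t → t < 2 * i + 1 → 2 * i + 1 < w → w ≤ 2 * g + n → i < g →
    Brd (S.L s t (2 * i + 1) w) (S.B i)
  LB3 : ∀ i t u w, i < g → 2 * i + 1 < t → t < u → u < w → w ≤ 2 * g + n →
    Brd (S.L (2 * i + 1) t u w) (S.B i)
  T0 : ∀ s, S.T s s = 1
  star : ∀ k s w, k < g → s ≤ 2 * k → 2 * k + 2 ≤ w → w ≤ 2 * g + n →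
    (S.T s (2 * k + 1) * S.T (2 * k) (2 * k + 1) * S.T (2 * k + 1) w * S.B k) ^ 3 =
      S.T s (2 * k) * S.T (2 * k + 2) w * S.T s w

variable {g n : ℕ} {G : Type*} [Group G] {V : Type*} [AddCommGroup V] [Module ℂ V]

/-- Slot vectors: `v ∈ 𝒦_A`. Fixed by all `T s t`, by the `B r` with `r ∉ A`, and
`(L_q)`: `a_q B_q v = B_q v - v` for `q ∈ A`. -/
structure KA (S : Tw g n G) (ρ : G →* Module.End ℂ V) (A : Finset ℕ) (v : V) : Prop where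
  sub : ∀ q ∈ A, q < g
  T : ∀ s t, s < t → t ≤ 2 * g + n → ρ (S.T s t) v = v
  B : ∀ r, r < g → r ∉ A → ρ (S.B r) v = v
  L : ∀ q ∈ A, ρ (S.T (2 * q) (2 * q + 1)) (ρ (S.B q) v) = ρ (S.B q) v - v

/-- There are no slot vectors with fewer than `j` slots. -/
def Mn (S : Tw g n G) (ρ : G →* Module.End ℂ V) (j : ℕ) : Prop :=
  ∀ A : Finset ℕ, A.card < j → ∀ v, KA S ρ A v → v = 0

/-- The curve `x_(l,y)` which crosses exactly `b_l` and `b_y`. -/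
def xc (S : Tw g n G) (l y : ℕ) : G :=
  if l < y then S.T (2 * l + 1) (2 * y + 1) else S.T (2 * y + 1) (2 * l + 1)

/-- The transport `v_(l → y) = (x - 1) (B_l - 1) v + v`, `x = x_(l,y)`. -/
def tr (S : Tw g n G) (ρ : G →* Module.End ℂ V) (l y : ℕ) (v : V) : V :=
  ρ (xc S l y) (ρ (S.B l) v - v) - (ρ (S.B l) v - v) + v

/-- The slot set `A - l + y`. -/
def mv (A : Finset ℕ) (l y : ℕ) : Finset ℕ := insert y (A.erase l)

theorem mv_card {A : Finset ℕ} {l y : ℕ} (hl : l ∈ A) (hy : y ∉ A) : (mv A l y).card = A.card := by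
  unfold mv
  rw [Finset.card_insert_of_notMem (fun h => hy (Finset.mem_of_mem_erase h)),
    Finset.card_erase_of_mem hl]
  have : 0 < A.card := Finset.card_pos.mpr ⟨l, hl⟩
  omega

/-- The chain curves `t_1, ..., t_(2g)`: `t_1 = T 0 1`, `t_(2i+2) = B i`,
`t_(2i+3) = T (2i+1) (2i+3)`. -/
def tc (S : Tw g n G) (m : ℕ) : G :=
  if m % 2 = 1 then S.T (if m = 1 then 0 else m - 2) m else S.B (m / 2 - 1)

/-- The group generated by `t_1, ..., t_(2h)`. -/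
def Bh (S : Tw g n G) (h : ℕ) : Subgroup G := Subgroup.closure {x | ∃ m, 1 ≤ m ∧ m ≤ 2 * h ∧ x = tc S m}

/-- The genus one bounding pair map `T 2 3 (T 0 3)⁻¹`. -/
def BP (S : Tw g n G) : G := S.T 2 3 * (S.T 0 3)⁻¹

/-- The push of the block `[u,w)` around `[s,u)`: `p_s = T s w (T s u)⁻¹ (T u w)⁻¹`. -/
def ps (S : Tw g n G) (u w s : ℕ) : G := S.T s w * (S.T s u)⁻¹ * (S.T u w)⁻¹

/-- The left end of the interval of the chain curve `t_m`, `m` odd. -/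
def lo (m : ℕ) : ℕ := if m = 1 then 0 else m - 2

/-- The push `d_m` of the block `[u,w)` along the chain curve `t_m`: `p_m⁻¹ p_lo (T u w)` for `m`
odd, `p_(2i+1)⁻¹ B_i p_(2i+1) B_i⁻¹` for `m = 2i+2`. -/
def dl (S : Tw g n G) (u w m : ℕ) : G :=
  if m % 2 = 1 then (ps S u w m)⁻¹ * ps S u w (lo m) * S.T u w
  else (ps S u w (m - 1))⁻¹ * S.B (m / 2 - 1) * ps S u w (m - 1) * (S.B (m / 2 - 1))⁻¹

/-- The transport `R_(y,e)` from the slot `e` to the slot `y < e`. -/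
def Rt (S : Tw g n G) (y e : ℕ) : G :=
  S.B e * (S.T (2 * y + 1) (2 * e + 1) * (S.T (2 * y + 1) (2 * e))⁻¹ *
    (S.T (2 * e) (2 * e + 1))⁻¹)⁻¹ * (S.B e)⁻¹ * (S.T (2 * y + 1) (2 * e + 1) *
    (S.T (2 * y + 1) (2 * e))⁻¹ * (S.T (2 * e) (2 * e + 1))⁻¹)

end Pool.Agent.LJ
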