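import Pool.Agent.LJ.Defs
import Pool.Agent.QR80.Star

set_option linter.all false

namespace Pool.Agent.LJ

open Pool.Agent.HG13

variable {g n : ℕ}

private theorem SY_y (w : MulAut (Fr g n)) (v : ℕ → Fr g n) (hw : ∀ x, w x = cj v x) (i : ℕ)
    (hi : i < g) : w (gen (2 * i + 1)) = v (2 * i) * gen (2 * i + 1) * (v (2 * i + 1))⁻¹ := by
  rw [hw, cj_gen_odd v (by omega) (by omega)]
  rfl

private theorem SY_other (w : MulAut (Fr g n)) (v : ℕ → Fr g n) (hw : ∀ x, w x = cj v x) (i : ℕ)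
    (hu : ∀ c, c ≠ 2 * i → c ≠ 2 * i + 1 → w (Bt i (v c)) * v c = Bt i (v c)) (c : ℕ)
    (h0 : c ≠ 2 * i) (h1 : c ≠ 2 * i + 1) :
    w (Bt i (w (gen c))) = Bt i (w (Bt i (gen c))) := by
  rw [Bt_ne i c h0]
  by_cases h : c < 2 * g ∧ c % 2 = 1
  · have h4 : w (gen c) = v (c - 1) * gen c * (v c)⁻¹ := by rw [hw, cj_gen_odd v h.1 h.2]
    have u1 := hu c h0 h1
    have u2 := hu (c - 1) (by omega) (by omega)
    rw [h4]
    simp only [map_mul, map_inv, Bt_ne i c h0, h4]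
    have e : w (Bt i (v (c - 1))) * (v (c - 1) * gen c * (v c)⁻¹) * (w (Bt i (v c)))⁻¹ =
        (w (Bt i (v (c - 1))) * v (c - 1)) * gen c * (w (Bt i (v c)) * v c)⁻¹ := by group
    rw [e, u1, u2]
  · have h4 : w (gen c) = v c * gen c * (v c)⁻¹ := by rw [hw, cj_gen v h]
    have u1 := hu c h0 h1
    rw [h4]
    simp only [map_mul, map_inv, Bt_ne i c h0, h4]
    have e : w (Bt i (v c)) * (v c * gen c * (v c)⁻¹) * (w (Bt i (v c)))⁻¹ =
        (w (Bt i (v c)) * v c) * gen c * (w (Bt i (v c)) * v c)⁻¹ := by group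
    rw [e, u1]

private theorem SY_core (W : MulAut (Fr g n)) (v : ℕ → Fr g n) (hw : ∀ x, W x = cj v x) (i : ℕ)
    (hi : i < g) (P R : Fr g n)
    (hv : ∀ c, c ≠ 2 * i → c ≠ 2 * i + 1 → v c = P * R ∨ v c = P * R * P⁻¹ * R⁻¹ ∨ v c = 1)
    (v0 : v (2 * i) = P * R) (v1 : v (2 * i + 1) = P * R * P⁻¹ * R⁻¹)
    (wP : W P = (P * R) * P * (P * R)⁻¹) (wR : W R = (P * R) * R * (P * R)⁻¹)
    (bP : Bt i P = P * (gen (2 * i + 1))⁻¹) (bR : Bt i R = R) : Brd W (Bt i) := by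
  have wy := SY_y W v hw i hi
  rw [v0, v1] at wy
  have wx : W (gen (2 * i) : Fr g n) = (P * R) * gen (2 * i) * (P * R)⁻¹ := by
    rw [hw, cj_gen _ (by omega), v0]
  have bx := Bt_x (n := n) i hi
  have by' := Bt_ne (g := g) (n := n) i (2 * i + 1) (by omega)
  refine aut_ext _ _ fun c hc => ?_
  rw [MulAut.mul_apply, MulAut.mul_apply, MulAut.mul_apply, MulAut.mul_apply]
  by_cases c0 : c = 2 * i
  · subst c0
    simp only [map_mul, map_inv, bP, bR, wP, wR, wy, wx, bx, by']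
    group
  · by_cases c1 : c = 2 * i + 1
    · subst c1
      simp only [map_mul, map_inv, bP, bR, wP, wR, wy, wx, bx, by']
      group
    · refine SY_other W v hw i (fun c k0 k1 => ?_) c c0 c1
      rcases hv c k0 k1 with h | h | h
      · rw [h]
        simp only [map_mul, map_inv, bP, bR, wP, wR, wy, wx, bx, by']
        group
      · rw [h]
        simp only [map_mul, map_inv, bP, bR, wP, wR, wy, wx, bx, by']
        group
      · rw [h]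
        simp only [map_one, mul_one]

/-- The other middle type of lantern: the first block ends at the foot `2i`, the middle block
starts at the foot `2i+1`. -/
theorem LP_braid4 (s i u w : ℕ) (h1 : s < 2 * i + 1) (h2 : 2 * i + 1 < u) (h3 : u < w)
    (h4 : w ≤ 2 * g + n) (hi : i < g) : Brd (LP s (2 * i + 1) u w : MulAut (Fr g n)) (Bt i) := by
  refine SY_core (LP s (2 * i + 1) u w) _ (LP_apply (g := g) (n := n) s (2 * i + 1) u w h1 h2 h3
    h4) i hi (Alp s (2 * i + 1)) (Alp u w) (fun c _ _ => ?_) ?_ ?_ ?_ ?_ ?_ ?_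
  · by_cases k1 : (s ≤ c ∧ c < 2 * i + 1) ∨ (u ≤ c ∧ c < w)
    · left
      rw [if_pos k1]
    · by_cases k2 : 2 * i + 1 ≤ c ∧ c < u
      · right
        left
        rw [if_neg k1, if_pos k2]
      · right
        right
        rw [if_neg k1, if_neg k2]
  · rw [if_pos (Or.inl (by omega))]
  · rw [if_neg (by omega), if_pos (by omega)]
  · rw [LP_apply (g := g) (n := n) s (2 * i + 1) u w h1 h2 h3 h4]
    exact cj_Alp_in _ s (2 * i + 1) _ fun c k1 k2 => by rw [if_pos (Or.inl ⟨k1, k2⟩)]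
  · rw [LP_apply (g := g) (n := n) s (2 * i + 1) u w h1 h2 h3 h4]
    exact cj_Alp_in _ u w _ fun c k1 k2 => by rw [if_pos (Or.inr ⟨k1, k2⟩)]
  · exact (Bt_Alp (n := n) i hi s (2 * i + 1) h1).2.1 rfl
  · exact (Bt_Alp (n := n) i hi u w h3).1 (Or.inl (by omega))

private theorem SY_brd {Γ : Subgroup (MulAut (Fr g n))} {a b : Γ}
    (h : Brd (a : MulAut (Fr g n)) b) :
    Brd (SemidirectProduct.inr a : MG g n Γ) (SemidirectProduct.inr b) := by
  have h1 : a * b * a = b * a * b := Subtype.ext h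
  unfold Brd
  rw [← map_mul, ← map_mul, h1, map_mul, map_mul]

private theorem SY_T {Γ : Subgroup (MulAut (Fr g n))} (hΓ : twists g n ⊆ Γ) {s t : ℕ}
    (h1 : s < t) (h2 : t ≤ 2 * g + n) : ∃ h : TP s t ∈ Γ,
    (sys g n Γ).T s t = SemidirectProduct.inr ⟨TP s t, h⟩ := by
  have h : TP s t ∈ Γ := hΓ (Or.inr ⟨s, t, h1, h2, rfl⟩)
  exact ⟨h, dif_pos h⟩

private theorem SY_T' {Γ : Subgroup (MulAut (Fr g n))} (hΓ : twists g n ⊆ Γ) {s t : ℕ}
    (h1 : s ≤ t) (h2 : t ≤ 2 * g + n) : ∃ h : TP s t ∈ Γ,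
    (sys g n Γ).T s t = SemidirectProduct.inr ⟨TP s t, h⟩ := by
  rcases h1.eq_or_lt with h1 | h1
  · have h : TP s t ∈ Γ := by
      rw [h1, QR80.TP_self]
      exact Γ.one_mem
    exact ⟨h, dif_pos h⟩
  · exact SY_T hΓ h1 h2

private theorem SY_B {Γ : Subgroup (MulAut (Fr g n))} (hΓ : twists g n ⊆ Γ) {i : ℕ}
    (hi : i < g) : ∃ h : Bt i ∈ Γ, (sys g n Γ).B i = SemidirectProduct.inr ⟨Bt i, h⟩ := by
  have h : Bt i ∈ Γ := hΓ (Or.inl ⟨i, hi, rfl⟩)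
  exact ⟨h, dif_pos h⟩

private theorem SY_L {Γ : Subgroup (MulAut (Fr g n))} (hΓ : twists g n ⊆ Γ) {s t u w : ℕ}
    (h1 : s < t) (h2 : t < u) (h3 : u < w) (h4 : w ≤ 2 * g + n) : ∃ a : Γ,
    (a : MulAut (Fr g n)) = LP s t u w ∧ (sys g n Γ).L s t u w = SemidirectProduct.inr a := by
  obtain ⟨k1, e1⟩ := SY_T hΓ (s := t) (t := w) (by omega) h4
  obtain ⟨k2, e2⟩ := SY_T hΓ (s := s) (t := u) (by omega) (by omega)
  obtain ⟨k3, e3⟩ := SY_T hΓ (s := s) (t := w) (by omega) h4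
  obtain ⟨k4, e4⟩ := SY_T hΓ (s := s) (t := t) h1 (by omega)
  obtain ⟨k5, e5⟩ := SY_T hΓ (s := t) (t := u) h2 (by omega)
  obtain ⟨k6, e6⟩ := SY_T hΓ (s := u) (t := w) h3 h4
  refine ⟨(⟨TP t w, k1⟩ : Γ)⁻¹ * (⟨TP s u, k2⟩ : Γ)⁻¹ * ⟨TP s w, k3⟩ * ⟨TP s t, k4⟩ *
    ⟨TP t u, k5⟩ * ⟨TP u w, k6⟩, ?_, ?_⟩
  · unfold LP
    rw [Subgroup.coe_mul, Subgroup.coe_mul, Subgroup.coe_mul, Subgroup.coe_mul, Subgroup.coe_mul,
      Subgroup.coe_inv, Subgroup.coe_inv]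
  · unfold Tw.L
    rw [e1, e2, e3, e4, e5, e6, map_mul, map_mul, map_mul, map_mul, map_mul, map_inv, map_inv]

/-- THE PLANAR RELATIONS HOLD in `F ⋊ Γ`. -/
theorem pr_sys (Γ : Subgroup (MulAut (Fr g n))) (hΓ : twists g n ⊆ Γ) : PR (sys g n Γ) where
  TT := (sys_rels Γ hΓ).TT
  TB := (sys_rels Γ hΓ).TB
  BB := (sys_rels Γ hΓ).BB
  TBs := (sys_rels Γ hΓ).TBs
  TBe := (sys_rels Γ hΓ).TBe
  aa := (sys_rels Γ hΓ).aa
  LB := (sys_rels Γ hΓ).LB
  LB1 := by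
    intro s i u w h1 h2 h3 h4 hi
    obtain ⟨a, k1, e1⟩ := SY_L hΓ (s := s) (t := 2 * i + 1) (u := u) (w := w) h1 h2 h3 h4
    obtain ⟨k2, e2⟩ := SY_B hΓ hi
    rw [e1, e2]
    refine SY_brd ?_
    rw [k1]
    exact LP_braid4 s i u w h1 h2 h3 h4 hi
  LB2 := (sys_rels Γ hΓ).LB2
  LB3 := (sys_rels Γ hΓ).LB3
  T0 := by
    intro s
    have h : TP s s ∈ Γ := by
      rw [QR80.TP_self]
      exact Γ.one_mem
    have e : (sys g n Γ).T s s = SemidirectProduct.inr ⟨TP s s, h⟩ := dif_pos h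
    rw [e]
    have e1 : (⟨TP s s, h⟩ : Γ) = 1 := Subtype.ext (QR80.TP_self s)
    rw [e1, map_one]
  star := by
    intro k s w hk hs hw hw'
    obtain ⟨k1, e1⟩ := SY_T hΓ (s := s) (t := 2 * k + 1) (by omega) (by omega)
    obtain ⟨k2, e2⟩ := SY_T hΓ (s := 2 * k) (t := 2 * k + 1) (by omega) (by omega)
    obtain ⟨k3, e3⟩ := SY_T hΓ (s := 2 * k + 1) (t := w) (by omega) (by omega)
    obtain ⟨k4, e4⟩ := SY_B hΓ hk
    obtain ⟨k5, e5⟩ := SY_T' hΓ (s := s) (t := 2 * k) hs (by omega)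
    obtain ⟨k6, e6⟩ := SY_T' hΓ (s := 2 * k + 2) (t := w) hw (by omega)
    obtain ⟨k7, e7⟩ := SY_T hΓ (s := s) (t := w) (by omega) (by omega)
    rw [e1, e2, e3, e4, e5, e6, e7, ← map_mul, ← map_mul, ← map_mul, ← map_pow, ← map_mul,
      ← map_mul]
    congr 1
    exact Subtype.ext (QR80.star1 k s w hk hs hw hw')

end Pool.Agent.LJ
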