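import Pool.Agent.LJ.Basic

set_option linter.all false

namespace Pool.Agent.LJ

open Pool.Agent.HG13

variable {g n : ℕ} {G : Type*} [Group G] {V : Type*} [AddCommGroup V] [Module ℂ V]

theorem EIJ_empty (S : Tw g n G) (ρ : G →* Module.End ℂ V) (m : ℕ) (J : Finset ℕ) :
    EIJ S ρ m ∅ J = NJ S ρ m J := by
  apply pr_congr
  intro q hq
  simp

/-- Step 4 of the high genus theorem, with fewer than `m` slots. -/
theorem step4' (S : Tw g n G) (hS : Rels S) (m : ℕ) (hg : 2 * m + 2 ≤ g) [FiniteDimensional ℂ V]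
    [Nontrivial V] (ρ : G →* Module.End ℂ V) (hV : Module.finrank ℂ V < 4 ^ m) :
    ∃ J ⊆ Finset.range m, J.card < m ∧ ∃ v : V, v ≠ 0 ∧ KJ S ρ m J v := by
  classical
  obtain ⟨j0, ⟨J0, hJ0s, hJ0c, hJ0n⟩, hall⟩ := step2 S hS m hg ρ hV
  have hj0 : j0 < m := by
    have h1 := Finset.card_le_card hJ0s
    rw [Finset.card_range] at h1
    rcases Nat.lt_or_ge j0 m with h2 | h2
    · exact h2
    · exfalso
      have h3 : J0 = Finset.range m :=
        Finset.eq_of_subset_of_card_le hJ0s (by rw [Finset.card_range]; omega)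
      apply hJ0n
      rw [h3, (NJ_facts S hS m hg ρ).2.2.2.2, step1 S hS m hg ρ hV]
  have hF := lemF S hS m hg ρ j0 hall
  let P : Finset (Finset ℕ × Finset ℕ) :=
    ((Finset.range m).powerset ×ˢ (Finset.range m).powerset).filter
      (fun p => Disjoint p.1 p.2 ∧ p.1.card + p.2.card = j0 ∧ EIJ S ρ m p.1 p.2 ≠ 0)
  have hP : P.Nonempty := by
    refine ⟨(∅, J0), ?_⟩
    simp only [P, Finset.mem_filter, Finset.mem_product, Finset.mem_powerset]
    refine ⟨⟨Finset.empty_subset _, hJ0s⟩, Finset.disjoint_empty_left _, by simpa using hJ0c, ?_⟩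
    rw [EIJ_empty]
    exact hJ0n
  obtain ⟨⟨I, J⟩, hIJ, hmax⟩ := Finset.exists_max_image P (fun p => p.1.card) hP
  simp only [P, Finset.mem_filter, Finset.mem_product, Finset.mem_powerset] at hIJ hmax
  obtain ⟨⟨hI, hJ⟩, hd, hc, hne⟩ := hIJ
  have hw : ∃ w, EIJ S ρ m I J w ≠ 0 := by
    by_contra hcon
    push Not at hcon
    exact hne (LinearMap.ext hcon)
  obtain ⟨w, hw⟩ := hw
  have hle : ∀ x, x ∈ Fix ρ {EIJ S ρ m I J} → x ∈ Stab ρ (EIJ S ρ m I J w) := by
    intro x hx
    have h1 := hx _ rfl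
    have h2 := congrArg (fun f : Module.End ℂ V => f w) h1
    exact h2
  have hH := hF I J hI hJ hd hc
  refine ⟨J, hJ, by omega, EIJ S ρ m I J w, hw, ?_, ?_⟩
  · exact ⟨fun j hj => hle _ (hH.a j hj), fun j hj hjJ => hle _ (hH.b j hj hjJ),
      fun j hj => hle _ (hH.e j hj), fun q hq => hle _ (hH.q q hq),
      fun q hq => hle _ (hH.q' q hq), fun q hq => hle _ (hH.r q hq),
      fun k hk => hle _ (hH.f k hk), hle _ hH.p⟩
  · intro q hq
    have hqm : q < m := Finset.mem_range.mp (hJ hq)
    have hqI : q ∉ I := fun h => (Finset.disjoint_left.mp hd) h hq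
    obtain ⟨hMN, hMB, hE1, hE2, _⟩ :=
      EIJ_facts S hS m hg ρ I (J.erase q) q hqm hqI (Finset.notMem_erase q J)
    rw [Finset.insert_erase hq] at hE1
    have hz : EIJ S ρ m (insert q I) (J.erase q) = 0 := by
      by_contra hcon
      have hd' : Disjoint (insert q I) (J.erase q) := by
        rw [Finset.disjoint_insert_left]
        exact ⟨Finset.notMem_erase q J,
          Finset.disjoint_of_subset_right (Finset.erase_subset q J) hd⟩
      have hI' : insert q I ⊆ Finset.range m := by
        intro x hx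
        rcases Finset.mem_insert.mp hx with rfl | hx
        · exact Finset.mem_range.mpr hqm
        · exact hI hx
      have hJ' : J.erase q ⊆ Finset.range m := fun x hx => hJ (Finset.mem_of_mem_erase hx)
      have hcard : (insert q I).card + (J.erase q).card = j0 := by
        rw [Finset.card_insert_of_notMem hqI, Finset.card_erase_of_mem hq]
        have : 0 < J.card := Finset.card_pos.mpr ⟨q, hq⟩
        omega
      have h1 := hmax (insert q I, J.erase q) ⟨⟨hI', hJ'⟩, hd', hcard, hcon⟩
      simp only at h1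
      rw [Finset.card_insert_of_notMem hqI] at h1
      omega
    rw [hE2] at hz
    set M := EIJ S ρ m I (J.erase q) with hM
    have hv : EIJ S ρ m I J w = M (Nq S ρ q w) := by rw [hE1]; rfl
    have hz' : M * Nq S ρ q + Nq S ρ q * (Bq S ρ q * (M * Nq S ρ q)) = 0 := by
      have h1 : M * tq S ρ q = M * Nq S ρ q + (M * Nq S ρ q) * Bq S ρ q * Nq S ρ q := by
        unfold tq; noncomm_ring
      rw [h1] at hz
      have h2 : (M * Nq S ρ q) * Bq S ρ q * Nq S ρ q =
          Nq S ρ q * (Bq S ρ q * (M * Nq S ρ q)) := by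
        calc (M * Nq S ρ q) * Bq S ρ q * Nq S ρ q
            = Nq S ρ q * (M * Bq S ρ q) * Nq S ρ q := by rw [hMN.eq]; simp only [mul_assoc]
          _ = Nq S ρ q * (Bq S ρ q * M) * Nq S ρ q := by rw [hMB.eq]
          _ = _ := by simp only [mul_assoc]
      rw [h2] at hz
      exact hz
    have hz2 : EIJ S ρ m I J w + Nq S ρ q (Bq S ρ q (EIJ S ρ m I J w)) = 0 := by
      have h3 := congrArg (fun f : Module.End ℂ V => f w) hz'
      rw [hE1]
      exact h3
    have hT : ρ (S.T (4 * q) (4 * q + 1)) (EIJ S ρ m I J w) = EIJ S ρ m I J w := by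
      have h4 := hle _ (hH.a (2 * q) (by omega))
      rw [show 2 * (2 * q) = 4 * q by omega] at h4
      exact h4
    set v := EIJ S ρ m I J w with hvdef
    have h5 : Bq S ρ q v = ρ (S.B (2 * q)) v - v := by simp [Bq]
    have h6 : Nq S ρ q (Bq S ρ q v) =
        ρ (S.T (4 * q) (4 * q + 1)) (ρ (S.B (2 * q)) v) - ρ (S.B (2 * q)) v := by
      rw [h5]
      simp only [Nq, LinearMap.sub_apply, Module.End.one_apply, map_sub, hT]
      abel
    rw [h6] at hz2
    have h7 : ρ (S.T (4 * q) (4 * q + 1)) (ρ (S.B (2 * q)) v) =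
        (v + (ρ (S.T (4 * q) (4 * q + 1)) (ρ (S.B (2 * q)) v) - ρ (S.B (2 * q)) v)) +
          (ρ (S.B (2 * q)) v - v) := by abel
    rw [h7, hz2, zero_add]

section allT

variable (S : Tw g n G) (P : PR S)

include P

/-- The last factor of a star relation, second form. -/
theorem star_m (M : Subgroup G) {k s w : ℕ} (hk : k < g) (hs : s ≤ 2 * k) (hw : 2 * k + 2 ≤ w)
    (hw2 : w ≤ 2 * g + n) (h1 : S.T s (2 * k + 1) ∈ M) (h2 : S.T (2 * k) (2 * k + 1) ∈ M)
    (h3 : S.T (2 * k + 1) w ∈ M) (h4 : S.B k ∈ M) :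
    S.T s (2 * k) * S.T (2 * k + 2) w * S.T s w ∈ M := by
  rw [← P.star k s w hk hs hw hw2]
  exact M.pow_mem (M.mul_mem (M.mul_mem (M.mul_mem h1 h2) h3) h4) 3

variable (ρ : G →* Module.End ℂ V)

/-- The trick for a product of commuting twists. -/
theorem pair_fix {x y b : G} {v : V} (h : ρ (x * y) v = v) (hb : ρ b v = v) (hxy : Commute x y)
    (h1 : Commute x b) (h2 : Brd y b) : ρ x v = v ∧ ρ y v = v := by
  have h3 : ρ (y * x⁻¹⁻¹) v = v := by rw [inv_inv, ← hxy.eq]; exact h
  obtain ⟨k1, k2⟩ := trick2 ρ h2 h1.inv_left hxy.symm.inv_right hb h3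
  refine ⟨?_, k2⟩
  have := inv_fix ρ k1
  rwa [inv_inv] at this

/-- A vector fixed by the generators `gens(J)` is fixed by all interval twists. -/
theorem all_T {m : ℕ} (hg : 2 * m + 2 ≤ g) {J : Finset ℕ} (hJ : J ⊆ Finset.range m) {v : V}
    (hH : Has S m J (Stab ρ v)) : ∀ s t, s < t → t ≤ 2 * g + n → ρ (S.T s t) v = v := by
  have hJm : ∀ q ∈ J, q < m := fun q hq => Finset.mem_range.mp (hJ hq)
  have hM : ∀ x, x ∈ Stab ρ v ↔ ρ x v = v := fun x => Iff.rfl
  -- the interval of a slot handle
  have hslot : ∀ q, q < m → ρ (S.T (4 * q) (4 * q + 2)) v = v := by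
    intro q hq
    have hBk : S.B (2 * q + 1) ∈ Stab ρ v := hH.b _ (by omega) (fun q' hq' => by omega)
    have hak := hH.a (2 * q + 1) (by omega)
    have hqq := hH.q q hq
    by_cases h1 : q + 1 ∈ J
    · have hq1 := hJm _ h1
      have h5 := star_m S P (Stab ρ v) (k := 2 * q + 1) (s := 4 * q) (w := 4 * q + 7) (by omega)
        (by omega) (by omega) (by omega)
        (by rw [show 2 * (2 * q + 1) + 1 = 4 * q + 3 by ring]; exact hqq) hak
        (by rw [show 2 * (2 * q + 1) + 1 = 4 * q + 3 by ring]; exact hH.r q hq1) hBk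
      have h6 : S.T (4 * q + 4) (4 * q + 7) ∈ Stab ρ v := by
        have := hH.q (q + 1) hq1
        rwa [show 4 * (q + 1) = 4 * q + 4 by ring] at this
      rw [show 2 * (2 * q + 1) = 4 * q + 2 by ring, show 4 * q + 2 + 2 = 4 * q + 4 by ring] at h5
      have c1 : Commute (S.T (4 * q) (4 * q + 2)) (S.T (4 * q + 4) (4 * q + 7)) :=
        P.TT _ _ _ _ (by omega) (by omega) (by omega) (by omega) (Or.inl (by omega))
      have h7 : S.T (4 * q) (4 * q + 2) * S.T (4 * q) (4 * q + 7) ∈ Stab ρ v := by
        rw [c1.eq, mul_assoc] at h5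
        exact ((Stab ρ v).mul_mem_cancel_left h6).mp h5
      exact (pair_fix S P ρ h7 (hH.b (2 * q + 3) (by omega) (fun q' hq' => by omega))
        (P.TT _ _ _ _ (by omega) (by omega) (by omega) (by omega)
          (Or.inr ⟨le_rfl, by omega⟩)).symm
        (P.tb (by omega) (by omega) (by omega) (by omega) (by omega))
        (by rw [show 4 * q + 7 = 2 * (2 * q + 3) + 1 by ring]
            exact P.TBe (2 * q + 3) (4 * q) (by omega) (by omega))).1
    · have he := hH.e (2 * q + 1) (by omega)
      have h5 := star_m S P (Stab ρ v) (k := 2 * q + 1) (s := 4 * q) (w := 4 * q + 5) (by omega)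
        (by omega) (by omega) (by omega)
        (by rw [show 2 * (2 * q + 1) + 1 = 4 * q + 3 by ring]; exact hqq) hak
        (by rw [show 2 * (2 * q + 1) + 1 = 4 * q + 3 by ring]
            rw [show 2 * (2 * q + 1) + 1 = 4 * q + 3 by ring,
              show 2 * (2 * q + 1) + 3 = 4 * q + 5 by ring] at he
            exact he) hBk
      have h6 : S.T (4 * q + 4) (4 * q + 5) ∈ Stab ρ v := by
        have := hH.a (2 * q + 2) (by omega)
        rwa [show 2 * (2 * q + 2) = 4 * q + 4 by ring] at this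
      rw [show 2 * (2 * q + 1) = 4 * q + 2 by ring, show 4 * q + 2 + 2 = 4 * q + 4 by ring] at h5
      have c1 : Commute (S.T (4 * q) (4 * q + 2)) (S.T (4 * q + 4) (4 * q + 5)) :=
        P.TT _ _ _ _ (by omega) (by omega) (by omega) (by omega) (Or.inl (by omega))
      have h7 : S.T (4 * q) (4 * q + 2) * S.T (4 * q) (4 * q + 5) ∈ Stab ρ v := by
        rw [c1.eq, mul_assoc] at h5
        exact ((Stab ρ v).mul_mem_cancel_left h6).mp h5
      exact (pair_fix S P ρ h7 (hH.b (2 * q + 2) (by omega) (fun q' hq' h8 => h1 (by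
          rw [show q + 1 = q' by omega]; exact hq')))
        (P.TT _ _ _ _ (by omega) (by omega) (by omega) (by omega)
          (Or.inr ⟨le_rfl, by omega⟩)).symm
        (P.tb (by omega) (by omega) (by omega) (by omega) (by omega))
        (by rw [show 4 * q + 5 = 2 * (2 * q + 2) + 1 by ring]
            exact P.TBe (2 * q + 2) (4 * q) (by omega) (by omega))).1
  -- intervals of feet
  have hin : ∀ d s t, t - s = d → s < t → t ≤ 2 * g → S.T s t ∈ Stab ρ v := by
    intro d
    induction d using Nat.strong_induction_on with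
    | _ d ih =>
      intro s t hd hst ht
      by_cases hk : ∃ k, s ≤ 2 * k ∧ 2 * k + 2 ≤ t ∧ ∀ q ∈ J, k ≠ 2 * q
      · obtain ⟨k, hk1, hk2, hk3⟩ := hk
        have h1 : S.T s (2 * k + 1) ∈ Stab ρ v :=
          ih (2 * k + 1 - s) (by omega) s _ rfl (by omega) (by omega)
        have h3 : S.T (2 * k + 1) t ∈ Stab ρ v :=
          ih (t - (2 * k + 1)) (by omega) _ t rfl (by omega) ht
        have h5 := star_m S P (Stab ρ v) (by omega : k < g) hk1 hk2 (by omega) h1
          (hH.a k (by omega)) h3 (hH.b k (by omega) hk3)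
        have h6 : S.T s (2 * k) ∈ Stab ρ v := by
          by_cases h7 : s = 2 * k
          · subst h7; rw [P.T0]; exact (Stab ρ v).one_mem
          · exact ih (2 * k - s) (by omega) s _ rfl (by omega) (by omega)
        have h8 : S.T (2 * k + 2) t ∈ Stab ρ v := by
          by_cases h7 : 2 * k + 2 = t
          · rw [h7, P.T0]; exact (Stab ρ v).one_mem
          · exact ih (t - (2 * k + 2)) (by omega) _ t rfl (by omega) ht
        exact ((Stab ρ v).mul_mem_cancel_left ((Stab ρ v).mul_mem h6 h8)).mp h5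
      · push Not at hk
        by_cases hk2 : ∃ k, s ≤ 2 * k ∧ 2 * k + 2 ≤ t
        · obtain ⟨k, hk3, hk4⟩ := hk2
          obtain ⟨q, hq, hkq⟩ := hk k hk3 hk4
          have hqm := hJm q hq
          -- no other handle
          have h9 : 4 * q ≤ s + 1 := by
            by_contra hcon
            obtain ⟨q', _, h10⟩ := hk (k - 1) (by omega) (by omega)
            omega
          have h11 : t ≤ 4 * q + 3 := by
            by_contra hcon
            obtain ⟨q', _, h10⟩ := hk (k + 1) (by omega) (by omega)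
            omega
          by_cases hs1 : s = 4 * q
          · by_cases ht1 : t = 4 * q + 2
            · rw [hs1, ht1]; exact hslot q hqm
            · have ht2 : t = 4 * q + 3 := by omega
              rw [hs1, ht2]; exact hH.q q hqm
          · obtain ⟨q', rfl⟩ : ∃ q', q = q' + 1 := ⟨q - 1, by omega⟩
            have hs2 : s = 4 * q' + 3 := by omega
            by_cases ht1 : t = 4 * q' + 6
            · rw [hs2, ht1]; exact hH.q' q' (by omega)
            · have ht2 : t = 4 * q' + 7 := by omega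
              rw [hs2, ht2]; exact hH.r q' (by omega)
        · push Not at hk2
          rcases Nat.even_or_odd' s with ⟨i, hi | hi⟩
          · have := hk2 i (by omega)
            have ht2 : t = 2 * i + 1 := by omega
            rw [hi, ht2]
            exact hH.a i (by omega)
          · have := hk2 (i + 1) (by omega)
            by_cases ht2 : t = 2 * i + 2
            · rw [hi, ht2, ← P.aa i (by omega)]
              exact hH.a i (by omega)
            · have ht3 : t = 2 * i + 3 := by omega
              rw [hi, ht3]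
              exact hH.e i (by omega)
  have hin' : ∀ s t, s < t → t ≤ 2 * g → S.T s t ∈ Stab ρ v := fun s t h1 h2 =>
    hin (t - s) s t rfl h1 h2
  have hf : ∀ t, 2 * g ≤ t → t ≤ 2 * g + n → S.T (2 * g - 1) t ∈ Stab ρ v := by
    intro t h1 h2
    have := hH.f (t - 2 * g) (by omega)
    rwa [show 2 * g + (t - 2 * g) = t by omega] at this
  have hB1 : S.B (g - 1) ∈ Stab ρ v :=
    hH.b _ (by omega) (fun q hq => by have := hJm q hq; omega)
  have hB2 : S.B (g - 2) ∈ Stab ρ v :=
    hH.b _ (by omega) (fun q hq => by have := hJm q hq; omega)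
  -- punctures from the last handle
  have hp0 : ∀ t, 2 * g < t → t ≤ 2 * g + n → S.T (2 * g) t ∈ Stab ρ v ∧
      S.T (2 * g - 3) t ∈ Stab ρ v := by
    intro t h1 h2
    have h5 := star_m S P (Stab ρ v) (k := g - 1) (s := 2 * g - 3) (w := t) (by omega) (by omega)
      (by omega) h2 (hin' _ _ (by omega) (by omega)) (hH.a (g - 1) (by omega))
      (by rw [show 2 * (g - 1) + 1 = 2 * g - 1 by omega]; exact hf t (by omega) h2) hB1
    rw [show 2 * (g - 1) + 2 = 2 * g by omega, mul_assoc] at h5
    have h6 := ((Stab ρ v).mul_mem_cancel_left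
      (hin' (2 * g - 3) (2 * (g - 1)) (by omega) (by omega))).mp h5
    have h7 := pair_fix S P ρ h6 hB2
      (P.TT _ _ _ _ (by omega) (by omega) (by omega) (by omega) (Or.inr ⟨by omega, le_rfl⟩)).symm
      (P.tb (by omega) (by omega) (by omega) (by omega) (by omega))
      (by have := P.TBs (g - 2) t (by omega) (by omega) h2
          rwa [show 2 * (g - 2) + 1 = 2 * g - 3 by omega] at this)
    exact h7
  have hp3 : ∀ t, 2 * g ≤ t → t ≤ 2 * g + n → S.T (2 * g - 3) t ∈ Stab ρ v := by
    intro t h1 h2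
    rcases Nat.eq_or_lt_of_le h1 with rfl | h3
    · exact hin' _ _ (by omega) le_rfl
    · exact (hp0 t h3 h2).2
  have hpp : ∀ s t, 2 * g ≤ s → s < t → t ≤ 2 * g + n → S.T s t ∈ Stab ρ v := by
    intro s t h1 h2 h3
    rcases Nat.eq_or_lt_of_le h1 with rfl | h4
    · exact (hp0 t h2 h3).1
    · have hL : Brd (S.L (2 * g - 3) (2 * g - 1) s t) (S.B (g - 2)) := by
        have := P.LB3 (g - 2) (2 * g - 1) s t (by omega) (by omega) (by omega) h2 h3
        rwa [show 2 * (g - 2) + 1 = 2 * g - 3 by omega] at this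
      have e1 : ρ (S.L (2 * g - 3) (2 * g - 1) s t) v = ρ (S.T s t) v := by
        have c1 : Commute (S.T (2 * g - 3) t) (S.T s t) :=
          P.TT _ _ _ _ (by omega) (by omega) (by omega) (by omega) (Or.inr ⟨by omega, le_rfl⟩)
        have c2 : Commute (S.T (2 * g - 3) s) (S.T s t) :=
          P.TT _ _ _ _ (by omega) (by omega) (by omega) (by omega) (Or.inl le_rfl)
        have c3 : Commute (S.T (2 * g - 1) t) (S.T s t) :=
          P.TT _ _ _ _ (by omega) (by omega) (by omega) (by omega) (Or.inr ⟨by omega, le_rfl⟩)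
        have c4 : Commute (S.T (2 * g - 1) s) (S.T s t) :=
          P.TT _ _ _ _ (by omega) (by omega) (by omega) (by omega) (Or.inl le_rfl)
        have c5 : Commute (S.T (2 * g - 3) (2 * g - 1)) (S.T s t) :=
          P.TT _ _ _ _ (by omega) (by omega) (by omega) (by omega) (Or.inl (by omega))
        have k1 : ρ (S.T (2 * g - 3) t) v = v := hp3 t (by omega) h3
        have k2 : ρ (S.T (2 * g - 3) s) v = v := hp3 s (by omega) (by omega)
        have k3 : ρ (S.T (2 * g - 1) t) v = v := hf t (by omega) h3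
        have k4 : ρ (S.T (2 * g - 1) s) v = v := hf s (by omega) (by omega)
        have k5 : ρ (S.T (2 * g - 3) (2 * g - 1)) v = v := hin' _ _ (by omega) (by omega)
        unfold Tw.L
        rw [mm, mm, mm, mm, mm, com_act ρ c4, k4, com_act ρ c5, k5, com_act ρ c1, k1,
          com_act ρ c2.inv_left, inv_fix ρ k2, com_act ρ c3.inv_left, inv_fix ρ k3]
      exact (trick ρ hL (P.tb h2 h3 (by omega) (by omega) (by omega)) hB2 e1).1
  intro s t hst ht
  by_cases h1 : t ≤ 2 * g
  · exact hin' s t hst h1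
  · by_cases h2 : 2 * g ≤ s
    · exact hpp s t h2 hst ht
    · by_cases h3 : s = 2 * g - 1
      · rw [h3]; exact hf t (by omega) ht
      · have h5 := star_m S P (Stab ρ v) (k := g - 1) (s := s) (w := t) (by omega) (by omega)
          (by omega) ht (hin' _ _ (by omega) (by omega)) (hH.a (g - 1) (by omega))
          (by rw [show 2 * (g - 1) + 1 = 2 * g - 1 by omega]; exact hf t (by omega) ht) hB1
        have h6 : S.T s (2 * (g - 1)) ∈ Stab ρ v := by
          by_cases h7 : s = 2 * (g - 1)
          · subst h7; rw [P.T0]; exact (Stab ρ v).one_mem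
          · exact hin' _ _ (by omega) (by omega)
        have h8 : S.T (2 * (g - 1) + 2) t ∈ Stab ρ v := by
          rw [show 2 * (g - 1) + 2 = 2 * g by omega]
          exact (hp0 t (by omega) ht).1
        exact ((Stab ρ v).mul_mem_cancel_left ((Stab ρ v).mul_mem h6 h8)).mp h5

omit P in
/-- Existence of a slot vector with fewer than `m` slots. -/
theorem exists_slot (P : PR S) (hS : Rels S) {m : ℕ} (hg : 2 * m + 2 ≤ g) [FiniteDimensional ℂ V]
    [Nontrivial V] (hV : Module.finrank ℂ V < 4 ^ m) :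
    ∃ A : Finset ℕ, A.card < m ∧ ∃ v : V, v ≠ 0 ∧ KA S ρ A v := by
  classical
  obtain ⟨J, hJ, hJc, v, hv0, hH, hL⟩ := step4' S hS m hg ρ hV
  have hJm : ∀ q ∈ J, q < m := fun q hq => Finset.mem_range.mp (hJ hq)
  refine ⟨J.image (fun q => 2 * q), lt_of_le_of_lt Finset.card_image_le hJc, v, hv0, ?_, ?_, ?_, ?_⟩
  · intro q hq
    obtain ⟨q', hq', rfl⟩ := Finset.mem_image.mp hq
    have := hJm q' hq'
    omega
  · exact all_T S P ρ hg hJ hH
  · intro r hr hrA
    apply hH.b r hr
    intro q hq hrq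
    exact hrA (Finset.mem_image.mpr ⟨q, hq, hrq.symm⟩)
  · intro q hq
    obtain ⟨q', hq', rfl⟩ := Finset.mem_image.mp hq
    have := hL q' hq'
    rw [show 2 * (2 * q') = 4 * q' by ring]
    exact this

end allT

end Pool.Agent.LJ
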