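import Pool.Agent.LJ.AllBp
import Pool.Agent.LJ.Exist

set_option linter.all false

namespace Pool.Agent.LJ

open Pool.Agent.HG13

variable {g n : ℕ} {G : Type*} [Group G] {V : Type*} [AddCommGroup V] [Module ℂ V]

/-- THEOREM (V): in dimension `< 4^m`, `2m + 2 ≤ g`, there is a nonzero vector which is fixed by all
`BP_J`; it can be taken to be a slot vector on the first `j < m` handles, with `j` minimal. -/
theorem vmain (S : Tw g n G) (P : PR S) (hS : Rels S) (ρ : G →* Module.End ℂ V) {m : ℕ}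
    (hg : 2 * m + 2 ≤ g) [FiniteDimensional ℂ V] [Nontrivial V]
    (hV : Module.finrank ℂ V < 4 ^ m) :
    ∃ j : ℕ, j < m ∧ Mn S ρ j ∧ ∃ v : V, v ≠ 0 ∧ KA S ρ (Finset.range j) v ∧
      ∀ a b c d : ℕ, a < b → b < c → c < d → d ≤ 2 * g →
        ρ (bp (tc S) (S.T 2 3) (S.T 0 3) a b c d) v = v := by
  obtain ⟨A, hA, v, hv0, hv⟩ := exists_slot S ρ P hS hg hV
  obtain ⟨j, hj, h⟩ := exists_fixed S P ρ (m := m - 1) (by omega) ⟨A, by omega, v, hv0, hv⟩
  exact ⟨j, by omega, h⟩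

end Pool.Agent.LJ
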