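import Pool.Agent.LJ.Low
import Pool.Agent.LJ.Vmain
import Pool.Agent.LJ.Sys

set_option linter.all false

namespace Pool.Agent.LJ

open Pool.Agent.HG13 Pool.Agent.QR80

universe u

variable {g n : ℕ}

section map

variable {G : Type*} [Group G] {Q : Type*} [Group Q]

/-- The image of a system under a homomorphism. -/
def mapTw (f : G →* Q) (S : Tw g n G) : Tw g n Q where
  T s t := f (S.T s t)
  B i := f (S.B i)
  X i := f (S.X i)
  Y i := f (S.Y i)
  Z i := f (S.Z i)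

theorem mapL (f : G →* Q) (S : Tw g n G) (s t u w : ℕ) :
    (mapTw f S).L s t u w = f (S.L s t u w) := by
  unfold Tw.L mapTw
  simp only [map_mul, map_inv]

theorem mapBrd (f : G →* Q) {x y : G} (h : Brd x y) : Brd (f x) (f y) := by
  unfold Brd at *
  rw [← map_mul, ← map_mul, ← map_mul, ← map_mul, h]

theorem mapPR (f : G →* Q) {S : Tw g n G} (P : PR S) : PR (mapTw f S) where
  TT := fun s t s' t' h1 h2 h3 h4 h5 => (P.TT s t s' t' h1 h2 h3 h4 h5).map f
  TB := fun s t i h1 h2 h3 h4 => (P.TB s t i h1 h2 h3 h4).map f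
  BB := fun i j h1 h2 => (P.BB i j h1 h2).map f
  TBs := fun i t h1 h2 h3 => mapBrd f (P.TBs i t h1 h2 h3)
  TBe := fun i s h1 h2 => mapBrd f (P.TBe i s h1 h2)
  aa := fun i h => congrArg f (P.aa i h)
  LB := fun s t u i h1 h2 h3 h4 => by rw [mapL]; exact mapBrd f (P.LB s t u i h1 h2 h3 h4)
  LB1 := fun s i u w h1 h2 h3 h4 h5 => by
    rw [mapL]; exact mapBrd f (P.LB1 s i u w h1 h2 h3 h4 h5)
  LB2 := fun s t i w h1 h2 h3 h4 h5 => by
    rw [mapL]; exact mapBrd f (P.LB2 s t i w h1 h2 h3 h4 h5)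
  LB3 := fun i t u w h1 h2 h3 h4 h5 => by
    rw [mapL]; exact mapBrd f (P.LB3 i t u w h1 h2 h3 h4 h5)
  T0 := fun s => by
    show f (S.T s s) = 1
    rw [P.T0, map_one]
  star := fun k s w h1 h2 h3 h4 => by
    show (f (S.T s (2 * k + 1)) * f (S.T (2 * k) (2 * k + 1)) * f (S.T (2 * k + 1) w) *
      f (S.B k)) ^ 3 = f (S.T s (2 * k)) * f (S.T (2 * k + 2) w) * f (S.T s w)
    rw [← map_mul, ← map_mul, ← map_mul, ← map_pow, P.star k s w h1 h2 h3 h4, map_mul, map_mul]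

end map

section act

variable {G : Type*} [Group G] {V : Type*} [AddCommGroup V] [Module ℂ V]

/-- The pushes of the blocks of punctures fix the slot vectors. -/
theorem slot_punct (S : Tw g n G) (P : PR S) (ρ : G →* Module.End ℂ V) {A : Finset ℕ} {v : V}
    (hM : Mn S ρ A.card) (hv : KA S ρ A v) {p : ℕ} (hp1 : 1 ≤ p) (hp2 : p ≤ n) {m : ℕ}
    (h1 : 1 ≤ m) (h2 : m ≤ 2 * g) : ρ (dl S (2 * g) (2 * g + p) m) v = v := by
  have hps : ∀ s, s < 2 * g → ρ (ps S (2 * g) (2 * g + p) s) v = v := by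
    intro s hs
    unfold ps
    exact mul_fix ρ (mul_fix ρ (hv.T _ _ (by omega) (by omega))
      (inv_fix ρ (hv.T _ _ (by omega) (by omega)))) (inv_fix ρ (hv.T _ _ (by omega) (by omega)))
  rcases Nat.mod_two_eq_zero_or_one m with hm | hm
  · obtain ⟨i, hi⟩ : ∃ i, m = 2 * i + 2 := ⟨m / 2 - 1, by omega⟩
    rw [dl_even S P hi]
    have q1 := hps (2 * i + 1) (by omega)
    by_cases hA : i ∈ A
    · have hx := hv.xi S ρ P hA
      have f1a := f1' S P ρ hM hv hA (w := 2 * g + p) (by omega) (by omega) (by omega)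
      have f1b := f1' S P ρ hM hv hA (w := 2 * g) (by omega) (by omega) (by omega)
      have hcB : Commute (S.T (2 * g) (2 * g + p)) (S.B i) :=
        P.tb (by omega) (by omega) (by omega) (by omega) (by omega)
      have f1c : ρ (S.T (2 * g) (2 * g + p)) (ρ (S.B i) v - v) = ρ (S.B i) v - v :=
        hv.com S ρ (hv.T _ _ (by omega) (by omega)) hcB
      have hTv : ρ (S.T (2 * i + 1) (2 * g)) v = v := hv.T _ _ (by omega) (by omega)
      have hTv' : ρ (S.T (2 * i + 1) (2 * g + p)) v = v := hv.T _ _ (by omega) (by omega)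
      -- `p_(2i+1)` fixes `ξ`
      have k1 : ρ (ps S (2 * g) (2 * g + p) (2 * i + 1)) (ρ (S.B i) v - v) =
          ρ (S.B i) v - v := by
        unfold ps
        rw [mm, mm, inv_fix ρ f1c]
        have k2 : ρ (S.T (2 * i + 1) (2 * g))⁻¹ (ρ (S.B i) v - v) =
            (ρ (S.B i) v - v) + v := by
          apply inv_eq ρ
          rw [map_add, f1b, hTv]; abel
        rw [k2, map_add, f1a, hTv']; abel
      -- `B⁻¹ v = v - ξ`
      have k3 : ρ (S.B i)⁻¹ v = v - (ρ (S.B i) v - v) := by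
        apply inv_eq ρ
        rw [map_sub, hx.1]; abel
      rw [mm, mm, mm, k3, map_sub, q1, k1]
      rw [map_sub (ρ (S.B i)) v (ρ (S.B i) v - v), hx.1]
      rw [sub_sub_cancel]
      exact inv_fix ρ q1
    · have hB := hv.B i (by omega) hA
      exact mul_fix ρ (mul_fix ρ (mul_fix ρ (inv_fix ρ q1) hB) q1) (inv_fix ρ hB)
  · rw [dl_odd S P hm]
    have hlo := lo_lt hm
    exact mul_fix ρ (mul_fix ρ (inv_fix ρ (hps m (by omega))) (hps (lo m) (by omega)))
      (hv.T _ _ (by omega) (by omega))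

/-- The slot vectors of (V) are fixed by all elements of `Es`. -/
theorem slot_Es (S : Tw g n G) (P : PR S) (ρ : G →* Module.End ℂ V) {A : Finset ℕ} {v : V}
    (hM : Mn S ρ A.card) (hv : KA S ρ A v)
    (hbp : ∀ a b c d : ℕ, a < b → b < c → c < d → d ≤ 2 * g →
      ρ (bp (tc S) (S.T 2 3) (S.T 0 3) a b c d) v = v) : v ∈ FixV ρ (Es S) := by
  rintro e (⟨i, j, k, l, a1, a2, a3, a4, rfl⟩ | ⟨p, p1, p2, ⟨m, m1, m2, rfl⟩ | rfl | rfl⟩)
  · exact hbp i j k l a1 a2 a3 a4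
  · exact slot_punct S P ρ hM hv p1 p2 m1 m2
  · by_cases hg : g = 0
    · subst hg
      unfold ps
      rw [P.T0, inv_one, mul_one]
      exact mul_fix ρ (hv.T _ _ (by omega) (by omega))
        (inv_fix ρ (hv.T _ _ (by omega) (by omega)))
    · unfold ps
      exact mul_fix ρ (mul_fix ρ (hv.T _ _ (by omega) (by omega))
        (inv_fix ρ (hv.T _ _ (by omega) (by omega)))) (inv_fix ρ (hv.T _ _ (by omega) (by omega)))
  · exact hv.T _ _ (by omega) (by omega)

end act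

/-- TORELLI ACTS TRIVIALLY (in the form needed for the end game). -/
theorem torelli (g n m : ℕ) (hg : 2 * m + 2 ≤ g) (Γ : Subgroup (MulAut (Fr g n)))
    (hΓ : Γ = Subgroup.closure (twists g n)) {V : Type u} [AddCommGroup V] [Module ℂ V]
    [FiniteDimensional ℂ V] (ρ : MG g n Γ →* Module.End ℂ V) (hirr : Irr ρ)
    (hV : Module.finrank ℂ V < 4 ^ m) :
    (∀ w : Fr g n, ρ (SemidirectProduct.inl w) = 1) ∧
    IsNilpotent (ρ ((sys g n Γ).T 0 1) - 1) ∧
    (∀ i, i < g → ρ ((sys g n Γ).T (2 * i) (2 * i + 2)) = 1) ∧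
    (∀ i, i + 1 < g →
      ρ ((sys g n Γ).T (2 * i) (2 * i + 3)) = ρ ((sys g n Γ).T (2 * i + 2) (2 * i + 3))) ∧
    (∀ k, k ≤ n → ρ ((sys g n Γ).T (2 * g - 1) (2 * g + k)) =
      ρ ((sys g n Γ).T (2 * (g - 1)) (2 * (g - 1) + 1))) := by
  have hΓ' : twists g n ⊆ Γ := by
    rw [hΓ]
    exact Subgroup.subset_closure
  have hnt : Nontrivial V := hirr.1
  have hm : 1 ≤ m := by
    rcases Nat.eq_zero_or_pos m with rfl | h
    · rw [pow_zero, Nat.lt_one_iff] at hV
      have := Module.finrank_zero_iff.1 hV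
      exact absurd hnt (not_nontrivial V)
    · exact h
  have hT01 : (TP 0 1 : MulAut (Fr g n)) ∈ Γ := hΓ' (Or.inr ⟨0, 1, by omega, by omega, rfl⟩)
  obtain ⟨hh1, -, hh3, -⟩ := high_genus g n m hg Γ hΓ' ρ hV
  have hsT : (sys g n Γ).T 0 1 = SemidirectProduct.inr ⟨TP 0 1, hT01⟩ := dif_pos hT01
  have hnil : IsNilpotent (ρ ((sys g n Γ).T 0 1) - 1) := by
    rw [hsT]
    refine hh1 ⟨TP 0 1, hT01⟩ 1 ?_
    rw [OneMemClass.coe_one, one_mul, inv_one, mul_one]
  have hF : ∀ w : Fr g n, ρ (SemidirectProduct.inl w) = 1 := by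
    apply hh3
    intro W hW
    rcases hirr.2 W hW with rfl | rfl
    · exact ⟨⊤, fun _ _ _ => trivial, isCompl_bot_top⟩
    · exact ⟨⊥, fun x w hw => by
        rw [Submodule.mem_bot] at hw ⊢
        rw [hw, map_zero], isCompl_top_bot⟩
  have P : PR (sys g n Γ) := pr_sys Γ hΓ'
  -- `a_1` is unipotent
  have hnil2 : IsNilpotent (ρ ((sys g n Γ).T 2 3) - 1) :=
    pg_nil (sys g n Γ) (sys_rels Γ hΓ') ρ hnil 1 (by omega)
  obtain ⟨j, hj, hMn, v, hv0, hv, hbp⟩ := vmain (sys g n Γ) P (sys_rels Γ hΓ') ρ hg hV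
  have hcard : (Finset.range j).card = j := Finset.card_range j
  have hvE := slot_Es (sys g n Γ) P ρ (by rw [hcard]; exact hMn) hv hbp
  have hall := all_fixed (by omega) Γ hΓ P ρ hF hirr hnil2 v hv0 hvE
  have htop : ∀ w : V, w ∈ FixV ρ (Es (sys g n Γ)) := by
    intro w e he
    rw [hall e he]; rfl
  -- the relation `T 0 3 = T 2 3` on `V`
  have h03 : ρ.toHomUnits ((sys g n Γ).T 0 3) = ρ.toHomUnits ((sys g n Γ).T 2 3) := by
    have h1 : ρ ((sys g n Γ).T 2 3 * ((sys g n Γ).T 0 3)⁻¹) = 1 := by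
      rw [← bp0]
      exact hall _ (Or.inl ⟨0, 1, 2, 3, by omega, by omega, by omega, by omega, rfl⟩)
    have h2 : ρ.toHomUnits ((sys g n Γ).T 2 3 * ((sys g n Γ).T 0 3)⁻¹) = 1 := Units.ext h1
    rw [map_mul, map_inv, mul_inv_eq_one] at h2
    exact h2.symm
  obtain ⟨k1, k2, -⟩ := low (mapTw ρ.toHomUnits (sys g n Γ)) (mapPR _ P) (by omega) h03
  refine ⟨hF, hnil, fun i hi => ?_, fun i hi => ?_, fun k hk => ?_⟩
  · exact congrArg Units.val (k1 i hi)
  · exact congrArg Units.val (k2 i hi)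
  · apply LinearMap.ext
    intro w
    rw [f_fix (sys g n Γ) P ρ (by omega) hk (htop _)]
    rw [show 2 * (g - 1) = 2 * g - 2 by omega, show 2 * g - 2 + 1 = 2 * g - 1 by omega]

end Pool.Agent.LJ
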