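import Mathlib
import Pool.Agent.HG13.Sys

set_option linter.all false

namespace Pool.Agent.LJ

open Pool.Agent.HG13

section bp

variable {G : Type*} [Group G]

/-- The braid relations for `t 1, ..., t N`. -/
structure Brs (N : ℕ) (t : ℕ → G) : Prop where
  brd : ∀ i, 1 ≤ i → i + 1 ≤ N → Brd (t i) (t (i + 1))
  com : ∀ i j, 1 ≤ i → i + 2 ≤ j → j ≤ N → Commute (t i) (t j)

/-- `D t q a = t_q t_(q-1) ... t_a` (and `1` if `q < a`). -/
def D (t : ℕ → G) : ℕ → ℕ → G
  | 0, _ => 1
  | q + 1, a => if a ≤ q + 1 then t (q + 1) * D t q a else 1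

theorem D_succ (t : ℕ → G) (q a : ℕ) (h : a ≤ q + 1) : D t (q + 1) a = t (q + 1) * D t q a := by
  rw [D, if_pos h]

theorem D_lt (t : ℕ → G) (q a : ℕ) (h : q < a) : D t q a = 1 := by
  cases q with
  | zero => rfl
  | succ q => rw [D, if_neg (by omega)]

/-- An element which commutes with all letters commutes with the product. -/
theorem D_comm (t : ℕ → G) (z : G) (a : ℕ) (q : ℕ)
    (h : ∀ i, a ≤ i → i ≤ q → Commute z (t i)) : Commute z (D t q a) := by
  induction q with
  | zero => exact Commute.one_right z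
  | succ q ih =>
    by_cases ha : a ≤ q + 1
    · rw [D_succ t q a ha]
      exact (h _ ha le_rfl).mul_right (ih fun i h1 h2 => h i h1 (by omega))
    · rw [D_lt t _ _ (by omega)]
      exact Commute.one_right z

theorem D_last (t : ℕ → G) (a : ℕ) (ha : 1 ≤ a) (q : ℕ) (h : a ≤ q) :
    D t q a = D t q (a + 1) * t a := by
  induction q with
  | zero => omega
  | succ q ih =>
    rw [D_succ t q a (by omega)]
    by_cases hq : a ≤ q
    · rw [ih hq, D_succ t q (a + 1) (by omega), mul_assoc]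
    · obtain rfl : a = q + 1 := by omega
      rw [D_lt t q _ (by omega), D_lt t _ _ (by omega), one_mul, mul_one]

variable {N : ℕ} {t : ℕ → G}

theorem Brs.comm (h : Brs N t) {i j : ℕ} (hi : 1 ≤ i) (hi' : i ≤ N) (hj : 1 ≤ j) (hj' : j ≤ N)
    (hij : i + 2 ≤ j ∨ j + 2 ≤ i) : Commute (t i) (t j) := by
  rcases hij with h1 | h1
  · exact h.com i j hi h1 hj'
  · exact (h.com j i hj h1 hi').symm

theorem Brs.D2 (h : Brs N t) {p q a : ℕ} (hp : 1 ≤ p) (hp' : p ≤ N) (ha : 1 ≤ a) (hq : q ≤ N)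
    (hpq : q + 2 ≤ p ∨ p + 2 ≤ a) : Commute (t p) (D t q a) :=
  D_comm t _ a q fun i h1 h2 => h.comm hp hp' (by omega) (by omega) (by omega)

theorem Brs.D3 (h : Brs N t) {p a : ℕ} (ha : 1 ≤ a) (hp : a ≤ p) (q : ℕ) (hq : p < q)
    (hN : q ≤ N) : t p * D t q a = D t q a * t (p + 1) := by
  induction q with
  | zero => omega
  | succ q ih =>
    rw [D_succ t q a (by omega)]
    by_cases hpq : p < q
    · have hc := h.comm (i := p) (j := q + 1) (by omega) (by omega) (by omega) (by omega) (by omega)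
      rw [← mul_assoc, hc.eq, mul_assoc, ih hpq (by omega), mul_assoc]
    · obtain rfl : p = q := by omega
      obtain ⟨r, rfl⟩ : ∃ r, p = r + 1 := ⟨p - 1, by omega⟩
      rw [D_succ t r a (by omega)]
      have hb := h.brd (r + 1) (by omega) (by omega)
      have hc : Commute (t (r + 1 + 1)) (D t r a) :=
        h.D2 (by omega) (by omega) ha (by omega) (by omega)
      unfold Brd at hb
      calc t (r + 1) * (t (r + 1 + 1) * (t (r + 1) * D t r a))
          = (t (r + 1) * t (r + 1 + 1) * t (r + 1)) * D t r a := by simp only [mul_assoc]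
        _ = t (r + 1 + 1) * t (r + 1) * (t (r + 1 + 1) * D t r a) := by
            rw [hb]; simp only [mul_assoc]
        _ = t (r + 1 + 1) * t (r + 1) * (D t r a * t (r + 1 + 1)) := by rw [hc.eq]
        _ = t (r + 1 + 1) * (t (r + 1) * D t r a) * t (r + 1 + 1) := by simp only [mul_assoc]

theorem Brs.D4 (h : Brs N t) {a : ℕ} (ha : 1 ≤ a) (q : ℕ) (hq : a ≤ q + 1) (hN : q + 1 ≤ N) :
    t (q + 1) * (D t q a * D t (q + 1) (a + 1)) = D t q a * D t (q + 1) (a + 1) * t a := by
  induction q with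
  | zero =>
    obtain rfl : a = 1 := by omega
    rw [D_lt t 0 _ (by omega), D_lt t _ _ (by omega)]
    simp
  | succ q ih =>
    by_cases h1 : a ≤ q + 1
    · have h2 := ih h1 (by omega)
      have hb := h.brd (q + 1) (by omega) (by omega)
      have hc : Commute (t (q + 1 + 1)) (D t q a) :=
        h.D2 (by omega) (by omega) ha (by omega) (by omega)
      unfold Brd at hb
      rw [D_succ t q a h1, D_succ t (q + 1) (a + 1) (by omega)]
      calc t (q + 1 + 1) * (t (q + 1) * D t q a * (t (q + 1 + 1) * D t (q + 1) (a + 1)))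
          = t (q + 1 + 1) * t (q + 1) * (D t q a * t (q + 1 + 1)) * D t (q + 1) (a + 1) := by
            simp only [mul_assoc]
        _ = t (q + 1 + 1) * t (q + 1) * (t (q + 1 + 1) * D t q a) * D t (q + 1) (a + 1) := by
            rw [hc.eq]
        _ = (t (q + 1) * t (q + 1 + 1) * t (q + 1)) * (D t q a * D t (q + 1) (a + 1)) := by
            rw [hb]; simp only [mul_assoc]
        _ = t (q + 1) * t (q + 1 + 1) * (t (q + 1) * (D t q a * D t (q + 1) (a + 1))) := by
            simp only [mul_assoc]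
        _ = t (q + 1) * (t (q + 1 + 1) * D t q a) * D t (q + 1) (a + 1) * t a := by
            rw [h2]; simp only [mul_assoc]
        _ = t (q + 1) * (D t q a * t (q + 1 + 1)) * D t (q + 1) (a + 1) * t a := by rw [hc.eq]
        _ = t (q + 1) * D t q a * (t (q + 1 + 1) * D t (q + 1) (a + 1)) * t a := by
            simp only [mul_assoc]
    · obtain rfl : a = q + 1 + 1 := by omega
      rw [D_lt t (q + 1) _ (by omega), D_lt t _ _ (by omega)]
      simp

/-- The braid which moves the points `0, 1, 2, 3` to `i < j < k < l`. -/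
def psi (t : ℕ → G) (i j k l : ℕ) : G := D t i 1 * D t j 2 * D t k 3 * D t l 4

theorem mv_i (t : ℕ → G) (i j k l : ℕ) : t (i + 1) * psi t i j k l = psi t (i + 1) j k l := by
  unfold psi
  rw [D_succ t i 1 (by omega)]
  simp only [mul_assoc]

theorem mv_j (h : Brs N t) (i j k l : ℕ) (h1 : i < j) (h2 : j + 1 ≤ N) :
    t (j + 1) * psi t i j k l = psi t i (j + 1) k l := by
  unfold psi
  have hc : Commute (t (j + 1)) (D t i 1) := h.D2 (by omega) (by omega) le_rfl (by omega) (by omega)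
  rw [D_succ t j 2 (by omega)]
  calc t (j + 1) * (D t i 1 * D t j 2 * D t k 3 * D t l 4)
      = (t (j + 1) * D t i 1) * D t j 2 * D t k 3 * D t l 4 := by simp only [mul_assoc]
    _ = D t i 1 * (t (j + 1) * D t j 2) * D t k 3 * D t l 4 := by
        rw [hc.eq]; simp only [mul_assoc]

theorem mv_k (h : Brs N t) (i j k l : ℕ) (h1 : i < j) (h2 : j < k) (h3 : k + 1 ≤ N) :
    t (k + 1) * psi t i j k l = psi t i j (k + 1) l := by
  unfold psi
  have hc : Commute (t (k + 1)) (D t i 1) := h.D2 (by omega) (by omega) le_rfl (by omega) (by omega)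
  have hd : Commute (t (k + 1)) (D t j 2) :=
    h.D2 (by omega) (by omega) (by omega) (by omega) (by omega)
  rw [D_succ t k 3 (by omega)]
  calc t (k + 1) * (D t i 1 * D t j 2 * D t k 3 * D t l 4)
      = (t (k + 1) * D t i 1) * D t j 2 * D t k 3 * D t l 4 := by simp only [mul_assoc]
    _ = D t i 1 * (t (k + 1) * D t j 2) * D t k 3 * D t l 4 := by
        rw [hc.eq]; simp only [mul_assoc]
    _ = D t i 1 * D t j 2 * (t (k + 1) * D t k 3) * D t l 4 := by
        rw [hd.eq]; simp only [mul_assoc]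

theorem mv_l (h : Brs N t) (i j k l : ℕ) (h1 : i < j) (h2 : j < k) (h3 : k < l) (h4 : l + 1 ≤ N) :
    t (l + 1) * psi t i j k l = psi t i j k (l + 1) := by
  unfold psi
  have hc : Commute (t (l + 1)) (D t i 1) := h.D2 (by omega) (by omega) le_rfl (by omega) (by omega)
  have hd : Commute (t (l + 1)) (D t j 2) :=
    h.D2 (by omega) (by omega) (by omega) (by omega) (by omega)
  have he : Commute (t (l + 1)) (D t k 3) :=
    h.D2 (by omega) (by omega) (by omega) (by omega) (by omega)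
  rw [D_succ t l 4 (by omega)]
  calc t (l + 1) * (D t i 1 * D t j 2 * D t k 3 * D t l 4)
      = (t (l + 1) * D t i 1) * D t j 2 * D t k 3 * D t l 4 := by simp only [mul_assoc]
    _ = D t i 1 * (t (l + 1) * D t j 2) * D t k 3 * D t l 4 := by
        rw [hc.eq]; simp only [mul_assoc]
    _ = D t i 1 * D t j 2 * (t (l + 1) * D t k 3) * D t l 4 := by
        rw [hd.eq]; simp only [mul_assoc]
    _ = D t i 1 * D t j 2 * D t k 3 * (t (l + 1) * D t l 4) := by
        rw [he.eq]; simp only [mul_assoc]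

theorem both_ij (h : Brs N t) (i k l : ℕ) (h1 : i + 1 < k) (h2 : k < l) (h3 : l ≤ N) :
    t (i + 1) * psi t i (i + 1) k l = psi t i (i + 1) k l * t 1 := by
  unfold psi
  have h4 := h.D4 (a := 1) le_rfl i (by omega) (by omega)
  have hc : Commute (t 1) (D t k 3) := h.D2 (by omega) (by omega) (by omega) (by omega) (by omega)
  have hd : Commute (t 1) (D t l 4) := h.D2 (by omega) (by omega) (by omega) (by omega) (by omega)
  calc t (i + 1) * (D t i 1 * D t (i + 1) 2 * D t k 3 * D t l 4)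
      = t (i + 1) * (D t i 1 * D t (i + 1) 2) * D t k 3 * D t l 4 := by simp only [mul_assoc]
    _ = D t i 1 * D t (i + 1) 2 * (t 1 * D t k 3) * D t l 4 := by
        rw [h4]; simp only [mul_assoc]
    _ = D t i 1 * D t (i + 1) 2 * D t k 3 * (t 1 * D t l 4) := by
        rw [hc.eq]; simp only [mul_assoc]
    _ = D t i 1 * D t (i + 1) 2 * D t k 3 * D t l 4 * t 1 := by
        rw [hd.eq]; simp only [mul_assoc]

theorem both_jk (h : Brs N t) (i j l : ℕ) (h1 : i < j) (h2 : j + 1 < l) (h3 : l ≤ N) :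
    t (j + 1) * psi t i j (j + 1) l = psi t i j (j + 1) l * t 2 := by
  unfold psi
  have h4 := h.D4 (a := 2) (by omega) j (by omega) (by omega)
  have hc : Commute (t (j + 1)) (D t i 1) := h.D2 (by omega) (by omega) le_rfl (by omega) (by omega)
  have hd : Commute (t 2) (D t l 4) := h.D2 (by omega) (by omega) (by omega) (by omega) (by omega)
  calc t (j + 1) * (D t i 1 * D t j 2 * D t (j + 1) 3 * D t l 4)
      = (t (j + 1) * D t i 1) * D t j 2 * D t (j + 1) 3 * D t l 4 := by simp only [mul_assoc]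
    _ = D t i 1 * (t (j + 1) * (D t j 2 * D t (j + 1) 3)) * D t l 4 := by
        rw [hc.eq]; simp only [mul_assoc]
    _ = D t i 1 * D t j 2 * D t (j + 1) 3 * (t 2 * D t l 4) := by
        rw [h4]; simp only [mul_assoc]
    _ = D t i 1 * D t j 2 * D t (j + 1) 3 * D t l 4 * t 2 := by
        rw [hd.eq]; simp only [mul_assoc]

theorem both_kl (h : Brs N t) (i j k : ℕ) (h1 : i < j) (h2 : j < k) (h3 : k + 1 ≤ N) :
    t (k + 1) * psi t i j k (k + 1) = psi t i j k (k + 1) * t 3 := by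
  unfold psi
  have h4 := h.D4 (a := 3) (by omega) k (by omega) (by omega)
  have hc : Commute (t (k + 1)) (D t i 1) := h.D2 (by omega) (by omega) le_rfl (by omega) (by omega)
  have hd : Commute (t (k + 1)) (D t j 2) :=
    h.D2 (by omega) (by omega) (by omega) (by omega) (by omega)
  calc t (k + 1) * (D t i 1 * D t j 2 * D t k 3 * D t (k + 1) 4)
      = (t (k + 1) * D t i 1) * D t j 2 * D t k 3 * D t (k + 1) 4 := by simp only [mul_assoc]
    _ = D t i 1 * (t (k + 1) * D t j 2) * D t k 3 * D t (k + 1) 4 := by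
        rw [hc.eq]; simp only [mul_assoc]
    _ = D t i 1 * D t j 2 * (t (k + 1) * (D t k 3 * D t (k + 1) 4)) := by
        rw [hd.eq]; simp only [mul_assoc]
    _ = D t i 1 * D t j 2 * D t k 3 * D t (k + 1) 4 * t 3 := by
        rw [h4]; simp only [mul_assoc]

/-- `t p` passes through `psi` as `t p'`. -/
theorem none_l (h : Brs N t) (i j k l p : ℕ) (h1 : i < j) (h2 : j < k) (h3 : k < l)
    (h4 : l + 2 ≤ p) (h5 : p ≤ N) : t p * psi t i j k l = psi t i j k l * t p := by
  unfold psi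
  have a1 : Commute (t p) (D t i 1) := h.D2 (by omega) (by omega) (by omega) (by omega) (by omega)
  have a2 : Commute (t p) (D t j 2) := h.D2 (by omega) (by omega) (by omega) (by omega) (by omega)
  have a3 : Commute (t p) (D t k 3) := h.D2 (by omega) (by omega) (by omega) (by omega) (by omega)
  have a4 : Commute (t p) (D t l 4) := h.D2 (by omega) (by omega) (by omega) (by omega) (by omega)
  exact (((a1.mul_right a2).mul_right a3).mul_right a4).eq

theorem none_k (h : Brs N t) (i j k l p : ℕ) (h1 : i < j) (h2 : j < k) (h3 : k + 2 ≤ p)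
    (h4 : p < l) (h5 : l ≤ N) : t p * psi t i j k l = psi t i j k l * t (p + 1) := by
  unfold psi
  have a1 : Commute (t p) (D t i 1) := h.D2 (by omega) (by omega) (by omega) (by omega) (by omega)
  have a2 : Commute (t p) (D t j 2) := h.D2 (by omega) (by omega) (by omega) (by omega) (by omega)
  have a3 : Commute (t p) (D t k 3) := h.D2 (by omega) (by omega) (by omega) (by omega) (by omega)
  have a4 := h.D3 (p := p) (a := 4) (by omega) (by omega) l (by omega) (by omega)
  rw [← mul_assoc, ((a1.mul_right a2).mul_right a3).eq, mul_assoc, a4]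
  simp only [mul_assoc]

theorem none_j (h : Brs N t) (i j k l p : ℕ) (h1 : i < j) (h2 : j + 2 ≤ p) (h3 : p < k)
    (h4 : k < l) (h5 : l ≤ N) : t p * psi t i j k l = psi t i j k l * t (p + 2) := by
  unfold psi
  have a1 : Commute (t p) (D t i 1) := h.D2 (by omega) (by omega) (by omega) (by omega) (by omega)
  have a2 : Commute (t p) (D t j 2) := h.D2 (by omega) (by omega) (by omega) (by omega) (by omega)
  have a3 := h.D3 (p := p) (a := 3) (by omega) (by omega) k (by omega) (by omega)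
  have a4 := h.D3 (p := p + 1) (a := 4) (by omega) (by omega) l (by omega) (by omega)
  calc t p * (D t i 1 * D t j 2 * D t k 3 * D t l 4)
      = t p * (D t i 1 * D t j 2) * D t k 3 * D t l 4 := by simp only [mul_assoc]
    _ = D t i 1 * D t j 2 * (t p * D t k 3) * D t l 4 := by
        rw [(a1.mul_right a2).eq]; simp only [mul_assoc]
    _ = D t i 1 * D t j 2 * D t k 3 * (t (p + 1) * D t l 4) := by
        rw [a3]; simp only [mul_assoc]
    _ = D t i 1 * D t j 2 * D t k 3 * D t l 4 * t (p + 2) := by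
        rw [a4]; simp only [mul_assoc]

theorem none_i (h : Brs N t) (i j k l p : ℕ) (h1 : i + 2 ≤ p) (h2 : p < j) (h3 : j < k)
    (h4 : k < l) (h5 : l ≤ N) : t p * psi t i j k l = psi t i j k l * t (p + 3) := by
  unfold psi
  have a1 : Commute (t p) (D t i 1) := h.D2 (by omega) (by omega) (by omega) (by omega) (by omega)
  have a2 := h.D3 (p := p) (a := 2) (by omega) (by omega) j (by omega) (by omega)
  have a3 := h.D3 (p := p + 1) (a := 3) (by omega) (by omega) k (by omega) (by omega)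
  have a4 := h.D3 (p := p + 2) (a := 4) (by omega) (by omega) l (by omega) (by omega)
  calc t p * (D t i 1 * D t j 2 * D t k 3 * D t l 4)
      = t p * D t i 1 * D t j 2 * D t k 3 * D t l 4 := by simp only [mul_assoc]
    _ = D t i 1 * (t p * D t j 2) * D t k 3 * D t l 4 := by
        rw [a1.eq]; simp only [mul_assoc]
    _ = D t i 1 * D t j 2 * (t (p + 1) * D t k 3) * D t l 4 := by
        rw [a2]; simp only [mul_assoc]
    _ = D t i 1 * D t j 2 * D t k 3 * (t (p + 2) * D t l 4) := by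
        rw [a3]; simp only [mul_assoc]
    _ = D t i 1 * D t j 2 * D t k 3 * D t l 4 * t (p + 3) := by
        rw [a4]; simp only [mul_assoc]

theorem none_0 (h : Brs N t) (i j k l p : ℕ) (h1 : 1 ≤ p) (h2 : p < i) (h3 : i < j) (h4 : j < k)
    (h5 : k < l) (h6 : l ≤ N) : t p * psi t i j k l = psi t i j k l * t (p + 4) := by
  unfold psi
  have a1 := h.D3 (p := p) (a := 1) (by omega) (by omega) i (by omega) (by omega)
  have a2 := h.D3 (p := p + 1) (a := 2) (by omega) (by omega) j (by omega) (by omega)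
  have a3 := h.D3 (p := p + 2) (a := 3) (by omega) (by omega) k (by omega) (by omega)
  have a4 := h.D3 (p := p + 3) (a := 4) (by omega) (by omega) l (by omega) (by omega)
  calc t p * (D t i 1 * D t j 2 * D t k 3 * D t l 4)
      = t p * D t i 1 * D t j 2 * D t k 3 * D t l 4 := by simp only [mul_assoc]
    _ = D t i 1 * (t (p + 1) * D t j 2) * D t k 3 * D t l 4 := by
        rw [a1]; simp only [mul_assoc]
    _ = D t i 1 * D t j 2 * (t (p + 2) * D t k 3) * D t l 4 := by
        rw [a2]; simp only [mul_assoc]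
    _ = D t i 1 * D t j 2 * D t k 3 * (t (p + 3) * D t l 4) := by
        rw [a3]; simp only [mul_assoc]
    _ = D t i 1 * D t j 2 * D t k 3 * D t l 4 * t (p + 4) := by
        rw [a4]; simp only [mul_assoc]

/-- The chain `t 1, ..., t N` and the two boundary curves `s, s'` of `t 1, t 2, t 3`. -/
structure Bas (N : ℕ) (t : ℕ → G) (s s' : G) : Prop where
  br : Brs N t
  ss : Commute s s'
  st : ∀ i, 1 ≤ i → i ≤ N → i ≠ 4 → Commute s (t i)
  st' : ∀ i, 1 ≤ i → i ≤ N → i ≠ 4 → Commute s' (t i)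
  s4 : 4 ≤ N → Brd s (t 4)
  s4' : 4 ≤ N → Brd s' (t 4)

/-- The bounding pair map of the four points `i < j < k < l`. -/
def bp (t : ℕ → G) (s s' : G) (i j k l : ℕ) : G :=
  psi t i j k l * (s * s'⁻¹) * (psi t i j k l)⁻¹

variable {s s' : G}

theorem Bas.x_comm (h : Bas N t s s') (i : ℕ) (h1 : 1 ≤ i) (h2 : i ≤ N) (h3 : i ≠ 4) :
    Commute (t i) (s * s'⁻¹) :=
  ((h.st i h1 h2 h3).symm).mul_right ((h.st' i h1 h2 h3).symm.inv_right)

theorem conj_pass {a b c x : G} (h : a * b = b * c) (hc : Commute c x) :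
    a * (b * x * b⁻¹) * a⁻¹ = b * x * b⁻¹ := by
  have h1 : a = b * c * b⁻¹ := by rw [← h]; group
  rw [h1]
  calc b * c * b⁻¹ * (b * x * b⁻¹) * (b * c * b⁻¹)⁻¹ = b * (c * x) * c⁻¹ * b⁻¹ := by group
    _ = b * (x * c) * c⁻¹ * b⁻¹ := by rw [hc.eq]
    _ = b * x * b⁻¹ := by group

theorem conj_move {a b c x : G} (h : a * b = c) : a * (b * x * b⁻¹) * a⁻¹ = c * x * c⁻¹ := by
  rw [← h]; group

theorem comm_conj {a a' b : G} (hc : Commute a a') (h : Brd a b) (h' : Brd a' b) :
    Commute b ((a * a'⁻¹)⁻¹ * b * (a * a'⁻¹)) := by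
  have e1 : a⁻¹ * b * a = b * a * b⁻¹ := by
    unfold Brd at h
    calc a⁻¹ * b * a = a⁻¹ * (b * a * b) * b⁻¹ := by group
      _ = a⁻¹ * (a * b * a) * b⁻¹ := by rw [h]
      _ = b * a * b⁻¹ := by group
  have e2 : (a * a'⁻¹)⁻¹ * b * (a * a'⁻¹) = (a' * b) * a * (a' * b)⁻¹ := by
    calc (a * a'⁻¹)⁻¹ * b * (a * a'⁻¹) = a' * (a⁻¹ * b * a) * a'⁻¹ := by group
      _ = (a' * b) * a * (a' * b)⁻¹ := by rw [e1]; group
  have e3 : b = (a' * b) * a' * (a' * b)⁻¹ := h'.conj
  rw [e2]
  calc b * (a' * b * a * (a' * b)⁻¹)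
      = ((a' * b) * a' * (a' * b)⁻¹) * (a' * b * a * (a' * b)⁻¹) := by rw [← e3]
    _ = (a' * b) * (a' * a) * (a' * b)⁻¹ := by group
    _ = (a' * b) * (a * a') * (a' * b)⁻¹ := by rw [hc.eq]
    _ = (a' * b * a * (a' * b)⁻¹) * ((a' * b) * a' * (a' * b)⁻¹) := by group
    _ = (a' * b * a * (a' * b)⁻¹) * b := by rw [← e3]

/-- The relation at the crossing `t 4`: with `x = s s'⁻¹` and `y = t_4 x t_4⁻¹` we have
`t_4 y t_4⁻¹ = y x⁻¹ y`. -/
theorem cross_rel {a a' b : G} (hc : Commute a a') (h : Brd a b) (h' : Brd a' b) :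
    b * (b * (a * a'⁻¹) * b⁻¹) * b⁻¹ =
      (b * (a * a'⁻¹) * b⁻¹) * (a * a'⁻¹)⁻¹ * (b * (a * a'⁻¹) * b⁻¹) := by
  have h1 := comm_conj hc h h'
  set x := a * a'⁻¹ with hx
  calc b * (b * x * b⁻¹) * b⁻¹ = (b * x * b⁻¹) * (b * (x⁻¹ * b * x)) * b⁻¹ * b⁻¹ := by group
    _ = (b * x * b⁻¹) * ((x⁻¹ * b * x) * b) * b⁻¹ * b⁻¹ := by rw [h1.eq]
    _ = (b * x * b⁻¹) * x⁻¹ * (b * x * b⁻¹) := by group

/-- For a crossing of `J` there is a `θ` which moves `(0123, t 4)` to `(J, t p)`. -/
theorem theta_l (h : Bas N t s s') (i j k l : ℕ) (h1 : i < j) (h2 : j < k) (h3 : k < l)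
    (h4 : l + 1 ≤ N) : ∃ θ : G, t (l + 1) * θ = θ * t 4 ∧
      θ * (s * s'⁻¹) * θ⁻¹ = bp t s s' i j k l := by
  refine ⟨psi t i j k l * D t (l + 1) 5, ?_, ?_⟩
  · have h5 := h.br.D4 (a := 4) (by omega) l (by omega) (by omega)
    have a1 : Commute (t (l + 1)) (D t i 1) :=
      h.br.D2 (by omega) (by omega) (by omega) (by omega) (by omega)
    have a2 : Commute (t (l + 1)) (D t j 2) :=
      h.br.D2 (by omega) (by omega) (by omega) (by omega) (by omega)
    have a3 : Commute (t (l + 1)) (D t k 3) :=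
      h.br.D2 (by omega) (by omega) (by omega) (by omega) (by omega)
    unfold psi
    calc t (l + 1) * (D t i 1 * D t j 2 * D t k 3 * D t l 4 * D t (l + 1) 5)
        = t (l + 1) * (D t i 1 * D t j 2 * D t k 3) * (D t l 4 * D t (l + 1) 5) := by
          simp only [mul_assoc]
      _ = D t i 1 * D t j 2 * D t k 3 * (t (l + 1) * (D t l 4 * D t (l + 1) 5)) := by
          rw [((a1.mul_right a2).mul_right a3).eq]; simp only [mul_assoc]
      _ = D t i 1 * D t j 2 * D t k 3 * D t l 4 * D t (l + 1) 5 * t 4 := by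
          rw [h5]; simp only [mul_assoc]
  · have hc : Commute (s * s'⁻¹) (D t (l + 1) 5) :=
      D_comm t _ 5 (l + 1) fun i h1 h2 => (h.x_comm i (by omega) (by omega) (by omega)).symm
    unfold bp
    calc psi t i j k l * D t (l + 1) 5 * (s * s'⁻¹) * (psi t i j k l * D t (l + 1) 5)⁻¹
        = psi t i j k l * (D t (l + 1) 5 * (s * s'⁻¹)) * (D t (l + 1) 5)⁻¹ *
          (psi t i j k l)⁻¹ := by group
      _ = psi t i j k l * ((s * s'⁻¹) * D t (l + 1) 5) * (D t (l + 1) 5)⁻¹ *
          (psi t i j k l)⁻¹ := by rw [hc.eq]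
      _ = _ := by group

/-- Raising `l`. -/
theorem raise_l (h : Brs N t) (i j k m : ℕ) (h1 : i < j) (h2 : j < k) (h3 : k < m) (l : ℕ)
    (h4 : m ≤ l) (h5 : l ≤ N) : D t l (m + 1) * psi t i j k m = psi t i j k l := by
  induction l, h4 using Nat.le_induction with
  | base => rw [D_lt t m _ (by omega), one_mul]
  | succ l hl ih =>
    rw [D_succ t l _ (by omega), mul_assoc, ih (by omega), mv_l h i j k l h1 h2 (by omega) h5]

theorem raise_k (h : Brs N t) (i j m l : ℕ) (h1 : i < j) (h2 : j < m) (k : ℕ)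
    (h4 : m ≤ k) (h5 : k ≤ N) : D t k (m + 1) * psi t i j m l = psi t i j k l := by
  induction k, h4 using Nat.le_induction with
  | base => rw [D_lt t m _ (by omega), one_mul]
  | succ k hl ih =>
    rw [D_succ t k _ (by omega), mul_assoc, ih (by omega), mv_k h i j k l h1 (by omega) h5]

theorem raise_j (h : Brs N t) (i m k l : ℕ) (h1 : i < m) (j : ℕ)
    (h4 : m ≤ j) (h5 : j ≤ N) : D t j (m + 1) * psi t i m k l = psi t i j k l := by
  induction j, h4 using Nat.le_induction with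
  | base => rw [D_lt t m _ (by omega), one_mul]
  | succ j hl ih =>
    rw [D_succ t j _ (by omega), mul_assoc, ih (by omega), mv_j h i j k l (by omega) h5]

/-- One step: from the crossing `p + 1` of `J0` to the crossing `p` of `J`. -/
theorem theta_step (h : Bas N t s s') (p q : ℕ) (θ ψ ψ' : G) (c : ℕ) (hp : 1 ≤ p) (hpq : p < q)
    (hq : q ≤ N) (hc1 : 1 ≤ c) (hc2 : c ≤ 3) (hcN : c ≤ N)
    (h1 : t (p + 1) * θ = θ * t 4) (h2 : θ * (s * s'⁻¹) * θ⁻¹ = ψ * (s * s'⁻¹) * ψ⁻¹)
    (h3 : t p * ψ = ψ * t c) (h4 : D t q (p + 1) * ψ = ψ') :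
    ∃ θ : G, t p * θ = θ * t 4 ∧ θ * (s * s'⁻¹) * θ⁻¹ = ψ' * (s * s'⁻¹) * ψ'⁻¹ := by
  refine ⟨D t q p * θ, ?_, ?_⟩
  · rw [← mul_assoc, h.br.D3 hp le_rfl q hpq hq, mul_assoc, h1, ← mul_assoc]
  · have h5 : t p * (ψ * (s * s'⁻¹) * ψ⁻¹) * (t p)⁻¹ = ψ * (s * s'⁻¹) * ψ⁻¹ :=
      conj_pass h3 (h.x_comm c hc1 hcN (by omega))
    calc D t q p * θ * (s * s'⁻¹) * (D t q p * θ)⁻¹
        = D t q p * (θ * (s * s'⁻¹) * θ⁻¹) * (D t q p)⁻¹ := by group
      _ = D t q (p + 1) * (t p * (ψ * (s * s'⁻¹) * ψ⁻¹) * (t p)⁻¹) * (D t q (p + 1))⁻¹ := by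
          rw [h2, D_last t p hp q (by omega)]; group
      _ = (D t q (p + 1) * ψ) * (s * s'⁻¹) * (D t q (p + 1) * ψ)⁻¹ := by rw [h5]; group
      _ = _ := by rw [h4]

theorem theta_k (h : Bas N t s s') (i j k l : ℕ) (h1 : i < j) (h2 : j < k) (h3 : k + 1 < l)
    (h4 : l ≤ N) : ∃ θ : G, t (k + 1) * θ = θ * t 4 ∧
      θ * (s * s'⁻¹) * θ⁻¹ = bp t s s' i j k l := by
  obtain ⟨θ, e1, e2⟩ := theta_l h i j k (k + 1) h1 h2 (by omega) (by omega)
  exact theta_step h (k + 1) l θ (psi t i j k (k + 1)) (psi t i j k l) 3 (by omega) h3 h4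
    (by omega) (by omega) (by omega) e1 e2 (both_kl h.br i j k h1 h2 (by omega))
    (raise_l h.br i j k (k + 1) h1 h2 (by omega) l (by omega) h4)

theorem theta_j (h : Bas N t s s') (i j k l : ℕ) (h1 : i < j) (h2 : j + 1 < k) (h3 : k < l)
    (h4 : l ≤ N) : ∃ θ : G, t (j + 1) * θ = θ * t 4 ∧
      θ * (s * s'⁻¹) * θ⁻¹ = bp t s s' i j k l := by
  obtain ⟨θ, e1, e2⟩ := theta_k h i j (j + 1) l h1 (by omega) (by omega) h4
  exact theta_step h (j + 1) k θ (psi t i j (j + 1) l) (psi t i j k l) 2 (by omega) h2 (by omega)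
    (by omega) (by omega) (by omega) e1 e2 (both_jk h.br i j l h1 (by omega) h4)
    (raise_k h.br i j (j + 1) l h1 (by omega) k (by omega) (by omega))

theorem theta_i (h : Bas N t s s') (i j k l : ℕ) (h1 : i + 1 < j) (h2 : j < k) (h3 : k < l)
    (h4 : l ≤ N) : ∃ θ : G, t (i + 1) * θ = θ * t 4 ∧
      θ * (s * s'⁻¹) * θ⁻¹ = bp t s s' i j k l := by
  obtain ⟨θ, e1, e2⟩ := theta_j h i (i + 1) k l (by omega) (by omega) (by omega) h4
  exact theta_step h (i + 1) j θ (psi t i (i + 1) k l) (psi t i j k l) 1 (by omega) h1 (by omega)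
    (by omega) (by omega) (by omega) e1 e2 (both_ij h.br i k l (by omega) (by omega) h4)
    (raise_j h.br i (i + 1) k l (by omega) j (by omega) (by omega))

/-- The relation for a crossing. -/
theorem cross_bp (h : Bas N t s s') (hN : 4 ≤ N) (p : ℕ) (x : G)
    (hθ : ∃ θ : G, t p * θ = θ * t 4 ∧ θ * (s * s'⁻¹) * θ⁻¹ = x) :
    t p * (t p * x * (t p)⁻¹) * (t p)⁻¹ = (t p * x * (t p)⁻¹) * x⁻¹ * (t p * x * (t p)⁻¹) := by
  obtain ⟨θ, e1, e2⟩ := hθ
  have e3 : t p = θ * t 4 * θ⁻¹ := by rw [← e1]; group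
  have e4 := cross_rel h.ss (h.s4 hN) (h.s4' hN)
  rw [← e2, e3]
  set b := t 4
  set y := s * s'⁻¹
  calc θ * b * θ⁻¹ * (θ * b * θ⁻¹ * (θ * y * θ⁻¹) * (θ * b * θ⁻¹)⁻¹) * (θ * b * θ⁻¹)⁻¹
      = θ * (b * (b * y * b⁻¹) * b⁻¹) * θ⁻¹ := by group
    _ = θ * ((b * y * b⁻¹) * y⁻¹ * (b * y * b⁻¹)) * θ⁻¹ := by rw [e4]
    _ = _ := by group

/-- `t p (BP_J) (t p)⁻¹` is a word in the `BP`: if all `BP_J` lie in the subgroup `K`, then all
`t p (BP_J) (t p)⁻¹` lie in `K`. -/
theorem bp_normal (h : Bas N t s s') (hN : 4 ≤ N) (K : Subgroup G)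
    (hK : ∀ i j k l, i < j → j < k → k < l → l ≤ N → bp t s s' i j k l ∈ K)
    (p : ℕ) (hp1 : 1 ≤ p) (hp2 : p ≤ N) (i j k l : ℕ) (h1 : i < j) (h2 : j < k) (h3 : k < l)
    (h4 : l ≤ N) : t p * bp t s s' i j k l * (t p)⁻¹ ∈ K := by
  have hb := h.br
  -- the case of a `BP` which commutes with `t p`
  have pass : ∀ c, t p * psi t i j k l = psi t i j k l * t c → 1 ≤ c → c ≤ N → c ≠ 4 →
      t p * bp t s s' i j k l * (t p)⁻¹ ∈ K := by
    intro c h5 h6 h7 h8
    rw [show t p * bp t s s' i j k l * (t p)⁻¹ = bp t s s' i j k l from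
      conj_pass h5 (h.x_comm c h6 h7 h8)]
    exact hK i j k l h1 h2 h3 h4
  -- the case of a move
  have move : ∀ i' j' k' l', i' < j' → j' < k' → k' < l' → l' ≤ N →
      t p * psi t i j k l = psi t i' j' k' l' → t p * bp t s s' i j k l * (t p)⁻¹ ∈ K := by
    intro i' j' k' l' a1 a2 a3 a4 h5
    rw [show t p * bp t s s' i j k l * (t p)⁻¹ = bp t s s' i' j' k' l' from conj_move h5]
    exact hK _ _ _ _ a1 a2 a3 a4
  -- the case of a crossing
  have cross : ∀ i' j' k' l', i' < j' → j' < k' → k' < l' → l' ≤ N →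
      t p * psi t i' j' k' l' = psi t i j k l →
      (∃ θ : G, t p * θ = θ * t 4 ∧ θ * (s * s'⁻¹) * θ⁻¹ = bp t s s' i' j' k' l') →
      t p * bp t s s' i j k l * (t p)⁻¹ ∈ K := by
    intro i' j' k' l' a1 a2 a3 a4 h5 hθ
    have h6 : t p * bp t s s' i' j' k' l' * (t p)⁻¹ = bp t s s' i j k l := conj_move h5
    have h7 := cross_bp h hN p _ hθ
    rw [h6] at h7
    rw [h7]
    exact K.mul_mem (K.mul_mem (hK i j k l h1 h2 h3 h4) (K.inv_mem (hK _ _ _ _ a1 a2 a3 a4)))
      (hK i j k l h1 h2 h3 h4)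
  rcases lt_trichotomy p i with hi | hi | hi
  · exact pass (p + 4) (none_0 hb i j k l p hp1 hi h1 h2 h3 h4) (by omega) (by omega) (by omega)
  · subst hi
    obtain ⟨i', rfl⟩ : ∃ i', p = i' + 1 := ⟨p - 1, by omega⟩
    exact cross i' j k l (by omega) h2 h3 h4 (mv_i t i' j k l) (theta_i h i' j k l h1 h2 h3 h4)
  by_cases hi1 : p = i + 1
  · subst hi1
    by_cases hj : j = i + 1
    · subst hj
      exact pass 1 (both_ij hb i k l h2 h3 h4) (by omega) (by omega) (by omega)
    · exact move (i + 1) j k l (by omega) h2 h3 h4 (mv_i t i j k l)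
  rcases lt_trichotomy p j with hj | hj | hj
  · exact pass (p + 3) (none_i hb i j k l p (by omega) hj h2 h3 h4) (by omega) (by omega)
      (by omega)
  · subst hj
    obtain ⟨j', rfl⟩ : ∃ j', p = j' + 1 := ⟨p - 1, by omega⟩
    exact cross i j' k l (by omega) (by omega) h3 h4 (mv_j hb i j' k l (by omega) (by omega))
      (theta_j h i j' k l (by omega) h2 h3 h4)
  by_cases hj1 : p = j + 1
  · subst hj1
    by_cases hk : k = j + 1
    · subst hk
      exact pass 2 (both_jk hb i j l h1 h3 h4) (by omega) (by omega) (by omega)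
    · exact move i (j + 1) k l (by omega) (by omega) h3 h4 (mv_j hb i j k l h1 (by omega))
  rcases lt_trichotomy p k with hk | hk | hk
  · exact pass (p + 2) (none_j hb i j k l p h1 (by omega) hk h3 h4) (by omega) (by omega)
      (by omega)
  · subst hk
    obtain ⟨k', rfl⟩ : ∃ k', p = k' + 1 := ⟨p - 1, by omega⟩
    exact cross i j k' l h1 (by omega) (by omega) h4 (mv_k hb i j k' l h1 (by omega) (by omega))
      (theta_k h i j k' l h1 (by omega) h3 h4)
  by_cases hk1 : p = k + 1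
  · subst hk1
    by_cases hl : l = k + 1
    · subst hl
      exact pass 3 (both_kl hb i j k h1 h2 h4) (by omega) (by omega) (by omega)
    · exact move i j (k + 1) l h1 (by omega) (by omega) h4 (mv_k hb i j k l h1 h2 (by omega))
  rcases lt_trichotomy p l with hl | hl | hl
  · exact pass (p + 1) (none_k hb i j k l p h1 h2 (by omega) hl h4) (by omega) (by omega)
      (by omega)
  · subst hl
    obtain ⟨l', rfl⟩ : ∃ l', p = l' + 1 := ⟨p - 1, by omega⟩
    exact cross i j k l' h1 h2 (by omega) (by omega)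
      (mv_l hb i j k l' h1 h2 (by omega) (by omega)) (theta_l h i j k l' h1 h2 (by omega) h4)
  by_cases hl1 : p = l + 1
  · subst hl1
    exact move i j k (l + 1) h1 h2 (by omega) (by omega) (mv_l hb i j k l h1 h2 h3 (by omega))
  · exact pass p (none_l hb i j k l p h1 h2 h3 (by omega) hp2) (by omega) hp2 (by omega)

end bp

end Pool.Agent.LJ
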