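import Pool.Agent.LJ.Vfix
import Pool.Agent.LJ.Bp

set_option linter.all false

namespace Pool.Agent.LJ

open Pool.Agent.HG13

variable {g n : ℕ} {G : Type*} [Group G] {V : Type*} [AddCommGroup V] [Module ℂ V]

section allbp

variable (S : Tw g n G) (P : PR S) (ρ : G →* Module.End ℂ V)

theorem Dt_mem {h : ℕ} (q a : ℕ) (hq : q ≤ 2 * h) (ha : 1 ≤ a) : D (tc S) q a ∈ Bh S h := by
  induction q with
  | zero => exact (Bh S h).one_mem
  | succ q ih =>
    by_cases h1 : a ≤ q + 1
    · rw [D_succ _ _ _ h1]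
      exact (Bh S h).mul_mem (Subgroup.subset_closure ⟨q + 1, by omega, hq, rfl⟩) (ih (by omega))
    · rw [D_lt _ _ _ (by omega)]; exact (Bh S h).one_mem

theorem psi_mem {h : ℕ} {i j k l : ℕ} (h1 : i < j) (h2 : j < k) (h3 : k < l) (h4 : l ≤ 2 * h) :
    psi (tc S) i j k l ∈ Bh S h := by
  unfold psi
  exact (Bh S h).mul_mem ((Bh S h).mul_mem ((Bh S h).mul_mem (Dt_mem S _ _ (by omega) (by omega))
    (Dt_mem S _ _ (by omega) (by omega))) (Dt_mem S _ _ (by omega) (by omega)))
    (Dt_mem S _ _ (by omega) (by omega))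

include P

/-- The chain `t_1, ..., t_(2g)` satisfies the braid relations. -/
theorem brs_tc : Brs (2 * g) (tc S) := by
  refine ⟨fun i h1 h2 => tc_brd S P h1 h2, ?_⟩
  intro i k h1 h2 h3
  rcases Nat.mod_two_eq_zero_or_one i with hi | hi <;>
  rcases Nat.mod_two_eq_zero_or_one k with hk | hk
  · rw [tc_even S P (show i = 2 * (i / 2 - 1) + 2 by omega),
      tc_even S P (show k = 2 * (k / 2 - 1) + 2 by omega)]
    exact P.BB _ _ (by omega) (by omega)
  · rw [tc_even S P (show i = 2 * (i / 2 - 1) + 2 by omega), tc_odd S P hk]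
    have := lo_spec hk
    exact (P.TB _ _ _ (by omega) (by omega) (by omega) (by omega)).symm
  · rw [tc_even S P (show k = 2 * (k / 2 - 1) + 2 by omega), tc_odd S P hi]
    have := lo_spec hi
    exact P.TB _ _ _ (by omega) (by omega) (by omega) (by omega)
  · rw [tc_odd S P hi, tc_odd S P hk]
    have := lo_spec hi
    have := lo_spec hk
    exact P.TT _ _ _ _ (by omega) (by omega) (by omega) (by omega) (by omega)

/-- Moving one step. -/
theorem mv_fix {t x y p : G} {v : V} (ht : ρ t v = v) (hp : t * x = y)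
    (hx : ρ (x * p * x⁻¹) v = v) : ρ (y * p * y⁻¹) v = v := by
  have e : y * p * y⁻¹ = t * (x * p * x⁻¹) * t⁻¹ := by rw [← hp]; group
  rw [e]
  exact mul_fix ρ (mul_fix ρ ht hx) (inv_fix ρ ht)

/-- All genus one bounding pair maps fix the slot vectors on the first handles. -/
theorem all_bp {j : ℕ} (hM : Mn S ρ j) (hg : 2 * j + 3 ≤ g) {v : V}
    (hv : KA S ρ (Finset.range j) v) :
    ∀ N a b c d : ℕ, a + b + c + d = N → a < b → b < c → c < d → d ≤ 2 * g →
      ρ (bp (tc S) (S.T 2 3) (S.T 0 3) a b c d) v = v := by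
  have ht : ∀ p, 2 * j + 1 ≤ p → p ≤ 2 * g → ρ (tc S p) v = v := by
    intro p h1 h2
    rcases Nat.mod_two_eq_zero_or_one p with hp | hp
    · rw [tc_even S P (show p = 2 * (p / 2 - 1) + 2 by omega)]
      apply hv.B _ (by omega)
      rw [Finset.mem_range]; omega
    · rw [tc_odd S P hp]
      exact hv.T _ _ (lo_lt hp) (by omega)
  have hb := brs_tc S P
  intro N
  induction N using Nat.strong_induction_on with
  | _ N ih =>
    intro a b c d hN h1 h2 h3 h4
    by_cases hd : d ≤ 2 * (j + 2)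
    · exact fixBP S P ρ hM (h := j + 2) (by omega) (by omega) (psi_mem S h1 h2 h3 hd)
        (by rw [Finset.card_range]) hv
    · by_cases e1 : c + 1 < d
      · obtain ⟨d', rfl⟩ : ∃ d', d = d' + 1 := ⟨d - 1, by omega⟩
        exact mv_fix S P ρ (ht (d' + 1) (by omega) h4) (mv_l hb a b c d' h1 h2 (by omega) h4)
          (ih _ (by omega) a b c d' rfl h1 h2 (by omega) (by omega))
      · by_cases e2 : b + 1 < c
        · obtain ⟨c', rfl⟩ : ∃ c', c = c' + 1 := ⟨c - 1, by omega⟩
          exact mv_fix S P ρ (ht (c' + 1) (by omega) (by omega))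
            (mv_k hb a b c' d h1 (by omega) (by omega))
            (ih _ (by omega) a b c' d rfl h1 (by omega) (by omega) (by omega))
        · by_cases e3 : a + 1 < b
          · obtain ⟨b', rfl⟩ : ∃ b', b = b' + 1 := ⟨b - 1, by omega⟩
            exact mv_fix S P ρ (ht (b' + 1) (by omega) (by omega))
              (mv_j hb a b' c d (by omega) (by omega))
              (ih _ (by omega) a b' c d rfl (by omega) (by omega) (by omega) (by omega))
          · obtain ⟨a', rfl⟩ : ∃ a', a = a' + 1 := ⟨a - 1, by omega⟩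
            exact mv_fix S P ρ (ht (a' + 1) (by omega) (by omega)) (mv_i (tc S) a' b c d)
              (ih _ (by omega) a' b c d rfl (by omega) (by omega) (by omega) (by omega))

/-- Every slot vector can be moved to the first handles. -/
theorem to_range {j : ℕ} (hM : Mn S ρ j) :
    ∀ k : ℕ, ∀ A : Finset ℕ, A.card = j → (A.filter (fun q => j ≤ q)).card = k →
      ∀ v : V, KA S ρ A v → v ≠ 0 → ∃ v' : V, v' ≠ 0 ∧ KA S ρ (Finset.range j) v' := by
  intro k
  induction k with
  | zero =>
    intro A hA hk v hv hv0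
    have h1 : A ⊆ Finset.range j := by
      intro q hq
      rw [Finset.mem_range]
      by_contra hcon
      push Not at hcon
      have : q ∈ A.filter (fun q => j ≤ q) := Finset.mem_filter.mpr ⟨hq, hcon⟩
      rw [Finset.card_eq_zero.mp hk] at this
      simp at this
    have h2 : A = Finset.range j := Finset.eq_of_subset_of_card_le h1 (by rw [hA, Finset.card_range])
    exact ⟨v, hv0, h2 ▸ hv⟩
  | succ k ih =>
    intro A hA hk v hv hv0
    have hne : (A.filter (fun q => j ≤ q)).Nonempty := Finset.card_pos.mp (by omega)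
    obtain ⟨l, hl⟩ := hne
    obtain ⟨hlA, hjl⟩ := Finset.mem_filter.mp hl
    have hex : ∃ y, y < j ∧ y ∉ A := by
      by_contra hcon
      push Not at hcon
      have h1 : insert l (Finset.range j) ⊆ A := by
        intro q hq
        rw [Finset.mem_insert, Finset.mem_range] at hq
        rcases hq with rfl | hq
        · exact hlA
        · exact hcon q hq
      have h2 := Finset.card_le_card h1
      rw [Finset.card_insert_of_notMem (by rw [Finset.mem_range]; omega), Finset.card_range] at h2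
      omega
    obtain ⟨y, hyj, hyA⟩ := hex
    have hlg := hv.sub l hlA
    have hyg : y < g := by omega
    have hMA : Mn S ρ A.card := by rw [hA]; exact hM
    have hw := tr_mem S P ρ hMA hv hlA hyA hyg
    have hback := tr_back S P ρ hMA hv hlA hyA hyg
    have hw0 : tr S ρ l y v ≠ 0 := by
      intro h0
      rw [h0] at hback
      apply hv0
      rw [← hback]
      simp [tr]
    have hcard : (mv A l y).card = j := by rw [mv_card hlA hyA, hA]
    refine ih (mv A l y) hcard ?_ _ hw hw0
    have e1 : (mv A l y).filter (fun q => j ≤ q) = (A.filter (fun q => j ≤ q)).erase l := by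
      unfold mv
      ext q
      simp only [Finset.mem_filter, Finset.mem_insert, Finset.mem_erase]
      constructor
      · rintro ⟨a | ⟨a, b⟩, c⟩
        · omega
        · exact ⟨a, b, c⟩
      · rintro ⟨a, b, c⟩
        exact ⟨Or.inr ⟨a, b⟩, c⟩
    rw [e1, Finset.card_erase_of_mem hl, hk]
    rfl

/-- THEOREM (V), final form: if there is a slot vector with at most `m` slots and `2m + 3 ≤ g` then
a vector is fixed by all `BP_J`. -/
theorem exists_fixed {m : ℕ} (hg : 2 * m + 3 ≤ g)
    (hex : ∃ A : Finset ℕ, A.card ≤ m ∧ ∃ v : V, v ≠ 0 ∧ KA S ρ A v) :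
    ∃ j : ℕ, j ≤ m ∧ Mn S ρ j ∧ ∃ v : V, v ≠ 0 ∧ KA S ρ (Finset.range j) v ∧
      ∀ a b c d : ℕ, a < b → b < c → c < d → d ≤ 2 * g →
        ρ (bp (tc S) (S.T 2 3) (S.T 0 3) a b c d) v = v := by
  classical
  have hex2 : ∃ j : ℕ, ∃ A : Finset ℕ, A.card = j ∧ ∃ v : V, v ≠ 0 ∧ KA S ρ A v := by
    obtain ⟨A, _, v, hv⟩ := hex
    exact ⟨A.card, A, rfl, v, hv⟩
  obtain ⟨A, hA, v, hv0, hv⟩ := Nat.find_spec hex2
  have hmin : Mn S ρ (Nat.find hex2) := by
    intro A' hA' v' hv'
    by_contra hcon
    exact Nat.find_min hex2 hA' ⟨A', rfl, v', hcon, hv'⟩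
  have hle : Nat.find hex2 ≤ m := by
    obtain ⟨A', hA', v', hv'⟩ := hex
    exact le_trans (Nat.find_min' hex2 ⟨A', rfl, v', hv'⟩) hA'
  obtain ⟨v', hv0', hv'⟩ := to_range S P ρ hmin _ A hA rfl v hv hv0
  exact ⟨_, hle, hmin, v', hv0', hv', fun a b c d h1 h2 h3 h4 =>
    all_bp S P ρ hmin (by omega) hv' _ a b c d rfl h1 h2 h3 h4⟩

end allbp

end Pool.Agent.LJ
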