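import Pool.Agent.LJ.Defs

set_option linter.all false

namespace Pool.Agent.LJ

open Pool.Agent.HG13

variable {g n : ℕ} {G : Type*} [Group G] {V : Type*} [AddCommGroup V] [Module ℂ V]

section act

variable (ρ : G →* Module.End ℂ V)

theorem mm (x y : G) (v : V) : ρ (x * y) v = ρ x (ρ y v) := by
  rw [map_mul, Module.End.mul_apply]

theorem one_act (v : V) : ρ 1 v = v := by
  rw [map_one, Module.End.one_apply]

theorem inv_act (x : G) (v : V) : ρ x⁻¹ (ρ x v) = v := by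
  rw [← mm]; simp

theorem act_inv (x : G) (v : V) : ρ x (ρ x⁻¹ v) = v := by
  rw [← mm]; simp

theorem act_inj (x : G) {v w : V} (h : ρ x v = ρ x w) : v = w := by
  rw [← inv_act ρ x v, h, inv_act]

theorem inv_fix {x : G} {v : V} (h : ρ x v = v) : ρ x⁻¹ v = v := by
  have := inv_act ρ x v
  rwa [h] at this

/-- `x v = w` gives `x⁻¹ w = v` -/
theorem inv_eq {x : G} {v w : V} (h : ρ x v = w) : ρ x⁻¹ w = v := by
  rw [← h, inv_act]

theorem mul_fix {x y : G} {v : V} (hx : ρ x v = v) (hy : ρ y v = v) : ρ (x * y) v = v := by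
  rw [mm, hy, hx]

theorem com_act {x y : G} (h : Commute x y) (v : V) : ρ x (ρ y v) = ρ y (ρ x v) := by
  rw [← mm, h.eq, mm]

theorem brd_act {x y : G} (h : Brd x y) (v : V) : ρ x (ρ y (ρ x v)) = ρ y (ρ x (ρ y v)) := by
  have h' : x * y * x = y * x * y := h
  rw [← mm, ← mm, ← mm, ← mm, h']

/-- The trick. -/
theorem trick {lam tau b : G} (h : Brd lam b) (hc : Commute tau b) {D : V} (hb : ρ b D = D)
    (he : ρ lam D = ρ tau D) : ρ tau D = D ∧ ρ lam D = D := by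
  have h1 := brd_act ρ h D
  rw [hb, he, ← com_act ρ hc, hb] at h1
  -- h1 : ρ lam (ρ tau D) = ρ tau D
  have h2 : ρ tau D = D := by
    apply act_inj ρ lam
    rw [h1, he]
  exact ⟨h2, by rw [he, h2]⟩

/-- The trick for `lam tau⁻¹ D = D` where `lam`, `tau` commute. -/
theorem trick2 {lam tau b : G} (h : Brd lam b) (hc : Commute tau b) (hlt : Commute lam tau) {D : V}
    (hb : ρ b D = D) (he : ρ (lam * tau⁻¹) D = D) : ρ tau D = D ∧ ρ lam D = D := by
  apply trick ρ h hc hb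
  rw [(hlt.inv_right).eq, mm] at he
  have := congrArg (ρ tau) he
  rwa [act_inv] at this

/-- Formal (f3). -/
theorem f3 {x b : G} (h : Brd x b) {v : V} (hx : ρ x v = v)
    (hb : ρ b (ρ b v - v) = ρ b v - v) :
    ρ x (ρ x (ρ b v - v) - (ρ b v - v)) = ρ x (ρ b v - v) - (ρ b v - v) ∧
    ρ b (ρ x (ρ b v - v) - (ρ b v - v)) = (ρ x (ρ b v - v) - (ρ b v - v)) - (ρ b v - v) := by
  obtain ⟨xi, hxi⟩ : ∃ xi, xi = ρ b v - v := ⟨_, rfl⟩
  obtain ⟨z, hz⟩ : ∃ z, z = ρ x xi - xi := ⟨_, rfl⟩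
  have hbv : ρ b v = v + xi := by rw [hxi]; abel
  have hxxi : ρ x xi = xi + z := by rw [hz]; abel
  rw [← hxi, ← hz]
  rw [← hxi] at hb
  have hbz : ρ b z = z - xi := by
    have h1 := brd_act ρ h v
    simp only [map_add, hx, hbv, hxxi, hb] at h1
    have e : ρ b z = (v + xi + (xi + ρ b z)) - (v + xi + xi) := by abel
    rw [e, ← h1]; abel
  refine ⟨?_, hbz⟩
  have h1 := brd_act ρ h xi
  simp only [map_add, hx, hxxi, hb, hbz, map_sub] at h1
  have e : ρ x z = xi + z + (ρ x z - (xi + z)) := by abel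
  rw [e, h1]; abel

/-- Relation of the slots: `a b v = b v - v`, `a v = v` and the braid relation. -/
theorem slot {a b : G} (h : Brd a b) {v : V} (ha : ρ a v = v) (hL : ρ a (ρ b v) = ρ b v - v) :
    ρ b (ρ b v - v) = ρ b v - v ∧ ρ a (ρ b v - v) = (ρ b v - v) - v := by
  constructor
  · have h1 := brd_act ρ h v
    rw [ha, hL] at h1
    exact h1.symm
  · rw [map_sub, ha, hL]

end act

section KAlem

variable (S : Tw g n G) (ρ : G →* Module.End ℂ V)

theorem KA.zero {A : Finset ℕ} (hA : ∀ q ∈ A, q < g) : KA S ρ A (0 : V) :=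
  ⟨hA, fun _ _ _ _ => map_zero _, fun _ _ _ => map_zero _, fun _ _ => by simp⟩

theorem KA.add {A : Finset ℕ} {v w : V} (hv : KA S ρ A v) (hw : KA S ρ A w) :
    KA S ρ A (v + w) :=
  ⟨hv.sub, fun s t h1 h2 => by rw [map_add, hv.T s t h1 h2, hw.T s t h1 h2],
    fun r h1 h2 => by rw [map_add, hv.B r h1 h2, hw.B r h1 h2],
    fun q hq => by rw [map_add, map_add, hv.L q hq, hw.L q hq]; abel⟩

theorem KA.sub' {A : Finset ℕ} {v w : V} (hv : KA S ρ A v) (hw : KA S ρ A w) :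
    KA S ρ A (v - w) :=
  ⟨hv.sub, fun s t h1 h2 => by rw [map_sub, hv.T s t h1 h2, hw.T s t h1 h2],
    fun r h1 h2 => by rw [map_sub, hv.B r h1 h2, hw.B r h1 h2],
    fun q hq => by rw [map_sub, map_sub, hv.L q hq, hw.L q hq]; abel⟩

/-- The local relations at a slot. -/
theorem KA.xi (P : PR S) {A : Finset ℕ} {v : V} (hv : KA S ρ A v) {l : ℕ} (hl : l ∈ A) :
    ρ (S.B l) (ρ (S.B l) v - v) = ρ (S.B l) v - v ∧
    ρ (S.T (2 * l) (2 * l + 1)) (ρ (S.B l) v - v) = (ρ (S.B l) v - v) - v :=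
  slot ρ (P.TBe l (2 * l) (hv.sub l hl) (by omega))
    (hv.T _ _ (by omega) (by have := hv.sub l hl; omega)) (hv.L l hl)

/-- A twist which commutes with `B l` fixes `B l v - v`. -/
theorem KA.com {A : Finset ℕ} {v : V} (hv : KA S ρ A v) {l : ℕ} {x : G} (hx : ρ x v = v)
    (hc : Commute x (S.B l)) : ρ x (ρ (S.B l) v - v) = ρ (S.B l) v - v := by
  rw [map_sub, com_act ρ hc, hx]

end KAlem

/-- Twists around one foot commute with all planar twists. -/
theorem PR.aT {S : Tw g n G} (P : PR S) {j s t : ℕ} (hj : j < g) (hst : s < t)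
    (ht : t ≤ 2 * g + n) : Commute (S.T s t) (S.T (2 * j) (2 * j + 1)) := by
  by_cases h : 2 * j + 1 ≤ s
  · exact (P.TT _ _ _ _ (by omega) (by omega) hst ht (Or.inl h)).symm
  · by_cases h' : t ≤ 2 * j
    · exact P.TT _ _ _ _ hst ht (by omega) (by omega) (Or.inl h')
    · exact P.TT _ _ _ _ hst ht (by omega) (by omega) (Or.inr ⟨by omega, by omega⟩)

/-- `T s t` commutes with `B i` unless `s` or `t` is `2i+1`. -/
theorem PR.tb {S : Tw g n G} (P : PR S) {s t i : ℕ} (hst : s < t) (ht : t ≤ 2 * g + n)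
    (hi : i < g) (h1 : s ≠ 2 * i + 1) (h2 : t ≠ 2 * i + 1) : Commute (S.T s t) (S.B i) :=
  P.TB s t i hst ht hi (by omega)

end Pool.Agent.LJ
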