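import Pool.Agent.LJ.Vec

set_option linter.all false

namespace Pool.Agent.LJ

open Pool.Agent.HG13

variable {g n : ℕ} {G : Type*} [Group G] {V : Type*} [AddCommGroup V] [Module ℂ V]

/-- If the commutators fix `(x - 1) z` for all generators `x`, and the generators commute on `z`,
then all commutators fix `z`. -/
theorem comm_fix (ρ : G →* Module.End ℂ V) (X : Set G) (C : Subgroup G) (z : V)
    (hcomm : ∀ a ∈ Subgroup.closure X, ∀ b ∈ Subgroup.closure X, a * b * a⁻¹ * b⁻¹ ∈ C)
    (hnorm : ∀ a ∈ Subgroup.closure X, ∀ c ∈ C, a * c * a⁻¹ ∈ C)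
    (hf : ∀ x ∈ X, ∀ c ∈ C, ρ c (ρ x z - z) = ρ x z - z)
    (hq : ∀ x ∈ X, ∀ y ∈ X, ρ x (ρ y z) = ρ y (ρ x z)) :
    ∀ a ∈ Subgroup.closure X, ∀ b ∈ Subgroup.closure X, ρ (a * b * a⁻¹ * b⁻¹) z = z := by
  have hmv : ∀ a ∈ Subgroup.closure X, ∀ f : V, (∀ c ∈ C, ρ c f = f) → ∀ c ∈ C,
      ρ c (ρ a f) = ρ a f := by
    intro a ha f hf c hc
    have h1 := hnorm a⁻¹ ((Subgroup.closure X).inv_mem ha) c hc
    rw [inv_inv] at h1
    have h2 := hf _ h1
    have h3 : ρ c (ρ a f) = ρ a (ρ (a⁻¹ * c * a) f) := by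
      rw [← mm, ← mm]; congr 2; group
    rw [h3, h2]
  have hF : ∀ a ∈ Subgroup.closure X, ∀ c ∈ C, ρ c (ρ a z - z) = ρ a z - z := by
    intro a ha
    induction ha using Subgroup.closure_induction with
    | mem x hx => exact hf x hx
    | one => intro c hc; rw [one_act, sub_self, map_zero]
    | mul x y hx hy h1 h2 =>
      intro c hc
      have e : ρ (x * y) z - z = ρ x (ρ y z - z) + (ρ x z - z) := by
        rw [mm, map_sub]; abel
      rw [e, map_add, hmv x hx _ h2 c hc, h1 c hc]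
    | inv x hx h1 =>
      intro c hc
      have e : ρ x⁻¹ z - z = -(ρ x⁻¹ (ρ x z - z)) := by
        rw [map_sub, inv_act]; abel
      rw [e, map_neg, hmv x⁻¹ ((Subgroup.closure X).inv_mem hx) _ h1 c hc]
  have hsw : ∀ a ∈ Subgroup.closure X, ∀ b ∈ Subgroup.closure X, ∀ f : V,
      (∀ c ∈ C, ρ c f = f) → ρ a (ρ b f) = ρ b (ρ a f) := by
    intro a ha b hb f hf
    have h1 := hcomm a⁻¹ ((Subgroup.closure X).inv_mem ha) b⁻¹ ((Subgroup.closure X).inv_mem hb)
    have h2 := hf _ h1
    have h3 : ρ a (ρ b f) = ρ b (ρ a (ρ (a⁻¹ * b⁻¹ * a⁻¹⁻¹ * b⁻¹⁻¹) f)) := by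
      rw [← mm, ← mm, ← mm]; congr 2; group
    rw [h3, h2]
  have hmul : ∀ b ∈ Subgroup.closure X, ∀ a ∈ Subgroup.closure X, ∀ a' ∈ Subgroup.closure X,
      ρ a (ρ b z) = ρ b (ρ a z) → ρ a' (ρ b z) = ρ b (ρ a' z) →
      ρ (a * a') (ρ b z) = ρ b (ρ (a * a') z) := by
    intro b hb a ha a' ha' h1 h2
    have hz : ρ a' z = z + (ρ a' z - z) := by abel
    rw [mm, mm, h2, hz, map_add, map_add, h1, hsw a ha b hb _ (hF a' ha'), map_add, map_add]
  have hinv : ∀ b ∈ Subgroup.closure X, ∀ a ∈ Subgroup.closure X,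
      ρ a (ρ b z) = ρ b (ρ a z) → ρ a⁻¹ (ρ b z) = ρ b (ρ a⁻¹ z) := by
    intro b hb a ha h1
    apply act_inj ρ a
    rw [act_inv]
    have hz : ρ a⁻¹ z = z + (ρ a⁻¹ z - z) := by abel
    have h2 := hsw a ha b hb _ (hF a⁻¹ ((Subgroup.closure X).inv_mem ha))
    calc ρ b z = ρ b (ρ a (ρ a⁻¹ z)) := by rw [act_inv]
      _ = ρ b (ρ a (z + (ρ a⁻¹ z - z))) := by rw [← hz]
      _ = ρ a (ρ b (z + (ρ a⁻¹ z - z))) := by
          rw [map_add, map_add, map_add, map_add, h1, h2]
      _ = ρ a (ρ b (ρ a⁻¹ z)) := by rw [← hz]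
  have h1 : ∀ b ∈ X, ∀ a ∈ Subgroup.closure X, ρ a (ρ b z) = ρ b (ρ a z) := by
    intro b hb a ha
    have hb' := Subgroup.subset_closure (k := X) hb
    induction ha using Subgroup.closure_induction with
    | mem x hx => exact hq x hx b hb
    | one => rw [one_act, one_act]
    | mul x y hx hy h3 h4 => exact hmul b hb' x hx y hy h3 h4
    | inv x hx h3 => exact hinv b hb' x hx h3
  have h2 : ∀ a ∈ Subgroup.closure X, ∀ b ∈ Subgroup.closure X, ρ a (ρ b z) = ρ b (ρ a z) := by
    intro a ha b hb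
    induction ha using Subgroup.closure_induction with
    | mem x hx => exact (h1 x hx b hb).symm
    | one => rw [one_act, one_act]
    | mul x y hx hy h3 h4 => exact hmul b hb x hx y hy h3 h4
    | inv x hx h3 => exact hinv b hb x hx h3
  intro a ha b hb
  have hi : a⁻¹ * b⁻¹ ∈ Subgroup.closure X :=
    (Subgroup.closure X).mul_mem ((Subgroup.closure X).inv_mem ha) ((Subgroup.closure X).inv_mem hb)
  have hz : ρ (a⁻¹ * b⁻¹) z = z + (ρ (a⁻¹ * b⁻¹) z - z) := by abel
  have h3 := hsw a ha b hb _ (hF _ hi)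
  calc ρ (a * b * a⁻¹ * b⁻¹) z = ρ a (ρ b (ρ (a⁻¹ * b⁻¹) z)) := by
        rw [← mm, ← mm]; congr 2; group
    _ = ρ a (ρ b (z + (ρ (a⁻¹ * b⁻¹) z - z))) := by rw [← hz]
    _ = ρ b (ρ a (z + (ρ (a⁻¹ * b⁻¹) z - z))) := by
        rw [map_add, map_add, map_add, map_add, h2 a ha b hb, h3]
    _ = ρ b (ρ a (ρ (a⁻¹ * b⁻¹) z)) := by rw [← hz]
    _ = z := by rw [← mm, ← mm]; rw [show b * a * (a⁻¹ * b⁻¹) = 1 by group, one_act]

section main

variable (S : Tw g n G) (ρ : G →* Module.End ℂ V) (P : PR S)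

include P

/-- (P3) The generators commute on slot vectors. -/
theorem slots_comm {A : Finset ℕ} {z : V} (hM : Mn S ρ A.card) (hz : KA S ρ A z) {l k y e e' : ℕ}
    (hl : l ∈ A) (hk : k ∈ A) (hlk : l < k) (hky : k < y) (hye : y < e) (hee : e < e') (he : e' < g)
    (hyA : y ∉ A) (heA : e ∉ A) (heA' : e' ∉ A) :
    ρ (dl S (2 * y) (2 * y + 1) (2 * k + 2)) (ρ (dl S (2 * y) (2 * y + 1) (2 * l + 2)) z) =
    ρ (dl S (2 * y) (2 * y + 1) (2 * l + 2)) (ρ (dl S (2 * y) (2 * y + 1) (2 * k + 2)) z) := by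
  -- the transports
  have hcard1 : (mv A l e').card = A.card := mv_card hl heA'
  have hcard2 : (mv A k e).card = A.card := mv_card hk heA
  have hz1 : KA S ρ (mv A l e') (tr S ρ l e' z) := tr_mem S P ρ hM hz hl heA' (by omega)
  have hz2 : KA S ρ (mv A k e) (tr S ρ k e z) := tr_mem S P ρ hM hz hk heA (by omega)
  have hM1 : Mn S ρ (mv A l e').card := by rw [hcard1]; exact hM
  have hM2 : Mn S ρ (mv A k e).card := by rw [hcard2]; exact hM
  have k1 : k ∈ mv A l e' := by
    unfold mv; exact Finset.mem_insert_of_mem (Finset.mem_erase.mpr ⟨by omega, hk⟩)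
  have l2 : l ∈ mv A k e := by
    unfold mv; exact Finset.mem_insert_of_mem (Finset.mem_erase.mpr ⟨by omega, hl⟩)
  have nm : ∀ {a b c : ℕ}, c ∉ A → c ≠ b → c ∉ mv A a b := by
    intro a b c h1 h2 h3
    unfold mv at h3
    rcases Finset.mem_insert.mp h3 with h3 | h3
    · exact h2 h3
    · exact h1 (Finset.mem_of_mem_erase h3)
  have y1 : y ∉ mv A l e' := nm hyA (by omega)
  have y2 : y ∉ mv A k e := nm hyA (by omega)
  have e1 : e ∉ mv A l e' := nm heA (by omega)
  have e2 : e' ∉ mv A k e := nm heA' (by omega)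
  -- double transports
  have hd1 : KA S ρ (mv (mv A l e') k e) (tr S ρ k e (tr S ρ l e' z)) :=
    tr_mem S P ρ hM1 hz1 k1 e1 (by omega)
  have hd2 : KA S ρ (mv (mv A k e) l e') (tr S ρ l e' (tr S ρ k e z)) :=
    tr_mem S P ρ hM2 hz2 l2 e2 (by omega)
  have hMd1 : Mn S ρ (mv (mv A l e') k e).card := by
    rw [mv_card k1 e1]; exact hM1
  have hMd2 : Mn S ρ (mv (mv A k e) l e').card := by
    rw [mv_card l2 e2]; exact hM2
  -- they agree
  have hnest : tr S ρ k e (tr S ρ l e' z) = tr S ρ l e' (tr S ρ k e z) := by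
    have c := dl_nest S P hlk (by omega : k < e) hee (by omega)
    have a1 := dl_slot S ρ P hM hz hl (by omega : l < e') (by omega) heA'
    have a2 := dl_slot S ρ P hM hz hk (by omega : k < e) (by omega) heA
    have a3 := dl_slot S ρ P hM1 hz1 k1 (by omega : k < e) (by omega) e1
    have a4 := dl_slot S ρ P hM2 hz2 l2 (by omega : l < e') (by omega) e2
    have h := com_act ρ c z
    rw [a1, a2, map_sub, map_sub, a1, a2, a3, a4] at h
    have h' : tr S ρ k e (tr S ρ l e' z) = (z - tr S ρ k e z -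
      (tr S ρ l e' z - tr S ρ k e (tr S ρ l e' z))) - z + tr S ρ k e z + tr S ρ l e' z := by abel
    rw [h', h]; abel
  -- transports to y through e, e'
  have b1 : tr S ρ e' y (tr S ρ l e' z) = tr S ρ l y z :=
    tr_tr S P ρ hM hz hl (by omega) (by omega) (by omega) hyA heA'
  have b2 : tr S ρ e y (tr S ρ k e z) = tr S ρ k y z :=
    tr_tr S P ρ hM hz hk (by omega) (by omega) (by omega) hyA heA
  have em' : e' ∈ mv A l e' := by unfold mv; exact Finset.mem_insert_self _ _
  have em : e ∈ mv A k e := by unfold mv; exact Finset.mem_insert_self _ _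
  have R1 : ρ (Rt S y e') (tr S ρ l e' z) = tr S ρ l e' z + tr S ρ l y z := by
    rw [Rt_act S ρ P hM1 hz1 em' (by omega) y1, b1]
  have R2 : ρ (Rt S y e) (tr S ρ k e z) = tr S ρ k e z + tr S ρ k y z := by
    rw [Rt_act S ρ P hM2 hz2 em (by omega) y2, b2]
  -- the same for the once transported vectors
  have b3 : tr S ρ e y (tr S ρ k e (tr S ρ l e' z)) = tr S ρ k y (tr S ρ l e' z) :=
    tr_tr S P ρ hM1 hz1 k1 (by omega) (by omega) (by omega) y1 e1
  have b4 : tr S ρ e' y (tr S ρ l e' (tr S ρ k e z)) = tr S ρ l y (tr S ρ k e z) :=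
    tr_tr S P ρ hM2 hz2 l2 (by omega) (by omega) (by omega) y2 e2
  have emd : e ∈ mv (mv A l e') k e := by unfold mv; exact Finset.mem_insert_self _ _
  have emd' : e' ∈ mv (mv A k e) l e' := by unfold mv; exact Finset.mem_insert_self _ _
  have nm2 : ∀ {B : Finset ℕ} {a b c : ℕ}, c ∉ B → c ≠ b → c ∉ mv B a b := by
    intro B a b c h1 h2 h3
    unfold mv at h3
    rcases Finset.mem_insert.mp h3 with h3 | h3
    · exact h2 h3
    · exact h1 (Finset.mem_of_mem_erase h3)
  have R3 : ρ (Rt S y e) (tr S ρ k e (tr S ρ l e' z)) =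
      tr S ρ k e (tr S ρ l e' z) + tr S ρ k y (tr S ρ l e' z) := by
    rw [Rt_act S ρ P hMd1 hd1 emd (by omega) (nm2 y1 (by omega)), b3]
  have R4 : ρ (Rt S y e') (tr S ρ l e' (tr S ρ k e z)) =
      tr S ρ l e' (tr S ρ k e z) + tr S ρ l y (tr S ρ k e z) := by
    rw [Rt_act S ρ P hMd2 hd2 emd' (by omega) (nm2 y2 (by omega)), b4]
  -- the pushes
  have d1 := dl_slot S ρ P hM hz hl (by omega : l < y) (by omega) hyA
  have d2 := dl_slot S ρ P hM hz hk (by omega : k < y) (by omega) hyA
  have d3 := dl_slot S ρ P hM1 hz1 k1 (by omega : k < y) (by omega) y1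
  have d4 := dl_slot S ρ P hM2 hz2 l2 (by omega : l < y) (by omega) y2
  have c1 := Rt_dl S P (y := y) (e := e') (m := 2 * k + 2) (by omega) he (by omega) (by omega)
  have c2 := Rt_dl S P (y := y) (e := e) (m := 2 * l + 2) (by omega) (by omega) (by omega) (by omega)
  have cR := Rt_Rt S P hye hee he
  -- d_k z_(l→y) and d_l z_(k→y)
  have f1' : ρ (dl S (2 * y) (2 * y + 1) (2 * k + 2)) (tr S ρ l y z) =
      ρ (Rt S y e') (tr S ρ l e' z - tr S ρ k y (tr S ρ l e' z)) -
        (tr S ρ l e' z - tr S ρ k y (tr S ρ l e' z)) := by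
    have : tr S ρ l y z = ρ (Rt S y e') (tr S ρ l e' z) - tr S ρ l e' z := by rw [R1]; abel
    rw [this, map_sub, ← com_act ρ c1, d3]
  have f2' : ρ (dl S (2 * y) (2 * y + 1) (2 * l + 2)) (tr S ρ k y z) =
      ρ (Rt S y e) (tr S ρ k e z - tr S ρ l y (tr S ρ k e z)) -
        (tr S ρ k e z - tr S ρ l y (tr S ρ k e z)) := by
    have : tr S ρ k y z = ρ (Rt S y e) (tr S ρ k e z) - tr S ρ k e z := by rw [R2]; abel
    rw [this, map_sub, ← com_act ρ c2, d4]
  -- (R' - 1)(R - 1) w = (R - 1)(R' - 1) w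
  have g1 : ρ (Rt S y e') (tr S ρ k y (tr S ρ l e' z)) - tr S ρ k y (tr S ρ l e' z) =
      ρ (Rt S y e) (tr S ρ l y (tr S ρ k e z)) - tr S ρ l y (tr S ρ k e z) := by
    have h1 : tr S ρ k y (tr S ρ l e' z) = ρ (Rt S y e) (tr S ρ k e (tr S ρ l e' z)) -
      tr S ρ k e (tr S ρ l e' z) := by rw [R3]; abel
    have h2 : tr S ρ l y (tr S ρ k e z) = ρ (Rt S y e') (tr S ρ l e' (tr S ρ k e z)) -
      tr S ρ l e' (tr S ρ k e z) := by rw [R4]; abel
    rw [h1, h2, ← hnest, map_sub, map_sub, com_act ρ cR]; abel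
  rw [d1, d2, map_sub, map_sub, d1, d2, f1', f2', map_sub, map_sub, R1, R2]
  have g2 : ρ (Rt S y e') (tr S ρ k y (tr S ρ l e' z)) =
      ρ (Rt S y e) (tr S ρ l y (tr S ρ k e z)) - tr S ρ l y (tr S ρ k e z) +
        tr S ρ k y (tr S ρ l e' z) := by rw [← g1]; abel
  rw [g2]; abel

/-- (P4) The commutators of pushes fix all slot vectors. -/
theorem Ct_fix {h : ℕ} {y : ℕ} (hhy : h ≤ y) (hy : y < g) {j : ℕ} (hM : Mn S ρ j) :
    ∀ k : ℕ, ∀ A : Finset ℕ, A.card = j → ∀ z : V, KA S ρ A z → y ∉ A →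
      (A.filter (fun q => q < h)).card = k →
      k ≤ ((Finset.Ioo y g).filter (fun e => e ∉ A)).card →
      ∀ c ∈ Ct S (2 * y) (2 * y + 1) h, ρ c z = z := by
  have hB : Blk g n (2 * y) (2 * y + 1) := blk_foot hy
  have hev : (2 * y) % 2 = 0 := by omega
  intro k
  induction k with
  | zero =>
    intro A hA z hz hyA hk hfree
    have hno : ∀ q ∈ A, h ≤ q := by
      intro q hq
      by_contra hcon
      have : q ∈ A.filter (fun q => q < h) := Finset.mem_filter.mpr ⟨hq, by omega⟩
      rw [Finset.card_eq_zero.mp hk] at this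
      exact Finset.notMem_empty _ this
    have hU : Ut S (2 * y) (2 * y + 1) h ≤ Stab ρ z := by
      unfold Ut
      rw [Subgroup.closure_le]
      rintro x (⟨m, h1, h2, rfl⟩ | rfl)
      · rcases Nat.mod_two_eq_zero_or_one m with he | ho
        · obtain ⟨i, hi⟩ : ∃ i, m = 2 * i + 2 := ⟨m / 2 - 1, by omega⟩
          exact dl_fix_even S ρ P hB (by omega) hi hz.T (hz.B i (by omega)
            (fun hi' => by have := hno i hi'; omega))
        · exact dl_fix_odd S ρ P hB (by omega) ho hz.T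
      · exact hz.T _ _ (by omega) (by omega)
    intro c hc
    exact hU (Ct_le hc)
  | succ k ih =>
    intro A hA z hz hyA hk hfree
    have hMA : Mn S ρ A.card := by rw [hA]; exact hM
    -- a free handle to the right of y, with the rest
    have hex : ((Finset.Ioo y g).filter (fun e => e ∉ A)).Nonempty := by
      rw [← Finset.card_pos]; omega
    have nm : ∀ {a b c : ℕ}, c ∉ A → c ≠ b → c ∉ mv A a b := by
      intro a b c h1 h2 h3
      unfold mv at h3
      rcases Finset.mem_insert.mp h3 with h3 | h3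
      · exact h2 h3
      · exact h1 (Finset.mem_of_mem_erase h3)
    -- the transported vectors are fixed by the commutators
    have hstep : ∀ l ∈ A, l < h → ∀ c ∈ Ct S (2 * y) (2 * y + 1) h,
        ρ c (tr S ρ l y z) = tr S ρ l y z := by
      intro l hl hlh
      obtain ⟨e, he⟩ := hex
      obtain ⟨he1, he2⟩ := Finset.mem_filter.mp he
      rw [Finset.mem_Ioo] at he1
      have hz1 : KA S ρ (mv A l e) (tr S ρ l e z) := tr_mem S P ρ hMA hz hl he2 (by omega)
      have hc1 : (mv A l e).card = j := by rw [mv_card hl he2, hA]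
      have hM1 : Mn S ρ (mv A l e).card := by rw [hc1]; exact hM
      have y1 : y ∉ mv A l e := nm hyA (by omega)
      have hk1 : ((mv A l e).filter (fun q => q < h)).card = k := by
        have : (mv A l e).filter (fun q => q < h) = (A.filter (fun q => q < h)).erase l := by
          ext q
          unfold mv
          simp only [Finset.mem_filter, Finset.mem_insert, Finset.mem_erase]
          constructor
          · rintro ⟨h1 | h1, h2⟩
            · omega
            · exact ⟨h1.1, h1.2, h2⟩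
          · rintro ⟨h1, h2, h3⟩
            exact ⟨Or.inr ⟨h1, h2⟩, h3⟩
        rw [this, Finset.card_erase_of_mem (Finset.mem_filter.mpr ⟨hl, hlh⟩), hk]; omega
      have hf1 : k ≤ ((Finset.Ioo y g).filter (fun e' => e' ∉ mv A l e)).card := by
        have hsub : ((Finset.Ioo y g).filter (fun e => e ∉ A)).erase e ⊆
            (Finset.Ioo y g).filter (fun e' => e' ∉ mv A l e) := by
          intro q hq
          obtain ⟨hq1, hq2⟩ := Finset.mem_erase.mp hq
          obtain ⟨hq3, hq4⟩ := Finset.mem_filter.mp hq2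
          exact Finset.mem_filter.mpr ⟨hq3, nm hq4 hq1⟩
        have := Finset.card_le_card hsub
        rw [Finset.card_erase_of_mem he] at this
        omega
      have hfix := ih (mv A l e) hc1 _ hz1 y1 hk1 hf1
      have b1 : tr S ρ e y (tr S ρ l e z) = tr S ρ l y z :=
        tr_tr S P ρ hMA hz hl (by omega) (by omega) (by omega) hyA he2
      have em : e ∈ mv A l e := by unfold mv; exact Finset.mem_insert_self _ _
      have R1 : tr S ρ l y z = ρ (Rt S y e) (tr S ρ l e z) - tr S ρ l e z := by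
        rw [Rt_act S ρ P hM1 hz1 em (by omega) y1, b1]; abel
      intro c hc
      have hcR : Commute (Rt S y e) c := by
        have hle : Ut S (2 * y) (2 * y + 1) h ≤ Subgroup.centralizer {Rt S y e} := by
          unfold Ut
          rw [Subgroup.closure_le]
          rintro x (⟨m, h1, h2, rfl⟩ | rfl)
          · rw [SetLike.mem_coe, Subgroup.mem_centralizer_singleton_iff]
            exact (Rt_dl S P (by omega) (by omega) h1 (by omega)).eq.symm
          · rw [SetLike.mem_coe, Subgroup.mem_centralizer_singleton_iff]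
            have c1 : Commute (S.T (2 * y) (2 * y + 1)) (Rt S y e) := by
              have d1 : Commute (S.T (2 * y) (2 * y + 1)) (S.T (2 * y + 1) (2 * e + 1)) :=
                P.TT _ _ _ _ (by omega) (by omega) (by omega) (by omega) (Or.inl (by omega))
              have d2 : Commute (S.T (2 * y) (2 * y + 1)) (S.T (2 * y + 1) (2 * e)) :=
                P.TT _ _ _ _ (by omega) (by omega) (by omega) (by omega) (Or.inl (by omega))
              have d3 : Commute (S.T (2 * y) (2 * y + 1)) (S.T (2 * e) (2 * e + 1)) :=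
                P.TT _ _ _ _ (by omega) (by omega) (by omega) (by omega) (Or.inl (by omega))
              have d4 : Commute (S.T (2 * y) (2 * y + 1)) (S.B e) :=
                P.TB _ _ _ (by omega) (by omega) (by omega) (Or.inr (Or.inl (by omega)))
              have dq := (d1.mul_right d2.inv_right).mul_right d3.inv_right
              unfold Rt
              exact ((d4.mul_right dq.inv_right).mul_right d4.inv_right).mul_right dq
            exact c1.eq
        have h2 := hle (Ct_le hc)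
        rw [Subgroup.mem_centralizer_singleton_iff] at h2
        exact h2.symm
      rw [R1, map_sub, ← com_act ρ hcR, hfix c hc]
    have hTz : FT S ρ z := hz.T
    -- generators: (d - 1) z
    have hgen : ∀ x ∈ gn S (2 * y) (2 * y + 1) h, ρ x z = z ∨
        ∃ l ∈ A, l < h ∧ x = dl S (2 * y) (2 * y + 1) (2 * l + 2) := by
      rintro x (⟨m, h1, h2, rfl⟩ | rfl)
      · rcases Nat.mod_two_eq_zero_or_one m with he | ho
        · obtain ⟨i, hi⟩ : ∃ i, m = 2 * i + 2 := ⟨m / 2 - 1, by omega⟩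
          by_cases hiA : i ∈ A
          · exact Or.inr ⟨i, hiA, by omega, by rw [hi]⟩
          · exact Or.inl (dl_fix_even S ρ P hB (by omega) hi hTz (hz.B i (by omega) hiA))
        · exact Or.inl (dl_fix_odd S ρ P hB (by omega) ho hTz)
      · exact Or.inl (hz.T _ _ (by omega) (by omega))
    have hslot : ∀ l ∈ A, l < h → ρ (dl S (2 * y) (2 * y + 1) (2 * l + 2)) z = z - tr S ρ l y z :=
      fun l hl hlh => dl_slot S ρ P hMA hz hl (by omega) hy hyA
    have htrKA : ∀ l ∈ A, l < h → KA S ρ (mv A l y) (tr S ρ l y z) :=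
      fun l hl hlh => tr_mem S P ρ hMA hz hl hyA hy
    -- a generator which fixes z fixes the transported vectors
    have hfixtr : ∀ x ∈ gn S (2 * y) (2 * y + 1) h, ρ x z = z → ∀ l ∈ A, l < h →
        (∀ q ∈ A, q < h → x ≠ dl S (2 * y) (2 * y + 1) (2 * q + 2)) →
        ρ x (tr S ρ l y z) = tr S ρ l y z := by
      rintro x (⟨m, h1, h2, rfl⟩ | rfl) hxz l hl hlh hne
      · rcases Nat.mod_two_eq_zero_or_one m with he | ho
        · obtain ⟨i, hi⟩ : ∃ i, m = 2 * i + 2 := ⟨m / 2 - 1, by omega⟩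
          have hiA : i ∉ A := fun hiA => hne i hiA (by omega) (by rw [hi])
          exact dl_fix_even S ρ P hB (by omega) hi (htrKA l hl hlh).T
            ((htrKA l hl hlh).B i (by omega) (nm hiA (by omega)))
        · exact dl_fix_odd S ρ P hB (by omega) ho (htrKA l hl hlh).T
      · exact (htrKA l hl hlh).T _ _ (by omega) (by omega)
    have hpair : ∀ x ∈ gn S (2 * y) (2 * y + 1) h, ∀ x' ∈ gn S (2 * y) (2 * y + 1) h,
        ρ x (ρ x' z) = ρ x' (ρ x z) := by
      -- a classification of the generators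
      have hcl : ∀ x ∈ gn S (2 * y) (2 * y + 1) h,
          (∃ l ∈ A, l < h ∧ x = dl S (2 * y) (2 * y + 1) (2 * l + 2)) ∨
          (ρ x z = z ∧ ∀ l ∈ A, l < h → ρ x (tr S ρ l y z) = tr S ρ l y z) := by
        intro x hx
        by_cases hs : ∃ l ∈ A, l < h ∧ x = dl S (2 * y) (2 * y + 1) (2 * l + 2)
        · exact Or.inl hs
        · push Not at hs
          right
          have hxz : ρ x z = z := by
            rcases hgen x hx with h1 | ⟨l, hl, hlh, h1⟩
            · exact h1
            · exact absurd h1 (hs l hl hlh)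
          exact ⟨hxz, fun l hl hlh => hfixtr x hx hxz l hl hlh hs⟩
      have hss : ∀ l ∈ A, l < h → ∀ l' ∈ A, l' < h → l < l' →
          ρ (dl S (2 * y) (2 * y + 1) (2 * l' + 2)) (ρ (dl S (2 * y) (2 * y + 1) (2 * l + 2)) z) =
          ρ (dl S (2 * y) (2 * y + 1) (2 * l + 2))
            (ρ (dl S (2 * y) (2 * y + 1) (2 * l' + 2)) z) := by
        intro l hl hlh l' hl' hlh' hll
        -- two slots: two free handles
        have h2 : 2 ≤ ((Finset.Ioo y g).filter (fun e => e ∉ A)).card := by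
          have hsub : ({l, l'} : Finset ℕ) ⊆ A.filter (fun q => q < h) := by
            intro q hq
            rw [Finset.mem_insert, Finset.mem_singleton] at hq
            rcases hq with rfl | rfl
            · exact Finset.mem_filter.mpr ⟨hl, hlh⟩
            · exact Finset.mem_filter.mpr ⟨hl', hlh'⟩
          have h3 := Finset.card_le_card hsub
          rw [Finset.card_pair (by omega), hk] at h3
          omega
        obtain ⟨e1, he1, e2, he2, hne⟩ := Finset.one_lt_card.mp h2
        obtain ⟨p1, p2⟩ := Finset.mem_filter.mp he1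
        obtain ⟨q1, q2⟩ := Finset.mem_filter.mp he2
        rw [Finset.mem_Ioo] at p1 q1
        rcases Nat.lt_or_gt_of_ne hne with hlt | hlt
        · exact slots_comm S ρ P hMA hz hl hl' hll (by omega) p1.1 hlt q1.2 hyA p2 q2
        · exact slots_comm S ρ P hMA hz hl hl' hll (by omega) q1.1 hlt p1.2 hyA q2 p2
      intro x hx x' hx'
      rcases hcl x hx with ⟨l, hl, hlh, rfl⟩ | ⟨a1, a2⟩
      · rcases hcl x' hx' with ⟨l', hl', hlh', rfl⟩ | ⟨b1, b2⟩
        · rcases lt_trichotomy l l' with hll | rfl | hll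
          · exact (hss l hl hlh l' hl' hlh' hll).symm
          · rfl
          · exact hss l' hl' hlh' l hl hlh hll
        · rw [b1, hslot l hl hlh, map_sub, b1, b2 l hl hlh]
      · rcases hcl x' hx' with ⟨l', hl', hlh', rfl⟩ | ⟨b1, b2⟩
        · rw [a1, hslot l' hl' hlh', map_sub, a1, a2 l' hl' hlh']
        · rw [a1, b1, a1]
    have hc := Ut_comm S P hB hev (show 2 * h ≤ 2 * y by omega)
    have hmain := comm_fix ρ (gn S (2 * y) (2 * y + 1) h) (Ct S (2 * y) (2 * y + 1) h) z
      (fun a ha b hb => comm_Ct ha hb)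
      (fun a ha c hcc => conj_Ct (Ut_Nm hc ha) hcc)
      (by
        intro x hx c hcc
        rcases hgen x hx with h1 | ⟨l, hl, hlh, rfl⟩
        · rw [h1, sub_self, map_zero]
        · rw [hslot l hl hlh]
          have : z - tr S ρ l y z - z = -(tr S ρ l y z) := by abel
          rw [this, map_neg, hstep l hl hlh c hcc])
      hpair
    have hle : Ct S (2 * y) (2 * y + 1) h ≤ Stab ρ z := by
      unfold Ct
      rw [Subgroup.closure_le]
      rintro x (⟨a, ha, b, hb, rfl⟩ | rfl)
      · exact hmain a ha b hb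
      · exact hz.T _ _ (by omega) (by omega)
    intro c hcc
    exact hle hcc

end main

end Pool.Agent.LJ
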