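import Pool.Agent.LJ.Z0

set_option linter.all false

namespace Pool.Agent.LJ

open Pool.Agent.HG13

variable {g n : ℕ} {G : Type*} [Group G] {V : Type*} [AddCommGroup V] [Module ℂ V]

/-- `(x - 1) (b - 1) w + w`. -/
def Dx (ρ : G →* Module.End ℂ V) (x b : G) (w : V) : V :=
  ρ x (ρ b w - w) - (ρ b w - w) + w

theorem Dx_com (ρ : G →* Module.End ℂ V) {x b c : G} (h1 : Commute c x) (h2 : Commute c b)
    (w : V) : ρ c (Dx ρ x b w) = Dx ρ x b (ρ c w) := by
  unfold Dx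
  simp only [map_add, map_sub]
  rw [com_act ρ h1, com_act ρ h1, com_act ρ h2]

theorem Dx_sub (ρ : G →* Module.End ℂ V) (x b : G) (w w' : V) :
    Dx ρ x b (w - w') = Dx ρ x b w - Dx ρ x b w' := by
  unfold Dx
  simp only [map_sub]
  abel

theorem Dx_L (ρ : G →* Module.End ℂ V) {x b c d : G} (h1 : Commute c x) (h2 : Commute c b)
    (h3 : Commute d x) (h4 : Commute d b) {w : V} (h : ρ c (ρ d w) = ρ d w - w) :
    ρ c (ρ d (Dx ρ x b w)) = ρ d (Dx ρ x b w) - Dx ρ x b w := by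
  rw [Dx_com ρ h3 h4, Dx_com ρ h1 h2, h, Dx_sub]

/-- (F1), general form: a twist which crosses only `b_l`. -/
theorem f1_gen (S : Tw g n G) (P : PR S) (ρ : G →* Module.End ℂ V) {A : Finset ℕ} {v : V}
    (hM : Mn S ρ A.card) (hv : KA S ρ A v) {l s t : ℕ} (hl : l ∈ A) (h : Cr g n l s t)
    (ho : ∀ i, i < g → i ≠ l → s ≠ 2 * i + 1 ∧ t ≠ 2 * i + 1) :
    ρ (S.T s t) (ρ (S.B l) v - v) = (ρ (S.B l) v - v) - v := by
  have hlg := hv.sub l hl
  have hD : KA S ρ (A.erase l) (Dx ρ (S.T s t) (S.B l) v) := by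
    refine ⟨fun q hq => hv.sub q (Finset.mem_of_mem_erase hq), fun s' t' k1 k2 => ?_,
      fun r hr hrA => ?_, fun q hq => ?_⟩
    · exact Z0 P ρ hv hl h k1 k2
    · by_cases hrl : r = l
      · rw [hrl]
        exact Z0B P ρ hv hl h
      · have hrA' : r ∉ A := fun k => hrA (Finset.mem_erase.2 ⟨hrl, k⟩)
        have o := ho r hr hrl
        rw [Dx_com ρ (P.tb h.1 h.2.1 hr o.1 o.2).symm (P.BB r l hr hlg), hv.B r hr hrA']
    · obtain ⟨hql, hqA⟩ := Finset.mem_erase.1 hq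
      have hqg := hv.sub q hqA
      have o := ho q hqg hql
      exact Dx_L ρ (P.aT hqg h.1 h.2.1).symm
        (P.tb (by omega) (by omega) hlg (by omega) (by omega))
        (P.tb h.1 h.2.1 hqg o.1 o.2).symm (P.BB q l hqg hlg) (hv.L q hqA)
  have h0 := hM (A.erase l) (Finset.card_erase_lt_of_mem hl) _ hD
  unfold Dx at h0
  have e : ρ (S.T s t) (ρ (S.B l) v - v) = (ρ (S.T s t) (ρ (S.B l) v - v) - (ρ (S.B l) v - v) + v)
      + ((ρ (S.B l) v - v) - v) := by abel
  rw [e, h0, zero_add]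

/-- (F1) -/
theorem f1 (S : Tw g n G) (P : PR S) (ρ : G →* Module.End ℂ V) {A : Finset ℕ} {v : V}
    (hM : Mn S ρ A.card) (hv : KA S ρ A v) {l y : ℕ} (hl : l ∈ A) (hly : l < y) (hy : y < g) :
    ρ (S.T (2 * l + 1) (2 * y)) (ρ (S.B l) v - v) = (ρ (S.B l) v - v) - v :=
  f1_gen S P ρ hM hv hl ⟨by omega, by omega, Or.inl rfl⟩ fun i _ hi => ⟨by omega, by omega⟩

/-- (F1) for the twists `T (2l+1) w`, `w` even or `w ≥ 2g`. -/
theorem f1' (S : Tw g n G) (P : PR S) (ρ : G →* Module.End ℂ V) {A : Finset ℕ} {v : V}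
    (hM : Mn S ρ A.card) (hv : KA S ρ A v) {l w : ℕ} (hl : l ∈ A) (hw1 : 2 * l + 1 < w)
    (hw2 : w ≤ 2 * g + n) (hw3 : w % 2 = 0 ∨ 2 * g ≤ w) :
    ρ (S.T (2 * l + 1) w) (ρ (S.B l) v - v) = (ρ (S.B l) v - v) - v :=
  f1_gen S P ρ hM hv hl ⟨hw1, hw2, Or.inl rfl⟩ fun i hi hil => ⟨by omega, by omega⟩

theorem tr_Dx (S : Tw g n G) (ρ : G →* Module.End ℂ V) (l y : ℕ) (v : V) :
    tr S ρ l y v = Dx ρ (xc S l y) (S.B l) v := rfl

theorem xc_cr (S : Tw g n G) {l y : ℕ} (hly : l ≠ y) (hl : l < g) (hy : y < g) :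
    ∃ s t, xc S l y = S.T s t ∧ Cr g n l s t ∧ Cr g n y s t ∧
      ((l < y ∧ s = 2 * l + 1 ∧ t = 2 * y + 1) ∨ (y < l ∧ s = 2 * y + 1 ∧ t = 2 * l + 1)) := by
  unfold xc
  by_cases h : l < y
  · exact ⟨_, _, if_pos h, ⟨by omega, by omega, Or.inl rfl⟩, ⟨by omega, by omega, Or.inr rfl⟩,
      Or.inl ⟨h, rfl, rfl⟩⟩
  · exact ⟨_, _, if_neg h, ⟨by omega, by omega, Or.inr rfl⟩, ⟨by omega, by omega, Or.inl rfl⟩,
      Or.inr ⟨by omega, rfl, rfl⟩⟩

theorem xc_symm (S : Tw g n G) (l y : ℕ) : xc S y l = xc S l y := by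
  unfold xc
  by_cases h : l < y
  · rw [if_pos h, if_neg (by omega)]
  · by_cases h' : y < l
    · rw [if_neg h, if_pos h']
    · have : l = y := by omega
      rw [this]

section slots

variable (S : Tw g n G) (P : PR S) (ρ : G →* Module.End ℂ V) {A : Finset ℕ} {v : V}
  (hv : KA S ρ A v) {l y : ℕ} (hl : l ∈ A) (hyA : y ∉ A) (hy : y < g)

include P hv hl hyA hy

/-- The vector `β = (B_y - 1) v'`, `v' = tr l y v`. -/
theorem beta : ρ (S.B y) (ρ (S.B y) (tr S ρ l y v) - tr S ρ l y v) =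
      ρ (S.B y) (tr S ρ l y v) - tr S ρ l y v ∧
    ρ (xc S l y) (ρ (S.B y) (tr S ρ l y v) - tr S ρ l y v) =
      (ρ (S.B y) (tr S ρ l y v) - tr S ρ l y v) - (tr S ρ l y v - v) := by
  have hlg := hv.sub l hl
  have hne : l ≠ y := fun k => hyA (k ▸ hl)
  obtain ⟨s, t, hx, cl, cy, -⟩ := xc_cr S (n := n) hne hlg hy
  have h1 := hv.com S ρ (hv.B y hy hyA) (P.BB y l hy hlg)
  have h2 := xi_f3 P ρ hv hl cl
  have h3 := f3 ρ (brd_symm (cy.brd P hy)) h1 h2.1
  have e1 : tr S ρ l y v = (ρ (S.T s t) (ρ (S.B l) v - v) - (ρ (S.B l) v - v)) + v := by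
    unfold tr; rw [hx]
  obtain ⟨z, hz⟩ : ∃ z, z = ρ (S.T s t) (ρ (S.B l) v - v) - (ρ (S.B l) v - v) := ⟨_, rfl⟩
  rw [← hz] at h3 e1
  have e2 : ρ (S.B y) (tr S ρ l y v) - tr S ρ l y v = ρ (S.B y) z - z := by
    rw [e1, map_add, hv.B y hy hyA]; abel
  rw [e2, hx]
  refine ⟨h3.1, ?_⟩
  rw [h3.2, e1]; abel

theorem tr_T {s t : ℕ} (h1 : s < t) (h2 : t ≤ 2 * g + n) :
    ρ (S.T s t) (tr S ρ l y v) = tr S ρ l y v := by
  have hlg := hv.sub l hl
  have hne : l ≠ y := fun k => hyA (k ▸ hl)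
  obtain ⟨s', t', hx, cl, cy, -⟩ := xc_cr S (n := n) hne hlg hy
  have := Z0 P ρ hv hl cl h1 h2
  unfold tr
  rw [hx]
  exact this

theorem tr_B {r : ℕ} (hr : r < g) (hry : r ≠ y) (hrA : r ∉ A.erase l) :
    ρ (S.B r) (tr S ρ l y v) = tr S ρ l y v := by
  have hlg := hv.sub l hl
  have hne : l ≠ y := fun k => hyA (k ▸ hl)
  obtain ⟨s', t', hx, cl, cy, ho⟩ := xc_cr S (n := n) hne hlg hy
  by_cases hrl : r = l
  · have := Z0B P ρ hv hl cl
    unfold tr
    rw [hx, hrl]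
    exact this
  · have hrA' : r ∉ A := fun k => hrA (Finset.mem_erase.2 ⟨hrl, k⟩)
    rw [tr_Dx, hx, Dx_com ρ (P.tb cl.1 cl.2.1 hr (by omega) (by omega)).symm (P.BB r l hr hlg),
      hv.B r hr hrA']

theorem tr_L {q : ℕ} (hq : q ∈ A.erase l) :
    ρ (S.T (2 * q) (2 * q + 1)) (ρ (S.B q) (tr S ρ l y v)) =
      ρ (S.B q) (tr S ρ l y v) - tr S ρ l y v := by
  have hlg := hv.sub l hl
  have hne : l ≠ y := fun k => hyA (k ▸ hl)
  obtain ⟨s', t', hx, cl, cy, ho⟩ := xc_cr S (n := n) hne hlg hy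
  obtain ⟨hql, hqA⟩ := Finset.mem_erase.1 hq
  have hqg := hv.sub q hqA
  have hqy : q ≠ y := fun k => hyA (k ▸ hqA)
  rw [tr_Dx, hx]
  exact Dx_L ρ (P.aT hqg cl.1 cl.2.1).symm (P.tb (by omega) (by omega) hlg (by omega) (by omega))
    (P.tb cl.1 cl.2.1 hqg (by omega) (by omega)).symm (P.BB q l hqg hlg) (hv.L q hqA)

/-- The vector `D = (a_y - 1) β + v'` is a slot vector for `A - l`. -/
theorem D_mem : KA S ρ (A.erase l)
    (Dx ρ (S.T (2 * y) (2 * y + 1)) (S.B y) (tr S ρ l y v)) := by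
  have hlg := hv.sub l hl
  have hne : l ≠ y := fun k => hyA (k ▸ hl)
  obtain ⟨sx, tx, hx, cl, cy, ho⟩ := xc_cr S (n := n) hne hlg hy
  have hb := beta S P ρ hv hl hyA hy
  have ca : Cr g n y (2 * y) (2 * y + 1) := ⟨by omega, by omega, Or.inr rfl⟩
  have hay := tr_T S P ρ hv hl hyA hy ca.1 ca.2.1
  have hf := f3 ρ (ca.brd P hy) hay hb.1
  obtain ⟨D, hD⟩ : ∃ D, D = Dx ρ (S.T (2 * y) (2 * y + 1)) (S.B y) (tr S ρ l y v) := ⟨_, rfl⟩
  rw [← hD]
  -- `D` is fixed by `a_y`, `B_y`, `x`, `B_l`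
  have Da : ρ (S.T (2 * y) (2 * y + 1)) D = D := by
    rw [hD]; unfold Dx
    rw [map_add, hf.1, hay]
  have Da' : ρ (S.T (2 * y + 1) (2 * y + 2)) D = D := by rw [← P.aa y hy]; exact Da
  have DB : ρ (S.B y) D = D := by
    rw [hD]; unfold Dx
    rw [map_add, hf.2]; abel
  have Dxx : ρ (S.T sx tx) D = D := by
    have e1 : ρ (S.T sx tx) (ρ (S.B y) (tr S ρ l y v) - tr S ρ l y v) =
        (ρ (S.B y) (tr S ρ l y v) - tr S ρ l y v) - (tr S ρ l y v - v) := by
      rw [← hx]; exact hb.2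
    have e2 : ρ (S.T (2 * y) (2 * y + 1)) (tr S ρ l y v - v) = tr S ρ l y v - v := by
      rw [map_sub, hay, hv.T _ _ ca.1 ca.2.1]
    have c : Commute (S.T sx tx) (S.T (2 * y) (2 * y + 1)) := P.aT hy cl.1 cl.2.1
    rw [hD]; unfold Dx
    rw [map_add, map_sub, com_act ρ c, e1, map_sub, e2, tr_T S P ρ hv hl hyA hy cl.1 cl.2.1]
    abel
  have Dn : ∀ s t, s < t → t ≤ 2 * g + n → s ≠ 2 * y + 1 → t ≠ 2 * y + 1 →
      ρ (S.T s t) D = D := by
    intro s t k1 k2 k3 k4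
    rw [hD, Dx_com ρ (P.aT hy k1 k2) (P.tb k1 k2 hy k3 k4), tr_T S P ρ hv hl hyA hy k1 k2]
  have DBr : ∀ r, r < g → r ≠ y → r ∉ A.erase l → ρ (S.B r) D = D := by
    intro r hr hry hrA
    rw [hD, Dx_com ρ (P.tb ca.1 ca.2.1 hr (by omega) (by omega)).symm (P.BB r y hr hy),
      tr_B S P ρ hv hl hyA hy hr hry hrA]
  have DBl : ρ (S.B l) D = D := DBr l hlg hne (Finset.notMem_erase l A)
  refine ⟨fun q hq => hv.sub q (Finset.mem_of_mem_erase hq), fun s t k1 k2 => ?_,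
    fun r hr hrA => ?_, fun q hq => ?_⟩
  · by_cases n1 : s = 2 * y + 1
    · subst n1
      by_cases n2 : t = 2 * y + 2
      · rw [n2]; exact Da'
      rcases ho with ⟨hly, rfl, rfl⟩ | ⟨hly, rfl, rfl⟩
      · exact tri4 P ρ (s := 2 * l + 1) (t := 2 * y) (u := 2 * y + 1) (w := t) (by omega)
          (by omega) (by omega) k2 DBl (P.LB3 l (2 * y) (2 * y + 1) t hlg (by omega) (by omega)
          (by omega) k2) (P.tb k1 k2 hlg (by omega) (by omega)) Dxx
          (Dn _ _ (by omega) (by omega) (by omega) (by omega)) Da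
          (Dn _ _ (by omega) (by omega) (by omega) (by omega))
          (Dn _ _ (by omega) (by omega) (by omega) (by omega))
      · by_cases n3 : t = 2 * l + 1
        · rw [n3]; exact Dxx
        by_cases n4 : t < 2 * l + 1
        · exact tri2 P ρ (s := 2 * y + 1) (t := 2 * y + 2) (u := t) (w := 2 * l + 1) (by omega)
            (by omega) (by omega) (by omega) DBl (P.LB (2 * y + 1) (2 * y + 2) t l (by omega)
            (by omega) (by omega) hlg) (P.tb k1 k2 hlg (by omega) (by omega)) Dxx Da'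
            (Dn _ _ (by omega) (by omega) (by omega) (by omega))
            (Dn _ _ (by omega) (by omega) (by omega) (by omega))
            (Dn _ _ (by omega) (by omega) (by omega) (by omega))
        · exact tri3 P ρ (s := 2 * y + 1) (t := 2 * y + 2) (u := 2 * l + 1) (w := t) (by omega)
            (by omega) (by omega) (by omega) DBl (P.LB2 (2 * y + 1) (2 * y + 2) l t (by omega)
            (by omega) (by omega) k2 hlg) (P.tb k1 k2 hlg (by omega) (by omega)) Dxx Da'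
            (Dn _ _ (by omega) (by omega) (by omega) (by omega))
            (Dn _ _ (by omega) (by omega) (by omega) (by omega))
            (Dn _ _ (by omega) (by omega) (by omega) (by omega))
    by_cases n2 : t = 2 * y + 1
    · subst n2
      by_cases n3 : s = 2 * y
      · rw [n3]; exact Da
      rcases ho with ⟨hly, rfl, rfl⟩ | ⟨hly, rfl, rfl⟩
      · by_cases n4 : s = 2 * l + 1
        · rw [n4]; exact Dxx
        by_cases n5 : s < 2 * l + 1
        · exact tri3 P ρ (s := s) (t := 2 * l + 1) (u := 2 * y) (w := 2 * y + 1) (by omega)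
            (by omega) (by omega) (by omega) DBl (P.LB1 s l (2 * y) (2 * y + 1) (by omega)
            (by omega) (by omega) (by omega) hlg) (P.tb k1 k2 hlg (by omega) (by omega))
            (Dn _ _ (by omega) (by omega) (by omega) (by omega))
            (Dn _ _ (by omega) (by omega) (by omega) (by omega))
            (Dn _ _ (by omega) (by omega) (by omega) (by omega)) Da Dxx
        · exact tri1 P ρ (s := 2 * l + 1) (t := s) (u := 2 * y) (w := 2 * y + 1) DBl
            (P.LB3 l s (2 * y) (2 * y + 1) hlg (by omega) (by omega) (by omega) (by omega))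
            (P.tb k1 k2 hlg (by omega) (by omega)) Dxx
            (Dn _ _ (by omega) (by omega) (by omega) (by omega))
            (Dn _ _ (by omega) (by omega) (by omega) (by omega)) Da
            (Dn _ _ (by omega) (by omega) (by omega) (by omega))
      · exact tri5 P ρ (s := s) (t := 2 * y + 1) (u := 2 * y + 2) (w := 2 * l + 1) (by omega)
          (by omega) (by omega) (by omega) DBl (P.LB s (2 * y + 1) (2 * y + 2) l (by omega)
          (by omega) (by omega) hlg) (P.tb k1 k2 hlg (by omega) (by omega))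
          (Dn _ _ (by omega) (by omega) (by omega) (by omega))
          (Dn _ _ (by omega) (by omega) (by omega) (by omega)) Da'
          (Dn _ _ (by omega) (by omega) (by omega) (by omega)) Dxx
    exact Dn s t k1 k2 n1 n2
  · by_cases hry : r = y
    · rw [hry]; exact DB
    · exact DBr r hr hry hrA
  · obtain ⟨hql, hqA⟩ := Finset.mem_erase.1 hq
    have hqg := hv.sub q hqA
    have hqy : q ≠ y := fun k => hyA (k ▸ hqA)
    rw [hD]
    exact Dx_L ρ (P.aT hqg ca.1 ca.2.1).symm (P.tb (by omega) (by omega) hy (by omega) (by omega))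
      (P.tb ca.1 ca.2.1 hqg (by omega) (by omega)).symm (P.BB q y hqg hy)
      (tr_L S P ρ hv hl hyA hy hq)

end slots

/-- (F2) -/
theorem tr_mem (S : Tw g n G) (P : PR S) (ρ : G →* Module.End ℂ V) {A : Finset ℕ} {v : V}
    (hM : Mn S ρ A.card) (hv : KA S ρ A v) {l y : ℕ} (hl : l ∈ A) (hyA : y ∉ A) (hy : y < g) :
    KA S ρ (mv A l y) (tr S ρ l y v) := by
  refine ⟨fun q hq => ?_, fun s t k1 k2 => tr_T S P ρ hv hl hyA hy k1 k2, fun r hr hrA => ?_,
    fun q hq => ?_⟩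
  · rcases Finset.mem_insert.1 hq with rfl | hq
    · exact hy
    · exact hv.sub q (Finset.mem_of_mem_erase hq)
  · have h1 : r ≠ y := fun k => hrA (Finset.mem_insert.2 (Or.inl k))
    have h2 : r ∉ A.erase l := fun k => hrA (Finset.mem_insert.2 (Or.inr k))
    exact tr_B S P ρ hv hl hyA hy hr h1 h2
  · rcases Finset.mem_insert.1 hq with rfl | hq
    · have h0 := hM (A.erase l) (Finset.card_erase_lt_of_mem hl) _ (D_mem S P ρ hv hl hyA hy)
      have hq2 := tr_T S P ρ hv hl hyA hy (s := 2 * q) (t := 2 * q + 1) (by omega) (by omega)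
      unfold Dx at h0
      rw [map_sub, hq2] at h0
      have e : ρ (S.T (2 * q) (2 * q + 1)) (ρ (S.B q) (tr S ρ l q v)) =
          (ρ (S.T (2 * q) (2 * q + 1)) (ρ (S.B q) (tr S ρ l q v)) - tr S ρ l q v -
            (ρ (S.B q) (tr S ρ l q v) - tr S ρ l q v) + tr S ρ l q v) +
            (ρ (S.B q) (tr S ρ l q v) - tr S ρ l q v) := by abel
      rw [e, h0, zero_add]
    · exact tr_L S P ρ hv hl hyA hy hq

/-- (F3) -/
theorem tr_back (S : Tw g n G) (P : PR S) (ρ : G →* Module.End ℂ V) {A : Finset ℕ} {v : V}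
    (hM : Mn S ρ A.card) (hv : KA S ρ A v) {l y : ℕ} (hl : l ∈ A) (hyA : y ∉ A) (hy : y < g) :
    tr S ρ y l (tr S ρ l y v) = v := by
  have hb := (beta S P ρ hv hl hyA hy).2
  have e : tr S ρ y l (tr S ρ l y v) = ρ (xc S y l) (ρ (S.B y) (tr S ρ l y v) - tr S ρ l y v) -
      (ρ (S.B y) (tr S ρ l y v) - tr S ρ l y v) + tr S ρ l y v := rfl
  rw [e, xc_symm, hb]
  abel

/-- (F4) -/
theorem tr_tr (S : Tw g n G) (P : PR S) (ρ : G →* Module.End ℂ V) {A : Finset ℕ} {v : V}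
    (hM : Mn S ρ A.card) (hv : KA S ρ A v) {l y e : ℕ} (hl : l ∈ A) (hly : l < y) (hye : y < e)
    (he : e < g) (hyA : y ∉ A) (heA : e ∉ A) :
    tr S ρ e y (tr S ρ l e v) = tr S ρ l y v := by
  have hlg := hv.sub l hl
  have hw := tr_mem S P ρ hM hv hl heA he
  have hcard : (mv A l e).card = A.card := mv_card hl heA
  have heM : e ∈ mv A l e := Finset.mem_insert_self _ _
  have hyM : y ∉ mv A l e := by
    intro k
    rcases Finset.mem_insert.1 k with k | k
    · omega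
    · exact hyA (Finset.mem_of_mem_erase k)
  have hwy := tr_mem S P ρ (A := mv A l e) (by rw [hcard]; exact hM) hw heM hyM (by omega)
  have hvy := tr_mem S P ρ hM hv hl hyA (by omega)
  obtain ⟨w, hwd⟩ : ∃ w, w = tr S ρ l e v := ⟨_, rfl⟩
  obtain ⟨wy, hwyd⟩ : ∃ w', w' = tr S ρ e y w := ⟨_, rfl⟩
  obtain ⟨vy, hvyd⟩ : ∃ w', w' = tr S ρ l y v := ⟨_, rfl⟩
  have hbeta := (beta S P ρ hv hl heA he).2
  rw [← hwd] at hbeta hw hwy ⊢
  rw [← hwyd] at hwy ⊢
  rw [← hvyd] at hvy ⊢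
  have kl := hv.xi S ρ P hl
  have ke := hw.xi S ρ P heM
  obtain ⟨ξ, hξ⟩ : ∃ ξ, ξ = ρ (S.B l) v - v := ⟨_, rfl⟩
  obtain ⟨β, hβ⟩ : ∃ β, β = ρ (S.B e) w - w := ⟨_, rfl⟩
  rw [← hβ] at hbeta ke
  have x1 : xc S l e = S.T (2 * l + 1) (2 * e + 1) := if_pos (by omega)
  have x2 : xc S l y = S.T (2 * l + 1) (2 * y + 1) := if_pos (by omega)
  have x3 : xc S e y = S.T (2 * y + 1) (2 * e + 1) := if_neg (by omega)
  rw [x1] at hbeta
  -- the actions on `ξ`
  have a1 : ρ (S.T (2 * l + 1) (2 * e + 1)) ξ = ξ + (w - v) := by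
    have : w = ρ (xc S l e) ξ - ξ + v := by rw [hwd, hξ]; rfl
    rw [this, x1]; abel
  have a2 : ρ (S.T (2 * l + 1) (2 * y + 1)) ξ = ξ + (vy - v) := by
    have : vy = ρ (xc S l y) ξ - ξ + v := by rw [hvyd, hξ]; rfl
    rw [this, x2]; abel
  have a3 : ρ (S.T (2 * l + 1) (2 * e)) (ξ + v) = ξ := by
    have := f1 S P ρ hM hv hl (by omega : l < e) he
    rw [← hξ] at this
    rw [map_add, this, hv.T _ _ (by omega) (by omega)]; abel
  have a4 : ρ (S.T (2 * y + 1) (2 * e + 1)) ξ = ξ := by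
    rw [hξ]
    exact hv.com S ρ (hv.T _ _ (by omega) (by omega))
      (P.tb (by omega) (by omega) hlg (by omega) (by omega))
  have a5 : ρ (S.T (2 * y + 1) (2 * e)) ξ = ξ := by
    rw [hξ]
    exact hv.com S ρ (hv.T _ _ (by omega) (by omega))
      (P.tb (by omega) (by omega) hlg (by omega) (by omega))
  have a6 : ρ (S.T (2 * e) (2 * e + 1)) ξ = ξ := by
    rw [hξ]
    exact hv.com S ρ (hv.T _ _ (by omega) (by omega))
      (P.tb (by omega) (by omega) hlg (by omega) (by omega))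
  have a7 : ρ (S.B e) ξ = ξ := by
    rw [hξ]
    exact hv.com S ρ (hv.B e he heA) (P.BB e l he hlg)
  -- the actions on `β`
  have b1 : ρ (S.T (2 * l + 1) (2 * e + 1)) β = β - (w - v) := hbeta
  have b2 : ρ (S.T (2 * l + 1) (2 * y + 1)) β = β := by
    rw [hβ]
    exact hw.com S ρ (hw.T _ _ (by omega) (by omega))
      (P.tb (by omega) (by omega) he (by omega) (by omega))
  have b3 : ρ (S.T (2 * l + 1) (2 * e)) β = β := by
    rw [hβ]
    exact hw.com S ρ (hw.T _ _ (by omega) (by omega))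
      (P.tb (by omega) (by omega) he (by omega) (by omega))
  have b4 : ρ (S.T (2 * y + 1) (2 * e + 1)) β = β + (wy - w) := by
    have : wy = ρ (xc S e y) β - β + w := by rw [hwyd, hβ]; rfl
    rw [this, x3]; abel
  have b5 : ρ (S.T (2 * y + 1) (2 * e)) β = β := by
    rw [hβ]
    exact hw.com S ρ (hw.T _ _ (by omega) (by omega))
      (P.tb (by omega) (by omega) he (by omega) (by omega))
  have b6 : ρ (S.T (2 * e) (2 * e + 1)) β = β - w := ke.2
  -- the lantern on `β + ξ`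
  have hk1 : ρ (S.L (2 * l + 1) (2 * y + 1) (2 * e) (2 * e + 1)) (β + ξ) = β + ξ + (vy - wy) := by
    have s1 : ρ (S.T (2 * e) (2 * e + 1)) (β + ξ) = β - w + ξ := by rw [map_add, b6, a6]
    have s2 : ρ (S.T (2 * y + 1) (2 * e)) (β - w + ξ) = β - w + ξ := by
      rw [map_add, map_sub, b5, a5, hw.T _ _ (by omega) (by omega)]
    have s3 : ρ (S.T (2 * l + 1) (2 * y + 1)) (β - w + ξ) = β - w + (ξ + (vy - v)) := by
      rw [map_add, map_sub, b2, a2, hw.T _ _ (by omega) (by omega)]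
    have s4 : ρ (S.T (2 * l + 1) (2 * e + 1)) (β - w + (ξ + (vy - v))) =
        β - (w - v) - w + (ξ + (w - v) + (vy - v)) := by
      rw [map_add, map_sub, b1, map_add, a1, map_sub, hw.T _ _ (by omega) (by omega),
        hv.T _ _ (by omega) (by omega), hvy.T _ _ (by omega) (by omega)]
    unfold Tw.L
    simp only [mm]
    rw [s1, s2, s3, s4]
    have e1 : ρ (S.T (2 * l + 1) (2 * e))⁻¹ (β - (w - v) - w + (ξ + (w - v) + (vy - v))) =
        β + (ξ + v) - w + vy - v := by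
      apply inv_eq ρ
      rw [map_sub, map_add, map_sub, map_add, b3, a3, hw.T _ _ (by omega) (by omega),
        hv.T _ _ (by omega) (by omega), hvy.T _ _ (by omega) (by omega)]
      abel
    rw [e1]
    apply inv_eq ρ
    simp only [map_add, map_sub]
    rw [b4, a4, hwy.T _ _ (by omega) (by omega), hvy.T _ _ (by omega) (by omega)]
    abel
  have hL : Brd (S.L (2 * l + 1) (2 * y + 1) (2 * e) (2 * e + 1)) (S.B e) :=
    P.LB _ _ _ e (by omega) (by omega) (by omega) he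
  have hLk : ρ (S.L (2 * l + 1) (2 * y + 1) (2 * e) (2 * e + 1)) (vy - wy) = vy - wy := by
    have h1 : ∀ u : V, (∀ s t, s < t → t ≤ 2 * g + n → ρ (S.T s t) u = u) →
        ρ (S.L (2 * l + 1) (2 * y + 1) (2 * e) (2 * e + 1)) u = u := by
      intro u hu
      unfold Tw.L
      simp only [mm]
      rw [hu (2 * e) (2 * e + 1) (by omega) (by omega), hu (2 * y + 1) (2 * e) (by omega)
        (by omega), hu (2 * l + 1) (2 * y + 1) (by omega) (by omega),
        hu (2 * l + 1) (2 * e + 1) (by omega) (by omega),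
        inv_fix ρ (hu (2 * l + 1) (2 * e) (by omega) (by omega)),
        inv_fix ρ (hu (2 * y + 1) (2 * e + 1) (by omega) (by omega))]
    rw [map_sub, h1 vy hvy.T, h1 wy hwy.T]
  have hBk : ρ (S.B e) (vy - wy) = vy - wy := by
    rw [map_sub, hvy.B e he, hwy.B e he]
    · intro k
      rcases Finset.mem_insert.1 k with k | k
      · omega
      · exact absurd rfl (Finset.mem_erase.1 k).1
    · intro k
      rcases Finset.mem_insert.1 k with k | k
      · omega
      · exact heA (Finset.mem_of_mem_erase k)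
  have hBD : ρ (S.B e) (β + ξ) = β + ξ := by rw [map_add, ke.1, a7]
  have h1 := brd_act ρ hL (β + ξ)
  rw [hBD, hk1, map_add, hBD, hBk, map_add, hk1, hLk] at h1
  have h2 : vy - wy = 0 := by
    have e : vy - wy = β + ξ + (vy - wy) + (vy - wy) - (β + ξ + (vy - wy)) := by abel
    rw [e, h1]; abel
  exact (sub_eq_zero.1 h2).symm

end Pool.Agent.LJ
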