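import Pool.Agent.LJ.Cfix

set_option linter.all false

namespace Pool.Agent.LJ

open Pool.Agent.HG13

variable {g n : ℕ} {G : Type*} [Group G] {V : Type*} [AddCommGroup V] [Module ℂ V]

section mem

variable (S : Tw g n G) (P : PR S) (M : Subgroup G)

include P

/-- the last factor of a star relation -/
theorem star_mem {k s w : ℕ} (hk : k < g) (hs : s ≤ 2 * k) (hw : 2 * k + 2 ≤ w)
    (hw2 : w ≤ 2 * g + n) (h1 : S.T s (2 * k + 1) ∈ M) (h2 : S.T (2 * k) (2 * k + 1) ∈ M)
    (h3 : S.T (2 * k + 1) w ∈ M) (h4 : S.B k ∈ M) :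
    S.T s (2 * k) * S.T (2 * k + 2) w * S.T s w ∈ M := by
  rw [← P.star k s w hk hs hw hw2]
  exact M.pow_mem (M.mul_mem (M.mul_mem (M.mul_mem h1 h2) h3) h4) 3

/-- All twists inside the first `h` handles. -/
theorem inT {h : ℕ} (hh : h ≤ g) (hB : ∀ r, r < h → S.B r ∈ M)
    (ha : ∀ i, i < h → S.T (2 * i) (2 * i + 1) ∈ M)
    (he : ∀ i, i + 1 < h → S.T (2 * i + 1) (2 * i + 3) ∈ M) :
    ∀ d s t, t - s = d → s < t → t ≤ 2 * h → S.T s t ∈ M := by
  intro d
  induction d using Nat.strong_induction_on with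
  | _ d ih =>
    intro s t hd hst ht
    by_cases hk : ∃ k, s ≤ 2 * k ∧ 2 * k + 2 ≤ t
    · obtain ⟨k, hk1, hk2⟩ := hk
      have h1 : S.T s (2 * k + 1) ∈ M := ih (2 * k + 1 - s) (by omega) s _ rfl (by omega) (by omega)
      have h3 : S.T (2 * k + 1) t ∈ M := ih (t - (2 * k + 1)) (by omega) _ t rfl (by omega) ht
      have h5 := star_mem S P M (by omega : k < g) hk1 hk2 (by omega) h1 (ha k (by omega)) h3
        (hB k (by omega))
      have h6 : S.T s (2 * k) ∈ M := by
        by_cases h7 : s = 2 * k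
        · subst h7; rw [P.T0]; exact M.one_mem
        · exact ih (2 * k - s) (by omega) s _ rfl (by omega) (by omega)
      have h8 : S.T (2 * k + 2) t ∈ M := by
        by_cases h7 : 2 * k + 2 = t
        · rw [h7, P.T0]; exact M.one_mem
        · exact ih (t - (2 * k + 2)) (by omega) _ t rfl (by omega) ht
      exact (M.mul_mem_cancel_left (M.mul_mem h6 h8)).mp h5
    · push Not at hk
      rcases Nat.even_or_odd' s with ⟨i, hi | hi⟩
      · have := hk i (by omega)
        have ht2 : t = 2 * i + 1 := by omega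
        rw [hi, ht2]
        exact ha i (by omega)
      · have := hk (i + 1) (by omega)
        by_cases ht2 : t = 2 * i + 2
        · rw [hi, ht2, ← P.aa i (by omega)]
          exact ha i (by omega)
        · have ht3 : t = 2 * i + 3 := by omega
          rw [hi, ht3]
          exact he i (by omega)

/-- The twists which start at an even foot inside and end outside. -/
theorem evT {h t : ℕ} (hh : h ≤ g) (ht : 2 * h < t) (ht2 : t ≤ 2 * g + n)
    (hB : ∀ r, r < h → S.B r ∈ M) (ha : ∀ i, i < h → S.T (2 * i) (2 * i + 1) ∈ M)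
    (ho : ∀ i, i < h → S.T (2 * i + 1) t ∈ M) (h0 : S.T (2 * h) t ∈ M) :
    ∀ d i, i + d = h → S.T (2 * i) t ∈ M := by
  intro d
  induction d with
  | zero => intro i hi; rw [show i = h by omega]; exact h0
  | succ d ih =>
    intro i hi
    have h1 := ih (i + 1) (by omega)
    have h5 := star_mem S P M (by omega : i < g) (le_refl (2 * i)) (by omega : 2 * i + 2 ≤ t) ht2
      (ha i (by omega)) (ha i (by omega)) (ho i (by omega)) (hB i (by omega))
    rw [P.T0, one_mul] at h5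
    exact (M.mul_mem_cancel_left h1).mp h5

/-- `a_i` for all handles from `a_0`, `a_1` and the odd twists. -/
theorem aT {h : ℕ} (hh : h ≤ g) (hB : ∀ r, r < h → S.B r ∈ M)
    (ho : ∀ i k, i < k → k < h → S.T (2 * i + 1) (2 * k + 1) ∈ M)
    (h0 : S.T 0 1 ∈ M) (h1 : S.T 2 3 ∈ M) : ∀ i, i < h → S.T (2 * i) (2 * i + 1) ∈ M := by
  have key : ∀ i, i + 1 < h → S.T (2 * i) (2 * i + 1) ∈ M ∧ S.T (2 * i + 2) (2 * i + 3) ∈ M := by
    intro i
    induction i with
    | zero => intro _; exact ⟨h0, h1⟩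
    | succ i ih =>
      intro hi
      obtain ⟨a1, a2⟩ := ih (by omega)
      refine ⟨a2, ?_⟩
      have h5 := star_mem S P M (k := i + 1) (s := 2 * i + 1) (w := 2 * (i + 2) + 1) (by omega)
        (by omega) (by omega) (by omega) (ho i (i + 1) (by omega) (by omega)) a2
        (ho (i + 1) (i + 2) (by omega) (by omega)) (hB (i + 1) (by omega))
      have h6 : S.T (2 * i + 1) (2 * (i + 1)) ∈ M := by
        have := P.aa i (by omega)
        rw [show 2 * (i + 1) = 2 * i + 2 by ring, ← this]; exact a1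
      have h7 : S.T (2 * i + 1) (2 * (i + 2) + 1) ∈ M := ho i (i + 2) (by omega) (by omega)
      have h8 := (M.mul_mem_cancel_right h7).mp h5
      exact (M.mul_mem_cancel_left h6).mp h8
  intro i hi
  by_cases hi2 : i + 1 < h
  · exact (key i hi2).1
  · rcases Nat.eq_zero_or_pos i with rfl | hpos
    · exact h0
    · have := (key (i - 1) (by omega)).2
      rw [show 2 * (i - 1) + 2 = 2 * i by omega, show 2 * (i - 1) + 3 = 2 * i + 1 by omega] at this
      exact this

end mem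

section lantern

variable (S : Tw g n G) (P : PR S) (ρ : G →* Module.End ℂ V)

include P

/-- The lantern when the outer twist is unknown. -/
theorem lan_outer {s t u w : ℕ} (h1 : s < t) (h2 : t < u) (h3 : u < w) (h4 : w ≤ 2 * g + n) {D : V}
    (k1 : ρ (S.T t w) D = D) (k2 : ρ (S.T s u) D = D) (k3 : ρ (S.T s t) D = D)
    (k4 : ρ (S.T t u) D = D) (k5 : ρ (S.T u w) D = D) :
    ρ (S.L s t u w) D = ρ (S.T s w) D := by
  have c1 : Commute (S.T s w) (S.T t w) :=
    P.TT _ _ _ _ (by omega) (by omega) (by omega) (by omega) (Or.inr ⟨by omega, by omega⟩)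
  have c2 : Commute (S.T s w) (S.T s u) :=
    P.TT _ _ _ _ (by omega) (by omega) (by omega) (by omega) (Or.inr ⟨by omega, by omega⟩)
  unfold Tw.L
  rw [mm, mm, mm, mm, mm, k5, k4, k3, ← com_act ρ c2.inv_right, inv_fix ρ k2,
    ← com_act ρ c1.inv_right, inv_fix ρ k1]

end lantern

/-- `p⁻¹ B_r p` braids with `B_y`. -/
theorem brd_foot {x' x a Br By : G} (h1 : Commute x' x) (h2 : Commute x' a) (h3 : Commute x a)
    (hBr : Commute Br a) (hBB : Commute Br By) (hxB : Commute x By) (h4 : Brd x' Br)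
    (h5 : Brd x' By) (h6 : Brd a By) :
    Brd ((x' * x⁻¹ * a⁻¹)⁻¹ * Br * (x' * x⁻¹ * a⁻¹)) By := by
  -- p B_y p⁻¹ = x' B_y a B_y⁻¹ x'⁻¹
  obtain ⟨p, hp⟩ : ∃ p, p = x' * x⁻¹ * a⁻¹ := ⟨_, rfl⟩
  have e1 : p * By * p⁻¹ = x' * By * a * (x' * By)⁻¹ := by
    have f1 : a⁻¹ * By * a = By * a * By⁻¹ := brd_b h6
    have c : Commute x⁻¹ (By * a * By⁻¹) :=
      ((hxB.mul_right h3).mul_right hxB.inv_right).inv_left
    calc p * By * p⁻¹ = x' * (x⁻¹ * (a⁻¹ * By * a)) * x * x'⁻¹ := by rw [hp]; group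
      _ = x' * (x⁻¹ * (By * a * By⁻¹)) * x * x'⁻¹ := by rw [f1]
      _ = x' * ((By * a * By⁻¹) * x⁻¹) * x * x'⁻¹ := by rw [c.eq]
      _ = _ := by group
  -- (x' B_y)⁻¹ B_r (x' B_y) = (B_r x') B_y (B_r x')⁻¹
  have e2 : (x' * By)⁻¹ * Br * (x' * By) = (Br * x') * By * (Br * x')⁻¹ := by
    have f1 : x'⁻¹ * Br * x' = Br * x' * Br⁻¹ := brd_b h4
    have f2 : By⁻¹ * x' * By = x' * By * x'⁻¹ := brd_b (brd_symm h5)
    have c1 : By⁻¹ * Br = Br * By⁻¹ := hBB.inv_right.eq.symm
    have c2 : Br⁻¹ * By = By * Br⁻¹ := hBB.inv_left.eq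
    calc (x' * By)⁻¹ * Br * (x' * By) = By⁻¹ * (x'⁻¹ * Br * x') * By := by group
      _ = By⁻¹ * (Br * x' * Br⁻¹) * By := by rw [f1]
      _ = (By⁻¹ * Br) * x' * (Br⁻¹ * By) := by group
      _ = (Br * By⁻¹) * x' * (By * Br⁻¹) := by rw [c1, c2]
      _ = Br * (By⁻¹ * x' * By) * Br⁻¹ := by group
      _ = Br * (x' * By * x'⁻¹) * Br⁻¹ := by rw [f2]
      _ = _ := by group
  have c3 : Commute (Br * x') a := hBr.mul_left h2
  have h7 : Brd (x' * By * a * (x' * By)⁻¹) Br := by
    -- conjugate Brd a B_y by B_r x'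
    have g1 := brd_conj (Br * x') h6
    have g2 : Br * x' * a * (Br * x')⁻¹ = a := by rw [c3.eq, mul_inv_cancel_right]
    rw [g2, ← e2] at g1
    have g3 := brd_conj (x' * By) g1
    have g4 : x' * By * ((x' * By)⁻¹ * Br * (x' * By)) * (x' * By)⁻¹ = Br := by group
    rw [g4] at g3
    exact g3
  rw [← e1] at h7
  have h8 := brd_conj p⁻¹ h7
  have g5 : p⁻¹ * (p * By * p⁻¹) * p⁻¹⁻¹ = By := by group
  rw [g5, inv_inv] at h8
  rw [← hp]
  exact brd_symm h8

section dvec

variable (S : Tw g n G) (P : PR S) (ρ : G →* Module.End ℂ V)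

include P

/-- A vector fixed by the pushes, `B_y`, the twists outside and the twists `T 0 t` is fixed by
all twists. -/
theorem D_all {h y : ℕ} (h2 : 2 ≤ h) (hhy : h ≤ y) (hy : y < g) {D : V}
    (hd : ∀ m, 1 ≤ m → m ≤ 2 * h → ρ (dl S (2 * y) (2 * y + 1) m) D = D)
    (hBy : ρ (S.B y) D = D)
    (hout : ∀ s t, 2 * h ≤ s → s < t → t ≤ 2 * g + n → ρ (S.T s t) D = D)
    (hzero : ∀ t, 2 * h ≤ t → t ≤ 2 * g + n → ρ (S.T 0 t) D = D) :
    FT S ρ D ∧ ∀ r, r < h → ρ (S.B r) D = D := by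
  have hB : Blk g n (2 * y) (2 * y + 1) := blk_foot hy
  have hev : (2 * y) % 2 = 0 := by omega
  have ha : ρ (S.T (2 * y) (2 * y + 1)) D = D := hout _ _ (by omega) (by omega) (by omega)
  -- p_s for s ≥ 2h, s = 0, s odd
  have pout : ∀ s, 2 * h ≤ s → s < 2 * y → ρ (ps S (2 * y) (2 * y + 1) s) D = D := by
    intro s h1 h3
    unfold ps
    exact mul_fix ρ (mul_fix ρ (hout _ _ h1 (by omega) (by omega))
      (inv_fix ρ (hout _ _ h1 h3 (by omega)))) (inv_fix ρ ha)
  have p0 : ρ (ps S (2 * y) (2 * y + 1) 0) D = D := by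
    unfold ps
    exact mul_fix ρ (mul_fix ρ (hzero _ (by omega) (by omega))
      (inv_fix ρ (hzero _ (by omega) (by omega)))) (inv_fix ρ ha)
  have pstep : ∀ m, m % 2 = 1 → m ≤ 2 * h → ρ (ps S (2 * y) (2 * y + 1) (lo m)) D = D →
      ρ (ps S (2 * y) (2 * y + 1) m) D = D := by
    intro m ho hm hlo
    have h3 := hd m (by omega) hm
    rw [dl_odd S P ho, mm, mm, ha, hlo] at h3
    -- ρ p_m⁻¹ D = D
    have h4 := inv_fix ρ h3
    rwa [inv_inv] at h4
  have podd : ∀ i, i < h → ρ (ps S (2 * y) (2 * y + 1) (2 * i + 1)) D = D := by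
    intro i
    induction i with
    | zero => intro _; exact pstep 1 (by norm_num) (by omega) p0
    | succ i ih =>
      intro hi
      apply pstep _ (by omega) (by omega)
      have : lo (2 * (i + 1) + 1) = 2 * i + 1 := by unfold lo; split_ifs <;> omega
      rw [this]; exact ih (by omega)
  -- the set E
  have pE : ∀ s, s < 2 * y → (s = 0 ∨ s % 2 = 1 ∨ 2 * h ≤ s) →
      ρ (ps S (2 * y) (2 * y + 1) s) D = D := by
    intro s hs hE
    by_cases h3 : 2 * h ≤ s
    · exact pout s h3 hs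
    · rcases hE with rfl | ho | h4
      · exact p0
      · have := podd (s / 2) (by omega)
        rwa [show 2 * (s / 2) + 1 = s by omega] at this
      · exact absurd h4 h3
  -- T s (2y), T s (2y+1)
  have tE : ∀ s, s < 2 * y → (s = 0 ∨ s % 2 = 1 ∨ 2 * h ≤ s) →
      ρ (S.T s (2 * y)) D = D ∧ ρ (S.T s (2 * y + 1)) D = D := by
    intro s hs hE
    have h3 := pE s hs hE
    unfold ps at h3
    rw [mm, inv_fix ρ ha] at h3
    exact trick2 ρ (P.TBe y s hy (by omega))
      (P.TB _ _ _ hs (by omega) hy (Or.inr (Or.inl le_rfl)))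
      (P.TT _ _ _ _ (by omega) (by omega) hs (by omega) (Or.inr ⟨le_rfl, by omega⟩)) hBy h3
  -- T s t for s, t in E, t < 2y
  have tEE : ∀ s t, s < t → t < 2 * y → (s = 0 ∨ s % 2 = 1 ∨ 2 * h ≤ s) →
      (t % 2 = 1 ∨ 2 * h ≤ t) → ρ (S.T s t) D = D := by
    intro s t hst ht hsE htE
    have h3 := pE s (by omega) hsE
    have h4 := pE t ht (Or.inr htE)
    have hc1 := ps_T S P hB (show s < 2 * y by omega) hst (by omega) (Or.inr (Or.inl ⟨le_rfl, by omega⟩))
    have hc2 := ps_T S P hB ht hst (by omega) (Or.inl le_rfl)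
    have hc3 := c_T S P hB hst (by omega)
    have hL := P.LB s t (2 * y) y hst ht (by omega) hy
    rw [L_ps S P hB hst ht] at hL
    have hcl : Commute ((ps S (2 * y) (2 * y + 1) t)⁻¹ * ps S (2 * y) (2 * y + 1) s *
        S.T (2 * y) (2 * y + 1) * S.T s t) (S.T s t) :=
      ((hc2.inv_left.mul_left hc1).mul_left hc3).mul_left (Commute.refl _)
    have hfix : ρ ((ps S (2 * y) (2 * y + 1) t)⁻¹ * ps S (2 * y) (2 * y + 1) s *
        S.T (2 * y) (2 * y + 1) * S.T s t * (S.T s t)⁻¹) D = D := by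
      rw [mul_inv_cancel_right]
      exact mul_fix ρ (mul_fix ρ (inv_fix ρ h4) h3) ha
    exact (trick2 ρ hL (P.TB _ _ _ hst (by omega) hy (Or.inr (Or.inl (by omega)))) hcl hBy hfix).1
  -- B r
  have bIn : ∀ r, r < h → ρ (S.B r) D = D := by
    intro r hr
    have h3 := hd (2 * r + 2) (by omega) (by omega)
    have hc := r0_self S P hB (show 1 ≤ 2 * r + 2 by omega) (show 2 * r + 2 ≤ 2 * y by omega) hev
    rw [tc_even S P rfl] at hc
    have hbr : Brd (dl S (2 * y) (2 * y + 1) (2 * r + 2) * S.B r) (S.B y) := by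
      have e1 : dl S (2 * y) (2 * y + 1) (2 * r + 2) * S.B r =
          (ps S (2 * y) (2 * y + 1) (2 * r + 1))⁻¹ * S.B r * ps S (2 * y) (2 * y + 1) (2 * r + 1) := by
        rw [dl_even S P rfl]; group
      rw [e1]
      unfold ps
      refine brd_foot (P.TT _ _ _ _ (by omega) (by omega) (by omega) (by omega)
        (Or.inr ⟨le_rfl, by omega⟩)) (P.aT hy (by omega) (by omega)) (P.aT hy (by omega) (by omega))
        (P.TB _ _ _ (by omega) (by omega) (by omega) (Or.inl (by omega))).symm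
        (P.BB _ _ (by omega) hy) (P.TB _ _ _ (by omega) (by omega) hy (Or.inr (Or.inl le_rfl)))
        (P.TBs r (2 * y + 1) (by omega) (by omega) (by omega)) (P.TBe y (2 * r + 1) hy (by omega))
        (P.TBe y (2 * y) hy (by omega))
    have hfix : ρ (dl S (2 * y) (2 * y + 1) (2 * r + 2) * S.B r * (S.B r)⁻¹) D = D := by
      rw [mul_inv_cancel_right]; exact h3
    exact (trick2 ρ hbr (P.BB _ _ (by omega) hy) (hc.mul_left (Commute.refl _)) hBy hfix).1
  -- T s t for s in E, t ≥ 2y + 2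
  have tR : ∀ s t, s < 2 * h → (s = 0 ∨ s % 2 = 1 ∨ 2 * h ≤ s) → 2 * y + 2 ≤ t →
      t ≤ 2 * g + n → ρ (S.T s t) D = D := by
    intro s t hs hsE ht ht2
    obtain ⟨k1, k2⟩ := tE s (by omega) hsE
    have hL := lan_outer S P ρ (s := s) (t := 2 * y) (u := 2 * y + 1) (w := t) (by omega) (by omega)
      (by omega) ht2 (hout _ _ (by omega) (by omega) ht2) k2 k1 ha
      (hout _ _ (by omega) (by omega) ht2)
    exact (trick ρ (P.LB2 s (2 * y) y t (by omega) (by omega) (by omega) ht2 hy)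
      (P.TB _ _ _ (by omega) ht2 hy (Or.inr (Or.inr ⟨by omega, by omega⟩))) hBy hL).1
  -- T s t for s in E, any t in E or t > 2h
  have tA : ∀ s t, s < t → t ≤ 2 * g + n → (s = 0 ∨ s % 2 = 1) → s < 2 * h →
      (t % 2 = 1 ∨ 2 * h ≤ t) → ρ (S.T s t) D = D := by
    intro s t hst ht hsE hs htE
    have hsE' : s = 0 ∨ s % 2 = 1 ∨ 2 * h ≤ s := by omega
    rcases Nat.lt_trichotomy t (2 * y) with h3 | h3 | h3
    · exact tEE s t hst h3 hsE' htE
    · rw [h3]; exact (tE s (by omega) hsE').1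
    · by_cases h4 : t = 2 * y + 1
      · rw [h4]; exact (tE s (by omega) hsE').2
      · exact tR s t hs hsE' (by omega) ht
  -- the stabiliser
  have hM : ∀ x, x ∈ Stab ρ D ↔ ρ x D = D := fun x => Iff.rfl
  have mB : ∀ r, r < h → S.B r ∈ Stab ρ D := bIn
  have mo : ∀ i k, i < k → k < h → S.T (2 * i + 1) (2 * k + 1) ∈ Stab ρ D := fun i k h1 h3 =>
    tA _ _ (by omega) (by omega) (by omega) (by omega) (by omega)
  have m01 : S.T 0 1 ∈ Stab ρ D := tA 0 1 (by omega) (by omega) (by omega) (by omega) (by omega)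
  have m03 : S.T 0 3 ∈ Stab ρ D := tA 0 3 (by omega) (by omega) (by omega) (by omega) (by omega)
  have m13 : S.T 1 3 ∈ Stab ρ D := tA 1 3 (by omega) (by omega) (by omega) (by omega) (by omega)
  have m23 : S.T 2 3 ∈ Stab ρ D := by
    have e : S.T 2 3 = (tc S 3 * tc S 2 * tc S 1) ^ 4 * (S.T 0 3)⁻¹ := by
      rw [← chain_rel S P (by omega)]; group
    have e1 : tc S 1 = S.T 0 1 := by rw [tc_odd S P (by norm_num)]; rfl
    have e2 : tc S 2 = S.B 0 := tc_even S P (by norm_num)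
    have e3 : tc S 3 = S.T 1 3 := by rw [tc_odd S P (by norm_num)]; rfl
    rw [e, e1, e2, e3]
    exact (Stab ρ D).mul_mem ((Stab ρ D).pow_mem ((Stab ρ D).mul_mem ((Stab ρ D).mul_mem m13
      (mB 0 (by omega))) m01) 4) ((Stab ρ D).inv_mem m03)
  have ma := aT S P (Stab ρ D) (show h ≤ g by omega) mB mo m01 m23
  have min := inT S P (Stab ρ D) (show h ≤ g by omega) mB ma (fun i hi => by
    have := mo i (i + 1) (by omega) hi
    rwa [show 2 * (i + 1) + 1 = 2 * i + 3 by ring] at this)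
  refine ⟨?_, bIn⟩
  intro s t hst ht
  by_cases h3 : 2 * h ≤ s
  · exact hout s t h3 hst ht
  · by_cases h4 : t ≤ 2 * h
    · exact min (t - s) s t rfl hst h4
    · by_cases h5 : s % 2 = 1
      · exact tA s t hst ht (Or.inr h5) (by omega) (Or.inr (by omega))
      · have h6 := evT S P (Stab ρ D) (show h ≤ g by omega) (show 2 * h < t by omega) ht mB ma
          (fun i hi => tA (2 * i + 1) t (by omega) ht (Or.inr (by omega)) (by omega)
            (Or.inr (by omega)))
          (hout _ _ le_rfl (by omega) ht) (h - s / 2) (s / 2) (by omega)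
        rwa [show 2 * (s / 2) = s by omega] at h6

end dvec

end Pool.Agent.LJ
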