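import Pool.Agent.LJ.Basic

set_option linter.all false

namespace Pool.Agent.LJ

open Pool.Agent.HG13

section formal

variable {G : Type*} [Group G]

theorem brd_symm {x y : G} (h : Brd x y) : Brd y x := Eq.symm h

/-- conjugate of a braid relation -/
theorem brd_conj {x y : G} (c : G) (h : Brd x y) : Brd (c * x * c⁻¹) (c * y * c⁻¹) := by
  have h' : x * y * x = y * x * y := h
  show c * x * c⁻¹ * (c * y * c⁻¹) * (c * x * c⁻¹) = c * y * c⁻¹ * (c * x * c⁻¹) * (c * y * c⁻¹)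
  have e1 : c * x * c⁻¹ * (c * y * c⁻¹) * (c * x * c⁻¹) = c * (x * y * x) * c⁻¹ := by group
  have e2 : c * y * c⁻¹ * (c * x * c⁻¹) * (c * y * c⁻¹) = c * (y * x * y) * c⁻¹ := by group
  rw [e1, e2, h']

/-- `x y x⁻¹ = y⁻¹ x y` -/
theorem brd_a {x y : G} (h : Brd x y) : x * y * x⁻¹ = y⁻¹ * x * y := by
  have h' : x * y * x = y * x * y := h
  have : x * y = y⁻¹ * (y * x * y) := by group
  rw [this, ← h']; group

/-- `x⁻¹ y x = y x y⁻¹` -/
theorem brd_b {x y : G} (h : Brd x y) : x⁻¹ * y * x = y * x * y⁻¹ := (brd_a (brd_symm h)).symm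

/-- (f4 i) -/
theorem f4_comm {a a' b : G} (ha : Commute a a') (h1 : Brd a b) (h2 : Brd a' b) :
    Commute b ((a' * a⁻¹)⁻¹ * b * (a' * a⁻¹)) := by
  have e1 : (a' * a⁻¹)⁻¹ * b * (a' * a⁻¹) = a * (a'⁻¹ * b * a') * a⁻¹ := by group
  rw [e1, brd_b h2]
  -- a (b a' b⁻¹) a⁻¹
  have h1' : a * b * a = b * a * b := h1
  have e2 : a * b⁻¹ * a⁻¹ = b⁻¹ * a⁻¹ * b := by
    have := brd_b h1
    -- a⁻¹ b a = b a b⁻¹
    have h3 : (a⁻¹ * b * a)⁻¹ = (b * a * b⁻¹)⁻¹ := by rw [this]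
    have h4 : a⁻¹ * b⁻¹ * a = b * a⁻¹ * b⁻¹ := by
      have e := h3
      simp only [mul_inv_rev, inv_inv, mul_assoc] at e
      simp only [mul_assoc]; exact e
    have h5 := brd_a h1
    have h6 : (a * b * a⁻¹)⁻¹ = (b⁻¹ * a * b)⁻¹ := by rw [h5]
    simp only [mul_inv_rev, inv_inv, mul_assoc] at h6
    simp only [mul_assoc]; exact h6
  show b * (a * (b * a' * b⁻¹) * a⁻¹) = a * (b * a' * b⁻¹) * a⁻¹ * b
  calc b * (a * (b * a' * b⁻¹) * a⁻¹) = (b * a * b) * a' * b⁻¹ * a⁻¹ := by group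
    _ = (a * b * a) * a' * b⁻¹ * a⁻¹ := by rw [h1']
    _ = a * b * (a * a') * b⁻¹ * a⁻¹ := by group
    _ = a * b * (a' * a) * b⁻¹ * a⁻¹ := by rw [ha.eq]
    _ = a * b * a' * (a * b⁻¹ * a⁻¹) := by group
    _ = a * b * a' * (b⁻¹ * a⁻¹ * b) := by rw [e2]
    _ = a * (b * a' * b⁻¹) * a⁻¹ * b := by group

/-- (f4 ii) -/
theorem f4_b (d b : G) : b * d * b⁻¹ = d * ((d⁻¹ * b * d) * b⁻¹) := by group

/-- (f4 iii) `a e a⁻¹ = d⁻¹ e` -/
theorem f4_a {a a' b : G} (ha : Commute a a') (h1 : Brd a b) (h2 : Brd a' b) :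
    a * (((a' * a⁻¹)⁻¹ * b * (a' * a⁻¹)) * b⁻¹) * a⁻¹ =
      (a' * a⁻¹)⁻¹ * (((a' * a⁻¹)⁻¹ * b * (a' * a⁻¹)) * b⁻¹) := by
  obtain ⟨b', hb'⟩ : ∃ b', b' = (a' * a⁻¹)⁻¹ * b * (a' * a⁻¹) := ⟨_, rfl⟩
  rw [← hb']
  -- b'⁻¹ a' b' = a' b' a'⁻¹ = a b a⁻¹ = b⁻¹ a b
  have h3 : Brd a' b' := by
    have := brd_conj (a' * a⁻¹)⁻¹ h2
    have e : (a' * a⁻¹)⁻¹ * a' * (a' * a⁻¹)⁻¹⁻¹ = a' := by
      have : (a' * a⁻¹)⁻¹ * a' * (a' * a⁻¹)⁻¹⁻¹ = a * (a'⁻¹ * a' * a') * a⁻¹ := by group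
      rw [this]
      have : a * (a'⁻¹ * a' * a') * a⁻¹ = (a * a') * a⁻¹ := by group
      rw [this, ha.eq]; group
    rw [e] at this
    rw [hb']
    rwa [inv_inv] at this
  have e1 : a' * b' * a'⁻¹ = a * b * a⁻¹ := by
    rw [hb']
    have : a' * ((a' * a⁻¹)⁻¹ * b * (a' * a⁻¹)) * a'⁻¹ =
        (a' * a * a'⁻¹) * b * (a' * a⁻¹ * a'⁻¹) := by group
    rw [this, ← ha.eq]
    have : a' * a⁻¹ * a'⁻¹ = a⁻¹ := by
      rw [← (ha.inv_left).eq]; group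
    rw [this]; group
  have e2 : b'⁻¹ * a' * b' = b⁻¹ * a * b := by
    rw [← brd_a h3, e1, brd_a h1]
  -- a' = b' b⁻¹ a b b'⁻¹
  have e3 : a' = (b' * b⁻¹) * a * (b' * b⁻¹)⁻¹ := by
    have : a' = b' * (b'⁻¹ * a' * b') * b'⁻¹ := by group
    rw [this, e2]; group
  have e4 : a * (b' * b⁻¹)⁻¹ = (b' * b⁻¹)⁻¹ * a' := by
    conv_rhs => rw [e3]
    group
  -- a e⁻¹ a⁻¹ = e⁻¹ a' a⁻¹
  have e5 : a * (b' * b⁻¹)⁻¹ * a⁻¹ = (b' * b⁻¹)⁻¹ * (a' * a⁻¹) := by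
    rw [e4]; group
  have e6 := congrArg (fun x => x⁻¹) e5
  beta_reduce at e6
  have e7 : (a * (b' * b⁻¹)⁻¹ * a⁻¹)⁻¹ = a * (b' * b⁻¹) * a⁻¹ := by group
  have e8 : ((b' * b⁻¹)⁻¹ * (a' * a⁻¹))⁻¹ = (a' * a⁻¹)⁻¹ * (b' * b⁻¹) := by group
  rw [e7, e8] at e6
  exact e6

/-- The chain relation from the star relation: `(a a c b)^3 = (a b c)^4`. -/
theorem chain4 {a b c : G} (hac : Commute a c) (h1 : Brd a b) (h2 : Brd c b) :
    (a * a * c * b) ^ 3 = (a * b * c) ^ 4 := by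
  have h1' : a * b * a = b * a * b := h1
  have h2' : c * b * c = b * c * b := h2
  have h3 : a * c = c * a := hac
  obtain ⟨d, hd⟩ : ∃ d, d = a * b * c := ⟨_, rfl⟩
  have hda : d * a = b * d := by
    rw [hd]
    calc a * b * c * a = a * b * (c * a) := by group
      _ = a * b * (a * c) := by rw [h3]
      _ = (a * b * a) * c := by group
      _ = (b * a * b) * c := by rw [h1']
      _ = b * (a * b * c) := by group
  have hdb : d * b = c * d := by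
    rw [hd]
    calc a * b * c * b = a * (b * c * b) := by group
      _ = a * (c * b * c) := by rw [h2']
      _ = (a * c) * b * c := by group
      _ = (c * a) * b * c := by rw [h3]
      _ = c * (a * b * c) := by group
  have h4 : (a * d) ^ 3 = d ^ 4 := by
    calc (a * d) ^ 3 = a * (d * a) * (d * (a * d)) := by
          rw [pow_succ, pow_succ, pow_one]; group
      _ = a * (b * d) * (d * (a * d)) := by rw [hda]
      _ = a * b * d * (d * a) * d := by group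
      _ = a * b * d * (b * d) * d := by rw [hda]
      _ = a * b * (d * b) * d * d := by group
      _ = a * b * (c * d) * d * d := by rw [hdb]
      _ = (a * b * c) * d * d * d := by group
      _ = d * d * d * d := by rw [← hd]
      _ = d ^ 4 := by simp only [pow_succ, pow_zero, one_mul]
  have c1 : Commute (d ^ 4) d := (Commute.refl d).pow_left 4
  have c2 : Commute (d ^ 4) (a * d) := by
    rw [← h4]; exact (Commute.refl (a * d)).pow_left 3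
  have c3 : Commute (d ^ 4) a := by
    have := c2.mul_right c1.inv_right
    rwa [mul_inv_cancel_right] at this
  have hc : c = d * (d * a * d⁻¹) * d⁻¹ := by
    rw [hda, mul_inv_cancel_right, hdb, mul_inv_cancel_right]
  have c4 : Commute (d ^ 4) c := by
    rw [hc]
    exact (c1.mul_right ((c1.mul_right c3).mul_right c1.inv_right)).mul_right c1.inv_right
  have e1 : a * a * c * b = c * (a * d) * c⁻¹ := by
    rw [hd]
    calc a * a * c * b = a * (a * c) * b := by group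
      _ = a * (c * a) * b := by rw [h3]
      _ = (a * c) * a * b := by group
      _ = (c * a) * a * b := by rw [h3]
      _ = c * (a * (a * b * c)) * c⁻¹ := by group
  have e2 : (c * (a * d) * c⁻¹) ^ 3 = c * (a * d) ^ 3 * c⁻¹ := by
    rw [conj_pow]
  rw [e1, e2, h4, ← c4.eq, ← hd, mul_inv_cancel_right]

/-- (f5 i) -/
theorem f5_comm {a a' b : G} (ha : Commute a a') (h1 : Brd a b) (h2 : Brd a' b) :
    Commute b ((a' * a⁻¹) * b * (a' * a⁻¹)⁻¹) := by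
  have h := f4_comm ha.symm h2 h1
  have e : (a' * a⁻¹) * b * (a' * a⁻¹)⁻¹ = (a * a'⁻¹)⁻¹ * b * (a * a'⁻¹) := by group
  rw [e]; exact h

/-- (f5 iii) -/
theorem f5_a {a a' b : G} (ha : Commute a a') (h1 : Brd a b) (h2 : Brd a' b) :
    a * ((a' * a⁻¹) * b * (a' * a⁻¹)⁻¹ * b⁻¹) * a⁻¹ =
      ((a' * a⁻¹) * b * (a' * a⁻¹)⁻¹ * b⁻¹) * (a' * a⁻¹) := by
  have h := f4_a ha.symm h2 h1
  have e : (a' * a⁻¹) * b * (a' * a⁻¹)⁻¹ * b⁻¹ = ((a * a'⁻¹)⁻¹ * b * (a * a'⁻¹)) * b⁻¹ := by group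
  rw [e]
  obtain ⟨x, hx⟩ : ∃ x, x = ((a * a'⁻¹)⁻¹ * b * (a * a'⁻¹)) * b⁻¹ := ⟨_, rfl⟩
  rw [← hx] at h ⊢
  have e2 : a * x * a⁻¹ = (a' * a⁻¹)⁻¹ * (a' * x * a'⁻¹) * (a' * a⁻¹) := by group
  rw [e2, h]; group

theorem E_alg {B e p1 p3 a : G} (h3B : Commute p3 B) (h3e : Commute p3 e) (h1e : Commute p1 e)
    (haB : Commute a B) (hae : Commute a e) (ha1 : Commute a p1) (ha3 : Commute a p3)
    (heB : Brd e B) (hL : Brd (p3⁻¹ * p1 * a * e) B) :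
    p3⁻¹ * p1 * a * e = (p1⁻¹ * B * p1 * B⁻¹) * e * (p1⁻¹ * B * p1 * B⁻¹)⁻¹ := by
  obtain ⟨L, hLd⟩ : ∃ L, L = p3⁻¹ * p1 * a * e := ⟨_, rfl⟩
  obtain ⟨Q, hQ⟩ : ∃ Q, Q = p1⁻¹ * B * p1 := ⟨_, rfl⟩
  rw [← hLd] at hL ⊢
  have k1 : L * Q * L⁻¹ = e * B * e⁻¹ := by
    calc L * Q * L⁻¹ = p3⁻¹ * p1 * (a * e) * (p1⁻¹ * B * p1) * (a * e)⁻¹ * p1⁻¹ * p3 := by
          rw [hLd, hQ]; group
      _ = p3⁻¹ * p1 * (p1⁻¹ * (a * e)) * B * ((a * e)⁻¹ * p1) * p1⁻¹ * p3 := by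
          have c : Commute (a * e) p1⁻¹ := (ha1.mul_left h1e.symm).inv_right
          have c' : Commute p1 (a * e)⁻¹ := (ha1.mul_left h1e.symm).symm.inv_right
          calc p3⁻¹ * p1 * (a * e) * (p1⁻¹ * B * p1) * (a * e)⁻¹ * p1⁻¹ * p3
              = p3⁻¹ * p1 * ((a * e) * p1⁻¹) * B * (p1 * (a * e)⁻¹) * p1⁻¹ * p3 := by group
            _ = _ := by rw [c.eq, c'.eq]
      _ = p3⁻¹ * ((a * e) * B * (a * e)⁻¹) * p3 := by group
      _ = p3⁻¹ * (e * B * e⁻¹) * p3 := by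
          have : (a * e) * B * (a * e)⁻¹ = e * B * e⁻¹ := by
            have c : Commute a (e * B * e⁻¹) := (hae.mul_right haB).mul_right hae.inv_right
            calc (a * e) * B * (a * e)⁻¹ = a * (e * B * e⁻¹) * a⁻¹ := by group
              _ = e * B * e⁻¹ := by rw [c.eq, mul_inv_cancel_right]
          rw [this]
      _ = e * B * e⁻¹ := by
          have c : Commute p3⁻¹ (e * B * e⁻¹) :=
            ((h3e.mul_right h3B).mul_right h3e.inv_right).inv_left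
          rw [c.eq, inv_mul_cancel_right]
  have k2 : Brd Q L := by
    have h1 : Brd (p3 * B * p3⁻¹) (p3 * L * p3⁻¹) := brd_conj p3 (brd_symm hL)
    have e1 : p3 * B * p3⁻¹ = B := by rw [h3B.eq, mul_inv_cancel_right]
    have e2 : p3 * L * p3⁻¹ = p1 * L * p1⁻¹ := by
      have c3 : Commute p3 (a * e) := ha3.symm.mul_right h3e
      have c1 : Commute p1 (a * e) := ha1.symm.mul_right h1e
      have f1 : p3 * L * p3⁻¹ = p1 * ((a * e) * p3⁻¹) := by rw [hLd]; group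
      have f2 : p1 * L * p1⁻¹ = p1 * (p3⁻¹ * (p1 * (a * e)) * p1⁻¹) := by rw [hLd]; group
      rw [f1, f2, c1.eq, ← c3.inv_left.eq]; group
    rw [e1, e2] at h1
    have h2 := brd_conj p1⁻¹ h1
    have e3 : p1⁻¹ * B * p1⁻¹⁻¹ = Q := by rw [hQ, inv_inv]
    have e4 : p1⁻¹ * (p1 * L * p1⁻¹) * p1⁻¹⁻¹ = L := by group
    rwa [e3, e4] at h2
  have k3 : Q⁻¹ * L * Q = e * B * e⁻¹ := by rw [brd_b k2, k1]
  have k4 : B⁻¹ * e * B = e * B * e⁻¹ := brd_b (brd_symm heB)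
  have k5 : L = Q * (B⁻¹ * e * B) * Q⁻¹ := by
    rw [k4, ← k3]; group
  rw [← hQ]
  rw [k5]; group

/-- The chain relation from the star relation, other order: `(a a c b)^3 = (c b a)^4`. -/
theorem chain4' {a b c : G} (hac : Commute a c) (h1 : Brd a b) (h2 : Brd c b) :
    (a * a * c * b) ^ 3 = (c * b * a) ^ 4 := by
  have h1' : a * b * a = b * a * b := h1
  have h2' : c * b * c = b * c * b := h2
  have h3 : a * c = c * a := hac
  obtain ⟨d, hd⟩ : ∃ d, d = c * b * a := ⟨_, rfl⟩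
  have hda : a * d = d * b := by
    rw [hd]
    calc a * (c * b * a) = (a * c) * b * a := by group
      _ = (c * a) * b * a := by rw [h3]
      _ = c * (a * b * a) := by group
      _ = c * (b * a * b) := by rw [h1']
      _ = c * b * a * b := by group
  have hdb : b * d = d * c := by
    rw [hd]
    calc b * (c * b * a) = (b * c * b) * a := by group
      _ = (c * b * c) * a := by rw [h2']
      _ = c * b * (c * a) := by group
      _ = c * b * (a * c) := by rw [h3]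
      _ = c * b * a * c := by group
  have h4 : (d * a) ^ 3 = d ^ 4 := by
    calc (d * a) ^ 3 = d * (a * d) * a * (d * a) := by
          simp only [pow_succ, pow_zero, one_mul]; group
      _ = d * (d * b) * a * (d * a) := by rw [hda]
      _ = d * d * b * (a * d) * a := by group
      _ = d * d * b * (d * b) * a := by rw [hda]
      _ = d * d * (b * d) * b * a := by group
      _ = d * d * (d * c) * b * a := by rw [hdb]
      _ = d * d * d * (c * b * a) := by group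
      _ = d * d * d * d := by rw [← hd]
      _ = d ^ 4 := by simp only [pow_succ, pow_zero, one_mul]
  have c1 : Commute (d ^ 4) d := (Commute.refl d).pow_left 4
  have c2 : Commute (d ^ 4) (d * a) := by
    rw [← h4]; exact (Commute.refl (d * a)).pow_left 3
  have c3 : Commute (d ^ 4) a := by
    have := c1.inv_right.mul_right c2
    rwa [inv_mul_cancel_left] at this
  have e1 : a * a * c * b = (a * a) * (d * a) * (a * a)⁻¹ := by
    rw [hd]; group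
  have e2 : ((a * a) * (d * a) * (a * a)⁻¹) ^ 3 = (a * a) * (d * a) ^ 3 * (a * a)⁻¹ := by
    rw [conj_pow]
  rw [e1, e2, h4, ← (c3.mul_right c3).eq, ← hd, mul_inv_cancel_right]

section words

variable {t1 t2 t3 g1 g2 g3 g4 : G}

theorem c_words (h11 : t1 * g1 * t1⁻¹ = g1) (h12 : t1 * g2 * t1⁻¹ = g2 * g1)
    (h13 : t1 * g3 * t1⁻¹ = g3) (h14 : t1 * g4 * t1⁻¹ = g4)
    (h21 : t2 * g1 * t2⁻¹ = g2⁻¹ * g1) (h22 : t2 * g2 * t2⁻¹ = g2)
    (h23 : t2 * g3 * t2⁻¹ = g3 * g2) (h24 : t2 * g4 * t2⁻¹ = g4)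
    (h31 : t3 * g1 * t3⁻¹ = g1) (h32 : t3 * g2 * t3⁻¹ = g3⁻¹ * g2)
    (h33 : t3 * g3 * t3⁻¹ = g3) (h34 : t3 * g4 * t3⁻¹ = g4 * g3) :
    ((t3 * t2 * t1) ^ 4 * g1 * ((t3 * t2 * t1) ^ 4)⁻¹ = (g3 * g1)⁻¹ * g1 * (g3 * g1)) ∧
    ((t3 * t2 * t1) ^ 4 * g2 * ((t3 * t2 * t1) ^ 4)⁻¹ = (g3 * g1)⁻¹ * g2 * (g3 * g1)) ∧
    ((t3 * t2 * t1) ^ 4 * g3 * ((t3 * t2 * t1) ^ 4)⁻¹ = (g3 * g1)⁻¹ * g3 * (g3 * g1)) ∧
    ((t3 * t2 * t1) ^ 4 * g4 * ((t3 * t2 * t1) ^ 4)⁻¹ =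
      g4 * g3 * g2 * g1 * g2⁻¹ * (g3 * g1)) := by
  have k11 : MulAut.conj t1 g1 = g1 := h11
  have k12 : MulAut.conj t1 g2 = g2 * g1 := h12
  have k13 : MulAut.conj t1 g3 = g3 := h13
  have k14 : MulAut.conj t1 g4 = g4 := h14
  have k21 : MulAut.conj t2 g1 = g2⁻¹ * g1 := h21
  have k22 : MulAut.conj t2 g2 = g2 := h22
  have k23 : MulAut.conj t2 g3 = g3 * g2 := h23
  have k24 : MulAut.conj t2 g4 = g4 := h24
  have k31 : MulAut.conj t3 g1 = g1 := h31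
  have k32 : MulAut.conj t3 g2 = g3⁻¹ * g2 := h32
  have k33 : MulAut.conj t3 g3 = g3 := h33
  have k34 : MulAut.conj t3 g4 = g4 * g3 := h34
  obtain ⟨c, hc⟩ : ∃ c, c = t3 * t2 * t1 := ⟨_, rfl⟩
  have c1 : MulAut.conj c g1 = g2⁻¹ * g3 * g1 := by
    rw [hc, map_mul, map_mul, MulAut.mul_apply, MulAut.mul_apply, k11, k21, map_mul, map_inv, k32,
      k31]
    group
  have c2 : MulAut.conj c g2 = g1 := by
    rw [hc, map_mul, map_mul, MulAut.mul_apply, MulAut.mul_apply, k12, map_mul, k21, k22,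
      mul_inv_cancel_left, k31]
  have c3 : MulAut.conj c g3 = g2 := by
    rw [hc, map_mul, map_mul, MulAut.mul_apply, MulAut.mul_apply, k13, k23, map_mul, k32, k33,
      mul_inv_cancel_left]
  have c4 : MulAut.conj c g4 = g4 * g3 := by
    rw [hc, map_mul, map_mul, MulAut.mul_apply, MulAut.mul_apply, k14, k24, k34]
  have key : ∀ x, c ^ 4 * x * (c ^ 4)⁻¹ = MulAut.conj c (MulAut.conj c (MulAut.conj c
      (MulAut.conj c x))) := by
    intro x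
    simp only [MulAut.conj_apply, pow_succ, pow_zero, one_mul, mul_inv_rev, mul_assoc]
  rw [← hc]
  refine ⟨?_, ?_, ?_, ?_⟩
  · rw [key]; simp only [map_mul, map_inv, c1, c2, c3]; group
  · rw [key]; simp only [map_mul, map_inv, c1, c2, c3]; group
  · rw [key]; simp only [map_mul, map_inv, c1, c2, c3]; group
  · rw [key]; simp only [map_mul, map_inv, c1, c2, c3, c4]; group

/-- The bounding pair map `Z T⁻¹` acts on the pushes by commutators. -/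
theorem bp_words {a T Z w C : G} (hw : w = g3 * g1) (k1 : C * g1 * C⁻¹ = w⁻¹ * g1 * w)
    (k2 : C * g2 * C⁻¹ = w⁻¹ * g2 * w) (k3 : C * g3 * C⁻¹ = w⁻¹ * g3 * w)
    (k4 : C * g4 * C⁻¹ = g4 * g3 * g2 * g1 * g2⁻¹ * w)
    (hZT : Commute Z T) (hch : Z * T = C) (z1 : Commute Z g1) (z2 : Commute Z g2)
    (z3 : Commute Z g3) (hT4 : T * g4 * T⁻¹ = g4 * (w * a⁻¹))
    (hTw : Commute T w) (haT : Commute a T) (haZ : Commute a Z) (a1 : Commute a g1)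
    (a3 : Commute a g3) :
    (∀ x, (x = g1 ∨ x = g2 ∨ x = g3) → T * x * T⁻¹ = w⁻¹ * x * w) ∧
    (∀ x, (x = g1 ∨ x = g2 ∨ x = g3) → T⁻¹ * x * T = w * x * w⁻¹) ∧
    T⁻¹ * g4 * T = g4 * w⁻¹ * a ∧
    (∀ x, (x = g1 ∨ x = g2 ∨ x = g3) → (Z * T⁻¹) * x * (Z * T⁻¹)⁻¹ = w * x * w⁻¹) ∧
    (Z * T⁻¹) * g4 * (Z * T⁻¹)⁻¹ = g4 * g3 * (g2 * g1 * g2⁻¹ * g1⁻¹) * g3⁻¹ * (a * a) := by
  have zw : Commute Z w := by rw [hw]; exact z3.mul_right z1
  have aw : Commute a w := by rw [hw]; exact a3.mul_right a1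
  have hCx : ∀ x, (x = g1 ∨ x = g2 ∨ x = g3) → C * x * C⁻¹ = w⁻¹ * x * w := by
    rintro x (rfl | rfl | rfl)
    · exact k1
    · exact k2
    · exact k3
  have hZx : ∀ x, (x = g1 ∨ x = g2 ∨ x = g3) → Commute Z x := by
    rintro x (rfl | rfl | rfl)
    · exact z1
    · exact z2
    · exact z3
  have A1 : ∀ x, (x = g1 ∨ x = g2 ∨ x = g3) → T * x * T⁻¹ = w⁻¹ * x * w := by
    intro x hx
    have e1 : T = Z⁻¹ * C := by rw [← hch]; group
    have c1 : Commute Z (w⁻¹ * x * w) := (zw.inv_right.mul_right (hZx x hx)).mul_right zw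
    calc T * x * T⁻¹ = Z⁻¹ * (C * x * C⁻¹) * Z := by rw [e1]; group
      _ = Z⁻¹ * (w⁻¹ * x * w) * Z := by rw [hCx x hx]
      _ = w⁻¹ * x * w := by rw [mul_assoc, ← c1.eq, inv_mul_cancel_left]
  have A2 : ∀ x, (x = g1 ∨ x = g2 ∨ x = g3) → T⁻¹ * x * T = w * x * w⁻¹ := by
    intro x hx
    have h1 := A1 x hx
    have h2 : x = w * (T * x * T⁻¹) * w⁻¹ := by rw [h1]; group
    have c1 : T⁻¹ * w = w * T⁻¹ := hTw.inv_left.eq
    have c2 : w⁻¹ * T = T * w⁻¹ := hTw.inv_right.eq.symm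
    calc T⁻¹ * x * T = T⁻¹ * (w * (T * x * T⁻¹) * w⁻¹) * T := by rw [← h2]
      _ = (T⁻¹ * w) * T * x * T⁻¹ * (w⁻¹ * T) := by group
      _ = (w * T⁻¹) * T * x * T⁻¹ * (T * w⁻¹) := by rw [c1, c2]
      _ = w * x * w⁻¹ := by group
  have B1 : T⁻¹ * g4 * T = g4 * w⁻¹ * a := by
    have c0 : Commute T (w * a⁻¹) := hTw.mul_right haT.symm.inv_right
    have c1 : T * (w * a⁻¹) * T⁻¹ = w * a⁻¹ := by rw [c0.eq, mul_inv_cancel_right]
    -- T (g4 (w a⁻¹)⁻¹) T⁻¹ = g4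
    have h2 : T * (g4 * (w * a⁻¹)⁻¹) * T⁻¹ = g4 := by
      have : T * (g4 * (w * a⁻¹)⁻¹) * T⁻¹ = (T * g4 * T⁻¹) * (T * (w * a⁻¹) * T⁻¹)⁻¹ := by group
      rw [this, hT4, c1]; group
    have h3 : T⁻¹ * g4 * T = g4 * (w * a⁻¹)⁻¹ := by
      conv_lhs => rw [← h2]
      group
    rw [h3, mul_inv_rev, inv_inv, aw.inv_right.eq, mul_assoc]
  refine ⟨A1, A2, B1, ?_, ?_⟩
  · intro x hx
    have c1 : Commute Z (w * x * w⁻¹) := (zw.mul_right (hZx x hx)).mul_right zw.inv_right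
    calc (Z * T⁻¹) * x * (Z * T⁻¹)⁻¹ = Z * (T⁻¹ * x * T) * Z⁻¹ := by group
      _ = Z * (w * x * w⁻¹) * Z⁻¹ := by rw [A2 x hx]
      _ = w * x * w⁻¹ := by rw [c1.eq, mul_inv_cancel_right]
  · have B2 : C * w * C⁻¹ = w := by
      have : C * w * C⁻¹ = (C * g3 * C⁻¹) * (C * g1 * C⁻¹) := by
        conv_lhs => rw [hw]
        group
      rw [this, k3, k1]
      have : w⁻¹ * g3 * w * (w⁻¹ * g1 * w) = w⁻¹ * (g3 * g1) * w := by group
      rw [this, ← hw]; group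
    have aC : Commute a C := by rw [← hch]; exact haZ.mul_right haT
    have B3 : Z * g4 * Z⁻¹ = g4 * g3 * g2 * g1 * g2⁻¹ * a := by
      have e1 : Z = C * T⁻¹ := by rw [← hch]; group
      calc Z * g4 * Z⁻¹ = C * (T⁻¹ * g4 * T) * C⁻¹ := by rw [e1]; group
        _ = C * (g4 * w⁻¹ * a) * C⁻¹ := by rw [B1]
        _ = (C * g4 * C⁻¹) * (C * w * C⁻¹)⁻¹ * (C * a * C⁻¹) := by group
        _ = (g4 * g3 * g2 * g1 * g2⁻¹ * w) * w⁻¹ * a := by
            rw [k4, B2, ← aC.eq, mul_inv_cancel_right, mul_inv_cancel_right]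
        _ = _ := by group
    calc (Z * T⁻¹) * g4 * (Z * T⁻¹)⁻¹ = Z * (T⁻¹ * g4 * T) * Z⁻¹ := by group
      _ = Z * (g4 * w⁻¹ * a) * Z⁻¹ := by rw [B1]
      _ = (Z * g4 * Z⁻¹) * (Z * (w⁻¹ * a) * Z⁻¹) := by group
      _ = (g4 * g3 * g2 * g1 * g2⁻¹ * a) * (w⁻¹ * a) := by
          rw [B3, (zw.inv_right.mul_right haZ.symm).eq, mul_inv_cancel_right]
      _ = g4 * g3 * g2 * g1 * g2⁻¹ * (a * w⁻¹) * a := by group
      _ = g4 * g3 * g2 * g1 * g2⁻¹ * (w⁻¹ * a) * a := by rw [aw.inv_right.eq]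
      _ = _ := by rw [hw]; group

end words

theorem L_alg {W X Z A Y a : G} (c1 : Commute A Y) (c5 : Commute Z X) (c7 : Commute X Y)
    (c8 : Commute W Y) (c9 : Commute Z Y) (a1 : Commute Z a) (a2 : Commute X a) (a3 : Commute W a)
    (a4 : Commute Y a) (a5 : Commute A a) :
    W⁻¹ * X⁻¹ * Z * A * Y * a = (W * Y⁻¹ * a⁻¹)⁻¹ * (Z * X⁻¹ * a⁻¹) * a * A := by
  have e1 : (W * Y⁻¹ * a⁻¹)⁻¹ * (Z * X⁻¹ * a⁻¹) * a * A = a * Y * W⁻¹ * Z * X⁻¹ * A := by group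
  have e2 : W⁻¹ * X⁻¹ * Z * A * Y * a = W⁻¹ * Z * X⁻¹ * Y * a * A := by
    have h1 : X⁻¹ * Z = Z * X⁻¹ := (c5.inv_right).eq.symm
    calc W⁻¹ * X⁻¹ * Z * A * Y * a = W⁻¹ * (X⁻¹ * Z) * (A * Y) * a := by group
      _ = W⁻¹ * (Z * X⁻¹) * (Y * A) * a := by rw [h1, c1.eq]
      _ = W⁻¹ * Z * X⁻¹ * Y * (A * a) := by group
      _ = W⁻¹ * Z * X⁻¹ * Y * (a * A) := by rw [a5.eq]
      _ = _ := by group
  have q1 : Commute (W⁻¹ * Z * X⁻¹) Y :=
    ((c8.inv_left).mul_left c9).mul_left c7.inv_left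
  have q2 : Commute (W⁻¹ * Z * X⁻¹) a := ((a3.inv_left).mul_left a1).mul_left a2.inv_left
  rw [e1, e2]
  calc W⁻¹ * Z * X⁻¹ * Y * a * A = (W⁻¹ * Z * X⁻¹) * (Y * a) * A := by group
    _ = (W⁻¹ * Z * X⁻¹) * (a * Y) * A := by rw [a4.eq]
    _ = (a * Y) * (W⁻¹ * Z * X⁻¹) * A := by rw [(q2.mul_right q1).eq]
    _ = _ := by group

end formal

end Pool.Agent.LJ
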