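import Mathlib

set_option linter.all false

namespace Pool.Agent.LJ

/-- SQUARE ROOT TRICK: a subspace stable under the square of a unipotent endomorphism is stable
under the endomorphism. -/
theorem root_stable {V : Type*} [AddCommGroup V] [Module ℂ V] (u : Module.End ℂ V)
    (hu : IsNilpotent (u - 1)) (W : Submodule ℂ V) (h : ∀ w ∈ W, (u * u) w ∈ W) :
    ∀ w ∈ W, u w ∈ W := by
  obtain ⟨N, hN⟩ := hu
  set n := u - 1 with hn
  have hz : ∀ k : ℕ, ∀ w ∈ W, ((n * (n + 2)) ^ k : Module.End ℂ V) w ∈ W := by
    intro k
    induction k with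
    | zero => intro w hw; simpa using hw
    | succ k ih =>
      intro w hw
      rw [pow_succ, Module.End.mul_apply]
      apply ih
      have e : n * (n + 2) = u * u - 1 := by rw [hn]; noncomm_ring
      rw [e, LinearMap.sub_apply, Module.End.one_apply]
      exact W.sub_mem (h w hw) hw
  have hcom : Commute n (n + 2) := (Commute.refl n).add_right (Commute.ofNat_right n 2)
  have key : ∀ d k : ℕ, 1 ≤ k → N ≤ k + d → ∀ w ∈ W, (n ^ k) w ∈ W := by
    intro d
    induction d with
    | zero =>
      intro k hk hkN w hw
      have : n ^ k = 0 := pow_eq_zero_of_le (by omega) hN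
      rw [this]; simp
    | succ d ih =>
      intro k hk hkN w hw
      have sub : ∀ i k' : ℕ, k + 1 ≤ k' → ((n ^ k') * (n + 2) ^ i : Module.End ℂ V) w ∈ W := by
        intro i
        induction i with
        | zero =>
          intro k' hk'
          rw [pow_zero, mul_one]
          exact ih k' (by omega) (by omega) w hw
        | succ i ihi =>
          intro k' hk'
          have e : n ^ k' * (n + 2) ^ (i + 1) =
              n ^ (k' + 1) * (n + 2) ^ i + (2 : ℂ) • (n ^ k' * (n + 2) ^ i) := by
            rw [pow_succ' (n + 2) i, pow_succ n k', ← mul_assoc, mul_add, add_mul, two_smul,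
              mul_two, add_mul]
          rw [e, LinearMap.add_apply, LinearMap.smul_apply]
          exact W.add_mem (ihi (k' + 1) (by omega)) (W.smul_mem _ (ihi k' hk'))
      have main : ∀ i : ℕ, ((n ^ k) * (n + 2) ^ i : Module.End ℂ V) w - ((2 : ℂ) ^ i) • (n ^ k) w ∈ W := by
        intro i
        induction i with
        | zero => simp
        | succ i ihi =>
          have e : n ^ k * (n + 2) ^ (i + 1) =
              n ^ (k + 1) * (n + 2) ^ i + (2 : ℂ) • (n ^ k * (n + 2) ^ i) := by
            rw [pow_succ' (n + 2) i, pow_succ n k, ← mul_assoc, mul_add, add_mul, two_smul,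
              mul_two, add_mul]
          rw [e, LinearMap.add_apply, LinearMap.smul_apply, pow_succ' (2 : ℂ) i, mul_smul, add_sub_assoc,
            ← smul_sub]
          exact W.add_mem (sub i (k + 1) le_rfl) (W.smul_mem _ ihi)
      have h1 := hz k w hw
      rw [hcom.mul_pow] at h1
      have h2 := W.sub_mem h1 (main k)
      rw [sub_sub_cancel] at h2
      exact (W.smul_mem_iff (pow_ne_zero k (two_ne_zero))).1 h2
  intro w hw
  have h1 := key N 1 le_rfl (by omega) w hw
  rw [pow_one] at h1
  have e : u w = n w + w := by rw [hn]; simp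
  rw [e]
  exact W.add_mem h1 hw

end Pool.Agent.LJ
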