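import Pool.Agent.LJ.Ker
import Pool.Agent.LJ.Bp
import Pool.Agent.LJ.Root

set_option linter.all false

namespace Pool.Agent.LJ

open Pool.Agent.HG13

variable {g n : ℕ} {G : Type*} [Group G]

/-- One step of Humphries' theorem: `a_k, a_(k+1)` in `H` give `a_(k+2)` in `H`. -/
theorem hum_step (S : Tw g n G) (P : PR S) (H : Subgroup G) (k : ℕ) (hk : k + 2 < g)
    (hb : ∀ i, i < g → S.B i ∈ H) (he : ∀ i, i + 1 < g → S.T (2 * i + 1) (2 * i + 3) ∈ H)
    (h0 : S.T (2 * k) (2 * k + 1) ∈ H) (h1 : S.T (2 * k + 2) (2 * k + 3) ∈ H) :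
    S.T (2 * k + 4) (2 * k + 5) ∈ H := by
  have n1 : 2 * (k + 1) = 2 * k + 2 := by ring
  have n2 : 2 * k + 2 + 1 = 2 * k + 3 := by ring
  have n3 : 2 * k + 2 + 2 = 2 * k + 4 := by ring
  have E1 := P.star (k + 1) (2 * k + 1) (2 * k + 5) (by omega) (by omega) (by omega) (by omega)
  have E2 := P.star (k + 1) (2 * k + 2) (2 * k + 5) (by omega) (by omega) (by omega) (by omega)
  have E3 := P.star k (2 * k) (2 * k + 2) (by omega) (by omega) (by omega) (by omega)
  have E4 := P.star k (2 * k) (2 * k + 3) (by omega) (by omega) (by omega) (by omega)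
  have E5 := P.star (k + 1) (2 * k) (2 * k + 5) (by omega) (by omega) (by omega) (by omega)
  have E6 := P.star k (2 * k) (2 * k + 5) (by omega) (by omega) (by omega) (by omega)
  have ha : S.T (2 * k + 1) (2 * k + 2) = S.T (2 * k) (2 * k + 1) := (P.aa k (by omega)).symm
  simp only [n1, n2, n3, P.T0, one_mul, ha] at E1 E2 E3 E4 E5 E6
  have hB0 := hb k (by omega)
  have hB1 := hb (k + 1) (by omega)
  have he0 := he k (by omega)
  have he1 := he (k + 1) (by omega)
  rw [show 2 * (k + 1) + 1 = 2 * k + 3 by ring, show 2 * (k + 1) + 3 = 2 * k + 5 by ring] at he1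
  have c1 : Commute (S.T (2 * k + 4) (2 * k + 5)) (S.T (2 * k) (2 * k + 1)) :=
    (P.TT _ _ _ _ (by omega) (by omega) (by omega) (by omega) (Or.inl (by omega))).symm
  have c2 : Commute (S.T (2 * k + 4) (2 * k + 5)) (S.T (2 * k + 1) (2 * k + 5)) :=
    (P.TT _ _ _ _ (by omega) (by omega) (by omega) (by omega) (Or.inr ⟨by omega, by omega⟩)).symm
  have c3 : Commute (S.T (2 * k + 4) (2 * k + 5)) (S.B k) :=
    P.tb (by omega) (by omega) (by omega) (by omega) (by omega)
  have c4 : Commute (S.T (2 * k + 4) (2 * k + 5)) (S.T (2 * k + 2) (2 * k + 5)) :=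
    (P.TT _ _ _ _ (by omega) (by omega) (by omega) (by omega) (Or.inr ⟨by omega, by omega⟩)).symm
  have c5 : Commute (S.T (2 * k + 4) (2 * k + 5)) (S.T (2 * k) (2 * k + 5)) :=
    (P.TT _ _ _ _ (by omega) (by omega) (by omega) (by omega) (Or.inr ⟨by omega, by omega⟩)).symm
  generalize S.T (2 * k + 4) (2 * k + 5) = A at *
  generalize S.T (2 * k + 1) (2 * k + 5) = R at *
  generalize S.T (2 * k + 2) (2 * k + 5) = U at *
  generalize S.T (2 * k) (2 * k + 5) = Q at *
  generalize S.T (2 * k) (2 * k + 1) = a at *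
  generalize S.T (2 * k + 2) (2 * k + 3) = a' at *
  generalize S.T (2 * k + 1) (2 * k + 3) = e at *
  generalize S.T (2 * k + 3) (2 * k + 5) = e' at *
  generalize S.T (2 * k) (2 * k + 2) = Z at *
  generalize S.T (2 * k) (2 * k + 3) = Y at *
  generalize S.B k = b at *
  generalize S.B (k + 1) = b' at *
  have m1 : A * R ∈ H := by
    have : a * A * R ∈ H := by
      rw [← E1]
      exact H.pow_mem (H.mul_mem (H.mul_mem (H.mul_mem he0 h1) he1) hB1) 3
    rw [mul_assoc] at this
    exact (H.mul_mem_cancel_left h0).1 this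
  have m2 : A * U ∈ H := by
    rw [← E2]
    exact H.pow_mem (H.mul_mem (H.mul_mem (H.mul_mem h1 h1) he1) hB1) 3
  have m3 : Z ∈ H := by
    rw [← E3]
    exact H.pow_mem (H.mul_mem (H.mul_mem (H.mul_mem h0 h0) h0) hB0) 3
  have m4 : Y ∈ H := by
    have : a' * Y ∈ H := by
      rw [← E4]
      exact H.pow_mem (H.mul_mem (H.mul_mem (H.mul_mem h0 h0) he0) hB0) 3
    exact (H.mul_mem_cancel_left h1).1 this
  have m5 : A * Q ∈ H := by
    have : Z * A * Q ∈ H := by
      rw [← E5]
      exact H.pow_mem (H.mul_mem (H.mul_mem (H.mul_mem m4 h1) he1) hB1) 3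
    rw [mul_assoc] at this
    exact (H.mul_mem_cancel_left m3).1 this
  have k1 : (a * a * (A * R) * b) ^ 3 = A * ((A * U) * (A * Q)) := by
    have hx : Commute A (a * a * R * b) := ((c1.mul_right c1).mul_right c2).mul_right c3
    have h2 : a * a * (A * R) * b = A * (a * a * R * b) := by
      calc a * a * (A * R) * b = (a * a * A) * R * b := by simp only [mul_assoc]
        _ = (A * (a * a)) * R * b := by rw [(c1.mul_right c1).eq]
        _ = _ := by simp only [mul_assoc]
    rw [h2, hx.mul_pow, E6]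
    calc A ^ 3 * (U * Q) = A * (A * (A * U) * Q) := by
          simp only [pow_succ, pow_zero, one_mul, mul_assoc]
      _ = A * (A * (U * A) * Q) := by rw [c4.eq]
      _ = _ := by simp only [mul_assoc]
  have k2 : A * ((A * U) * (A * Q)) ∈ H := by
    rw [← k1]
    exact H.pow_mem (H.mul_mem (H.mul_mem (H.mul_mem h0 h0) m1) hB0) 3
  exact (H.mul_mem_cancel_right (H.mul_mem m2 m5)).1 k2

/-- HUMPHRIES: a subgroup which contains `t_1, ..., t_(2g)` and `a_1 = T 2 3` contains all `a_i`. -/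
theorem hum (S : Tw g n G) (P : PR S) (H : Subgroup G)
    (ht : ∀ m, 1 ≤ m → m ≤ 2 * g → tc S m ∈ H) (hs : 2 ≤ g → S.T 2 3 ∈ H) :
    (∀ i, i < g → S.B i ∈ H) ∧ (∀ i, i + 1 < g → S.T (2 * i + 1) (2 * i + 3) ∈ H) ∧
      ∀ i, i < g → S.T (2 * i) (2 * i + 1) ∈ H := by
  have hb : ∀ i, i < g → S.B i ∈ H := by
    intro i hi
    have := ht (2 * i + 2) (by omega) (by omega)
    rwa [tc_even S P rfl] at this
  have he : ∀ i, i + 1 < g → S.T (2 * i + 1) (2 * i + 3) ∈ H := by
    intro i hi
    have := ht (2 * i + 3) (by omega) (by omega)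
    rw [tc_odd S P (by omega)] at this
    have hlo : lo (2 * i + 3) = 2 * i + 1 := by unfold lo; split_ifs <;> omega
    rwa [hlo] at this
  refine ⟨hb, he, ?_⟩
  have key : ∀ i, (i < g → S.T (2 * i) (2 * i + 1) ∈ H) ∧
      (i + 1 < g → S.T (2 * i + 2) (2 * i + 3) ∈ H) := by
    intro i
    induction i with
    | zero =>
      refine ⟨fun h => ?_, fun h => hs (by omega)⟩
      have := ht 1 le_rfl (by omega)
      rw [tc_odd S P (by omega)] at this
      exact this
    | succ i ih =>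
      refine ⟨fun h => ih.2 h, fun h => ?_⟩
      exact hum_step S P H i (by omega) hb he (ih.1 (by omega)) (ih.2 (by omega))
  exact fun i hi => (key i).1 hi

end Pool.Agent.LJ
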