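import Pool.Agent.LJ.Push

set_option linter.all false

namespace Pool.Agent.LJ

open Pool.Agent.HG13

variable {g n : ℕ} {G : Type*} [Group G]

section t03

variable (S : Tw g n G) (P : PR S) {u w : ℕ} (hB : Blk g n u w)

include P

/-- `t_3 t_2 t_1` to the fourth is `T 2 3 * T 0 3`. -/
theorem chain_rel (hg : 2 ≤ g) :
    S.T 2 3 * S.T 0 3 = (tc S 3 * tc S 2 * tc S 1) ^ 4 := by
  have h := P.star 0 0 3 (by omega) (by omega) (by omega) (by omega)
  simp only [Nat.mul_zero, Nat.zero_add, P.T0, one_mul] at h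
  rw [← h]
  have e1 : tc S 1 = S.T 0 1 := by rw [tc_odd S P (by norm_num)]; rfl
  have e2 : tc S 2 = S.B 0 := tc_even S P (by norm_num)
  have e3 : tc S 3 = S.T 1 3 := by rw [tc_odd S P (by norm_num)]; rfl
  rw [e1, e2, e3]
  exact chain4' (P.TT _ _ _ _ (by omega) (by omega) (by omega) (by omega) (Or.inl le_rfl))
    (P.TBe 0 0 (by omega) (by omega)) (P.TBs 0 3 (by omega) (by omega) (by omega))

include hB

/-- `d_03 = p_3⁻¹ p_0 c = d_3 d_1 c⁻¹` -/
theorem d03 (h4 : 4 ≤ u) : (ps S u w 3)⁻¹ * ps S u w 0 * S.T u w =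
      dl S u w 3 * dl S u w 1 * (S.T u w)⁻¹ := by
  rw [dl_odd S P (show 3 % 2 = 1 by norm_num), dl_odd S P (show 1 % 2 = 1 by norm_num)]
  have l3 : lo 3 = 1 := rfl
  have l1 : lo 1 = 0 := rfl
  rw [l3, l1]
  have c1 := ps_c S P hB (show 1 < u by omega)
  have c0 := ps_c S P hB (show 0 < u by omega)
  generalize S.T u w = a at *
  calc (ps S u w 3)⁻¹ * ps S u w 0 * a = (ps S u w 3)⁻¹ * (ps S u w 0 * a) := by group
    _ = (ps S u w 3)⁻¹ * (a * ps S u w 0) := by rw [c0.eq]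
    _ = (ps S u w 3)⁻¹ * (ps S u w 1 * a * (ps S u w 1)⁻¹) * ps S u w 0 := by
        rw [c1.eq]; group
    _ = _ := by group

/-- `T 0 3` commutes with `p_s` for `s = 0`, `3 ≤ s`. -/
theorem t03_ps {s : ℕ} (hs : s < u) (h4 : 4 ≤ u) (h : s = 0 ∨ 3 ≤ s) :
    Commute (ps S u w s) (S.T 0 3) := by
  have h1 := hB.h1
  exact ps_T S P hB hs (by omega) (by omega) (by omega)

theorem t03_d4 (h4 : 4 ≤ u) :
    S.T 0 3 * dl S u w 4 * (S.T 0 3)⁻¹ =
      dl S u w 4 * ((dl S u w 3 * dl S u w 1) * (S.T u w)⁻¹) := by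
  have k1 := hB.h1
  have k2 := hB.h2
  have k3 := hB.h3
  have c0 := t03_ps S P hB (show 0 < u by omega) h4 (Or.inl rfl)
  have c3 := t03_ps S P hB (show 3 < u by omega) h4 (Or.inr le_rfl)
  have ca : Commute (S.T u w) (S.T 0 3) := c_T S P hB (by omega) (by omega)
  obtain ⟨d, hd⟩ : ∃ d, d = (ps S u w 3)⁻¹ * ps S u w 0 * S.T u w := ⟨_, rfl⟩
  have cd : Commute (S.T 0 3) d := by
    rw [hd]; exact ((c3.inv_left.mul_left c0).mul_left ca).symm
  have hb : Brd (S.T 0 3) (S.B 1) := P.TBe 1 0 (by omega) (by omega)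
  have hb' : Brd (d * S.T 0 3) (S.B 1) := by
    have h1 := P.LB1 0 1 u w (by omega) (by omega) (by omega) (by omega) (by omega)
    rw [show 2 * 1 + 1 = 3 by norm_num, L_ps S P hB (by omega) (by omega)] at h1
    rw [hd]; exact h1
  have h3 := f5_a (cd.mul_right (Commute.refl _)) hb hb'
  rw [mul_inv_cancel_right] at h3
  have e1 : d * S.B 1 * d⁻¹ * (S.B 1)⁻¹ = dl S u w 4 := by
    have c1 : Commute (ps S u w 0 * S.T u w) (S.B 1) :=
      (ps_B S P hB (by omega) (by omega) (by omega)).mul_left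
        (c_B S P hB (by omega))
    rw [dl_even S P (show 4 = 2 * 1 + 2 by norm_num), hd]
    have : (ps S u w 3)⁻¹ * ps S u w 0 * S.T u w * S.B 1 *
        ((ps S u w 3)⁻¹ * ps S u w 0 * S.T u w)⁻¹ * (S.B 1)⁻¹ =
        (ps S u w 3)⁻¹ * ((ps S u w 0 * S.T u w) * S.B 1 *
          (ps S u w 0 * S.T u w)⁻¹) * ps S u w 3 * (S.B 1)⁻¹ := by group
    rw [this, c1.eq, mul_inv_cancel_right]
  rw [e1] at h3
  rw [h3, hd, d03 S P hB h4]

theorem t03_far {m : ℕ} (h4 : 4 ≤ u) (hm : 5 ≤ m) (hm2 : m ≤ u) (hev : u % 2 = 0) :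
    Commute (dl S u w m) (S.T 0 3) := by
  have k1 := hB.h1
  have ca : Commute (S.T u w) (S.T 0 3) := c_T S P hB (by omega) (by omega)
  rcases Nat.mod_two_eq_zero_or_one m with h | h
  · obtain ⟨i, hi⟩ : ∃ i, m = 2 * i + 2 := ⟨m / 2 - 1, by omega⟩
    rw [dl_even S P hi]
    have c1 := t03_ps S P hB (show 2 * i + 1 < u by omega) h4 (Or.inr (by omega))
    have c2 : Commute (S.B i) (S.T 0 3) :=
      (P.tb (by omega) (by omega) (by omega) (by omega) (by omega)).symm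
    exact ((c1.inv_left.mul_left c2).mul_left c1).mul_left c2.inv_left
  · rw [dl_odd S P h]
    have hlo := lo_spec h
    have c1 := t03_ps S P hB (show m < u by omega) h4 (Or.inr (by omega))
    have c2 := t03_ps S P hB (show lo m < u by omega) h4 (Or.inr (by omega))
    exact (c1.inv_left.mul_left c2).mul_left ca

theorem t23_near {m : ℕ} (h4 : 4 ≤ u) (hm : m = 1 ∨ m = 2 ∨ m = 3) :
    Commute (S.T 2 3) (dl S u w m) := by
  have k1 := hB.h1
  have k3 := hB.h3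
  have ca : Commute (S.T u w) (S.T 2 3) := c_T S P hB (by omega) (by omega)
  have cp : ∀ s, s < u → Commute (ps S u w s) (S.T 2 3) := fun s hs =>
    ps_T S P hB hs (by omega) (by omega) (by omega)
  have cB : Commute (S.B 0) (S.T 2 3) :=
    (P.tb (by omega) (by omega) (by omega) (by omega) (by omega)).symm
  rcases hm with rfl | rfl | rfl
  · rw [dl_odd S P (by norm_num)]
    exact (((cp _ (by omega)).inv_left.mul_left (cp _ (by unfold lo; simp; omega))).mul_left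
      ca).symm
  · rw [dl_even S P (show 2 = 2 * 0 + 2 by norm_num)]
    exact ((((cp _ (by omega)).inv_left.mul_left cB).mul_left (cp _ (by omega))).mul_left
      cB.inv_left).symm
  · rw [dl_odd S P (by norm_num)]
    exact (((cp _ (by omega)).inv_left.mul_left (cp _ (by unfold lo; simp; omega))).mul_left
      ca).symm

/-- Everything about the first four pushes. -/
theorem t_all (h4 : 4 ≤ u) (hev : u % 2 = 0) :
    (∀ x, (x = dl S u w 1 ∨ x = dl S u w 2 ∨ x = dl S u w 3) → S.T 0 3 * x * (S.T 0 3)⁻¹ =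
      (dl S u w 3 * dl S u w 1)⁻¹ * x * (dl S u w 3 * dl S u w 1)) ∧
    (∀ x, (x = dl S u w 1 ∨ x = dl S u w 2 ∨ x = dl S u w 3) → (S.T 0 3)⁻¹ * x * S.T 0 3 =
      (dl S u w 3 * dl S u w 1) * x * (dl S u w 3 * dl S u w 1)⁻¹) ∧
    (S.T 0 3)⁻¹ * dl S u w 4 * S.T 0 3 =
      dl S u w 4 * (dl S u w 3 * dl S u w 1)⁻¹ * S.T u w ∧
    (∀ x, (x = dl S u w 1 ∨ x = dl S u w 2 ∨ x = dl S u w 3) → (S.T 2 3 * (S.T 0 3)⁻¹) * x *
      (S.T 2 3 * (S.T 0 3)⁻¹)⁻¹ = (dl S u w 3 * dl S u w 1) * x * (dl S u w 3 * dl S u w 1)⁻¹) ∧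
    (S.T 2 3 * (S.T 0 3)⁻¹) * dl S u w 4 * (S.T 2 3 * (S.T 0 3)⁻¹)⁻¹ =
      dl S u w 4 * dl S u w 3 * (dl S u w 2 * dl S u w 1 * (dl S u w 2)⁻¹ * (dl S u w 1)⁻¹) *
        (dl S u w 3)⁻¹ * (S.T u w * S.T u w) := by
  have k1 := hB.h1
  have k3 := hB.h3
  have s0 : ∀ m, 1 ≤ m → m ≤ u → tc S m * dl S u w m * (tc S m)⁻¹ = dl S u w m := by
    intro m h1 h3
    rw [← (r0_self S P hB h1 h3 hev).eq, mul_inv_cancel_right]
  have sf : ∀ m k, 1 ≤ m → m ≤ u → 1 ≤ k → k ≤ u → (m + 2 ≤ k ∨ k + 2 ≤ m) →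
      tc S m * dl S u w k * (tc S m)⁻¹ = dl S u w k := by
    intro m k h1 h3 h4 h5 h6
    rw [← (r0_far S P hB h1 h3 h4 h5 hev h6).eq, mul_inv_cancel_right]
  have W := c_words (t1 := tc S 1) (t2 := tc S 2) (t3 := tc S 3) (g1 := dl S u w 1)
    (g2 := dl S u w 2) (g3 := dl S u w 3) (g4 := dl S u w 4)
    (s0 1 (by omega) (by omega)) (r2 S P hB (by omega) (by omega) hev)
    (sf 1 3 (by omega) (by omega) (by omega) (by omega) (by omega))
    (sf 1 4 (by omega) (by omega) (by omega) (by omega) (by omega))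
    (r1 S P hB (by omega) (by omega) hev) (s0 2 (by omega) (by omega))
    (r2 S P hB (by omega) (by omega) hev)
    (sf 2 4 (by omega) (by omega) (by omega) (by omega) (by omega))
    (sf 3 1 (by omega) (by omega) (by omega) (by omega) (by omega))
    (r1 S P hB (by omega) (by omega) hev) (s0 3 (by omega) (by omega))
    (r2 S P hB (by omega) (by omega) hev)
  obtain ⟨w1, w2, w3, w4⟩ := W
  have cZT : Commute (S.T 2 3) (S.T 0 3) :=
    (P.TT _ _ _ _ (by omega) (by omega) (by omega) (by omega) (Or.inr ⟨by omega, le_rfl⟩)).symm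
  have c0 := t03_ps S P hB (show 0 < u by omega) h4 (Or.inl rfl)
  have c3 := t03_ps S P hB (show 3 < u by omega) h4 (Or.inr le_rfl)
  have ca : Commute (S.T u w) (S.T 0 3) := c_T S P hB (by omega) (by omega)
  have ca' : Commute (S.T u w) (S.T 2 3) := c_T S P hB (by omega) (by omega)
  have hTw : Commute (S.T 0 3) (dl S u w 3 * dl S u w 1) := by
    have e : dl S u w 3 * dl S u w 1 = (ps S u w 3)⁻¹ * ps S u w 0 * S.T u w *
        S.T u w := by
      rw [d03 S P hB h4]; group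
    rw [e]
    exact (((c3.inv_left.mul_left c0).mul_left ca).mul_left ca).symm
  exact bp_words rfl w1 w2 w3 w4 cZT (chain_rel S P (by omega))
    (t23_near S P hB h4 (Or.inl rfl)) (t23_near S P hB h4 (Or.inr (Or.inl rfl)))
    (t23_near S P hB h4 (Or.inr (Or.inr rfl))) (t03_d4 S P hB h4) hTw ca ca'
    (c_dl S P hB (by omega) (by omega) hev) (c_dl S P hB (by omega) (by omega) hev)

end t03

end Pool.Agent.LJ
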