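import Pool.Agent.LJ.Stab

set_option linter.all false

namespace Pool.Agent.LJ

open Pool.Agent.HG13

section gar

variable {G : Type*} [Group G]

/-- The Garside element of a chain of five. -/
theorem gar5 {z : ℕ → G} (h : Brs 5 z) : ∃ D : G, z 1 * D = D * z 5 ∧ z 2 * D = D * z 4 ∧
    z 3 * D = D * z 3 ∧ z 4 * D = D * z 2 ∧ z 5 * D = D * z 1 := by
  refine ⟨D z 1 1 * D z 2 1 * D z 3 1 * D z 4 1 * D z 5 1, ?_, ?_, ?_, ?_, ?_⟩
  · have e1 : z 1 * D z 1 1 = D z 1 1 * z 1 := by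
      rw [D_succ z 0 1 (by omega), D_lt z 0 1 (by omega), mul_one]
    have e2 := h.D3 (p := 1) (a := 1) le_rfl le_rfl 2 (by omega) (by omega)
    have e3 := h.D3 (p := 2) (a := 1) le_rfl (by omega) 3 (by omega) (by omega)
    have e4 := h.D3 (p := 3) (a := 1) le_rfl (by omega) 4 (by omega) (by omega)
    have e5 := h.D3 (p := 4) (a := 1) le_rfl (by omega) 5 (by omega) (by omega)
    calc z 1 * (D z 1 1 * D z 2 1 * D z 3 1 * D z 4 1 * D z 5 1)
        = (z 1 * D z 1 1) * D z 2 1 * D z 3 1 * D z 4 1 * D z 5 1 := by simp only [mul_assoc]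
      _ = D z 1 1 * (z 1 * D z 2 1) * D z 3 1 * D z 4 1 * D z 5 1 := by
          rw [e1]; simp only [mul_assoc]
      _ = D z 1 1 * D z 2 1 * (z 2 * D z 3 1) * D z 4 1 * D z 5 1 := by
          rw [e2]; simp only [mul_assoc]
      _ = D z 1 1 * D z 2 1 * D z 3 1 * (z 3 * D z 4 1) * D z 5 1 := by
          rw [e3]; simp only [mul_assoc]
      _ = D z 1 1 * D z 2 1 * D z 3 1 * D z 4 1 * (z 4 * D z 5 1) := by
          rw [e4]; simp only [mul_assoc]
      _ = _ := by rw [e5]; simp only [mul_assoc]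
  · have e1 : z 2 * (D z 1 1 * D z 2 1) = D z 1 1 * D z 2 1 * z 1 := by
      have h1 := h.D4 (a := 1) le_rfl 1 (by omega) (by omega)
      rw [D_last z 1 le_rfl 2 (by omega)]
      calc z (1 + 1) * (D z 1 1 * (D z 2 (1 + 1) * z 1))
          = z (1 + 1) * (D z 1 1 * D z 2 (1 + 1)) * z 1 := by simp only [mul_assoc]
        _ = _ := by rw [h1]; simp only [mul_assoc]
    have e3 := h.D3 (p := 1) (a := 1) le_rfl (by omega) 3 (by omega) (by omega)
    have e4 := h.D3 (p := 2) (a := 1) le_rfl (by omega) 4 (by omega) (by omega)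
    have e5 := h.D3 (p := 3) (a := 1) le_rfl (by omega) 5 (by omega) (by omega)
    calc z 2 * (D z 1 1 * D z 2 1 * D z 3 1 * D z 4 1 * D z 5 1)
        = z 2 * (D z 1 1 * D z 2 1) * D z 3 1 * D z 4 1 * D z 5 1 := by simp only [mul_assoc]
      _ = D z 1 1 * D z 2 1 * (z 1 * D z 3 1) * D z 4 1 * D z 5 1 := by
          rw [e1]; simp only [mul_assoc]
      _ = D z 1 1 * D z 2 1 * D z 3 1 * (z 2 * D z 4 1) * D z 5 1 := by
          rw [e3]; simp only [mul_assoc]
      _ = D z 1 1 * D z 2 1 * D z 3 1 * D z 4 1 * (z 3 * D z 5 1) := by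
          rw [e4]; simp only [mul_assoc]
      _ = _ := by rw [e5]; simp only [mul_assoc]
  · have e0 : Commute (z 3) (D z 1 1) := h.D2 (by omega) (by omega) le_rfl (by omega) (by omega)
    have e1 : z 3 * (D z 2 1 * D z 3 1) = D z 2 1 * D z 3 1 * z 1 := by
      have h1 := h.D4 (a := 1) le_rfl 2 (by omega) (by omega)
      rw [D_last z 1 le_rfl 3 (by omega)]
      calc z (2 + 1) * (D z 2 1 * (D z (2 + 1) (1 + 1) * z 1))
          = z (2 + 1) * (D z 2 1 * D z (2 + 1) (1 + 1)) * z 1 := by simp only [mul_assoc]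
        _ = _ := by rw [h1]; simp only [mul_assoc]
    have e4 := h.D3 (p := 1) (a := 1) le_rfl (by omega) 4 (by omega) (by omega)
    have e5 := h.D3 (p := 2) (a := 1) le_rfl (by omega) 5 (by omega) (by omega)
    calc z 3 * (D z 1 1 * D z 2 1 * D z 3 1 * D z 4 1 * D z 5 1)
        = (z 3 * D z 1 1) * D z 2 1 * D z 3 1 * D z 4 1 * D z 5 1 := by simp only [mul_assoc]
      _ = D z 1 1 * (z 3 * (D z 2 1 * D z 3 1)) * D z 4 1 * D z 5 1 := by
          rw [e0.eq]; simp only [mul_assoc]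
      _ = D z 1 1 * D z 2 1 * D z 3 1 * (z 1 * D z 4 1) * D z 5 1 := by
          rw [e1]; simp only [mul_assoc]
      _ = D z 1 1 * D z 2 1 * D z 3 1 * D z 4 1 * (z 2 * D z 5 1) := by
          rw [e4]; simp only [mul_assoc]
      _ = _ := by rw [e5]; simp only [mul_assoc]
  · have e0 : Commute (z 4) (D z 1 1) := h.D2 (by omega) (by omega) le_rfl (by omega) (by omega)
    have e0' : Commute (z 4) (D z 2 1) := h.D2 (by omega) (by omega) le_rfl (by omega) (by omega)
    have e1 : z 4 * (D z 3 1 * D z 4 1) = D z 3 1 * D z 4 1 * z 1 := by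
      have h1 := h.D4 (a := 1) le_rfl 3 (by omega) (by omega)
      rw [D_last z 1 le_rfl 4 (by omega)]
      calc z (3 + 1) * (D z 3 1 * (D z (3 + 1) (1 + 1) * z 1))
          = z (3 + 1) * (D z 3 1 * D z (3 + 1) (1 + 1)) * z 1 := by simp only [mul_assoc]
        _ = _ := by rw [h1]; simp only [mul_assoc]
    have e5 := h.D3 (p := 1) (a := 1) le_rfl (by omega) 5 (by omega) (by omega)
    calc z 4 * (D z 1 1 * D z 2 1 * D z 3 1 * D z 4 1 * D z 5 1)
        = z 4 * (D z 1 1 * D z 2 1) * D z 3 1 * D z 4 1 * D z 5 1 := by simp only [mul_assoc]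
      _ = D z 1 1 * D z 2 1 * (z 4 * (D z 3 1 * D z 4 1)) * D z 5 1 := by
          rw [(e0.mul_right e0').eq]; simp only [mul_assoc]
      _ = D z 1 1 * D z 2 1 * D z 3 1 * D z 4 1 * (z 1 * D z 5 1) := by
          rw [e1]; simp only [mul_assoc]
      _ = _ := by rw [e5]; simp only [mul_assoc]
  · have e0 : Commute (z 5) (D z 1 1) := h.D2 (by omega) (by omega) le_rfl (by omega) (by omega)
    have e0' : Commute (z 5) (D z 2 1) := h.D2 (by omega) (by omega) le_rfl (by omega) (by omega)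
    have e0'' : Commute (z 5) (D z 3 1) := h.D2 (by omega) (by omega) le_rfl (by omega) (by omega)
    have e1 : z 5 * (D z 4 1 * D z 5 1) = D z 4 1 * D z 5 1 * z 1 := by
      have h1 := h.D4 (a := 1) le_rfl 4 (by omega) (by omega)
      rw [D_last z 1 le_rfl 5 (by omega)]
      calc z (4 + 1) * (D z 4 1 * (D z (4 + 1) (1 + 1) * z 1))
          = z (4 + 1) * (D z 4 1 * D z (4 + 1) (1 + 1)) * z 1 := by simp only [mul_assoc]
        _ = _ := by rw [h1]; simp only [mul_assoc]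
    calc z 5 * (D z 1 1 * D z 2 1 * D z 3 1 * D z 4 1 * D z 5 1)
        = z 5 * (D z 1 1 * D z 2 1 * D z 3 1) * D z 4 1 * D z 5 1 := by simp only [mul_assoc]
      _ = D z 1 1 * D z 2 1 * D z 3 1 * (z 5 * (D z 4 1 * D z 5 1)) := by
          rw [((e0.mul_right e0').mul_right e0'').eq]; simp only [mul_assoc]
      _ = _ := by rw [e1]; simp only [mul_assoc]

/-- If `x` and `ζ x` braid with `b`, and `ζ` commutes with `x` and `b`, then `ζ = 1`. -/
theorem brd_exp {x b ζ : G} (h : Brd x b) (h' : Brd (ζ * x) b) (hx : Commute ζ x)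
    (hb : Commute ζ b) : ζ = 1 := by
  unfold Brd at h h'
  have e1 : ζ * x * b * (ζ * x) = ζ * (ζ * (x * b * x)) := by
    calc ζ * x * b * (ζ * x) = ζ * (x * b * ζ) * x := by simp only [mul_assoc]
      _ = ζ * (ζ * (x * b)) * x := by rw [(hx.mul_right hb).eq]
      _ = _ := by simp only [mul_assoc]
  have e2 : b * (ζ * x) * b = ζ * (x * b * x) := by
    rw [h]
    calc b * (ζ * x) * b = (b * ζ) * x * b := by simp only [mul_assoc]
      _ = (ζ * b) * x * b := by rw [hb.eq]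
      _ = _ := by simp only [mul_assoc]
  rw [e1, e2] at h'
  exact mul_eq_right.1 (mul_left_cancel h')

end gar

variable {g n : ℕ} {G : Type*} [Group G]

section low

variable (S : Tw g n G) (P : PR S)
include P

/-- The swap of the handles `k` and `k + 1`. -/
theorem swap5 {k : ℕ} (hk : k + 1 < g) : ∃ D : G,
    D * S.T (2 * k) (2 * k + 1) = S.T (2 * k + 2) (2 * k + 3) * D ∧
    D * S.T (2 * k + 2) (2 * k + 3) = S.T (2 * k) (2 * k + 1) * D ∧
    D * S.B k = S.B (k + 1) * D ∧ D * S.B (k + 1) = S.B k * D ∧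
    D * S.T (2 * k + 1) (2 * k + 3) = S.T (2 * k + 1) (2 * k + 3) * D := by
  let z : ℕ → G := fun i => if i = 1 then S.T (2 * k) (2 * k + 1) else if i = 2 then S.B k else
    if i = 3 then S.T (2 * k + 1) (2 * k + 3) else if i = 4 then S.B (k + 1) else
      S.T (2 * k + 2) (2 * k + 3)
  have z1 : z 1 = S.T (2 * k) (2 * k + 1) := rfl
  have z2 : z 2 = S.B k := rfl
  have z3 : z 3 = S.T (2 * k + 1) (2 * k + 3) := rfl
  have z4 : z 4 = S.B (k + 1) := rfl
  have z5 : z 5 = S.T (2 * k + 2) (2 * k + 3) := rfl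
  have b12 : Brd (z 1) (z 2) := by
    rw [z1, z2]; exact P.TBe k (2 * k) (by omega) (by omega)
  have b23 : Brd (z 2) (z 3) := by
    rw [z2, z3]; exact brd_symm (P.TBs k _ (by omega) (by omega) (by omega))
  have b34 : Brd (z 3) (z 4) := by
    rw [z3, z4]
    exact P.TBe (k + 1) (2 * k + 1) (by omega) (by omega)
  have b45 : Brd (z 4) (z 5) := by
    rw [z4, z5]
    exact brd_symm (P.TBe (k + 1) (2 * k + 2) (by omega) (by omega))
  have c13 : Commute (z 1) (z 3) := by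
    rw [z1, z3]
    exact P.TT _ _ _ _ (by omega) (by omega) (by omega) (by omega) (Or.inl (by omega))
  have c14 : Commute (z 1) (z 4) := by
    rw [z1, z4]
    exact P.tb (by omega) (by omega) (by omega) (by omega) (by omega)
  have c15 : Commute (z 1) (z 5) := by
    rw [z1, z5]
    exact P.TT _ _ _ _ (by omega) (by omega) (by omega) (by omega) (Or.inl (by omega))
  have c24 : Commute (z 2) (z 4) := by
    rw [z2, z4]
    exact P.BB _ _ (by omega) (by omega)
  have c25 : Commute (z 2) (z 5) := by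
    rw [z2, z5]
    exact (P.tb (by omega) (by omega) (by omega) (by omega) (by omega)).symm
  have c35 : Commute (z 3) (z 5) := by
    rw [z3, z5]
    exact P.TT _ _ _ _ (by omega) (by omega) (by omega) (by omega)
      (Or.inr ⟨by omega, by omega⟩)
  have hz : Brs 5 z := by
    constructor
    · intro i h1 h2
      obtain rfl | rfl | rfl | rfl : i = 1 ∨ i = 2 ∨ i = 3 ∨ i = 4 := by omega
      · exact b12
      · exact b23
      · exact b34
      · exact b45
    · intro i j h1 h2 h3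
      obtain ⟨rfl, rfl⟩ | ⟨rfl, rfl⟩ | ⟨rfl, rfl⟩ | ⟨rfl, rfl⟩ | ⟨rfl, rfl⟩ | ⟨rfl, rfl⟩ :
        (i = 1 ∧ j = 3) ∨ (i = 1 ∧ j = 4) ∨ (i = 1 ∧ j = 5) ∨ (i = 2 ∧ j = 4) ∨
        (i = 2 ∧ j = 5) ∨ (i = 3 ∧ j = 5) := by omega
      · exact c13
      · exact c14
      · exact c15
      · exact c24
      · exact c25
      · exact c35
  obtain ⟨D, h1, h2, h3, h4, h5⟩ := gar5 hz
  rw [z1, z5] at h1
  rw [z2, z4] at h2
  rw [z3] at h3
  rw [z4, z2] at h4
  rw [z5, z1] at h5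
  exact ⟨D, h5.symm, h1.symm, h4.symm, h2.symm, h3.symm⟩

/-- (A) -/
theorem low_A (hg : 2 ≤ g) (h : S.T 0 3 = S.T 2 3) {w : ℕ} (hw : 4 ≤ w) (hw' : w ≤ 2 * g + n) :
    S.T 2 w = S.T 0 w * S.T 0 2 := by
  have hL := P.LB2 0 2 1 w (by omega) (by omega) (by omega) hw' (by omega)
  have hx : Brd (S.T 3 w) (S.B 1) := P.TBs 1 w (by omega) (by omega) hw'
  have c1 : Commute (S.T 0 w) (S.T 2 3) :=
    P.TT _ _ _ _ (by omega) (by omega) (by omega) (by omega) (Or.inr ⟨by omega, by omega⟩)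
  have c2 : Commute (S.T 0 2) (S.T 2 3) :=
    P.TT _ _ _ _ (by omega) (by omega) (by omega) (by omega) (Or.inl (by omega))
  have c3 : Commute (S.T 2 w) (S.T 3 w) :=
    P.TT _ _ _ _ (by omega) (by omega) (by omega) (by omega) (Or.inr ⟨by omega, by omega⟩)
  have c4 : Commute (S.T 0 w) (S.T 3 w) :=
    P.TT _ _ _ _ (by omega) (by omega) (by omega) (by omega) (Or.inr ⟨by omega, by omega⟩)
  have c5 : Commute (S.T 0 2) (S.T 3 w) :=
    P.TT _ _ _ _ (by omega) (by omega) (by omega) (by omega) (Or.inl (by omega))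
  have d1 : Commute (S.T 2 w) (S.B 1) :=
    P.tb (by omega) (by omega) (by omega) (by omega) (by omega)
  have d2 : Commute (S.T 0 w) (S.B 1) :=
    P.tb (by omega) (by omega) (by omega) (by omega) (by omega)
  have d3 : Commute (S.T 0 2) (S.B 1) :=
    P.tb (by omega) (by omega) (by omega) (by omega) (by omega)
  have e1 : S.L 0 2 (2 * 1 + 1) w = ((S.T 2 w)⁻¹ * (S.T 0 w * S.T 0 2)) * S.T 3 w := by
    show (S.T 2 w)⁻¹ * (S.T 0 3)⁻¹ * S.T 0 w * S.T 0 2 * S.T 2 3 * S.T 3 w = _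
    rw [h]
    calc (S.T 2 w)⁻¹ * (S.T 2 3)⁻¹ * S.T 0 w * S.T 0 2 * S.T 2 3 * S.T 3 w
        = (S.T 2 w)⁻¹ * ((S.T 2 3)⁻¹ * ((S.T 0 w * S.T 0 2) * S.T 2 3)) * S.T 3 w := by
          simp only [mul_assoc]
      _ = (S.T 2 w)⁻¹ * ((S.T 2 3)⁻¹ * (S.T 2 3 * (S.T 0 w * S.T 0 2))) * S.T 3 w := by
          rw [(c1.mul_left c2).eq]
      _ = _ := by rw [inv_mul_cancel_left]
  rw [e1] at hL
  have h1 := brd_exp hx hL (c3.inv_left.mul_left (c4.mul_left c5))
    (d1.inv_left.mul_left (d2.mul_left d3))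
  exact (inv_mul_eq_one.1 h1)

/-- (B) -/
theorem low_B (hg : 3 ≤ g) (h : S.T 0 3 = S.T 2 3) : S.T 0 2 = 1 := by
  have h4 := low_A S P (by omega) h (w := 4) le_rfl (by omega)
  have h5 := low_A S P (by omega) h (w := 5) (by omega) (by omega)
  have hL := P.LB 0 2 4 2 (by omega) (by omega) (by omega) (by omega)
  have hx : Brd (S.T 4 5) (S.B 2) := P.TBe 2 4 (by omega) (by omega)
  have c1 : Commute (S.T 0 2) (S.T 4 5) :=
    P.TT _ _ _ _ (by omega) (by omega) (by omega) (by omega) (Or.inl (by omega))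
  have d1 : Commute (S.T 0 2) (S.B 2) :=
    P.tb (by omega) (by omega) (by omega) (by omega) (by omega)
  have c2 : Commute (S.T 0 5) (S.T 0 4) :=
    P.TT _ _ _ _ (by omega) (by omega) (by omega) (by omega) (Or.inr ⟨by omega, by omega⟩)
  have c3 : Commute (S.T 0 4) (S.T 0 2) :=
    P.TT _ _ _ _ (by omega) (by omega) (by omega) (by omega) (Or.inr ⟨by omega, by omega⟩)
  have e1 : S.L 0 2 4 (2 * 2 + 1) = S.T 0 2 * S.T 4 5 := by
    show (S.T 2 5)⁻¹ * (S.T 0 4)⁻¹ * S.T 0 5 * S.T 0 2 * S.T 2 4 * S.T 4 5 = _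
    rw [h4, h5]
    have c4 : Commute (S.T 0 4)⁻¹ (S.T 0 5 * S.T 0 2) := (c2.symm.mul_right c3).inv_left
    calc (S.T 0 5 * S.T 0 2)⁻¹ * (S.T 0 4)⁻¹ * S.T 0 5 * S.T 0 2 * (S.T 0 4 * S.T 0 2) * S.T 4 5
        = (S.T 0 5 * S.T 0 2)⁻¹ * ((S.T 0 4)⁻¹ * (S.T 0 5 * S.T 0 2)) * (S.T 0 4 * S.T 0 2) *
          S.T 4 5 := by simp only [mul_assoc]
      _ = (S.T 0 5 * S.T 0 2)⁻¹ * ((S.T 0 5 * S.T 0 2) * (S.T 0 4)⁻¹) * (S.T 0 4 * S.T 0 2) *
          S.T 4 5 := by rw [c4.eq]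
      _ = _ := by group
  rw [e1] at hL
  exact brd_exp hx hL c1 d1

/-- (C) -/
theorem low_C (hg : 3 ≤ g) (h : S.T 0 3 = S.T 2 3) (i : ℕ) (hi : i < g) :
    S.T (2 * i) (2 * i + 2) = 1 := by
  induction i with
  | zero => exact low_B S P hg h
  | succ i ih =>
    have ih := ih (by omega)
    obtain ⟨D, h1, h2, h3, h4, h5⟩ := swap5 S P (k := i) hi
    have E1 := P.star i (2 * i) (2 * i + 2) (by omega) (by omega) (by omega) (by omega)
    have E2 := P.star (i + 1) (2 * (i + 1)) (2 * (i + 1) + 2) (by omega) (by omega) (by omega)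
      (by omega)
    have a1 := (P.aa i (by omega)).symm
    have a2 := (P.aa (i + 1) (by omega)).symm
    simp only [P.T0, one_mul, a1] at E1
    simp only [P.T0, one_mul, a2] at E2
    rw [ih] at E1
    rw [← E2]
    have e3 : S.T (2 * (i + 1)) (2 * (i + 1) + 1) * S.T (2 * (i + 1)) (2 * (i + 1) + 1) *
        S.T (2 * (i + 1)) (2 * (i + 1) + 1) * S.B (i + 1) =
        D * (S.T (2 * i) (2 * i + 1) * S.T (2 * i) (2 * i + 1) * S.T (2 * i) (2 * i + 1) *
          S.B i) * D⁻¹ := by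
      rw [show 2 * (i + 1) + 1 = 2 * i + 3 by ring, show 2 * (i + 1) = 2 * i + 2 by ring]
      have f1 : S.T (2 * i + 2) (2 * i + 3) = D * S.T (2 * i) (2 * i + 1) * D⁻¹ := by
        rw [h1, mul_inv_cancel_right]
      have f2 : S.B (i + 1) = D * S.B i * D⁻¹ := by rw [h3, mul_inv_cancel_right]
      rw [f1, f2]; group
    rw [e3, conj_pow, E1, mul_one, mul_inv_cancel]

/-- (D) -/
theorem low_D {k : ℕ} (hk : k + 1 < g)
    (h : S.T (2 * k) (2 * k + 3) = S.T (2 * k + 2) (2 * k + 3)) :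
    S.T (2 * k + 1) (2 * k + 4) = S.T (2 * k) (2 * k + 1) := by
  obtain ⟨D, h1, h2, h3, h4, h5⟩ := swap5 S P (k := k) hk
  have E1 := P.star k (2 * k) (2 * k + 3) (by omega) (by omega) (by omega) (by omega)
  have E2 := P.star (k + 1) (2 * k + 1) (2 * k + 4) (by omega) (by omega) (by omega) (by omega)
  have n1 : 2 * (k + 1) = 2 * k + 2 := by ring
  have n2 : 2 * k + 2 + 1 = 2 * k + 3 := by ring
  have n3 : 2 * k + 2 + 2 = 2 * k + 4 := by ring
  have a1 : S.T (2 * k + 1) (2 * k + 2) = S.T (2 * k) (2 * k + 1) := (P.aa k (by omega)).symm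
  have a2 : S.T (2 * k + 3) (2 * k + 4) = S.T (2 * k + 2) (2 * k + 3) := by
    have := (P.aa (k + 1) (by omega)).symm
    rwa [n1, n2, n3] at this
  simp only [n1, n2, n3, P.T0, one_mul, a1, a2, h, mul_one] at E1 E2
  have c1 : Commute (S.T (2 * k + 1) (2 * k + 3)) (S.T (2 * k + 2) (2 * k + 3)) :=
    P.TT _ _ _ _ (by omega) (by omega) (by omega) (by omega) (Or.inr ⟨by omega, by omega⟩)
  generalize S.T (2 * k + 1) (2 * k + 4) = X at *
  generalize S.T (2 * k) (2 * k + 1) = a at *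
  generalize S.T (2 * k + 2) (2 * k + 3) = a' at *
  generalize S.T (2 * k + 1) (2 * k + 3) = e at *
  generalize S.B k = b at *
  generalize S.B (k + 1) = b' at *
  have f1 : D * a * D⁻¹ = a' := by rw [h1, mul_inv_cancel_right]
  have f2 : D * a' * D⁻¹ = a := by rw [h2, mul_inv_cancel_right]
  have f3 : D * b * D⁻¹ = b' := by rw [h3, mul_inv_cancel_right]
  have f5 : D * e * D⁻¹ = e := by rw [h5, mul_inv_cancel_right]
  have e1 : D * (a * a * e * b) * D⁻¹ = e * a' * a' * b' := by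
    calc D * (a * a * e * b) * D⁻¹
        = (D * a * D⁻¹) * (D * a * D⁻¹) * (D * e * D⁻¹) * (D * b * D⁻¹) := by group
      _ = a' * a' * e * b' := by rw [f1, f3, f5]
      _ = _ := by rw [← (c1.mul_right c1).eq]; simp only [mul_assoc]
  have e2 : a * X = a * a := by
    rw [← E2, ← e1, conj_pow, E1]
    calc D * (a' * a') * D⁻¹ = (D * a' * D⁻¹) * (D * a' * D⁻¹) := by group
      _ = a * a := by rw [f2]
  exact mul_left_cancel e2

/-- (E) -/
theorem low_E {k : ℕ} (hk : k + 1 < g) (hs : S.T (2 * k + 2) (2 * k + 4) = 1)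
    (h : S.T (2 * k + 1) (2 * k + 4) = S.T (2 * k) (2 * k + 1)) {w : ℕ} (hw : 2 * k + 5 ≤ w)
    (hw' : w ≤ 2 * g + n) : S.T (2 * k + 2) w = S.T (2 * k + 4) w := by
  have hL := P.LB3 k (2 * k + 2) (2 * k + 4) w (by omega) (by omega) (by omega) (by omega) hw'
  have hx : Brd (S.T (2 * k + 1) w) (S.B k) := P.TBs k w (by omega) (by omega) hw'
  have a1 : S.T (2 * k + 1) (2 * k + 2) = S.T (2 * k) (2 * k + 1) := (P.aa k (by omega)).symm
  have c0 : Commute (S.T (2 * k + 1) w) (S.T (2 * k) (2 * k + 1)) :=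
    P.aT (by omega) (by omega) hw'
  have c1 : Commute (S.T (2 * k + 2) w) (S.T (2 * k + 1) w) :=
    (P.TT _ _ _ _ (by omega) (by omega) (by omega) (by omega) (Or.inr ⟨by omega, le_rfl⟩)).symm
  have c2 : Commute (S.T (2 * k + 4) w) (S.T (2 * k + 1) w) :=
    (P.TT _ _ _ _ (by omega) (by omega) (by omega) (by omega) (Or.inr ⟨by omega, le_rfl⟩)).symm
  have d1 : Commute (S.T (2 * k + 2) w) (S.B k) :=
    P.tb (by omega) hw' (by omega) (by omega) (by omega)
  have d2 : Commute (S.T (2 * k + 4) w) (S.B k) :=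
    P.tb (by omega) hw' (by omega) (by omega) (by omega)
  have e1 : S.L (2 * k + 1) (2 * k + 2) (2 * k + 4) w =
      ((S.T (2 * k + 2) w)⁻¹ * S.T (2 * k + 4) w) * S.T (2 * k + 1) w := by
    show (S.T (2 * k + 2) w)⁻¹ * (S.T (2 * k + 1) (2 * k + 4))⁻¹ * S.T (2 * k + 1) w *
      S.T (2 * k + 1) (2 * k + 2) * S.T (2 * k + 2) (2 * k + 4) * S.T (2 * k + 4) w = _
    rw [hs, h, a1, mul_one]
    generalize S.T (2 * k + 2) w = p at *
    generalize S.T (2 * k + 4) w = q at *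
    generalize S.T (2 * k + 1) w = x at *
    generalize S.T (2 * k) (2 * k + 1) = a at *
    calc p⁻¹ * a⁻¹ * x * a * q = p⁻¹ * a⁻¹ * (x * a) * q := by simp only [mul_assoc]
      _ = p⁻¹ * a⁻¹ * (a * x) * q := by rw [c0.eq]
      _ = p⁻¹ * (x * q) := by group
      _ = p⁻¹ * (q * x) := by rw [c2.eq]
      _ = _ := by simp only [mul_assoc]
  rw [e1] at hL
  have h1 := brd_exp hx hL (c1.inv_left.mul_left c2) (d1.inv_left.mul_left d2)
  exact (inv_mul_eq_one.1 h1)

/-- If one genus one bounding pair map is trivial then so are all `T (2i) (2i+2)` and all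
`T (2i) (2i+3) (T (2i+2) (2i+3))⁻¹`. -/
theorem low (hg : 3 ≤ g) (h : S.T 0 3 = S.T 2 3) :
    (∀ i, i < g → S.T (2 * i) (2 * i + 2) = 1) ∧
    (∀ i, i + 1 < g → S.T (2 * i) (2 * i + 3) = S.T (2 * i + 2) (2 * i + 3)) ∧
    ∀ i, i + 1 < g → S.T (2 * i + 1) (2 * i + 4) = S.T (2 * i) (2 * i + 1) := by
  have hs := low_C S P hg h
  have hb : ∀ i, i + 1 < g → S.T (2 * i) (2 * i + 3) = S.T (2 * i + 2) (2 * i + 3) := by
    intro i
    induction i with
    | zero => intro _; exact h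
    | succ i ih =>
      intro hi
      have h1 := low_D S P (by omega) (ih (by omega))
      have h2 := hs (i + 1) (by omega)
      rw [show 2 * (i + 1) + 2 = 2 * i + 4 by ring, show 2 * (i + 1) = 2 * i + 2 by ring] at h2
      have h3 := low_E S P (k := i) (by omega) h2 h1 (w := 2 * i + 5) le_rfl (by omega)
      rw [show 2 * (i + 1) + 3 = 2 * i + 5 by ring, show 2 * (i + 1) + 2 = 2 * i + 4 by ring,
        show 2 * (i + 1) = 2 * i + 2 by ring]
      exact h3
  exact ⟨hs, hb, fun i hi => low_D S P hi (hb i hi)⟩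

end low

end Pool.Agent.LJ
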