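import Pool.Agent.LJ.Form

set_option linter.all false

namespace Pool.Agent.LJ

open Pool.Agent.HG13

variable {g n : ℕ} {G : Type*} [Group G]

/-- A block `[u,w)` to the right of `u ≤ 2g`. -/
structure Blk (g n u w : ℕ) : Prop where
  h1 : u ≤ 2 * g
  h2 : u < w
  h3 : w ≤ 2 * g + n

theorem blk_foot {g n y : ℕ} (hy : y < g) : Blk g n (2 * y) (2 * y + 1) :=
  ⟨by omega, by omega, by omega⟩

theorem lo_lt {m : ℕ} (h : m % 2 = 1) : lo m < m := by
  unfold lo; split_ifs <;> omega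

theorem lo_spec {m : ℕ} (h : m % 2 = 1) : (m = 1 ∧ lo m = 0) ∨ (3 ≤ m ∧ lo m = m - 2) := by
  unfold lo; split_ifs <;> omega

section group

variable (S : Tw g n G) (P : PR S) {u w : ℕ} (hB : Blk g n u w)

include P

theorem tc_odd {m : ℕ} (h : m % 2 = 1) : tc S m = S.T (lo m) m := by
  unfold tc lo
  rw [if_pos h]

theorem tc_even {m i : ℕ} (h : m = 2 * i + 2) : tc S m = S.B i := by
  unfold tc
  rw [if_neg (by omega)]
  congr 1; omega

theorem dl_odd {m : ℕ} (h : m % 2 = 1) :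
    dl S u w m = (ps S u w m)⁻¹ * ps S u w (lo m) * S.T u w := by
  unfold dl
  rw [if_pos h]

theorem dl_even {m i : ℕ} (h : m = 2 * i + 2) :
    dl S u w m = (ps S u w (2 * i + 1))⁻¹ * S.B i * ps S u w (2 * i + 1) * (S.B i)⁻¹ := by
  unfold dl
  rw [if_neg (by omega), show m - 1 = 2 * i + 1 by omega, show m / 2 - 1 = i by omega]

/-- the braid relation of neighbours -/
theorem tc_brd {m : ℕ} (hm1 : 1 ≤ m) (hm : m + 1 ≤ 2 * g) : Brd (tc S m) (tc S (m + 1)) := by
  rcases Nat.even_or_odd' m with ⟨i, hi | hi⟩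
  · obtain ⟨k, rfl⟩ : ∃ k, i = k + 1 := ⟨i - 1, by omega⟩
    rw [tc_even S P (show m = 2 * k + 2 by omega), tc_odd S P (show (m + 1) % 2 = 1 by omega)]
    have : lo (m + 1) = 2 * k + 1 := by unfold lo; split_ifs <;> omega
    rw [this]
    exact brd_symm (P.TBs k (m + 1) (by omega) (by omega) (by omega))
  · rw [tc_odd S P (show m % 2 = 1 by omega), tc_even S P (show m + 1 = 2 * i + 2 by omega)]
    have := lo_lt (show m % 2 = 1 by omega)
    have h1 := P.TBe i (lo m) (by omega) (by omega)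
    rwa [← hi] at h1

include hB

/-- `p_s` commutes with the twists around intervals nested or disjoint. -/
theorem ps_T {s x z : ℕ} (hs : s < u) (hxz : x < z) (hz : z ≤ 2 * g + n)
    (h : z ≤ s ∨ (s ≤ x ∧ z ≤ u) ∨ w ≤ x ∨ (x ≤ s ∧ w ≤ z)) :
    Commute (ps S u w s) (S.T x z) := by
  obtain ⟨hu, huw, hw⟩ := hB
  have h1 : Commute (S.T s w) (S.T x z) := by
    rcases h with h | h | h | h
    · exact (P.TT _ _ _ _ hxz hz (by omega) (by omega) (Or.inl h)).symm
    · exact P.TT _ _ _ _ (by omega) (by omega) hxz hz (Or.inr ⟨h.1, by omega⟩)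
    · exact P.TT _ _ _ _ (by omega) (by omega) hxz hz (Or.inl h)
    · exact (P.TT _ _ _ _ hxz hz (by omega) (by omega) (Or.inr ⟨h.1, h.2⟩)).symm
  have h2 : Commute (S.T s u) (S.T x z) := by
    rcases h with h | h | h | h
    · exact (P.TT _ _ _ _ hxz hz (by omega) (by omega) (Or.inl h)).symm
    · exact P.TT _ _ _ _ (by omega) (by omega) hxz hz (Or.inr ⟨h.1, by omega⟩)
    · exact P.TT _ _ _ _ (by omega) (by omega) hxz hz (Or.inl (by omega))
    · exact (P.TT _ _ _ _ hxz hz (by omega) (by omega) (Or.inr ⟨h.1, by omega⟩)).symm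
  have h3 : Commute (S.T u w) (S.T x z) := by
    rcases h with h | h | h | h
    · exact (P.TT _ _ _ _ hxz hz (by omega) (by omega) (Or.inl (by omega))).symm
    · exact (P.TT _ _ _ _ hxz hz (by omega) (by omega) (Or.inl (by omega))).symm
    · exact P.TT _ _ _ _ (by omega) (by omega) hxz hz (Or.inl h)
    · exact (P.TT _ _ _ _ hxz hz (by omega) (by omega) (Or.inr ⟨by omega, h.2⟩)).symm
  unfold ps
  exact (h1.mul_left h2.inv_left).mul_left h3.inv_left

/-- `p_s` commutes with `T u w`. -/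
theorem ps_c {s : ℕ} (hs : s < u) : Commute (ps S u w s) (S.T u w) := by
  obtain ⟨hu, huw, hw⟩ := hB
  unfold ps
  exact ((P.TT _ _ _ _ (by omega) (by omega) (by omega) (by omega)
    (Or.inr ⟨by omega, le_rfl⟩)).mul_left
    (P.TT _ _ _ _ (by omega) (by omega) (by omega) (by omega)
      (Or.inl le_rfl)).inv_left).mul_left (Commute.refl _).inv_left

theorem ps_B {s i : ℕ} (hs : s < u) (hi : 2 * i + 2 ≤ u) (his : s ≠ 2 * i + 1) :
    Commute (ps S u w s) (S.B i) := by
  obtain ⟨hu, huw, hw⟩ := hB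
  unfold ps
  exact ((P.tb (by omega) (by omega) (by omega) his (by omega)).mul_left
    (P.tb (by omega) (by omega) (by omega) his (by omega)).inv_left).mul_left
    (P.tb (by omega) (by omega) (by omega) (by omega) (by omega)).inv_left

theorem c_B {i : ℕ} (hi : 2 * i + 2 ≤ u) : Commute (S.T u w) (S.B i) := by
  obtain ⟨hu, huw, hw⟩ := hB
  exact P.tb (by omega) (by omega) (by omega) (by omega) (by omega)

theorem c_T {x z : ℕ} (hxz : x < z) (hz : z ≤ u) : Commute (S.T u w) (S.T x z) := by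
  obtain ⟨hu, huw, hw⟩ := hB
  exact (P.TT _ _ _ _ hxz (by omega) (by omega) (by omega) (Or.inl hz)).symm

/-- `L s t u w = p_t⁻¹ p_s (T u w) (T s t)`. -/
theorem L_ps {s t : ℕ} (hst : s < t) (ht : t < u) :
    S.L s t u w = (ps S u w t)⁻¹ * ps S u w s * S.T u w * S.T s t := by
  obtain ⟨hu, huw, hw⟩ := hB
  have c1 : Commute (S.T s t) (S.T t u) :=
    P.TT _ _ _ _ hst (by omega) ht (by omega) (Or.inl le_rfl)
  have c5 : Commute (S.T s w) (S.T s u) :=
    P.TT _ _ _ _ (by omega) (by omega) (by omega) (by omega) (Or.inr ⟨le_rfl, by omega⟩)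
  have c7 : Commute (S.T s u) (S.T t u) :=
    P.TT _ _ _ _ (by omega) (by omega) (by omega) (by omega) (Or.inr ⟨by omega, le_rfl⟩)
  have c8 : Commute (S.T t w) (S.T t u) :=
    P.TT _ _ _ _ (by omega) (by omega) (by omega) (by omega) (Or.inr ⟨le_rfl, by omega⟩)
  have c9 : Commute (S.T s w) (S.T t u) :=
    P.TT _ _ _ _ (by omega) (by omega) (by omega) (by omega) (Or.inr ⟨by omega, by omega⟩)
  have a1 : Commute (S.T s w) (S.T u w) :=
    P.TT _ _ _ _ (by omega) (by omega) (by omega) (by omega) (Or.inr ⟨by omega, by omega⟩)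
  have a2 : Commute (S.T s u) (S.T u w) :=
    P.TT _ _ _ _ (by omega) (by omega) (by omega) (by omega) (Or.inl le_rfl)
  have a3 : Commute (S.T t w) (S.T u w) :=
    P.TT _ _ _ _ (by omega) (by omega) (by omega) (by omega) (Or.inr ⟨by omega, by omega⟩)
  have a4 : Commute (S.T t u) (S.T u w) :=
    P.TT _ _ _ _ (by omega) (by omega) (by omega) (by omega) (Or.inl le_rfl)
  have a5 : Commute (S.T s t) (S.T u w) :=
    P.TT _ _ _ _ (by omega) (by omega) (by omega) (by omega) (Or.inl (by omega))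
  unfold Tw.L ps
  exact L_alg c1 c5 c7 c8 c9 a1 a2 a3 a4 a5

/-- rule 0 for `m = k` odd -/
theorem r0_odd {m : ℕ} (hm : m < u) (h : m % 2 = 1) : Commute (dl S u w m) (tc S m) := by
  have hlo := lo_lt h
  have hu := hB.h1
  rw [dl_odd S P h, tc_odd S P h]
  exact ((ps_T S P hB hm hlo (by omega) (Or.inl le_rfl)).inv_left.mul_left
    (ps_T S P hB (by omega) hlo (by omega) (Or.inr (Or.inl ⟨le_rfl, by omega⟩)))).mul_left
    (c_T S P hB hlo (by omega))

/-- `t'_(m+1) = d_m t_(m+1) d_m⁻¹` -/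
theorem dl_succ {m : ℕ} (hm1 : 1 ≤ m) (hm : m + 1 ≤ u) (hev : u % 2 = 0) :
    dl S u w (m + 1) = dl S u w m * tc S (m + 1) * (dl S u w m)⁻¹ * (tc S (m + 1))⁻¹ := by
  have hu := hB.h1
  have huw := hB.h2
  have hw := hB.h3
  rcases Nat.even_or_odd' m with ⟨i, hi | hi⟩
  · obtain ⟨k, rfl⟩ : ∃ k, i = k + 1 := ⟨i - 1, by omega⟩
    have hlo : lo (m + 1) = 2 * k + 1 := by unfold lo; split_ifs <;> omega
    rw [dl_odd S P (show (m + 1) % 2 = 1 by omega), tc_odd S P (show (m + 1) % 2 = 1 by omega),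
      dl_even S P (show m = 2 * k + 2 by omega), hlo]
    rw [← mul_inv_eq_iff_eq_mul, inv_inv]
    have c3B := ps_B S P hB (show m + 1 < u by omega) (show 2 * k + 2 ≤ u by omega)
      (show m + 1 ≠ 2 * k + 1 by omega)
    have c3e := ps_T S P hB (show m + 1 < u by omega) (show 2 * k + 1 < m + 1 by omega)
      (by omega) (Or.inl le_rfl)
    have c1e := ps_T S P hB (show 2 * k + 1 < u by omega) (show 2 * k + 1 < m + 1 by omega)
      (by omega) (Or.inr (Or.inl ⟨le_rfl, by omega⟩))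
    have caB := c_B S P hB (show 2 * k + 2 ≤ u by omega)
    have cae := c_T S P hB (show 2 * k + 1 < m + 1 by omega) (by omega)
    have ca1 := (ps_c S P hB (show 2 * k + 1 < u by omega)).symm
    have ca3 := (ps_c S P hB (show m + 1 < u by omega)).symm
    have heB := P.TBs k (m + 1) (by omega) (by omega) (by omega)
    have hL := P.LB3 k (m + 1) u w (by omega) (by omega) (by omega) (by omega) (by omega)
    rw [L_ps S P hB (by omega) (by omega)] at hL
    exact E_alg c3B c3e c1e caB cae ca1 ca3 heB hL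
  · have hodd : m % 2 = 1 := by omega
    have hlo := lo_lt hodd
    rw [dl_even S P (show m + 1 = 2 * i + 2 by omega), tc_even S P (show m + 1 = 2 * i + 2 by omega),
      dl_odd S P hodd, ← hi]
    have cB : Commute (ps S u w (lo m) * S.T u w) (S.B i) :=
      (ps_B S P hB (by omega) (by omega) (by omega)).mul_left (c_B S P hB (by omega))
    have e1 : (ps S u w m)⁻¹ * ps S u w (lo m) * S.T u w * S.B i *
        ((ps S u w m)⁻¹ * ps S u w (lo m) * S.T u w)⁻¹ =
        (ps S u w m)⁻¹ * ((ps S u w (lo m) * S.T u w) * S.B i *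
          (ps S u w (lo m) * S.T u w)⁻¹) * ps S u w m := by group
    rw [e1, cB.eq, mul_inv_cancel_right]

/-- rule 0, far apart -/
theorem r0_far {m k : ℕ} (hm1 : 1 ≤ m) (hm : m ≤ u) (hk1 : 1 ≤ k)
    (hk : k ≤ u) (hev : u % 2 = 0) (h : m + 2 ≤ k ∨ k + 2 ≤ m) :
    Commute (dl S u w k) (tc S m) := by
  have hu := hB.h1
  have huw := hB.h2
  have hw := hB.h3
  rcases Nat.mod_two_eq_zero_or_one k with hk2 | hk2
  · -- k even
    obtain ⟨i, hi⟩ : ∃ i, k = 2 * i + 2 := ⟨k / 2 - 1, by omega⟩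
    rw [dl_even S P hi]
    rcases Nat.mod_two_eq_zero_or_one m with hm2 | hm2
    · obtain ⟨q, hq⟩ : ∃ q, m = 2 * q + 2 := ⟨m / 2 - 1, by omega⟩
      rw [tc_even S P hq]
      have c1 := ps_B S P hB (show 2 * i + 1 < u by omega) (show 2 * q + 2 ≤ u by omega)
        (show 2 * i + 1 ≠ 2 * q + 1 by omega)
      have c2 := P.BB i q (by omega) (by omega)
      exact ((c1.inv_left.mul_left c2).mul_left c1).mul_left c2.inv_left
    · rw [tc_odd S P hm2]
      have hlo := lo_spec hm2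
      have c1 := ps_T S P hB (show 2 * i + 1 < u by omega) (lo_lt hm2) (by omega)
        (by omega)
      have c2 : Commute (S.B i) (S.T (lo m) m) :=
        (P.tb (lo_lt hm2) (by omega) (by omega) (by omega) (by omega)).symm
      exact ((c1.inv_left.mul_left c2).mul_left c1).mul_left c2.inv_left
  · -- k odd
    rw [dl_odd S P hk2]
    have hlok := lo_spec hk2
    rcases Nat.mod_two_eq_zero_or_one m with hm2 | hm2
    · obtain ⟨q, hq⟩ : ∃ q, m = 2 * q + 2 := ⟨m / 2 - 1, by omega⟩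
      rw [tc_even S P hq]
      exact ((ps_B S P hB (by omega) (by omega) (by omega)).inv_left.mul_left
        (ps_B S P hB (by omega) (by omega) (by omega))).mul_left
        (c_B S P hB (by omega))
    · rw [tc_odd S P hm2]
      have hlo := lo_spec hm2
      exact ((ps_T S P hB (by omega) (lo_lt hm2) (by omega) (by omega)).inv_left.mul_left
        (ps_T S P hB (by omega) (lo_lt hm2) (by omega) (by omega))).mul_left
        (c_T S P hB (lo_lt hm2) (by omega))

/-- `t'_m = d_m t_m` braids with `t_(m+1)`. -/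
theorem tp_brd {m : ℕ} (hm1 : 1 ≤ m) (hm : m + 1 ≤ u) (hev : u % 2 = 0) :
    Brd (dl S u w m * tc S m) (tc S (m + 1)) := by
  have hu := hB.h1
  have huw := hB.h2
  have hw := hB.h3
  rcases Nat.mod_two_eq_zero_or_one m with hm2 | hm2
  · obtain ⟨i, hi⟩ : ∃ i, m = 2 * i + 2 := ⟨m / 2 - 1, by omega⟩
    have h1 := tc_brd S P hm1 (show m + 1 ≤ 2 * g by omega)
    have hlo : lo (m + 1) = 2 * i + 1 := by unfold lo; split_ifs <;> omega
    have c : Commute (ps S u w (2 * i + 1)) (tc S (m + 1)) := by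
      rw [tc_odd S P (by omega), hlo]
      exact ps_T S P hB (by omega) (by omega) (by omega) (Or.inr (Or.inl ⟨le_rfl, by omega⟩))
    have h2 := brd_conj (ps S u w (2 * i + 1))⁻¹ h1
    have e1 : dl S u w m * tc S m =
        (ps S u w (2 * i + 1))⁻¹ * tc S m * (ps S u w (2 * i + 1))⁻¹⁻¹ := by
      rw [dl_even S P hi, tc_even S P hi]; group
    have e2 : (ps S u w (2 * i + 1))⁻¹ * tc S (m + 1) * (ps S u w (2 * i + 1))⁻¹⁻¹ =
        tc S (m + 1) := by
      rw [c.inv_left.eq, mul_inv_cancel_right]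
    rw [e2] at h2
    rwa [e1]
  · obtain ⟨i, hi⟩ : ∃ i, m = 2 * i + 1 := ⟨m / 2, by omega⟩
    have hlo := lo_lt hm2
    have h1 := P.LB1 (lo m) i u w (by omega) (by omega) (by omega) (by omega) (by omega)
    rw [← hi, L_ps S P hB hlo (by omega)] at h1
    rw [dl_odd S P hm2, tc_odd S P hm2, tc_even S P (show m + 1 = 2 * i + 2 by omega)]
    exact h1

/-- rule 0 for `m = k` -/
theorem r0_self {m : ℕ} (hm1 : 1 ≤ m) (hm : m ≤ u) (hev : u % 2 = 0) :
    Commute (dl S u w m) (tc S m) := by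
  have hu := hB.h1
  rcases Nat.mod_two_eq_zero_or_one m with hm2 | hm2
  · obtain ⟨k, rfl⟩ : ∃ k, m = k + 1 := ⟨m - 1, by omega⟩
    have hk2 : k % 2 = 1 := by omega
    have h0 := r0_odd S P hB (show k < u by omega) hk2
    have h1 := tc_brd S P (show 1 ≤ k by omega) (show k + 1 ≤ 2 * g by omega)
    have h2 := tp_brd S P hB (show 1 ≤ k by omega) (show k + 1 ≤ u by omega) hev
    have ha : Commute (tc S k) (dl S u w k * tc S k) := h0.symm.mul_right (Commute.refl _)
    have h3 := f5_comm ha h1 h2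
    rw [mul_inv_cancel_right] at h3
    rw [dl_succ S P hB (by omega) hm hev]
    exact (h3.symm.mul_left (Commute.refl (tc S (k + 1))).inv_left)
  · exact r0_odd S P hB (by omega) hm2

/-- rule 1 -/
theorem r1 {m : ℕ} (hm1 : 1 ≤ m) (hm : m + 1 ≤ u) (hev : u % 2 = 0) :
    tc S (m + 1) * dl S u w m * (tc S (m + 1))⁻¹ = (dl S u w (m + 1))⁻¹ * dl S u w m := by
  rw [dl_succ S P hB hm1 hm hev]; group

/-- rule 2 -/
theorem r2 {m : ℕ} (hm1 : 1 ≤ m) (hm : m + 1 ≤ u) (hev : u % 2 = 0) :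
    tc S m * dl S u w (m + 1) * (tc S m)⁻¹ = dl S u w (m + 1) * dl S u w m := by
  have hu := hB.h1
  have h0 := r0_self S P hB hm1 (show m ≤ u by omega) hev
  have h1 := tc_brd S P hm1 (show m + 1 ≤ 2 * g by omega)
  have h2 := tp_brd S P hB hm1 hm hev
  have ha : Commute (tc S m) (dl S u w m * tc S m) := h0.symm.mul_right (Commute.refl _)
  have h3 := f5_a ha h1 h2
  rw [mul_inv_cancel_right] at h3
  rw [dl_succ S P hB hm1 hm hev]
  exact h3

theorem c_dl {m : ℕ} (hm1 : 1 ≤ m) (hm : m ≤ u) (hev : u % 2 = 0) :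
    Commute (S.T u w) (dl S u w m) := by
  have hu := hB.h1
  rcases Nat.mod_two_eq_zero_or_one m with h | h
  · obtain ⟨i, hi⟩ : ∃ i, m = 2 * i + 2 := ⟨m / 2 - 1, by omega⟩
    rw [dl_even S P hi]
    have c1 := ps_c S P hB (show 2 * i + 1 < u by omega)
    have c2 : Commute (S.B i) (S.T u w) := (c_B S P hB (by omega)).symm
    exact (((c1.inv_left.mul_left c2).mul_left c1).mul_left c2.inv_left).symm
  · rw [dl_odd S P h]
    have hlo := lo_spec h
    exact (((ps_c S P hB (show m < u by omega)).inv_left.mul_left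
      (ps_c S P hB (show lo m < u by omega))).mul_left (Commute.refl _)).symm

theorem c_tc {m : ℕ} (hm1 : 1 ≤ m) (hm : m ≤ u) (hev : u % 2 = 0) :
    Commute (S.T u w) (tc S m) := by
  have hu := hB.h1
  rcases Nat.mod_two_eq_zero_or_one m with h | h
  · obtain ⟨i, hi⟩ : ∃ i, m = 2 * i + 2 := ⟨m / 2 - 1, by omega⟩
    rw [tc_even S P hi]
    exact c_B S P hB (by omega)
  · rw [tc_odd S P h]
    exact c_T S P hB (lo_lt h) (by omega)

end group

end Pool.Agent.LJ
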