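import Pool.Agent.LJ.Hum
import Pool.Agent.QR80.Hm

set_option linter.all false

namespace Pool.Agent.LJ

open Pool.Agent.HG13 Pool.Agent.QR80

section general

variable {G : Type*} [Group G] {V : Type*} [AddCommGroup V] [Module ℂ V]

/-- The vectors fixed by the elements of `E`. -/
def FixV (ρ : G →* Module.End ℂ V) (E : Set G) : Submodule ℂ V where
  carrier := {w | ∀ e ∈ E, ρ e w = w}
  zero_mem' := by intro e _; exact map_zero _
  add_mem' := by intro a b ha hb e he; rw [map_add, ha e he, hb e he]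
  smul_mem' := by intro c a ha e he; rw [map_smul, ha e he]

theorem mem_FixV {ρ : G →* Module.End ℂ V} {E : Set G} {w : V} :
    w ∈ FixV ρ E ↔ ∀ e ∈ E, ρ e w = w := Iff.rfl

/-- The pointwise stabiliser of a subspace. -/
def PSt (ρ : G →* Module.End ℂ V) (W : Submodule ℂ V) : Subgroup G where
  carrier := {x | ∀ w ∈ W, ρ x w = w}
  one_mem' := by intro w _; rw [map_one]; rfl
  mul_mem' := by
    intro a b ha hb w hw
    rw [map_mul, Module.End.mul_apply, hb w hw, ha w hw]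
  inv_mem' := by
    intro a ha w hw
    have := inv_act ρ a w
    rwa [ha w hw] at this

/-- The stabiliser of a subspace. -/
def SSt (ρ : G →* Module.End ℂ V) (W : Submodule ℂ V) : Subgroup G where
  carrier := {x | (∀ w ∈ W, ρ x w ∈ W) ∧ ∀ w ∈ W, ρ x⁻¹ w ∈ W}
  one_mem' := by
    constructor <;> intro w hw <;> simpa using hw
  mul_mem' := by
    intro a b ha hb
    constructor
    · intro w hw
      rw [map_mul, Module.End.mul_apply]
      exact ha.1 _ (hb.1 w hw)
    · intro w hw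
      rw [mul_inv_rev, map_mul, Module.End.mul_apply]
      exact hb.2 _ (ha.2 w hw)
  inv_mem' := by
    intro a ha
    refine ⟨ha.2, ?_⟩
    rw [inv_inv]
    exact ha.1

theorem surj_of_stable [FiniteDimensional ℂ V] (ρ : G →* Module.End ℂ V) (W : Submodule ℂ V)
    (x : G) (h : ∀ w ∈ W, ρ x w ∈ W) : ∀ w ∈ W, ρ x⁻¹ w ∈ W := by
  intro w hw
  have hinj : Function.Injective ((ρ x).restrict h) := by
    intro a b hab
    apply Subtype.ext
    have h1 : ρ x (a : V) = ρ x (b : V) := congrArg Subtype.val hab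
    exact act_inj ρ x h1
  obtain ⟨a, ha⟩ := (LinearMap.injective_iff_surjective.1 hinj) ⟨w, hw⟩
  have h2 : ρ x (a : V) = w := congrArg Subtype.val ha
  rw [← h2, inv_act]
  exact a.2

theorem SSt_of [FiniteDimensional ℂ V] (ρ : G →* Module.End ℂ V) (W : Submodule ℂ V)
    (x : G) (h : ∀ w ∈ W, ρ x w ∈ W) : x ∈ SSt ρ W := ⟨h, surj_of_stable ρ W x h⟩

/-- If all `x e x⁻¹` fix `W = V^E` then `x` stabilises `W`. -/
theorem SSt_conj [FiniteDimensional ℂ V] (ρ : G →* Module.End ℂ V) (E : Set G) (x : G)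
    (h : ∀ e ∈ E, x * e * x⁻¹ ∈ PSt ρ (FixV ρ E)) : x ∈ SSt ρ (FixV ρ E) := by
  have h1 : x⁻¹ ∈ SSt ρ (FixV ρ E) := by
    apply SSt_of
    intro w hw e he
    have h2 := h e he w hw
    have h3 : e * x⁻¹ = x⁻¹ * (x * e * x⁻¹) := by group
    rw [← mm, h3, mm, h2]
  have := (SSt ρ (FixV ρ E)).inv_mem h1
  rwa [inv_inv] at this

end general

variable {g n : ℕ} {G : Type*} [Group G] {V : Type*} [AddCommGroup V] [Module ℂ V]

/-- The chain and the two boundary curves of its first three members. -/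
theorem tc_bas (S : Tw g n G) (P : PR S) (hg : 2 ≤ g) :
    Bas (2 * g) (tc S) (S.T 2 3) (S.T 0 3) where
  br := {
    brd := fun i h1 h2 => tc_brd S P h1 h2
    com := by
      intro a b h1 h2 h3
      rcases Nat.mod_two_eq_zero_or_one a with ha | ha
      · obtain ⟨i, hi⟩ : ∃ i, a = 2 * i + 2 := ⟨a / 2 - 1, by omega⟩
        rw [tc_even S P hi]
        rcases Nat.mod_two_eq_zero_or_one b with hb | hb
        · obtain ⟨j, hj⟩ : ∃ j, b = 2 * j + 2 := ⟨b / 2 - 1, by omega⟩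
          rw [tc_even S P hj]
          exact P.BB _ _ (by omega) (by omega)
        · rw [tc_odd S P hb]
          have hlo := lo_spec hb
          exact (P.tb (lo_lt hb) (by omega) (by omega) (by omega) (by omega)).symm
      · rw [tc_odd S P ha]
        have hloa := lo_spec ha
        rcases Nat.mod_two_eq_zero_or_one b with hb | hb
        · obtain ⟨j, hj⟩ : ∃ j, b = 2 * j + 2 := ⟨b / 2 - 1, by omega⟩
          rw [tc_even S P hj]
          exact P.tb (lo_lt ha) (by omega) (by omega) (by omega) (by omega)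
        · rw [tc_odd S P hb]
          have hlo := lo_spec hb
          exact P.TT _ _ _ _ (lo_lt ha) (by omega) (lo_lt hb) (by omega) (Or.inl (by omega)) }
  ss := (P.TT _ _ _ _ (by omega) (by omega) (by omega) (by omega)
    (Or.inr ⟨by omega, by omega⟩)).symm
  st := by
    intro i h1 h2 h3
    rcases Nat.mod_two_eq_zero_or_one i with ha | ha
    · obtain ⟨j, hj⟩ : ∃ j, i = 2 * j + 2 := ⟨i / 2 - 1, by omega⟩
      rw [tc_even S P hj]
      exact P.tb (by omega) (by omega) (by omega) (by omega) (by omega)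
    · rw [tc_odd S P ha]
      have hlo := lo_spec ha
      by_cases h5 : i ≤ 3
      · by_cases h6 : i = 1
        · exact (P.TT _ _ _ _ (lo_lt ha) (by omega) (by omega) (by omega)
            (Or.inl (by omega))).symm
        · exact (P.TT _ _ _ _ (lo_lt ha) (by omega) (by omega) (by omega)
            (Or.inr ⟨by omega, by omega⟩)).symm
      · exact P.TT _ _ _ _ (by omega) (by omega) (lo_lt ha) (by omega) (Or.inl (by omega))
  st' := by
    intro i h1 h2 h3
    rcases Nat.mod_two_eq_zero_or_one i with ha | ha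
    · obtain ⟨j, hj⟩ : ∃ j, i = 2 * j + 2 := ⟨i / 2 - 1, by omega⟩
      rw [tc_even S P hj]
      exact P.tb (by omega) (by omega) (by omega) (by omega) (by omega)
    · rw [tc_odd S P ha]
      have hlo := lo_spec ha
      by_cases h5 : i ≤ 3
      · exact P.TT _ _ _ _ (by omega) (by omega) (lo_lt ha) (by omega)
          (Or.inr ⟨by omega, by omega⟩)
      · exact P.TT _ _ _ _ (by omega) (by omega) (lo_lt ha) (by omega) (Or.inl (by omega))
  s4 := by
    intro _
    rw [tc_even S P (show 4 = 2 * 1 + 2 by norm_num)]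
    exact P.TBe 1 2 (by omega) (by omega)
  s4' := by
    intro _
    rw [tc_even S P (show 4 = 2 * 1 + 2 by norm_num)]
    exact P.TBe 1 0 (by omega) (by omega)

theorem bp0 (S : Tw g n G) : bp (tc S) (S.T 2 3) (S.T 0 3) 0 1 2 3 = S.T 2 3 * (S.T 0 3)⁻¹ := by
  have : psi (tc S) 0 1 2 3 = 1 := by
    unfold psi
    rw [D_lt _ _ _ (by norm_num), D_lt _ _ _ (by norm_num), D_lt _ _ _ (by norm_num),
      D_lt _ _ _ (by norm_num)]
    simp
  unfold bp
  rw [this]; simp

/-- The finite set of mapping classes: the bounding pair maps `BP_J` and the pushes of the blocks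
of punctures. -/
def Es (S : Tw g n G) : Set G :=
  {x | (∃ i j k l, i < j ∧ j < k ∧ k < l ∧ l ≤ 2 * g ∧ x = bp (tc S) (S.T 2 3) (S.T 0 3) i j k l) ∨
    ∃ p, 1 ≤ p ∧ p ≤ n ∧ ((∃ m, 1 ≤ m ∧ m ≤ 2 * g ∧ x = dl S (2 * g) (2 * g + p) m) ∨
      x = ps S (2 * g) (2 * g + p) 0 ∨ x = S.T (2 * g) (2 * g + p))}

section stab

variable (S : Tw g n G) (P : PR S) (ρ : G →* Module.End ℂ V) [FiniteDimensional ℂ V]
include P

theorem Es_sub : Es S ⊆ (PSt ρ (FixV ρ (Es S)) : Set G) := fun e he w hw => hw e he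

/-- `t_m` stabilises `W`. -/
theorem stab_tc (hg : 2 ≤ g) {m : ℕ} (h1 : 1 ≤ m) (h2 : m ≤ 2 * g) :
    tc S m ∈ SSt ρ (FixV ρ (Es S)) := by
  apply SSt_conj
  have hE := Es_sub S P ρ
  rintro e (⟨i, j, k, l, a1, a2, a3, a4, rfl⟩ | ⟨p, p1, p2, h⟩)
  · apply bp_normal (tc_bas S P hg) (by omega) _ _ m h1 h2 i j k l a1 a2 a3 a4
    intro i' j' k' l' b1 b2 b3 b4
    exact hE (Or.inl ⟨i', j', k', l', b1, b2, b3, b4, rfl⟩)
  · have hB : Blk g n (2 * g) (2 * g + p) := ⟨le_rfl, by omega, by omega⟩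
    have hev : 2 * g % 2 = 0 := by omega
    have hd : ∀ m', 1 ≤ m' → m' ≤ 2 * g →
        dl S (2 * g) (2 * g + p) m' ∈ PSt ρ (FixV ρ (Es S)) :=
      fun m' b1 b2 => hE (Or.inr ⟨p, p1, p2, Or.inl ⟨m', b1, b2, rfl⟩⟩)
    rcases h with ⟨q, q1, q2, rfl⟩ | rfl | rfl
    · by_cases c1 : m = q + 1
      · subst c1
        rw [r1 S P hB q1 h2 hev]
        exact mul_mem (inv_mem (hd _ h1 h2)) (hd _ q1 q2)
      · by_cases c2 : q = m + 1
        · subst c2
          rw [r2 S P hB h1 q2 hev]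
          exact mul_mem (hd _ q1 q2) (hd _ h1 h2)
        · have hc : Commute (dl S (2 * g) (2 * g + p) q) (tc S m) := by
            by_cases c3 : m = q
            · subst c3
              exact r0_self S P hB h1 h2 hev
            · exact r0_far S P hB h1 h2 q1 q2 hev (by omega)
          rw [← hc.eq, mul_inv_cancel_right]
          exact hd _ q1 q2
    · have hc : Commute (ps S (2 * g) (2 * g + p) 0) (tc S m) := by
        rcases Nat.mod_two_eq_zero_or_one m with ha | ha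
        · obtain ⟨j, hj⟩ : ∃ j, m = 2 * j + 2 := ⟨m / 2 - 1, by omega⟩
          rw [tc_even S P hj]
          exact ps_B S P hB (by omega) (by omega) (by omega)
        · rw [tc_odd S P ha]
          have hlo := lo_spec ha
          exact ps_T S P hB (by omega) (lo_lt ha) (by omega) (by omega)
      rw [← hc.eq, mul_inv_cancel_right]
      exact hE (Or.inr ⟨p, p1, p2, Or.inr (Or.inl rfl)⟩)
    · have hc := c_tc S P hB h1 h2 hev
      rw [← hc.eq, mul_inv_cancel_right]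
      exact hE (Or.inr ⟨p, p1, p2, Or.inr (Or.inr rfl)⟩)

/-- `a_1 = T 2 3` stabilises `W` (square root trick). -/
theorem stab_s (hg : 2 ≤ g) (hu : IsNilpotent (ρ (S.T 2 3) - 1)) :
    S.T 2 3 ∈ SSt ρ (FixV ρ (Es S)) := by
  apply SSt_of
  apply root_stable _ hu
  intro w hw
  have hE := Es_sub S P ρ
  have h0 : S.T 2 3 * (S.T 0 3)⁻¹ ∈ PSt ρ (FixV ρ (Es S)) := by
    rw [← bp0 S]
    exact hE (Or.inl ⟨0, 1, 2, 3, by omega, by omega, by omega, by omega, rfl⟩)
  have hc := (tc_bas S P hg).ss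
  have e1 : S.T 2 3 * S.T 2 3 = (S.T 2 3 * (S.T 0 3)⁻¹) * (tc S 3 * tc S 2 * tc S 1) ^ 4 := by
    rw [← chain_rel S P hg, hc.eq]; group
  have h1 : (tc S 3 * tc S 2 * tc S 1) ^ 4 ∈ SSt ρ (FixV ρ (Es S)) :=
    pow_mem (mul_mem (mul_mem (stab_tc S P ρ hg (by omega) (by omega))
      (stab_tc S P ρ hg (by omega) (by omega))) (stab_tc S P ρ hg (by omega) (by omega))) 4
  have h2 := h1.1 w hw
  rw [← map_mul, e1, map_mul, Module.End.mul_apply, h0 _ h2]
  exact h2

/-- The pushes `p_s` of the blocks of punctures fix `W`. -/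
theorem psW_fix {p : ℕ} (p1 : 1 ≤ p) (p2 : p ≤ n) (i : ℕ) (hi : i < g) :
    ps S (2 * g) (2 * g + p) (2 * i + 1) ∈ PSt ρ (FixV ρ (Es S)) := by
  have hE := Es_sub S P ρ
  have hd : ∀ m', 1 ≤ m' → m' ≤ 2 * g →
      dl S (2 * g) (2 * g + p) m' ∈ PSt ρ (FixV ρ (Es S)) :=
    fun m' b1 b2 => hE (Or.inr ⟨p, p1, p2, Or.inl ⟨m', b1, b2, rfl⟩⟩)
  have h0 : ps S (2 * g) (2 * g + p) 0 ∈ PSt ρ (FixV ρ (Es S)) :=
    hE (Or.inr ⟨p, p1, p2, Or.inr (Or.inl rfl)⟩)
  have hc : S.T (2 * g) (2 * g + p) ∈ PSt ρ (FixV ρ (Es S)) :=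
    hE (Or.inr ⟨p, p1, p2, Or.inr (Or.inr rfl)⟩)
  have step : ∀ m, m % 2 = 1 → m ≤ 2 * g → ps S (2 * g) (2 * g + p) (lo m) ∈
      PSt ρ (FixV ρ (Es S)) → ps S (2 * g) (2 * g + p) m ∈ PSt ρ (FixV ρ (Es S)) := by
    intro m hm hm2 h1
    have h2 := hd m (by omega) hm2
    have e : ps S (2 * g) (2 * g + p) m = ps S (2 * g) (2 * g + p) (lo m) *
        S.T (2 * g) (2 * g + p) * (dl S (2 * g) (2 * g + p) m)⁻¹ := by
      rw [dl_odd S P hm]; group
    rw [e]
    exact mul_mem (mul_mem h1 hc) (inv_mem h2)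
  induction i with
  | zero =>
    apply step 1 (by norm_num) (by omega)
    exact h0
  | succ i ih =>
    apply step (2 * (i + 1) + 1) (by omega) (by omega)
    have hlo : lo (2 * (i + 1) + 1) = 2 * i + 1 := by unfold lo; split_ifs <;> omega
    rw [hlo]
    exact ih (by omega)

/-- `f_k` acts on `W` as `a_(g-1)`. -/
theorem f_fix (hg : 2 ≤ g) {p : ℕ} (p2 : p ≤ n) {w : V}
    (hw : ρ (S.T (2 * g - 2) (2 * g - 1)) w ∈ FixV ρ (Es S)) :
    ρ (S.T (2 * g - 1) (2 * g + p)) w = ρ (S.T (2 * g - 2) (2 * g - 1)) w := by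
  have haa : S.T (2 * g - 1) (2 * g) = S.T (2 * g - 2) (2 * g - 1) := by
    have := P.aa (g - 1) (by omega)
    rw [show 2 * (g - 1) = 2 * g - 2 by omega, show 2 * g - 2 + 1 = 2 * g - 1 by omega,
      show 2 * g - 2 + 2 = 2 * g by omega] at this
    exact this.symm
  by_cases hp : p = 0
  · subst hp
    rw [Nat.add_zero, haa]
  · have h1 := psW_fix S P ρ (show 1 ≤ p by omega) p2 (g - 1) (by omega)
    rw [show 2 * (g - 1) + 1 = 2 * g - 1 by omega] at h1
    have hc : S.T (2 * g) (2 * g + p) ∈ PSt ρ (FixV ρ (Es S)) :=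
      Es_sub S P ρ (Or.inr ⟨p, by omega, p2, Or.inr (Or.inr rfl)⟩)
    have e : S.T (2 * g - 1) (2 * g + p) = ps S (2 * g) (2 * g + p) (2 * g - 1) *
        S.T (2 * g) (2 * g + p) * S.T (2 * g - 1) (2 * g) := by
      unfold ps; group
    rw [e, haa, mm, mm, hc _ hw, h1 _ hw]

/-- (G): `W` is stable under all Lickorish generators. -/
theorem stab_gens (hg : 2 ≤ g) (hu : IsNilpotent (ρ (S.T 2 3) - 1)) :
    (∀ i, i < g → ∀ w ∈ FixV ρ (Es S), ρ (S.B i) w ∈ FixV ρ (Es S)) ∧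
    ∀ s t, Lk g n s t → ∀ w ∈ FixV ρ (Es S), ρ (S.T s t) w ∈ FixV ρ (Es S) := by
  obtain ⟨h1, h2, h3⟩ := hum S P (SSt ρ (FixV ρ (Es S)))
    (fun m a1 a2 => stab_tc S P ρ hg a1 a2) (fun _ => stab_s S P ρ hg hu)
  refine ⟨fun i hi => (h1 i hi).1, ?_⟩
  rintro s t (⟨i, hi, rfl, rfl⟩ | ⟨i, hi, rfl, rfl⟩ | ⟨k, hk, rfl, rfl⟩) w hw
  · exact (h3 i hi).1 w hw
  · exact (h2 i hi).1 w hw
  · have h4 := h3 (g - 1) (by omega)
    rw [show 2 * (g - 1) = 2 * g - 2 by omega, show 2 * g - 2 + 1 = 2 * g - 1 by omega] at h4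
    have h5 := h4.1 w hw
    rw [f_fix S P ρ hg hk h5]
    exact h5

end stab

/-- (G) for the mapping class group: an irreducible representation with unipotent `a_1`, trivial on
the free group, with one vector `≠ 0` fixed by the `BP_J` and the pushes of the blocks of
punctures: all of them act trivially. -/
theorem all_fixed (hg : 2 ≤ g) [FiniteDimensional ℂ V] (Γ : Subgroup (MulAut (Fr g n)))
    (hΓ : Γ = Subgroup.closure (twists g n)) (P : PR (sys g n Γ)) (ρ : MG g n Γ →* Module.End ℂ V)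
    (hF : ∀ w : Fr g n, ρ (SemidirectProduct.inl w) = 1) (hirr : Irr ρ)
    (hu : IsNilpotent (ρ ((sys g n Γ).T 2 3) - 1)) (v : V) (hv0 : v ≠ 0)
    (hv : v ∈ FixV ρ (Es (sys g n Γ))) : ∀ e ∈ Es (sys g n Γ), ρ e = 1 := by
  obtain ⟨h1, h2⟩ := stab_gens (sys g n Γ) P ρ hg hu
  have h3 := stab_all (by omega) Γ hΓ ρ hF (FixV ρ (Es (sys g n Γ))) h1 h2
  have h4 : FixV ρ (Es (sys g n Γ)) = ⊤ := by
    rcases hirr.2 _ h3 with h | h
    · rw [h] at hv
      exact absurd ((Submodule.mem_bot ℂ).1 hv) hv0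
    · exact h
  intro e he
  apply LinearMap.ext
  intro w
  have : w ∈ FixV ρ (Es (sys g n Γ)) := by rw [h4]; trivial
  exact this e he

end Pool.Agent.LJ
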