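import Pool.Agent.LJ.Ker

set_option linter.all false

namespace Pool.Agent.LJ

open Pool.Agent.HG13

variable {g n : ℕ} {G : Type*} [Group G]

section defs

variable (S : Tw g n G) (u w h : ℕ)

/-- The pushes `d_1, ..., d_(2h)` and the twist `T u w`. -/
def gn : Set G := {x | (∃ m, 1 ≤ m ∧ m ≤ 2 * h ∧ x = dl S u w m) ∨ x = S.T u w}

/-- The group of pushes. -/
def Ut : Subgroup G := Subgroup.closure (gn S u w h)

/-- The commutators of pushes, and `T u w`. -/
def Ct : Subgroup G := Subgroup.closure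
  {x | (∃ a ∈ Ut S u w h, ∃ b ∈ Ut S u w h, x = a * b * a⁻¹ * b⁻¹) ∨ x = S.T u w}

/-- The elements which normalise the group of pushes and commute with `T u w`. -/
def Nm : Subgroup G where
  carrier := {t | Commute t (S.T u w) ∧ (∀ x ∈ Ut S u w h, t * x * t⁻¹ ∈ Ut S u w h) ∧
    ∀ x ∈ Ut S u w h, t⁻¹ * x * t ∈ Ut S u w h}
  one_mem' := ⟨Commute.one_left _, fun x hx => by simpa using hx, fun x hx => by simpa using hx⟩
  mul_mem' := by
    rintro a b ⟨a1, a2, a3⟩ ⟨b1, b2, b3⟩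
    refine ⟨a1.mul_left b1, fun x hx => ?_, fun x hx => ?_⟩
    · have : a * b * x * (a * b)⁻¹ = a * (b * x * b⁻¹) * a⁻¹ := by group
      rw [this]; exact a2 _ (b2 _ hx)
    · have : (a * b)⁻¹ * x * (a * b) = b⁻¹ * (a⁻¹ * x * a) * b := by group
      rw [this]; exact b3 _ (a3 _ hx)
  inv_mem' := by
    rintro a ⟨a1, a2, a3⟩
    refine ⟨a1.inv_left, fun x hx => ?_, fun x hx => ?_⟩
    · rw [inv_inv]; exact a3 _ hx
    · rw [inv_inv]; exact a2 _ hx

variable {S u w h}

theorem tuw_Ut : S.T u w ∈ Ut S u w h := Subgroup.subset_closure (Or.inr rfl)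

theorem tuw_Ct : S.T u w ∈ Ct S u w h := Subgroup.subset_closure (Or.inr rfl)

theorem dl_Ut {m : ℕ} (h1 : 1 ≤ m) (h2 : m ≤ 2 * h) : dl S u w m ∈ Ut S u w h :=
  Subgroup.subset_closure (Or.inl ⟨m, h1, h2, rfl⟩)

theorem comm_Ct {a b : G} (ha : a ∈ Ut S u w h) (hb : b ∈ Ut S u w h) :
    a * b * a⁻¹ * b⁻¹ ∈ Ct S u w h :=
  Subgroup.subset_closure (Or.inl ⟨a, ha, b, hb, rfl⟩)

theorem Ct_le : Ct S u w h ≤ Ut S u w h := by
  unfold Ct
  rw [Subgroup.closure_le]
  rintro x (⟨a, ha, b, hb, rfl⟩ | rfl)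
  · exact (Ut S u w h).mul_mem ((Ut S u w h).mul_mem ((Ut S u w h).mul_mem ha hb)
      ((Ut S u w h).inv_mem ha)) ((Ut S u w h).inv_mem hb)
  · exact tuw_Ut

theorem conj_Ct {t : G} (ht : t ∈ Nm S u w h) {x : G} (hx : x ∈ Ct S u w h) :
    t * x * t⁻¹ ∈ Ct S u w h := by
  obtain ⟨t1, t2, t3⟩ := ht
  unfold Ct at hx
  induction hx using Subgroup.closure_induction with
  | mem x hx =>
    rcases hx with ⟨a, ha, b, hb, rfl⟩ | rfl
    · have : t * (a * b * a⁻¹ * b⁻¹) * t⁻¹ =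
          (t * a * t⁻¹) * (t * b * t⁻¹) * (t * a * t⁻¹)⁻¹ * (t * b * t⁻¹)⁻¹ := by group
      rw [this]
      exact comm_Ct (t2 a ha) (t2 b hb)
    · rw [t1.eq, mul_inv_cancel_right]; exact tuw_Ct
  | one => simpa using (Ct S u w h).one_mem
  | mul x y _ _ hx hy =>
    have : t * (x * y) * t⁻¹ = (t * x * t⁻¹) * (t * y * t⁻¹) := by group
    rw [this]; exact (Ct S u w h).mul_mem hx hy
  | inv x _ hx =>
    have : t * x⁻¹ * t⁻¹ = (t * x * t⁻¹)⁻¹ := by group
    rw [this]; exact (Ct S u w h).inv_mem hx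

end defs

section defs2

variable (S : Tw g n G) (u w h : ℕ)

/-- The elements which act trivially on the pushes modulo commutators. -/
def Kr : Subgroup G where
  carrier := {t | t ∈ Nm S u w h ∧ ∀ x ∈ Ut S u w h, t * x * t⁻¹ * x⁻¹ ∈ Ct S u w h}
  one_mem' := ⟨(Nm S u w h).one_mem, fun x hx => by simpa using (Ct S u w h).one_mem⟩
  mul_mem' := by
    rintro a b ⟨a1, a2⟩ ⟨b1, b2⟩
    refine ⟨(Nm S u w h).mul_mem a1 b1, fun x hx => ?_⟩
    have : a * b * x * (a * b)⁻¹ * x⁻¹ =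
        (a * (b * x * b⁻¹ * x⁻¹) * a⁻¹) * (a * x * a⁻¹ * x⁻¹) := by group
    rw [this]
    exact (Ct S u w h).mul_mem (conj_Ct a1 (b2 x hx)) (a2 x hx)
  inv_mem' := by
    rintro a ⟨a1, a2⟩
    refine ⟨(Nm S u w h).inv_mem a1, fun x hx => ?_⟩
    have h1 := a2 (a⁻¹ * x * a) (a1.2.2 x hx)
    have h2 : a⁻¹ * x * a⁻¹⁻¹ * x⁻¹ = (a * (a⁻¹ * x * a) * a⁻¹ * (a⁻¹ * x * a)⁻¹)⁻¹ := by group
    rw [h2]
    exact (Ct S u w h).inv_mem h1

variable {S u w h}

theorem Kr_conj {t x : G} (ht : t ∈ Nm S u w h) (hx : x ∈ Kr S u w h) :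
    t * x * t⁻¹ ∈ Kr S u w h := by
  refine ⟨(Nm S u w h).mul_mem ((Nm S u w h).mul_mem ht hx.1) ((Nm S u w h).inv_mem ht),
    fun y hy => ?_⟩
  have h1 := hx.2 (t⁻¹ * y * t) (ht.2.2 y hy)
  have h2 := conj_Ct ht h1
  have : t * x * t⁻¹ * y * (t * x * t⁻¹)⁻¹ * y⁻¹ =
      t * (x * (t⁻¹ * y * t) * x⁻¹ * (t⁻¹ * y * t)⁻¹) * t⁻¹ := by group
  rw [this]; exact h2

/-- Membership in the normaliser is checked on the generators. -/
theorem mem_Nm {t : G} (hc : Commute t (S.T u w))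
    (h1 : ∀ m, 1 ≤ m → m ≤ 2 * h → t * dl S u w m * t⁻¹ ∈ Ut S u w h)
    (h2 : ∀ m, 1 ≤ m → m ≤ 2 * h → t⁻¹ * dl S u w m * t ∈ Ut S u w h) : t ∈ Nm S u w h := by
  have key : ∀ s : G, Commute s (S.T u w) →
      (∀ m, 1 ≤ m → m ≤ 2 * h → s * dl S u w m * s⁻¹ ∈ Ut S u w h) →
      ∀ x ∈ Ut S u w h, s * x * s⁻¹ ∈ Ut S u w h := by
    intro s hs h3 x hx
    unfold Ut at hx
    induction hx using Subgroup.closure_induction with
    | mem x hx =>
      rcases hx with ⟨m, a, b, rfl⟩ | rfl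
      · exact h3 m a b
      · rw [hs.eq, mul_inv_cancel_right]; exact tuw_Ut
    | one => simpa using (Ut S u w h).one_mem
    | mul x y _ _ hx hy =>
      have : s * (x * y) * s⁻¹ = (s * x * s⁻¹) * (s * y * s⁻¹) := by group
      rw [this]; exact (Ut S u w h).mul_mem hx hy
    | inv x _ hx =>
      have : s * x⁻¹ * s⁻¹ = (s * x * s⁻¹)⁻¹ := by group
      rw [this]; exact (Ut S u w h).inv_mem hx
  refine ⟨hc, key t hc h1, fun x hx => ?_⟩
  have h3 := key t⁻¹ hc.inv_left (fun m a b => by rw [inv_inv]; exact h2 m a b) x hx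
  rwa [inv_inv] at h3

/-- Elements of the group of pushes normalise it. -/
theorem Ut_Nm (hc : ∀ x ∈ Ut S u w h, Commute x (S.T u w)) : Ut S u w h ≤ Nm S u w h := by
  intro x hx
  refine ⟨hc x hx, fun y hy => ?_, fun y hy => ?_⟩
  · exact (Ut S u w h).mul_mem ((Ut S u w h).mul_mem hx hy) ((Ut S u w h).inv_mem hx)
  · exact (Ut S u w h).mul_mem ((Ut S u w h).mul_mem ((Ut S u w h).inv_mem hx) hy) hx

/-- Membership in the kernel is checked on the generators. -/
theorem mem_Kr (hc : ∀ x ∈ Ut S u w h, Commute x (S.T u w)) {t : G} (ht : t ∈ Nm S u w h)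
    (h1 : ∀ m, 1 ≤ m → m ≤ 2 * h → t * dl S u w m * t⁻¹ * (dl S u w m)⁻¹ ∈ Ct S u w h) :
    t ∈ Kr S u w h := by
  refine ⟨ht, fun x hx => ?_⟩
  have hx' := hx
  unfold Ut at hx
  induction hx using Subgroup.closure_induction with
  | mem x hx =>
    rcases hx with ⟨m, a, b, rfl⟩ | rfl
    · exact h1 m a b
    · rw [ht.1.eq, mul_inv_cancel_right, mul_inv_cancel]; exact (Ct S u w h).one_mem
  | one => simpa using (Ct S u w h).one_mem
  | mul x y hx1 hy1 hx hy =>
    have : t * (x * y) * t⁻¹ * (x * y)⁻¹ =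
        (t * x * t⁻¹ * x⁻¹) * (x * (t * y * t⁻¹ * y⁻¹) * x⁻¹) := by group
    rw [this]
    exact (Ct S u w h).mul_mem (hx hx1) (conj_Ct (Ut_Nm hc hx1) (hy hy1))
  | inv x hx1 hx =>
    have h2 := (Ct S u w h).inv_mem (hx hx1)
    have h3 := conj_Ct (Ut_Nm hc ((Ut S u w h).inv_mem hx1)) h2
    have : t * x⁻¹ * t⁻¹ * x⁻¹⁻¹ = x⁻¹ * (t * x * t⁻¹ * x⁻¹)⁻¹ * x⁻¹⁻¹ := by group
    rw [this]; exact h3

end defs2

section main

variable (S : Tw g n G) (P : PR S) {u w : ℕ} (hB : Blk g n u w) (hev : u % 2 = 0)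

include P hB hev

theorem Ut_comm {h : ℕ} (hh : 2 * h ≤ u) : ∀ x ∈ Ut S u w h, Commute x (S.T u w) := by
  intro x hx
  unfold Ut at hx
  induction hx using Subgroup.closure_induction with
  | mem x hx =>
    rcases hx with ⟨m, a, b, rfl⟩ | rfl
    · exact (c_dl S P hB a (by omega) hev).symm
    · exact Commute.refl _
  | one => exact Commute.one_left _
  | mul x y _ _ hx hy => exact hx.mul_left hy
  | inv x _ hx => exact hx.inv_left

theorem tc_Nm {h m : ℕ} (hh : 2 * h ≤ u) (hm1 : 1 ≤ m) (hm : m ≤ 2 * h) :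
    tc S m ∈ Nm S u w h := by
  have triv : ∀ k, Commute (dl S u w k) (tc S m) → 1 ≤ k → k ≤ 2 * h →
      tc S m * dl S u w k * (tc S m)⁻¹ ∈ Ut S u w h ∧
      (tc S m)⁻¹ * dl S u w k * tc S m ∈ Ut S u w h := by
    intro k hk k1 k2
    constructor
    · rw [← hk.eq, mul_inv_cancel_right]; exact dl_Ut k1 k2
    · rw [mul_assoc, hk.eq, inv_mul_cancel_left]; exact dl_Ut k1 k2
  have key : ∀ k, 1 ≤ k → k ≤ 2 * h → tc S m * dl S u w k * (tc S m)⁻¹ ∈ Ut S u w h ∧
      (tc S m)⁻¹ * dl S u w k * tc S m ∈ Ut S u w h := by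
    intro k k1 k2
    by_cases e1 : k = m
    · subst e1
      exact triv k (r0_self S P hB hm1 (by omega) hev) k1 k2
    · by_cases e2 : k = m + 1
      · subst e2
        have h1 := r2 S P hB hm1 (show m + 1 ≤ u by omega) hev
        have h0 := r0_self S P hB hm1 (show m ≤ u by omega) hev
        constructor
        · rw [h1]; exact (Ut S u w h).mul_mem (dl_Ut k1 k2) (dl_Ut hm1 hm)
        · have h2 : (tc S m)⁻¹ * dl S u w (m + 1) * tc S m =
              dl S u w (m + 1) * (dl S u w m)⁻¹ := by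
            have h3 : tc S m * (dl S u w (m + 1) * (dl S u w m)⁻¹) * (tc S m)⁻¹ =
                dl S u w (m + 1) := by
              have : tc S m * (dl S u w (m + 1) * (dl S u w m)⁻¹) * (tc S m)⁻¹ =
                  (tc S m * dl S u w (m + 1) * (tc S m)⁻¹) *
                    (tc S m * dl S u w m * (tc S m)⁻¹)⁻¹ := by group
              rw [this, h1, ← h0.eq, mul_inv_cancel_right, mul_inv_cancel_right]
            conv_lhs => rw [← h3]
            group
          rw [h2]; exact (Ut S u w h).mul_mem (dl_Ut k1 k2) ((Ut S u w h).inv_mem (dl_Ut hm1 hm))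
      · by_cases e3 : k + 1 = m
        · subst e3
          have h1 := r1 S P hB k1 (show k + 1 ≤ u by omega) hev
          have h0 := r0_self S P hB hm1 (show k + 1 ≤ u by omega) hev
          constructor
          · rw [h1]; exact (Ut S u w h).mul_mem ((Ut S u w h).inv_mem (dl_Ut hm1 hm)) (dl_Ut k1 k2)
          · have h2 : (tc S (k + 1))⁻¹ * dl S u w k * tc S (k + 1) =
                dl S u w (k + 1) * dl S u w k := by
              have h3 : tc S (k + 1) * (dl S u w (k + 1) * dl S u w k) * (tc S (k + 1))⁻¹ =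
                  dl S u w k := by
                have : tc S (k + 1) * (dl S u w (k + 1) * dl S u w k) * (tc S (k + 1))⁻¹ =
                    (tc S (k + 1) * dl S u w (k + 1) * (tc S (k + 1))⁻¹) *
                      (tc S (k + 1) * dl S u w k * (tc S (k + 1))⁻¹) := by group
                rw [this, h1, ← h0.eq, mul_inv_cancel_right, mul_inv_cancel_left]
              conv_lhs => rw [← h3]
              group
            rw [h2]; exact (Ut S u w h).mul_mem (dl_Ut hm1 hm) (dl_Ut k1 k2)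
        · exact triv k (r0_far S P hB hm1 (by omega) k1 (by omega) hev (by omega)) k1 k2
  exact mem_Nm (c_tc S P hB hm1 (by omega) hev).symm (fun k a b => (key k a b).1)
    (fun k a b => (key k a b).2)

theorem Bh_Nm {h : ℕ} (hh : 2 * h ≤ u) : Bh S h ≤ Nm S u w h := by
  unfold Bh
  rw [Subgroup.closure_le]
  rintro x ⟨m, h1, h2, rfl⟩
  exact tc_Nm S P hB hev hh h1 h2

theorem t03_Nm {h : ℕ} (hh : 2 * h ≤ u) (h2 : 2 ≤ h) : S.T 0 3 ∈ Nm S u w h := by
  have k1 := hB.h1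
  obtain ⟨A1, A2, A3, A4, A5⟩ := t_all S P hB (show 4 ≤ u by omega) hev
  have A0 := t03_d4 S P hB (show 4 ≤ u by omega)
  have d1 : dl S u w 1 ∈ Ut S u w h := dl_Ut (by omega) (by omega)
  have d3 : dl S u w 3 ∈ Ut S u w h := dl_Ut (by omega) (by omega)
  have d4 : dl S u w 4 ∈ Ut S u w h := dl_Ut (by omega) (by omega)
  have hw : dl S u w 3 * dl S u w 1 ∈ Ut S u w h := (Ut S u w h).mul_mem d3 d1
  have hw' := (Ut S u w h).inv_mem hw
  refine mem_Nm (c_T S P hB (by omega) (by omega)).symm (fun m a b => ?_) (fun m a b => ?_)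
  · by_cases h5 : 5 ≤ m
    · rw [← (t03_far S P hB (by omega) h5 (by omega) hev).eq, mul_inv_cancel_right]
      exact dl_Ut a b
    · by_cases h4 : m = 4
      · subst h4
        rw [A0]
        exact (Ut S u w h).mul_mem d4 ((Ut S u w h).mul_mem hw ((Ut S u w h).inv_mem tuw_Ut))
      · rw [A1 (dl S u w m) (by
          obtain rfl | rfl | rfl : m = 1 ∨ m = 2 ∨ m = 3 := by omega
          · exact Or.inl rfl
          · exact Or.inr (Or.inl rfl)
          · exact Or.inr (Or.inr rfl))]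
        exact (Ut S u w h).mul_mem ((Ut S u w h).mul_mem hw' (dl_Ut a b)) hw
  · by_cases h5 : 5 ≤ m
    · rw [mul_assoc, (t03_far S P hB (by omega) h5 (by omega) hev).eq, inv_mul_cancel_left]
      exact dl_Ut a b
    · by_cases h4 : m = 4
      · subst h4
        rw [A3]
        exact (Ut S u w h).mul_mem ((Ut S u w h).mul_mem d4 hw') tuw_Ut
      · rw [A2 (dl S u w m) (by
          obtain rfl | rfl | rfl : m = 1 ∨ m = 2 ∨ m = 3 := by omega
          · exact Or.inl rfl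
          · exact Or.inr (Or.inl rfl)
          · exact Or.inr (Or.inr rfl))]
        exact (Ut S u w h).mul_mem ((Ut S u w h).mul_mem hw (dl_Ut a b)) hw'

theorem t23_Nm {h : ℕ} (hh : 2 * h ≤ u) (h2 : 2 ≤ h) : S.T 2 3 ∈ Nm S u w h := by
  have k1 := hB.h1
  have e : S.T 2 3 = (tc S 3 * tc S 2 * tc S 1) ^ 4 * (S.T 0 3)⁻¹ := by
    rw [← chain_rel S P (by omega)]; group
  rw [e]
  refine (Nm S u w h).mul_mem ((Nm S u w h).pow_mem ?_ 4)
    ((Nm S u w h).inv_mem (t03_Nm S P hB hev hh h2))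
  exact (Nm S u w h).mul_mem ((Nm S u w h).mul_mem (tc_Nm S P hB hev hh (by omega) (by omega))
    (tc_Nm S P hB hev hh (by omega) (by omega))) (tc_Nm S P hB hev hh (by omega) (by omega))

/-- The bounding pair map acts trivially on the pushes modulo commutators. -/
theorem BP_Kr {h : ℕ} (hh : 2 * h ≤ u) (h2 : 2 ≤ h) : BP S ∈ Kr S u w h := by
  have k1 := hB.h1
  have k3 := hB.h3
  obtain ⟨A1, A2, A3, A4, A5⟩ := t_all S P hB (show 4 ≤ u by omega) hev
  have d1 : dl S u w 1 ∈ Ut S u w h := dl_Ut (by omega) (by omega)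
  have d2 : dl S u w 2 ∈ Ut S u w h := dl_Ut (by omega) (by omega)
  have d3 : dl S u w 3 ∈ Ut S u w h := dl_Ut (by omega) (by omega)
  have d4 : dl S u w 4 ∈ Ut S u w h := dl_Ut (by omega) (by omega)
  have hc := Ut_comm S P hB hev hh
  refine mem_Kr hc ((Nm S u w h).mul_mem (t23_Nm S P hB hev hh h2)
    ((Nm S u w h).inv_mem (t03_Nm S P hB hev hh h2))) (fun m a b => ?_)
  unfold BP
  by_cases h5 : 5 ≤ m
  · have c1 := t03_far S P hB (show 4 ≤ u by omega) h5 (by omega) hev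
    have c2 : Commute (dl S u w m) (S.T 2 3) := by
      have cc : Commute (S.T u w) (S.T 2 3) := c_T S P hB (by omega) (by omega)
      have cp : ∀ s, s < u → Commute (ps S u w s) (S.T 2 3) := fun s hs =>
        ps_T S P hB hs (by omega) (by omega) (by omega)
      rcases Nat.mod_two_eq_zero_or_one m with h | h
      · obtain ⟨i, hi⟩ : ∃ i, m = 2 * i + 2 := ⟨m / 2 - 1, by omega⟩
        rw [dl_even S P hi]
        have c2 : Commute (S.B i) (S.T 2 3) :=
          (P.tb (by omega) (by omega) (by omega) (by omega) (by omega)).symm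
        exact (((cp _ (by omega)).inv_left.mul_left c2).mul_left (cp _ (by omega))).mul_left
          c2.inv_left
      · rw [dl_odd S P h]
        have hlo := lo_spec h
        exact ((cp _ (by omega)).inv_left.mul_left (cp _ (by omega))).mul_left cc
    have c3 : Commute (dl S u w m) (S.T 2 3 * (S.T 0 3)⁻¹) := c2.mul_right c1.inv_right
    rw [← c3.eq, mul_inv_cancel_right, mul_inv_cancel]
    exact (Ct S u w h).one_mem
  · by_cases h4 : m = 4
    · subst h4
      rw [A5]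
      have hx : dl S u w 4 * dl S u w 3 ∈ Ut S u w h := (Ut S u w h).mul_mem d4 d3
      have h6 := conj_Ct (Ut_Nm hc hx) (comm_Ct d2 d1)
      have c4 := hc _ d4
      have : dl S u w 4 * dl S u w 3 * (dl S u w 2 * dl S u w 1 * (dl S u w 2)⁻¹ *
          (dl S u w 1)⁻¹) * (dl S u w 3)⁻¹ * (S.T u w * S.T u w) * (dl S u w 4)⁻¹ =
          (dl S u w 4 * dl S u w 3 * (dl S u w 2 * dl S u w 1 * (dl S u w 2)⁻¹ *
          (dl S u w 1)⁻¹) * (dl S u w 4 * dl S u w 3)⁻¹) * (S.T u w * S.T u w) := by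
        have c5 : (S.T u w * S.T u w) * (dl S u w 4)⁻¹ = (dl S u w 4)⁻¹ * (S.T u w * S.T u w) :=
          (c4.symm.mul_left c4.symm).inv_right.eq
        rw [mul_assoc _ (S.T u w * S.T u w) _, c5]; group
      rw [this]
      exact (Ct S u w h).mul_mem h6 ((Ct S u w h).mul_mem tuw_Ct tuw_Ct)
    · rw [A4 (dl S u w m) (by
          obtain rfl | rfl | rfl : m = 1 ∨ m = 2 ∨ m = 3 := by omega
          · exact Or.inl rfl
          · exact Or.inr (Or.inl rfl)
          · exact Or.inr (Or.inr rfl))]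
      exact comm_Ct ((Ut S u w h).mul_mem d3 d1) (dl_Ut a b)

/-- All conjugates of the bounding pair map under `⟨t_1, ..., t_2h⟩` are in the kernel. -/
theorem conj_Kr {h : ℕ} (hh : 2 * h ≤ u) (h2 : 2 ≤ h) {ψ : G} (hψ : ψ ∈ Bh S h) :
    ψ * BP S * ψ⁻¹ ∈ Kr S u w h :=
  Kr_conj (Bh_Nm S P hB hev hh hψ) (BP_Kr S P hB hev hh h2)

end main

end Pool.Agent.LJ
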