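import Pool.Agent.LJ.Ut
import Pool.Agent.LJ.First

set_option linter.all false

namespace Pool.Agent.LJ

open Pool.Agent.HG13

variable {g n : ℕ} {G : Type*} [Group G] {V : Type*} [AddCommGroup V] [Module ℂ V]

/-- `v` is fixed by all interval twists. -/
def FT (S : Tw g n G) (ρ : G →* Module.End ℂ V) (v : V) : Prop :=
  ∀ s t, s < t → t ≤ 2 * g + n → ρ (S.T s t) v = v

section push

variable (S : Tw g n G) (ρ : G →* Module.End ℂ V)

theorem ps_fix {u w s : ℕ} (hB : Blk g n u w) (hs : s < u) {v : V} (hv : FT S ρ v) :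
    ρ (ps S u w s) v = v := by
  obtain ⟨h1, h2, h3⟩ := hB
  unfold ps
  exact mul_fix ρ (mul_fix ρ (hv _ _ (by omega) (by omega)) (inv_fix ρ (hv _ _ hs (by omega))))
    (inv_fix ρ (hv _ _ h2 h3))

variable (P : PR S)

include P

theorem dl_fix_odd {u w m : ℕ} (hB : Blk g n u w) (hm : m < u) (ho : m % 2 = 1) {v : V}
    (hv : FT S ρ v) : ρ (dl S u w m) v = v := by
  rw [dl_odd S P ho]
  have hlo := lo_lt ho
  exact mul_fix ρ (mul_fix ρ (inv_fix ρ (ps_fix S ρ hB hm hv)) (ps_fix S ρ hB (by omega) hv))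
    (hv _ _ hB.h2 hB.h3)

theorem dl_fix_even {u w m i : ℕ} (hB : Blk g n u w) (hm : m ≤ u) (he : m = 2 * i + 2) {v : V}
    (hv : FT S ρ v) (hBi : ρ (S.B i) v = v) : ρ (dl S u w m) v = v := by
  rw [dl_even S P he]
  exact mul_fix ρ (mul_fix ρ (mul_fix ρ (inv_fix ρ (ps_fix S ρ hB (by omega) hv)) hBi)
    (ps_fix S ρ hB (by omega) hv)) (inv_fix ρ hBi)

/-- (P1) -/
theorem dl_slot {A : Finset ℕ} {v : V} (hM : Mn S ρ A.card) (hv : KA S ρ A v) {l y : ℕ}
    (hl : l ∈ A) (hly : l < y) (hy : y < g) (hyA : y ∉ A) :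
    ρ (dl S (2 * y) (2 * y + 1) (2 * l + 2)) v = v - tr S ρ l y v := by
  have hB : Blk g n (2 * y) (2 * y + 1) := blk_foot hy
  obtain ⟨x1, x2⟩ := hv.xi S ρ P hl
  have hw := tr_mem S P ρ hM hv hl hyA hy
  have hf1 := f1 S P ρ hM hv hl hly hy
  obtain ⟨xi, hxi⟩ : ∃ xi, xi = ρ (S.B l) v - v := ⟨_, rfl⟩
  obtain ⟨w, hwd⟩ : ∃ w, w = tr S ρ l y v := ⟨_, rfl⟩
  have hBv : ρ (S.B l) v = v + xi := by rw [hxi]; abel
  have hxx : ρ (S.T (2 * l + 1) (2 * y + 1)) xi = xi + w - v := by
    rw [hwd]; unfold tr xc; rw [if_pos hly, ← hxi]; abel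
  rw [← hxi] at x1 x2 hf1
  rw [← hwd] at hw ⊢
  have hlm : l ∉ mv A l y := by
    unfold mv
    rw [Finset.mem_insert]
    rintro (h | h)
    · omega
    · exact (Finset.notMem_erase l A) h
  have hBw : ρ (S.B l) w = w := hw.B l (by omega) hlm
  have hvT : FT S ρ v := hv.T
  have hwT : FT S ρ w := hw.T
  -- p xi = xi + w
  have hp : ρ (ps S (2 * y) (2 * y + 1) (2 * l + 1)) xi = xi + w := by
    unfold ps
    have e1 : ρ (S.T (2 * y) (2 * y + 1))⁻¹ xi = xi := by
      apply inv_fix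
      rw [hxi]
      exact KA.com S ρ hv (hv.T _ _ (by omega) (by omega))
        (P.tb (by omega) (by omega) (by omega) (by omega) (by omega))
    have e2 : ρ (S.T (2 * l + 1) (2 * y))⁻¹ xi = xi + v := by
      apply inv_eq
      rw [map_add, hf1, hv.T _ _ (by omega) (by omega)]; abel
    rw [mm, mm, e1, e2, map_add, hxx, hv.T _ _ (by omega) (by omega)]; abel
  have hpv := ps_fix S ρ hB (show 2 * l + 1 < 2 * y by omega) hvT
  have hpw := ps_fix S ρ hB (show 2 * l + 1 < 2 * y by omega) hwT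
  have hBi : ρ (S.B l)⁻¹ v = v - xi := by
    apply inv_eq
    rw [map_sub, hBv, x1]; abel
  rw [dl_even S P rfl, mm, mm, mm, hBi, map_sub, hp, hpv]
  rw [map_sub, map_add, hBv, x1, hBw]
  have : v + xi - (xi + w) = v - w := by abel
  rw [this, map_sub, inv_fix ρ hpv, inv_fix ρ hpw]

/-- (P2) -/
theorem Rt_act {A : Finset ℕ} {v : V} (hM : Mn S ρ A.card) (hv : KA S ρ A v) {y e : ℕ}
    (he : e ∈ A) (hye : y < e) (hyA : y ∉ A) :
    ρ (Rt S y e) v = v + tr S ρ e y v := by
  have heg := hv.sub e he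
  obtain ⟨x1, x2⟩ := hv.xi S ρ P he
  have hw := tr_mem S P ρ hM hv he hyA (by omega)
  obtain ⟨xi, hxi⟩ : ∃ xi, xi = ρ (S.B e) v - v := ⟨_, rfl⟩
  obtain ⟨w, hwd⟩ : ∃ w, w = tr S ρ e y v := ⟨_, rfl⟩
  have hBv : ρ (S.B e) v = v + xi := by rw [hxi]; abel
  have hxx : ρ (S.T (2 * y + 1) (2 * e + 1)) xi = xi + w - v := by
    rw [hwd]; unfold tr xc; rw [if_neg (by omega), ← hxi]; abel
  rw [← hxi] at x1 x2
  rw [← hwd] at hw ⊢
  have hem : e ∉ mv A e y := by
    unfold mv
    rw [Finset.mem_insert]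
    rintro (h | h)
    · omega
    · exact (Finset.notMem_erase e A) h
  have hBw : ρ (S.B e) w = w := hw.B e (by omega) hem
  obtain ⟨q, hq⟩ : ∃ q, q = S.T (2 * y + 1) (2 * e + 1) * (S.T (2 * y + 1) (2 * e))⁻¹ *
    (S.T (2 * e) (2 * e + 1))⁻¹ := ⟨_, rfl⟩
  have hfix : ∀ z, FT S ρ z → ρ q z = z := by
    intro z hz
    rw [hq]
    exact mul_fix ρ (mul_fix ρ (hz _ _ (by omega) (by omega))
      (inv_fix ρ (hz _ _ (by omega) (by omega)))) (inv_fix ρ (hz _ _ (by omega) (by omega)))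
  have hqv := hfix v hv.T
  have hqw := hfix w hw.T
  have hqx : ρ q xi = xi + w := by
    rw [hq]
    have e1 : ρ (S.T (2 * e) (2 * e + 1))⁻¹ xi = xi + v := by
      apply inv_eq
      rw [map_add, x2, hv.T _ _ (by omega) (by omega)]; abel
    have e2 : ρ (S.T (2 * y + 1) (2 * e))⁻¹ xi = xi := by
      apply inv_fix
      rw [hxi]
      exact KA.com S ρ hv (hv.T _ _ (by omega) (by omega))
        (P.tb (by omega) (by omega) (by omega) (by omega) (by omega))
    rw [mm, mm, e1, map_add, e2, inv_fix ρ (hv.T (2 * y + 1) (2 * e) (by omega) (by omega)), map_add,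
      hxx, hv.T _ _ (by omega) (by omega)]; abel
  have hqi : ρ q⁻¹ xi = xi - w := by
    apply inv_eq
    rw [map_sub, hqx, hqw]; abel
  have hBi : ρ (S.B e)⁻¹ v = v - xi := by
    apply inv_eq
    rw [map_sub, hBv, x1]; abel
  unfold Rt
  rw [← hq, mm, mm, mm, hqv, hBi, map_sub, inv_fix ρ hqv, hqi, map_sub, map_sub, hBv, x1, hBw]
  abel

omit ρ in
/-- The transports `R_(y,e)` commute with the pushes of the left foot of `y`. -/
theorem Rt_dl {y e m : ℕ} (hye : y < e) (he : e < g) (hm1 : 1 ≤ m) (hm : m ≤ 2 * y) :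
    Commute (Rt S y e) (dl S (2 * y) (2 * y + 1) m) := by
  have hB : Blk g n (2 * y) (2 * y + 1) := blk_foot (by omega)
  -- everything in the group of the elements commuting with the four letters of `R`
  have key : ∀ x : G, Commute x (S.T (2 * y + 1) (2 * e + 1)) →
      Commute x (S.T (2 * y + 1) (2 * e)) → Commute x (S.T (2 * e) (2 * e + 1)) →
      Commute x (S.B e) → Commute (Rt S y e) x := by
    intro x h1 h2 h3 h4
    have hq : Commute x (S.T (2 * y + 1) (2 * e + 1) * (S.T (2 * y + 1) (2 * e))⁻¹ *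
      (S.T (2 * e) (2 * e + 1))⁻¹) := (h1.mul_right h2.inv_right).mul_right h3.inv_right
    unfold Rt
    exact (((h4.mul_right hq.inv_right).mul_right h4.inv_right).mul_right hq).symm
  have cT : ∀ s t, s < t → t ≤ 2 * y + 1 → Commute (Rt S y e) (S.T s t) := by
    intro s t hst ht
    apply key
    · exact P.TT _ _ _ _ hst (by omega) (by omega) (by omega) (Or.inl ht)
    · exact P.TT _ _ _ _ hst (by omega) (by omega) (by omega) (Or.inl ht)
    · exact P.TT _ _ _ _ hst (by omega) (by omega) (by omega) (Or.inl (by omega))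
    · exact P.TB _ _ _ hst (by omega) (by omega) (Or.inr (Or.inl (by omega)))
  have cB : ∀ i, i < y → Commute (Rt S y e) (S.B i) := by
    intro i hi
    apply key
    · exact (P.TB _ _ _ (by omega) (by omega) (by omega) (Or.inl (by omega))).symm
    · exact (P.TB _ _ _ (by omega) (by omega) (by omega) (Or.inl (by omega))).symm
    · exact (P.TB _ _ _ (by omega) (by omega) (by omega) (Or.inl (by omega))).symm
    · exact P.BB _ _ (by omega) (by omega)
  have cp : ∀ s, s < 2 * y → Commute (Rt S y e) (ps S (2 * y) (2 * y + 1) s) := by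
    intro s hs
    unfold ps
    exact ((cT _ _ (by omega) (by omega)).mul_right (cT _ _ (by omega) (by omega)).inv_right).mul_right
      (cT _ _ (by omega) (by omega)).inv_right
  rcases Nat.mod_two_eq_zero_or_one m with h | h
  · obtain ⟨i, hi⟩ : ∃ i, m = 2 * i + 2 := ⟨m / 2 - 1, by omega⟩
    rw [dl_even S P hi]
    exact (((cp _ (by omega)).inv_right.mul_right (cB i (by omega))).mul_right
      (cp _ (by omega))).mul_right (cB i (by omega)).inv_right
  · rw [dl_odd S P h]
    have := lo_lt h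
    exact ((cp _ (by omega)).inv_right.mul_right (cp _ (by omega))).mul_right
      (cT _ _ (by omega) (by omega))

omit ρ in
/-- The transports `R_(y,e)`, `R_(y,e')` commute. -/
theorem Rt_Rt {y e e' : ℕ} (hye : y < e) (hee : e < e') (he : e' < g) :
    Commute (Rt S y e) (Rt S y e') := by
  have TTn : ∀ s t s' t', s < t → t ≤ 2 * g + n → s' < t' → t' ≤ 2 * g + n →
      (s' ≤ s ∧ t ≤ t' ∨ t ≤ s') → Commute (S.T s t) (S.T s' t') := by
    intro s t s' t' h1 h2 h3 h4 h5
    rcases h5 with h5 | h5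
    · exact (P.TT _ _ _ _ h3 h4 h1 h2 (Or.inr h5)).symm
    · exact P.TT _ _ _ _ h1 h2 h3 h4 (Or.inl h5)
  -- letters
  have q1 : ∀ s t, s < t → 2 * y + 1 ≤ s → t ≤ 2 * e + 1 →
      Commute (S.T s t) (Rt S y e') := by
    intro s t hst hs ht
    have c1 : Commute (S.T s t) (S.T (2 * y + 1) (2 * e' + 1)) :=
      TTn _ _ _ _ hst (by omega) (by omega) (by omega) (Or.inl ⟨by omega, by omega⟩)
    have c2 : Commute (S.T s t) (S.T (2 * y + 1) (2 * e')) :=
      TTn _ _ _ _ hst (by omega) (by omega) (by omega) (Or.inl ⟨by omega, by omega⟩)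
    have c3 : Commute (S.T s t) (S.T (2 * e') (2 * e' + 1)) :=
      TTn _ _ _ _ hst (by omega) (by omega) (by omega) (Or.inr (by omega))
    have c4 : Commute (S.T s t) (S.B e') :=
      P.TB _ _ _ hst (by omega) (by omega) (Or.inr (Or.inl (by omega)))
    have cq := (c1.mul_right c2.inv_right).mul_right c3.inv_right
    unfold Rt
    exact ((c4.mul_right cq.inv_right).mul_right c4.inv_right).mul_right cq
  have q2 : Commute (S.B e) (Rt S y e') := by
    have c1 : Commute (S.B e) (S.T (2 * y + 1) (2 * e' + 1)) :=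
      (P.TB _ _ _ (by omega) (by omega) (by omega) (Or.inr (Or.inr ⟨by omega, by omega⟩))).symm
    have c2 : Commute (S.B e) (S.T (2 * y + 1) (2 * e')) :=
      (P.TB _ _ _ (by omega) (by omega) (by omega) (Or.inr (Or.inr ⟨by omega, by omega⟩))).symm
    have c3 : Commute (S.B e) (S.T (2 * e') (2 * e' + 1)) :=
      (P.TB _ _ _ (by omega) (by omega) (by omega) (Or.inl (by omega))).symm
    have c4 : Commute (S.B e) (S.B e') := P.BB _ _ (by omega) (by omega)
    have cq := (c1.mul_right c2.inv_right).mul_right c3.inv_right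
    unfold Rt
    exact ((c4.mul_right cq.inv_right).mul_right c4.inv_right).mul_right cq
  have cq := ((q1 (2 * y + 1) (2 * e + 1) (by omega) le_rfl le_rfl).mul_left
    (q1 (2 * y + 1) (2 * e) (by omega) le_rfl (by omega)).inv_left).mul_left
    (q1 (2 * e) (2 * e + 1) (by omega) (by omega) le_rfl).inv_left
  have h := ((q2.mul_left cq.inv_left).mul_left q2.inv_left).mul_left cq
  exact h

omit ρ in
/-- Nested pushes commute. -/
theorem dl_nest {l k e e' : ℕ} (hlk : l < k) (hke : k < e) (hee : e < e') (he : e' < g) :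
    Commute (dl S (2 * e) (2 * e + 1) (2 * k + 2)) (dl S (2 * e') (2 * e' + 1) (2 * l + 2)) := by
  have TTn : ∀ s t s' t', s < t → t ≤ 2 * g + n → s' < t' → t' ≤ 2 * g + n →
      (s' ≤ s ∧ t ≤ t' ∨ t ≤ s') → Commute (S.T s t) (S.T s' t') := by
    intro s t s' t' h1 h2 h3 h4 h5
    rcases h5 with h5 | h5
    · exact (P.TT _ _ _ _ h3 h4 h1 h2 (Or.inr h5)).symm
    · exact P.TT _ _ _ _ h1 h2 h3 h4 (Or.inl h5)
  have key : ∀ x : G, Commute x (S.T (2 * l + 1) (2 * e' + 1)) →
      Commute x (S.T (2 * l + 1) (2 * e')) → Commute x (S.T (2 * e') (2 * e' + 1)) →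
      Commute x (S.B l) → Commute x (dl S (2 * e') (2 * e' + 1) (2 * l + 2)) := by
    intro x h1 h2 h3 h4
    rw [dl_even S P rfl]
    have hp : Commute x (ps S (2 * e') (2 * e' + 1) (2 * l + 1)) := by
      unfold ps
      exact (h1.mul_right h2.inv_right).mul_right h3.inv_right
    exact ((hp.inv_right.mul_right h4).mul_right hp).mul_right h4.inv_right
  have cT : ∀ s t, s < t → 2 * l + 2 ≤ s → t ≤ 2 * e' →
      Commute (S.T s t) (dl S (2 * e') (2 * e' + 1) (2 * l + 2)) := by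
    intro s t hst hs ht
    apply key
    · exact TTn _ _ _ _ hst (by omega) (by omega) (by omega) (Or.inl ⟨by omega, by omega⟩)
    · exact TTn _ _ _ _ hst (by omega) (by omega) (by omega) (Or.inl ⟨by omega, by omega⟩)
    · exact TTn _ _ _ _ hst (by omega) (by omega) (by omega) (Or.inr (by omega))
    · exact P.TB _ _ _ hst (by omega) (by omega) (Or.inl hs)
  have cB : Commute (S.B k) (dl S (2 * e') (2 * e' + 1) (2 * l + 2)) := by
    apply key
    · exact (P.TB _ _ _ (by omega) (by omega) (by omega) (Or.inr (Or.inr ⟨by omega, by omega⟩))).symm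
    · exact (P.TB _ _ _ (by omega) (by omega) (by omega) (Or.inr (Or.inr ⟨by omega, by omega⟩))).symm
    · exact (P.TB _ _ _ (by omega) (by omega) (by omega) (Or.inl (by omega))).symm
    · exact P.BB _ _ (by omega) (by omega)
  have cp : Commute (ps S (2 * e) (2 * e + 1) (2 * k + 1))
      (dl S (2 * e') (2 * e' + 1) (2 * l + 2)) := by
    unfold ps
    exact ((cT _ _ (by omega) (by omega) (by omega)).mul_left
      (cT _ _ (by omega) (by omega) (by omega)).inv_left).mul_left
      (cT _ _ (by omega) (by omega) (by omega)).inv_left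
  have e1 : dl S (2 * e) (2 * e + 1) (2 * k + 2) = (ps S (2 * e) (2 * e + 1) (2 * k + 1))⁻¹ *
      S.B k * ps S (2 * e) (2 * e + 1) (2 * k + 1) * (S.B k)⁻¹ := dl_even S P rfl
  rw [e1]
  exact ((cp.inv_left.mul_left cB).mul_left cp).mul_left cB.inv_left

end push

end Pool.Agent.LJ
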