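import Pool.Agent.LJ.Fix

set_option linter.all false

namespace Pool.Agent.LJ

open Pool.Agent.HG13

variable {g n : ℕ} {G : Type*} [Group G] {V : Type*} [AddCommGroup V] [Module ℂ V]

section vfix

variable (S : Tw g n G) (P : PR S) (ρ : G →* Module.End ℂ V)

/-- The group generated by `t_1, ..., t_(2h)` and `T 0 3`. -/
def Ch (h : ℕ) : Subgroup G :=
  Subgroup.closure {x | (∃ m, 1 ≤ m ∧ m ≤ 2 * h ∧ x = tc S m) ∨ x = S.T 0 3}

include P

omit P in
theorem Bh_le_Ch (h : ℕ) : Bh S h ≤ Ch S h := by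
  unfold Bh Ch
  apply Subgroup.closure_mono
  intro x hx
  exact Or.inl hx

theorem BP_Ch {h : ℕ} (h2 : 2 ≤ h) (hg : 2 ≤ g) : BP S ∈ Ch S h := by
  have t : ∀ m, 1 ≤ m → m ≤ 2 * h → tc S m ∈ Ch S h := fun m h1 h3 =>
    Subgroup.subset_closure (Or.inl ⟨m, h1, h3, rfl⟩)
  have t03 : S.T 0 3 ∈ Ch S h := Subgroup.subset_closure (Or.inr rfl)
  have e : S.T 2 3 = (tc S 3 * tc S 2 * tc S 1) ^ 4 * (S.T 0 3)⁻¹ := by
    rw [← chain_rel S P hg]; group
  unfold BP
  rw [e]
  exact (Ch S h).mul_mem ((Ch S h).mul_mem ((Ch S h).pow_mem ((Ch S h).mul_mem ((Ch S h).mul_mem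
    (t 3 (by omega) (by omega)) (t 2 (by omega) (by omega))) (t 1 (by omega) (by omega))) 4)
    ((Ch S h).inv_mem t03)) ((Ch S h).inv_mem t03)

/-- An element which commutes with the generators commutes with the group. -/
theorem Ch_comm {h : ℕ} {x : G} (hx : ∀ m, 1 ≤ m → m ≤ 2 * h → Commute (tc S m) x)
    (hx3 : Commute (S.T 0 3) x) {X : G} (hX : X ∈ Ch S h) : Commute X x := by
  unfold Ch at hX
  induction hX using Subgroup.closure_induction with
  | mem y hy =>
    rcases hy with ⟨m, h1, h2, rfl⟩ | rfl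
    · exact hx m h1 h2
    · exact hx3
  | one => exact Commute.one_left _
  | mul a b _ _ ha hb => exact ha.mul_left hb
  | inv a _ ha => exact ha.inv_left

theorem Ch_Tout {h : ℕ} (h2 : 2 ≤ h) (hg : h ≤ g) {s t : ℕ} (hst : s < t)
    (ht : t ≤ 2 * g + n) (hs : 2 * h ≤ s ∨ (s = 0 ∧ 2 * h ≤ t)) {X : G} (hX : X ∈ Ch S h) :
    Commute X (S.T s t) := by
  apply Ch_comm S P _ _ hX
  · intro m h1 h3
    rcases Nat.mod_two_eq_zero_or_one m with he | ho
    · obtain ⟨i, hi⟩ : ∃ i, m = 2 * i + 2 := ⟨m / 2 - 1, by omega⟩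
      rw [tc_even S P hi]
      exact (P.TB _ _ _ hst ht (by omega) (by omega)).symm
    · rw [tc_odd S P ho]
      have hlo := lo_lt ho
      rcases hs with hs | ⟨rfl, hs⟩
      · exact P.TT _ _ _ _ hlo (by omega) hst ht (Or.inl (by omega))
      · exact (P.TT _ _ _ _ hst ht hlo (by omega) (Or.inr ⟨by omega, by omega⟩)).symm
  · rcases hs with hs | ⟨rfl, hs⟩
    · exact P.TT _ _ _ _ (by omega) (by omega) hst ht (Or.inl (by omega))
    · exact (P.TT _ _ _ _ hst ht (by omega) (by omega) (Or.inr ⟨by omega, by omega⟩)).symm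

theorem Ch_Bout {h : ℕ} (h2 : 2 ≤ h) {r : ℕ} (hr : h ≤ r) (hrg : r < g) {X : G} (hX : X ∈ Ch S h) :
    Commute X (S.B r) := by
  apply Ch_comm S P _ _ hX
  · intro m h1 h3
    rcases Nat.mod_two_eq_zero_or_one m with he | ho
    · obtain ⟨i, hi⟩ : ∃ i, m = 2 * i + 2 := ⟨m / 2 - 1, by omega⟩
      rw [tc_even S P hi]
      exact P.BB _ _ (by omega) hrg
    · rw [tc_odd S P ho]
      have hlo := lo_lt ho
      exact P.TB _ _ _ hlo (by omega) hrg (by omega)
  · exact P.TB _ _ _ (by omega) (by omega) hrg (by omega)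

/-- (V) -/
theorem fixC {j h : ℕ} (hM : Mn S ρ j) (h2 : 2 ≤ h) (hg : h + j + 1 ≤ g) {X : G}
    (hX : X ∈ Ch S h) (hK : ∀ y, h ≤ y → y < g → X ∈ Kr S (2 * y) (2 * y + 1) h) :
    ∀ k : ℕ, ∀ A : Finset ℕ, A.card = j → ∀ v : V, KA S ρ A v →
      (A.filter (fun q => q < h)).card = k → ρ X v = v := by
  intro k
  induction k with
  | zero =>
    intro A hA v hv hk
    have hno : ∀ q ∈ A, h ≤ q := by
      intro q hq
      by_contra hcon
      push Not at hcon
      have : q ∈ A.filter (fun q => q < h) := Finset.mem_filter.mpr ⟨hq, hcon⟩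
      rw [Finset.card_eq_zero.mp hk] at this
      simp at this
    unfold Ch at hX
    clear hK
    induction hX using Subgroup.closure_induction with
    | mem x hx =>
      rcases hx with ⟨m, h1, h3, rfl⟩ | rfl
      · rcases Nat.mod_two_eq_zero_or_one m with he | ho
        · obtain ⟨i, hi⟩ : ∃ i, m = 2 * i + 2 := ⟨m / 2 - 1, by omega⟩
          rw [tc_even S P hi]
          apply hv.B i (by omega)
          intro hiA
          have := hno i hiA
          omega
        · rw [tc_odd S P ho]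
          exact hv.T _ _ (lo_lt ho) (by omega)
      · exact hv.T _ _ (by omega) (by omega)
    | one => exact one_act ρ v
    | mul a b _ _ ha hb => exact mul_fix ρ ha hb
    | inv a _ ha => exact inv_fix ρ ha
  | succ k ih =>
    intro A hA v hv hk
    -- the free handles
    have hAsub : A ⊆ Finset.range g := fun q hq => Finset.mem_range.mpr (hv.sub q hq)
    have hAcard : (A.filter (fun q => q < h)).card + (A.filter (fun q => h ≤ q)).card = j := by
      rw [← hA, ← Finset.card_filter_add_card_filter_not (s := A) (fun q => q < h)]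
      congr 2
      apply Finset.filter_congr
      intro q _
      exact not_lt.symm
    obtain ⟨F, hF⟩ : ∃ F, F = (Finset.Ico h g).filter (fun e => e ∉ A) := ⟨_, rfl⟩
    have hFc : k + 2 ≤ F.card := by
      have e1 : ((Finset.Ico h g).filter (fun e => e ∈ A)).card + F.card = g - h := by
        rw [hF, Finset.card_filter_add_card_filter_not, Nat.card_Ico]
      have e2 : (Finset.Ico h g).filter (fun e => e ∈ A) = A.filter (fun q => h ≤ q) := by
        ext q
        simp only [Finset.mem_filter, Finset.mem_Ico]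
        constructor
        · rintro ⟨⟨a, b⟩, c⟩; exact ⟨c, a⟩
        · rintro ⟨a, b⟩; exact ⟨⟨b, hv.sub q a⟩, a⟩
      rw [e2] at e1
      omega
    have hFne : F.Nonempty := Finset.card_pos.mp (by omega)
    obtain ⟨y, hy⟩ : ∃ y, y = F.min' hFne := ⟨_, rfl⟩
    have hyF : y ∈ F := by rw [hy]; exact Finset.min'_mem F hFne
    have hyF' := hyF
    rw [hF, Finset.mem_filter, Finset.mem_Ico] at hyF'
    obtain ⟨⟨hhy, hyg⟩, hyA⟩ := hyF'
    have hfree : k + 1 ≤ ((Finset.Ioo y g).filter (fun e => e ∉ A)).card := by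
      have e1 : (F.erase y).card = F.card - 1 := Finset.card_erase_of_mem hyF
      have e2 : F.erase y ⊆ (Finset.Ioo y g).filter (fun e => e ∉ A) := by
        intro q hq
        rw [Finset.mem_erase] at hq
        obtain ⟨hq1, hq2⟩ := hq
        have hle : y ≤ q := by rw [hy]; exact Finset.min'_le F q hq2
        rw [hF, Finset.mem_filter, Finset.mem_Ico] at hq2
        rw [Finset.mem_filter, Finset.mem_Ioo]
        exact ⟨⟨by omega, hq2.1.2⟩, hq2.2⟩
      have := Finset.card_le_card e2
      omega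
    have hCt := Ct_fix S ρ P hhy hyg hM (k + 1) A hA v hv hyA hk hfree
    have hKy := hK y hhy hyg
    have hB : Blk g n (2 * y) (2 * y + 1) := blk_foot hyg
    have hev : (2 * y) % 2 = 0 := by omega
    -- pushes commute with X on v
    have hXx : ∀ x ∈ Ut S (2 * y) (2 * y + 1) h, ρ x (ρ X v) = ρ X (ρ x v) := by
      intro x hx
      have h1 := ((Kr S (2 * y) (2 * y + 1) h).inv_mem hKy).2 x hx
      rw [inv_inv] at h1
      have hxN : x⁻¹ ∈ Nm S (2 * y) (2 * y + 1) h :=
        Ut_Nm (Ut_comm S P hB hev (show 2 * h ≤ 2 * y by omega))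
          ((Ut S (2 * y) (2 * y + 1) h).inv_mem hx)
      have h3 := conj_Ct hxN h1
      have h4 := hCt _ h3
      have e : x * X = X * x * (x⁻¹ * (X⁻¹ * x * X * x⁻¹) * x⁻¹⁻¹) := by group
      rw [← mm, e, mm, h4, mm]
    obtain ⟨D, hD⟩ : ∃ D, D = ρ X v - v := ⟨_, rfl⟩
    have hcomm : ∀ x, Commute X x → ρ x v = v → ρ x D = D := by
      intro x hc hx
      rw [hD, map_sub, hx, com_act ρ hc.symm, hx]
    have hd : ∀ m, 1 ≤ m → m ≤ 2 * h → ρ (dl S (2 * y) (2 * y + 1) m) D = D := by
      intro m h1 h3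
      have h4 := hXx _ (dl_Ut h1 h3)
      rw [hD, map_sub, h4]
      rcases Nat.mod_two_eq_zero_or_one m with he | ho
      · obtain ⟨i, hi⟩ : ∃ i, m = 2 * i + 2 := ⟨m / 2 - 1, by omega⟩
        by_cases hiA : i ∈ A
        · have h5 := dl_slot S ρ P (by rw [hA]; exact hM) hv hiA (show i < y by omega) hyg hyA
          rw [← hi] at h5
          have hw := tr_mem S P ρ (by rw [hA]; exact hM) hv hiA hyA hyg
          have hwc : (mv A i y).card = j := by rw [mv_card hiA hyA, hA]
          have hwf : ((mv A i y).filter (fun q => q < h)).card = k := by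
            have e1 : (mv A i y).filter (fun q => q < h) = (A.filter (fun q => q < h)).erase i := by
              unfold mv
              ext q
              simp only [Finset.mem_filter, Finset.mem_insert, Finset.mem_erase]
              constructor
              · rintro ⟨a | ⟨a, b⟩, c⟩
                · omega
                · exact ⟨a, b, c⟩
              · rintro ⟨a, b, c⟩
                exact ⟨Or.inr ⟨a, b⟩, c⟩
            rw [e1, Finset.card_erase_of_mem (Finset.mem_filter.mpr ⟨hiA, by omega⟩), hk]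
            rfl
          have h6 := ih _ hwc _ hw hwf
          rw [h5, map_sub, h6]
          abel
        · rw [dl_fix_even S ρ P hB (by omega) hi hv.T (hv.B i (by omega) hiA)]
      · rw [dl_fix_odd S ρ P hB (by omega) ho hv.T]
    have hBy : ρ (S.B y) D = D := hcomm _ (Ch_Bout S P h2 hhy hyg hX) (hv.B y hyg hyA)
    have hout : ∀ s t, 2 * h ≤ s → s < t → t ≤ 2 * g + n → ρ (S.T s t) D = D := by
      intro s t h1 h3 h4
      exact hcomm _ (Ch_Tout S P h2 (by omega) h3 h4 (Or.inl h1) hX) (hv.T _ _ h3 h4)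
    have hzero : ∀ t, 2 * h ≤ t → t ≤ 2 * g + n → ρ (S.T 0 t) D = D := by
      intro t h1 h3
      exact hcomm _ (Ch_Tout S P h2 (by omega) (by omega) h3 (Or.inr ⟨rfl, h1⟩) hX)
        (hv.T _ _ (by omega) h3)
    obtain ⟨hFT, hBr⟩ := D_all S P ρ h2 hhy hyg hd hBy hout hzero
    have hKD : KA S ρ (A.filter (fun q => h ≤ q)) D := by
      refine ⟨fun q hq => hv.sub q (Finset.mem_filter.mp hq).1, hFT, ?_, ?_⟩
      · intro r hr hrA
        by_cases hrh : r < h
        · exact hBr r hrh
        · apply hcomm _ (Ch_Bout S P h2 (by omega) hr hX)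
          apply hv.B r hr
          intro hcon
          exact hrA (Finset.mem_filter.mpr ⟨hcon, by omega⟩)
      · intro q hq
        rw [Finset.mem_filter] at hq
        obtain ⟨hqA, hhq⟩ := hq
        have hqg := hv.sub q hqA
        have c1 := Ch_Bout S P h2 hhq hqg hX
        have c2 := Ch_Tout S P h2 (by omega) (show 2 * q < 2 * q + 1 by omega) (by omega)
          (Or.inl (by omega)) hX
        have hL := hv.L q hqA
        have e1 : ρ (S.B q) D = ρ X (ρ (S.B q) v) - ρ (S.B q) v := by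
          rw [hD, map_sub, com_act ρ c1.symm]
        rw [e1, map_sub, com_act ρ c2.symm, hL, map_sub, hD]
        abel
    have hzeroD : D = 0 := by
      apply hM _ _ D hKD
      omega
    rw [hD] at hzeroD
    exact sub_eq_zero.mp hzeroD

/-- (V) for the conjugates of the bounding pair map. -/
theorem fixBP {j h : ℕ} (hM : Mn S ρ j) (h2 : 2 ≤ h) (hg : h + j + 1 ≤ g) {ψ : G}
    (hψ : ψ ∈ Bh S h) {A : Finset ℕ} (hA : A.card = j) {v : V} (hv : KA S ρ A v) :
    ρ (ψ * BP S * ψ⁻¹) v = v := by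
  refine fixC S P ρ hM h2 hg ?_ ?_ _ A hA v hv rfl
  · have h3 := Bh_le_Ch S h hψ
    exact (Ch S h).mul_mem ((Ch S h).mul_mem h3 (BP_Ch S P h2 (by omega))) ((Ch S h).inv_mem h3)
  · intro y h3 h4
    exact conj_Kr S P (blk_foot h4) (by omega) (by omega) h2 hψ

end vfix

end Pool.Agent.LJ
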