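import Pool.Agent.LJ.Form

set_option linter.all false

namespace Pool.Agent.LJ

open Pool.Agent.HG13

variable {g n : ℕ} {G : Type*} [Group G] {V : Type*} [AddCommGroup V] [Module ℂ V]

section tri

variable {S : Tw g n G}

/-- Lantern trick: everything but `T t w` fixes `D`. -/
theorem tri1 (P : PR S) (ρ : G →* Module.End ℂ V) {s t u w : ℕ} {b : G} {D : V}
    (hb : ρ b D = D) (hL : Brd (S.L s t u w) b) (c : Commute (S.T t w) b)
    (e1 : ρ (S.T s w) D = D) (e2 : ρ (S.T s t) D = D) (e3 : ρ (S.T t u) D = D)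
    (e4 : ρ (S.T u w) D = D) (e5 : ρ (S.T s u) D = D) : ρ (S.T t w) D = D := by
  have h1 : ρ (S.L s t u w) D = ρ (S.T t w)⁻¹ D := by
    unfold Tw.L
    simp only [mm, e4, e3, e2, e1, inv_fix ρ e5]
  have h2 := (trick ρ hL c.inv_left hb h1).1
  have h3 := inv_fix ρ h2
  rwa [inv_inv] at h3

/-- Lantern trick: everything but `T s u` fixes `D`. -/
theorem tri2 (P : PR S) (ρ : G →* Module.End ℂ V) {s t u w : ℕ} (h1 : s < t) (h2 : t < u)
    (h3 : u < w) (h4 : w ≤ 2 * g + n) {b : G} {D : V}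
    (hb : ρ b D = D) (hL : Brd (S.L s t u w) b) (c : Commute (S.T s u) b)
    (e1 : ρ (S.T s w) D = D) (e2 : ρ (S.T s t) D = D) (e3 : ρ (S.T t u) D = D)
    (e4 : ρ (S.T u w) D = D) (e5 : ρ (S.T t w) D = D) : ρ (S.T s u) D = D := by
  have c1 : Commute (S.T s w) (S.T s u) :=
    P.TT _ _ _ _ (by omega) (by omega) (by omega) (by omega) (Or.inr ⟨by omega, by omega⟩)
  have c2 : Commute (S.T s t) (S.T s u) :=
    (P.TT _ _ _ _ (by omega) (by omega) (by omega) (by omega) (Or.inr ⟨by omega, by omega⟩)).symm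
  have c3 : Commute (S.T t u) (S.T s u) :=
    (P.TT _ _ _ _ (by omega) (by omega) (by omega) (by omega) (Or.inr ⟨by omega, by omega⟩)).symm
  have c4 : Commute (S.T u w) (S.T s u) :=
    (P.TT _ _ _ _ (by omega) (by omega) (by omega) (by omega) (Or.inl (by omega))).symm
  have k : S.L s t u w * S.T s u =
      (S.T t w)⁻¹ * (S.T s w * S.T s t * S.T t u * S.T u w) := by
    unfold Tw.L
    calc (S.T t w)⁻¹ * (S.T s u)⁻¹ * S.T s w * S.T s t * S.T t u * S.T u w * S.T s u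
        = (S.T t w)⁻¹ * (S.T s u)⁻¹ * ((S.T s w * S.T s t * S.T t u * S.T u w) * S.T s u) := by
          group
      _ = (S.T t w)⁻¹ * (S.T s u)⁻¹ * (S.T s u * (S.T s w * S.T s t * S.T t u * S.T u w)) := by
          rw [(((c1.mul_left c2).mul_left c3).mul_left c4).eq]
      _ = _ := by group
  have h5 : ρ (S.L s t u w) (ρ (S.T s u) D) = D := by
    rw [← mm, k]
    simp only [mm, e4, e3, e2, e1, inv_fix ρ e5]
  have h6 : ρ (S.L s t u w)⁻¹ D = ρ (S.T s u) D := inv_eq ρ h5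
  have h7 : Brd (S.L s t u w)⁻¹ b⁻¹ := by
    have h : S.L s t u w * b * S.L s t u w = b * S.L s t u w * b := hL
    have h' := congrArg (fun x => x⁻¹) h
    simp only [mul_inv_rev] at h'
    show (S.L s t u w)⁻¹ * b⁻¹ * (S.L s t u w)⁻¹ = b⁻¹ * (S.L s t u w)⁻¹ * b⁻¹
    rw [mul_assoc, h', mul_assoc]
  exact (trick ρ h7 c.inv_right (inv_fix ρ hb) h6).1

/-- Lantern trick: everything but `T s w` fixes `D`. -/
theorem tri3 (P : PR S) (ρ : G →* Module.End ℂ V) {s t u w : ℕ} (h1 : s < t) (h2 : t < u)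
    (h3 : u < w) (h4 : w ≤ 2 * g + n) {b : G} {D : V}
    (hb : ρ b D = D) (hL : Brd (S.L s t u w) b) (c : Commute (S.T s w) b)
    (e1 : ρ (S.T s u) D = D) (e2 : ρ (S.T s t) D = D) (e3 : ρ (S.T t u) D = D)
    (e4 : ρ (S.T u w) D = D) (e5 : ρ (S.T t w) D = D) : ρ (S.T s w) D = D := by
  have c1 : Commute (S.T s w) (S.T s u) :=
    P.TT _ _ _ _ (by omega) (by omega) (by omega) (by omega) (Or.inr ⟨by omega, by omega⟩)
  have c2 : Commute (S.T s w) (S.T t w) :=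
    P.TT _ _ _ _ (by omega) (by omega) (by omega) (by omega) (Or.inr ⟨by omega, by omega⟩)
  have h5 : ρ (S.L s t u w) D = ρ (S.T s w) D := by
    unfold Tw.L
    simp only [mm, e4, e3, e2]
    rw [← com_act ρ c1.inv_right, inv_fix ρ e1, ← com_act ρ c2.inv_right, inv_fix ρ e5]
  exact (trick ρ hL c hb h5).1

/-- Lantern trick: everything but `T u w` fixes `D`. -/
theorem tri4 (P : PR S) (ρ : G →* Module.End ℂ V) {s t u w : ℕ} (h1 : s < t) (h2 : t < u)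
    (h3 : u < w) (h4 : w ≤ 2 * g + n) {b : G} {D : V}
    (hb : ρ b D = D) (hL : Brd (S.L s t u w) b) (c : Commute (S.T u w) b)
    (e1 : ρ (S.T s u) D = D) (e2 : ρ (S.T s t) D = D) (e3 : ρ (S.T t u) D = D)
    (e4 : ρ (S.T s w) D = D) (e5 : ρ (S.T t w) D = D) : ρ (S.T u w) D = D := by
  have c1 : Commute (S.T s u) (S.T u w) :=
    P.TT _ _ _ _ (by omega) (by omega) (by omega) (by omega) (Or.inl (by omega))
  have c2 : Commute (S.T t w) (S.T u w) :=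
    P.TT _ _ _ _ (by omega) (by omega) (by omega) (by omega) (Or.inr ⟨by omega, by omega⟩)
  have c3 : Commute (S.T s w) (S.T u w) :=
    P.TT _ _ _ _ (by omega) (by omega) (by omega) (by omega) (Or.inr ⟨by omega, by omega⟩)
  have c4 : Commute (S.T s t) (S.T u w) :=
    P.TT _ _ _ _ (by omega) (by omega) (by omega) (by omega) (Or.inl (by omega))
  have c5 : Commute (S.T t u) (S.T u w) :=
    P.TT _ _ _ _ (by omega) (by omega) (by omega) (by omega) (Or.inl (by omega))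
  have h5 : ρ (S.L s t u w) D = ρ (S.T u w) D := by
    unfold Tw.L
    simp only [mm]
    rw [com_act ρ c5, e3, com_act ρ c4, e2, com_act ρ c3, e4, com_act ρ c1.inv_left,
      inv_fix ρ e1, com_act ρ c2.inv_left, inv_fix ρ e5]
  exact (trick ρ hL c hb h5).1

/-- Lantern trick: everything but `T s t` fixes `D`. -/
theorem tri5 (P : PR S) (ρ : G →* Module.End ℂ V) {s t u w : ℕ} (h1 : s < t) (h2 : t < u)
    (h3 : u < w) (h4 : w ≤ 2 * g + n) {b : G} {D : V}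
    (hb : ρ b D = D) (hL : Brd (S.L s t u w) b) (c : Commute (S.T s t) b)
    (e1 : ρ (S.T s u) D = D) (e2 : ρ (S.T u w) D = D) (e3 : ρ (S.T t u) D = D)
    (e4 : ρ (S.T s w) D = D) (e5 : ρ (S.T t w) D = D) : ρ (S.T s t) D = D := by
  have c1 : Commute (S.T s u) (S.T s t) :=
    P.TT _ _ _ _ (by omega) (by omega) (by omega) (by omega) (Or.inr ⟨by omega, by omega⟩)
  have c2 : Commute (S.T t w) (S.T s t) :=
    (P.TT _ _ _ _ (by omega) (by omega) (by omega) (by omega) (Or.inl (by omega))).symm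
  have c3 : Commute (S.T s w) (S.T s t) :=
    P.TT _ _ _ _ (by omega) (by omega) (by omega) (by omega) (Or.inr ⟨by omega, by omega⟩)
  have h5 : ρ (S.L s t u w) D = ρ (S.T s t) D := by
    unfold Tw.L
    simp only [mm]
    rw [e2, e3, com_act ρ c3, e4, com_act ρ c1.inv_left,
      inv_fix ρ e1, com_act ρ c2.inv_left, inv_fix ρ e5]
  exact (trick ρ hL c hb h5).1

end tri

/-- The formal part of (Z0 a). -/
theorem q_core (ρ : G →* Module.End ℂ V) {B x y L c : G} {v ξ : V} (hBx : Brd x B)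
    (hBy : Brd y B) (hxy : Commute x y) (hLB : Brd L B) (hcB : Commute c B) (hx : ρ x v = v)
    (hy : ρ y v = v) (hL : ρ L v = v) (hc : ρ c v = v) (hξ : ξ = ρ B v - v) (hξB : ρ B ξ = ξ)
    (hE : ρ c (ρ L ξ) = ξ + (ρ x ξ - ξ) - (ρ y ξ - ξ) - (ρ x (ρ y ξ - ξ) - (ρ y ξ - ξ)) - v) :
    ρ x (ρ y ξ - ξ) = ρ y ξ - ξ := by
  have fx := f3 ρ hBx hx (by rw [← hξ]; exact hξB)
  have fy := f3 ρ hBy hy (by rw [← hξ]; exact hξB)
  have fL := f3 ρ hLB hL (by rw [← hξ]; exact hξB)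
  rw [← hξ] at fx fy fL
  have hBv : ρ B v = v + ξ := by rw [hξ]; abel
  have hcξ : ρ c ξ = ξ := by
    rw [hξ, map_sub, com_act ρ hcB, hc]
  obtain ⟨zx, hzx⟩ : ∃ z, z = ρ x ξ - ξ := ⟨_, rfl⟩
  obtain ⟨zy, hzy⟩ : ∃ z, z = ρ y ξ - ξ := ⟨_, rfl⟩
  obtain ⟨zL, hzL⟩ : ∃ z, z = ρ L ξ - ξ := ⟨_, rfl⟩
  obtain ⟨q, hq⟩ : ∃ q, q = ρ x zy - zy := ⟨_, rfl⟩
  rw [← hzx] at fx hE
  rw [← hzy] at fy hE ⊢
  rw [← hzL] at fL
  rw [← hq] at hE
  have hxξ : ρ x ξ = ξ + zx := by rw [hzx]; abel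
  have hyξ : ρ y ξ = ξ + zy := by rw [hzy]; abel
  have hxzy : ρ x zy = zy + q := by rw [hq]; abel
  have hLξ : ρ L ξ = ξ + zL := by rw [hzL]; abel
  -- `y zx = zx + q`
  have hyzx : ρ y zx = zx + q := by
    have h1 := com_act ρ hxy ξ
    rw [hyξ, hxξ, map_add, map_add, hxξ, hyξ, hxzy] at h1
    have h2 : ρ y zx = (ξ + zy + ρ y zx) - (ξ + zy) := by abel
    rw [h2, ← h1]; abel
  -- `x q = q`
  have hxq : ρ x q = q := by
    have h1 := com_act ρ hxy zx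
    rw [hyzx, fx.1, hyzx, map_add, fx.1] at h1
    exact add_left_cancel h1
  -- `B q = q`
  have hczL : ρ c zL = zx - zy - q - v := by
    have : ρ c zL = ρ c (ρ L ξ) - ξ := by rw [hzL, map_sub, hcξ]
    rw [this, hE]; abel
  have hBq : ρ B q = q := by
    have h1 := com_act ρ hcB zL
    rw [fL.2, map_sub, hcξ, hczL] at h1
    simp only [map_sub, fx.2, fy.2, hBv] at h1
    have h2 : ρ B q = zx - ξ - (zy - ξ) - (v + ξ) - (zx - ξ - (zy - ξ) - ρ B q - (v + ξ)) := by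
      abel
    rw [h2, ← h1]; abel
  -- the braid relation on `zy`
  have h1 := brd_act ρ hBx zy
  simp only [map_add, map_sub, hxzy, fy.2, hBq, hxξ, hxq, hξB, fx.2] at h1
  -- h1
  have h2 : q = 0 := by
    have e : zy + q - (ξ + zx) + q - (zy - ξ + q - (ξ + (zx - ξ))) = q := by abel
    rw [← e, h1]; abel
  rw [hxzy, h2, add_zero]

/-- `T s t` crosses `b_l`. -/
def Cr (g n l s t : ℕ) : Prop := s < t ∧ t ≤ 2 * g + n ∧ (s = 2 * l + 1 ∨ t = 2 * l + 1)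

theorem Cr.brd {S : Tw g n G} (P : PR S) {l s t : ℕ} (hl : l < g) (h : Cr g n l s t) :
    Brd (S.T s t) (S.B l) := by
  obtain ⟨h1, h2, rfl | rfl⟩ := h
  · exact P.TBs l t hl h1 h2
  · exact P.TBe l s hl h1

theorem Cr.comm {S : Tw g n G} (P : PR S) {l s t s' t' : ℕ} (h : Cr g n l s t)
    (h' : Cr g n l s' t') : Commute (S.T s t) (S.T s' t') := by
  obtain ⟨h1, h2, h3⟩ := h
  obtain ⟨h1', h2', h3'⟩ := h'
  by_cases k1 : t ≤ s'
  · exact P.TT _ _ _ _ h1 h2 h1' h2' (Or.inl k1)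
  by_cases k2 : t' ≤ s
  · exact (P.TT _ _ _ _ h1' h2' h1 h2 (Or.inl k2)).symm
  by_cases k3 : s ≤ s' ∧ t' ≤ t
  · exact P.TT _ _ _ _ h1 h2 h1' h2' (Or.inr k3)
  · exact (P.TT _ _ _ _ h1' h2' h1 h2 (Or.inr (by omega))).symm

theorem qsym (ρ : G →* Module.End ℂ V) {x y : G} {ξ : V} (h : Commute x y)
    (hq : ρ x (ρ y ξ - ξ) = ρ y ξ - ξ) : ρ y (ρ x ξ - ξ) = ρ x ξ - ξ := by
  rw [map_sub] at hq ⊢
  rw [← com_act ρ h]
  have e : ρ x (ρ y ξ) = (ρ x (ρ y ξ) - ρ x ξ) + ρ x ξ := by abel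
  rw [e, hq]; abel

theorem yinv (ρ : G →* Module.End ℂ V) {x y : G} {ξ v : V} (hxy : Commute x y) (hy : ρ y v = v)
    (hz : ρ y (ρ y ξ - ξ) = ρ y ξ - ξ) :
    ρ y⁻¹ (ξ + (ρ x ξ - ξ) - v) =
      ξ + (ρ x ξ - ξ) - (ρ y ξ - ξ) - (ρ x (ρ y ξ - ξ) - (ρ y ξ - ξ)) - v := by
  obtain ⟨zx, hzx⟩ : ∃ z, z = ρ x ξ - ξ := ⟨_, rfl⟩
  obtain ⟨zy, hzy⟩ : ∃ z, z = ρ y ξ - ξ := ⟨_, rfl⟩
  obtain ⟨q, hq⟩ : ∃ q, q = ρ x zy - zy := ⟨_, rfl⟩
  rw [← hzy] at hz
  rw [← hzx, ← hzy, ← hq]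
  have hxξ : ρ x ξ = ξ + zx := by rw [hzx]; abel
  have hyξ : ρ y ξ = ξ + zy := by rw [hzy]; abel
  have hxzy : ρ x zy = zy + q := by rw [hq]; abel
  have hyzx : ρ y zx = zx + q := by
    have h1 := com_act ρ hxy ξ
    rw [hyξ, hxξ, map_add, map_add, hxξ, hyξ, hxzy] at h1
    have h2 : ρ y zx = (ξ + zy + ρ y zx) - (ξ + zy) := by abel
    rw [h2, ← h1]; abel
  have hyq : ρ y q = q := by
    rw [hq, map_sub, ← com_act ρ hxy, hz]
  apply inv_eq ρ
  simp only [map_add, map_sub, hyξ, hyzx, hz, hyq, hy]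
  abel

section Z0

variable {S : Tw g n G} (P : PR S) (ρ : G →* Module.End ℂ V) {A : Finset ℕ} {v : V}
  (hv : KA S ρ A v) {l : ℕ} (hl : l ∈ A)

include P hv hl

theorem xi_f3 {s t : ℕ} (h : Cr g n l s t) :
    ρ (S.T s t) (ρ (S.T s t) (ρ (S.B l) v - v) - (ρ (S.B l) v - v)) =
      ρ (S.T s t) (ρ (S.B l) v - v) - (ρ (S.B l) v - v) ∧
    ρ (S.B l) (ρ (S.T s t) (ρ (S.B l) v - v) - (ρ (S.B l) v - v)) =
      (ρ (S.T s t) (ρ (S.B l) v - v) - (ρ (S.B l) v - v)) - (ρ (S.B l) v - v) :=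
  f3 ρ (h.brd P (hv.sub l hl)) (hv.T _ _ h.1 h.2.1) (hv.xi S ρ P hl).1

theorem q_a {s t : ℕ} (h : Cr g n l s t) :
    ρ (S.T s t) (ρ (S.T (2 * l) (2 * l + 1)) (ρ (S.B l) v - v) - (ρ (S.B l) v - v)) =
      ρ (S.T (2 * l) (2 * l + 1)) (ρ (S.B l) v - v) - (ρ (S.B l) v - v) := by
  have h1 : ρ (S.T (2 * l) (2 * l + 1)) (ρ (S.B l) v - v) - (ρ (S.B l) v - v) = -v := by
    rw [(hv.xi S ρ P hl).2]; abel
  rw [h1, map_neg, hv.T _ _ h.1 h.2.1]

theorem a_z {s t : ℕ} (h : Cr g n l s t) :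
    ρ (S.T (2 * l) (2 * l + 1)) (ρ (S.T s t) (ρ (S.B l) v - v) - (ρ (S.B l) v - v)) =
      ρ (S.T s t) (ρ (S.B l) v - v) - (ρ (S.B l) v - v) := by
  have ha : Cr g n l (2 * l) (2 * l + 1) := ⟨by omega, by have := hv.sub l hl; omega, Or.inr rfl⟩
  exact qsym ρ (h.comm P ha) (q_a P ρ hv hl h)

theorem q_RR {u w : ℕ} (h1 : 2 * l + 2 < u) (h2 : u < w) (h3 : w ≤ 2 * g + n) :
    ρ (S.T (2 * l + 1) w) (ρ (S.T (2 * l + 1) u) (ρ (S.B l) v - v) - (ρ (S.B l) v - v)) =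
      ρ (S.T (2 * l + 1) u) (ρ (S.B l) v - v) - (ρ (S.B l) v - v) := by
  have hlg := hv.sub l hl
  have hx : Cr g n l (2 * l + 1) w := ⟨by omega, h3, Or.inl rfl⟩
  have hy : Cr g n l (2 * l + 1) u := ⟨by omega, by omega, Or.inl rfl⟩
  have fy := xi_f3 P ρ hv hl hy
  have k := hv.xi S ρ P hl
  have c1 : Commute (S.T (2 * l + 2) w) (S.B l) :=
    P.tb (by omega) h3 hlg (by omega) (by omega)
  have e1 := hv.com S ρ (hv.T u w h2 h3) (P.tb h2 h3 hlg (by omega) (by omega))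
  have e2 := hv.com S ρ (hv.T (2 * l + 2) u h1 (by omega))
    (P.tb h1 (by omega) hlg (by omega) (by omega))
  have hLv : ρ (S.L (2 * l + 1) (2 * l + 2) u w) v = v := by
    unfold Tw.L
    simp only [mm]
    rw [hv.T u w h2 h3, hv.T _ _ h1 (by omega), hv.T _ _ (by omega) (by omega),
      hv.T _ _ (by omega) h3, inv_fix ρ (hv.T _ _ (by omega) (by omega)),
      inv_fix ρ (hv.T _ _ (by omega) h3)]
  refine q_core ρ (L := S.L (2 * l + 1) (2 * l + 2) u w) (c := S.T (2 * l + 2) w)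
    (hx.brd P hlg) (hy.brd P hlg) (hx.comm P hy)
    (P.LB3 l (2 * l + 2) u w hlg (by omega) h1 h2 h3) c1 (hv.T _ _ hx.1 hx.2.1)
    (hv.T _ _ hy.1 hy.2.1) hLv (hv.T _ _ (by omega) h3) rfl k.1 ?_
  unfold Tw.L
  simp only [mm]
  rw [e1, e2, ← P.aa l hlg, k.2, act_inv, ← yinv ρ (hx.comm P hy) (hv.T _ _ hy.1 hy.2.1) fy.1]
  congr 1
  rw [map_sub, hv.T _ _ hx.1 hx.2.1]
  abel

theorem q_LL {s t : ℕ} (h1 : s < t) (h2 : t < 2 * l) :
    ρ (S.T s (2 * l + 1)) (ρ (S.T t (2 * l + 1)) (ρ (S.B l) v - v) - (ρ (S.B l) v - v)) =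
      ρ (S.T t (2 * l + 1)) (ρ (S.B l) v - v) - (ρ (S.B l) v - v) := by
  have hlg := hv.sub l hl
  have hx : Cr g n l s (2 * l + 1) := ⟨by omega, by omega, Or.inr rfl⟩
  have hy : Cr g n l t (2 * l + 1) := ⟨by omega, by omega, Or.inr rfl⟩
  have fy := xi_f3 P ρ hv hl hy
  have k := hv.xi S ρ P hl
  have e1 := hv.com S ρ (hv.T t (2 * l) h2 (by omega))
    (P.tb h2 (by omega) hlg (by omega) (by omega))
  have e2 := hv.com S ρ (hv.T s t h1 (by omega)) (P.tb h1 (by omega) hlg (by omega) (by omega))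
  have e3 := hv.com S ρ (hv.T s (2 * l) (by omega) (by omega))
    (P.tb (by omega) (by omega) hlg (by omega) (by omega))
  have c3 : Commute (S.T s (2 * l + 1)) (S.T s (2 * l)) :=
    P.TT _ _ _ _ (by omega) (by omega) (by omega) (by omega) (Or.inr ⟨by omega, by omega⟩)
  have hLv : ρ (S.L s t (2 * l) (2 * l + 1)) v = v := by
    unfold Tw.L
    simp only [mm]
    rw [hv.T (2 * l) (2 * l + 1) (by omega) (by omega), hv.T t (2 * l) h2 (by omega),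
      hv.T s t h1 (by omega), hv.T _ _ hx.1 hx.2.1,
      inv_fix ρ (hv.T s (2 * l) (by omega) (by omega)), inv_fix ρ (hv.T _ _ hy.1 hy.2.1)]
  refine q_core ρ (L := S.L s t (2 * l) (2 * l + 1)) (c := 1)
    (hx.brd P hlg) (hy.brd P hlg) (hx.comm P hy)
    (P.LB s t (2 * l) l h1 h2 (by omega) hlg) (Commute.one_left _) (hv.T _ _ hx.1 hx.2.1)
    (hv.T _ _ hy.1 hy.2.1) hLv (one_act ρ _) rfl k.1 ?_
  unfold Tw.L
  simp only [mm]
  rw [one_act, k.2, map_sub, e1, hv.T t (2 * l) h2 (by omega), map_sub, e2, hv.T s t h1 (by omega),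
    ← yinv ρ (hx.comm P hy) (hv.T _ _ hy.1 hy.2.1) fy.1]
  congr 1
  apply inv_eq ρ
  have e4 : ρ (S.B l) v - v + (ρ (S.T s (2 * l + 1)) (ρ (S.B l) v - v) - (ρ (S.B l) v - v)) - v =
      ρ (S.T s (2 * l + 1)) (ρ (S.B l) v - v - v) := by
    rw [map_sub (ρ (S.T s (2 * l + 1))) (ρ (S.B l) v - v) v, hv.T _ _ hx.1 hx.2.1]
    abel
  rw [e4, ← com_act ρ c3, map_sub, e3, hv.T s (2 * l) (by omega) (by omega)]

theorem q_RL {s w : ℕ} (h1 : s < 2 * l) (h2 : 2 * l + 2 < w) (h3 : w ≤ 2 * g + n) :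
    ρ (S.T (2 * l + 1) w) (ρ (S.T s (2 * l + 1)) (ρ (S.B l) v - v) - (ρ (S.B l) v - v)) =
      ρ (S.T s (2 * l + 1)) (ρ (S.B l) v - v) - (ρ (S.B l) v - v) := by
  have hlg := hv.sub l hl
  have hx : Cr g n l (2 * l + 1) w := ⟨by omega, h3, Or.inl rfl⟩
  have hy : Cr g n l s (2 * l + 1) := ⟨by omega, by omega, Or.inr rfl⟩
  have fy := xi_f3 P ρ hv hl hy
  have k := hv.xi S ρ P hl
  have ea := a_z P ρ hv hl hx
  have c1 : Commute (S.T (2 * l) w) (S.B l) :=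
    P.tb (by omega) h3 hlg (by omega) (by omega)
  have e1 := hv.com S ρ (hv.T s (2 * l) h1 (by omega))
    (P.tb h1 (by omega) hlg (by omega) (by omega))
  have e2 := hv.com S ρ (hv.T s w (by omega) h3) (P.tb (by omega) h3 hlg (by omega) (by omega))
  have c2 : Commute (S.T s (2 * l)) (S.T (2 * l + 1) w) :=
    P.TT _ _ _ _ (by omega) (by omega) (by omega) h3 (Or.inl (by omega))
  have c3 : Commute (S.T s w) (S.T (2 * l + 1) w) :=
    P.TT _ _ _ _ (by omega) (by omega) (by omega) h3 (Or.inr ⟨by omega, by omega⟩)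
  have hLv : ρ (S.L s (2 * l) (2 * l + 1) w) v = v := by
    unfold Tw.L
    simp only [mm]
    rw [hv.T (2 * l + 1) w (by omega) h3, hv.T (2 * l) (2 * l + 1) (by omega) (by omega),
      hv.T s (2 * l) h1 (by omega), hv.T s w (by omega) h3,
      inv_fix ρ (hv.T _ _ hy.1 hy.2.1), inv_fix ρ (hv.T (2 * l) w (by omega) h3)]
  refine q_core ρ (L := S.L s (2 * l) (2 * l + 1) w) (c := S.T (2 * l) w)
    (hx.brd P hlg) (hy.brd P hlg) (hx.comm P hy)
    (P.LB2 s (2 * l) l w h1 (by omega) (by omega) h3 hlg) c1 (hv.T _ _ hx.1 hx.2.1)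
    (hv.T _ _ hy.1 hy.2.1) hLv (hv.T _ _ (by omega) h3) rfl k.1 ?_
  unfold Tw.L
  simp only [mm]
  rw [act_inv, ← yinv ρ (hx.comm P hy) (hv.T _ _ hy.1 hy.2.1) fy.1]
  congr 1
  obtain ⟨z, hz⟩ : ∃ z, z = ρ (S.T (2 * l + 1) w) (ρ (S.B l) v - v) - (ρ (S.B l) v - v) :=
    ⟨_, rfl⟩
  have hxξ : ρ (S.T (2 * l + 1) w) (ρ (S.B l) v - v) = (ρ (S.B l) v - v) + z := by
    rw [hz]; abel
  have f1 : ρ (S.T s (2 * l)) z = z := by
    rw [hz, map_sub, com_act ρ c2, e1]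
  have f2 : ρ (S.T s w) z = z := by
    rw [hz, map_sub, com_act ρ c3, e2]
  rw [← hz] at ea
  rw [hxξ, map_add, ea, k.2, map_add, map_sub, e1, hv.T s (2 * l) h1 (by omega), f1, map_add,
    map_sub, e2, hv.T s w (by omega) h3, f2]
  abel

/-- (Z0 a) -/
theorem Z0a {s t s' t' : ℕ} (h : Cr g n l s t) (h' : Cr g n l s' t') :
    ρ (S.T s t) (ρ (S.T s' t') (ρ (S.B l) v - v) - (ρ (S.B l) v - v)) =
      ρ (S.T s' t') (ρ (S.B l) v - v) - (ρ (S.B l) v - v) := by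
  have hlg := hv.sub l hl
  -- the twist around one foot
  have ka : ∀ s t, Cr g n l s t → t = s + 1 → S.T s t = S.T (2 * l) (2 * l + 1) := by
    rintro s t ⟨h1, h2, rfl | h3⟩ ht
    · rw [ht]; exact (P.aa l hlg).symm
    · have h4 : s = 2 * l := by omega
      rw [h3, h4]
  by_cases n1 : t' = s' + 1
  · rw [ka s' t' h' n1]
    exact q_a P ρ hv hl h
  by_cases n2 : t = s + 1
  · rw [ka s t h n2]
    exact a_z P ρ hv hl h'
  by_cases n3 : s = s' ∧ t = t'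
  · obtain ⟨rfl, rfl⟩ := n3
    exact (xi_f3 P ρ hv hl h).1
  have hc := h.comm P h'
  obtain ⟨h1, h2, h3⟩ := h
  obtain ⟨h1', h2', h3'⟩ := h'
  rcases h3 with h3 | h3
  · rcases h3' with h3' | h3'
    · subst h3
      subst h3'
      rcases Nat.lt_trichotomy t t' with k | k | k
      · exact qsym ρ hc.symm (q_RR P ρ hv hl (by omega) k h2')
      · exact absurd ⟨rfl, k⟩ n3
      · exact q_RR P ρ hv hl (by omega) k h2
    · subst h3
      subst h3'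
      exact q_RL P ρ hv hl (by omega) (by omega) h2
  · rcases h3' with h3' | h3'
    · subst h3
      subst h3'
      exact qsym ρ hc.symm (q_RL P ρ hv hl (by omega) (by omega) h2')
    · subst h3
      subst h3'
      rcases Nat.lt_trichotomy s s' with k | k | k
      · exact q_LL P ρ hv hl k (by omega)
      · exact absurd ⟨k, rfl⟩ n3
      · exact qsym ρ hc.symm (q_LL P ρ hv hl k (by omega))

/-- (Z0), the part of `B l`. -/
theorem Z0B {s t : ℕ} (h : Cr g n l s t) :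
    ρ (S.B l) (ρ (S.T s t) (ρ (S.B l) v - v) - (ρ (S.B l) v - v) + v) =
      ρ (S.T s t) (ρ (S.B l) v - v) - (ρ (S.B l) v - v) + v := by
  rw [map_add, (xi_f3 P ρ hv hl h).2]
  abel

theorem Z0c {s t s' t' : ℕ} (h : Cr g n l s t) (h' : Cr g n l s' t') :
    ρ (S.T s' t') (ρ (S.T s t) (ρ (S.B l) v - v) - (ρ (S.B l) v - v) + v) =
      ρ (S.T s t) (ρ (S.B l) v - v) - (ρ (S.B l) v - v) + v := by
  rw [map_add, Z0a P ρ hv hl h' h, hv.T _ _ h'.1 h'.2.1]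

theorem Z0n {s t s' t' : ℕ} (h : Cr g n l s t) (h1 : s' < t') (h2 : t' ≤ 2 * g + n)
    (h3 : s' ≠ 2 * l + 1) (h4 : t' ≠ 2 * l + 1)
    (hd : t' ≤ s ∨ t ≤ s' ∨ (s ≤ s' ∧ t' ≤ t) ∨ (s' ≤ s ∧ t ≤ t')) :
    ρ (S.T s' t') (ρ (S.T s t) (ρ (S.B l) v - v) - (ρ (S.B l) v - v) + v) =
      ρ (S.T s t) (ρ (S.B l) v - v) - (ρ (S.B l) v - v) + v := by
  have c : Commute (S.T s' t') (S.T s t) := by
    rcases hd with k | k | k | k
    · exact P.TT _ _ _ _ h1 h2 h.1 h.2.1 (Or.inl k)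
    · exact (P.TT _ _ _ _ h.1 h.2.1 h1 h2 (Or.inl k)).symm
    · exact (P.TT _ _ _ _ h.1 h.2.1 h1 h2 (Or.inr k)).symm
    · exact P.TT _ _ _ _ h1 h2 h.1 h.2.1 (Or.inr k)
  have e := hv.com S ρ (hv.T s' t' h1 h2) (P.tb h1 h2 (hv.sub l hl) h3 h4)
  rw [map_add, map_sub, com_act ρ c, e, hv.T s' t' h1 h2]

/-- (Z0) -/
theorem Z0 {s t : ℕ} (h : Cr g n l s t) {s' t' : ℕ} (h1 : s' < t') (h2 : t' ≤ 2 * g + n) :
    ρ (S.T s' t') (ρ (S.T s t) (ρ (S.B l) v - v) - (ρ (S.B l) v - v) + v) =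
      ρ (S.T s t) (ρ (S.B l) v - v) - (ρ (S.B l) v - v) + v := by
  have hlg := hv.sub l hl
  by_cases n1 : s' = 2 * l + 1 ∨ t' = 2 * l + 1
  · exact Z0c P ρ hv hl h ⟨h1, h2, n1⟩
  by_cases n2 : t' ≤ s ∨ t ≤ s' ∨ (s ≤ s' ∧ t' ≤ t) ∨ (s' ≤ s ∧ t ≤ t')
  · exact Z0n P ρ hv hl h h1 h2 (fun k => n1 (Or.inl k)) (fun k => n1 (Or.inr k)) n2
  have hB := Z0B P ρ hv hl h
  have hh := h
  obtain ⟨k1, k2, rfl | rfl⟩ := h
  · by_cases n3 : 2 * l + 1 < s'
    · exact tri1 P ρ (s := 2 * l + 1) (t := s') (u := t) (w := t') hB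
        (P.LB3 l s' t t' hlg n3 (by omega) (by omega) h2)
        (P.tb h1 h2 hlg (by omega) (by omega))
        (Z0c P ρ hv hl hh ⟨by omega, h2, Or.inl rfl⟩)
        (Z0c P ρ hv hl hh ⟨by omega, by omega, Or.inl rfl⟩)
        (Z0n P ρ hv hl hh (by omega) (by omega) (by omega) (by omega) (by omega))
        (Z0n P ρ hv hl hh (by omega) (by omega) (by omega) (by omega) (by omega))
        (Z0c P ρ hv hl hh hh)
    · exact tri2 P ρ (s := s') (t := 2 * l + 1) (u := t') (w := t) (by omega) (by omega) (by omega)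
        k2 hB (P.LB1 s' l t' t (by omega) (by omega) (by omega) k2 hlg)
        (P.tb h1 h2 hlg (by omega) (by omega))
        (Z0n P ρ hv hl hh (by omega) (by omega) (by omega) (by omega) (by omega))
        (Z0c P ρ hv hl hh ⟨by omega, by omega, Or.inr rfl⟩)
        (Z0c P ρ hv hl hh ⟨by omega, by omega, Or.inl rfl⟩)
        (Z0n P ρ hv hl hh (by omega) (by omega) (by omega) (by omega) (by omega))
        (Z0c P ρ hv hl hh hh)
  · by_cases n3 : s' < s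
    · exact tri2 P ρ (s := s') (t := s) (u := t') (w := 2 * l + 1) (by omega) (by omega) (by omega)
        k2 hB (P.LB s' s t' l (by omega) (by omega) (by omega) hlg)
        (P.tb h1 h2 hlg (by omega) (by omega))
        (Z0c P ρ hv hl hh ⟨by omega, by omega, Or.inr rfl⟩)
        (Z0n P ρ hv hl hh (by omega) (by omega) (by omega) (by omega) (by omega))
        (Z0n P ρ hv hl hh (by omega) (by omega) (by omega) (by omega) (by omega))
        (Z0c P ρ hv hl hh ⟨by omega, by omega, Or.inr rfl⟩)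
        (Z0c P ρ hv hl hh hh)
    · exact tri1 P ρ (s := s) (t := s') (u := 2 * l + 1) (w := t') hB
        (P.LB2 s s' l t' (by omega) (by omega) (by omega) h2 hlg)
        (P.tb h1 h2 hlg (by omega) (by omega))
        (Z0n P ρ hv hl hh (by omega) (by omega) (by omega) (by omega) (by omega))
        (Z0n P ρ hv hl hh (by omega) (by omega) (by omega) (by omega) (by omega))
        (Z0c P ρ hv hl hh ⟨by omega, by omega, Or.inr rfl⟩)
        (Z0c P ρ hv hl hh ⟨by omega, by omega, Or.inl rfl⟩)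
        (Z0c P ρ hv hl hh hh)

end Z0

end Pool.Agent.LJ
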